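import Pool.Agent.Lib.H16X.D
import Pool.Agent.Lib.Emb.NT1

/-!
# H16X: Mertens, upper bound for the inverse product
-/

set_option linter.unusedVariables false

namespace Pool.Agent.Lib.H16X

open Finset Pool.Agent.Lib.Sieve

private theorem M1_fac {p : ℕ} (hp : p.Prime) : 1 ≤ (1 - 1 / (p : ℝ))⁻¹ := by
  have h1 : (2 : ℝ) ≤ p := by exact_mod_cast hp.two_le
  have h2 : 1 / (p : ℝ) ≤ 1 / 2 := one_div_le_one_div_of_le (by norm_num) h1
  have h3 : 0 < 1 / (p : ℝ) := by positivity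
  exact (one_le_inv₀ (by linarith)).2 (by linarith)

/-- Upper bound in Mertens' theorem: `∏_{p ≤ z} (1 - 1/p)⁻¹ ≤ C log z`.

Proof. In the library: `Pool.Agent.Lib.Emb.NT1`, `mertens_upper` (used in `Lib/H2D/NTb.lean`, `hh_inv_le`: almost the same
statement, for `Nat.primesBelow`), or `Lib/H59C/MER0.lean` (`mertens`, sums of `1/p`), `Lib/H89S/N5.lean`. -/
theorem M1 : ∃ C : ℝ, 1 ≤ C ∧ ∀ z : ℕ, 2 ≤ z → (VV (primesUpTo z))⁻¹ ≤ C * Real.log z := by
  obtain ⟨C, hC, h⟩ := Emb.mertens_upper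
  refine ⟨max 1 (C * 4), le_max_left _ _, fun y hy => ?_⟩
  have hy2 : (2 : ℝ) ≤ y := by exact_mod_cast hy
  have hl : 1 / 2 ≤ Real.log y := by
    have h2 := Real.log_le_log (by norm_num) hy2
    have h3 := Real.log_two_gt_d9
    linarith
  obtain ⟨n, h1, h2⟩ := exists_nat_pow_near (x := 2 * Real.log y) (y := 2) (by linarith) (by norm_num)
  have h3 : (VV (primesUpTo y))⁻¹ = ∏ p ∈ primesUpTo y, (1 - 1 / (p : ℝ))⁻¹ := by
    unfold VV
    rw [← Finset.prod_inv_distrib]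
  have h4 : primesUpTo y ⊆ Emb.pr (n + 1) := by
    intro p hp
    rw [mem_primesUpTo] at hp
    rw [Emb.mem_pr]
    refine ⟨hp.1, ?_⟩
    have h5 : (0 : ℝ) < p := by exact_mod_cast hp.1.pos
    have h6 : Real.log p ≤ Real.log y := Real.log_le_log h5 (by exact_mod_cast hp.2)
    linarith
  rw [h3]
  calc ∏ p ∈ primesUpTo y, (1 - 1 / (p : ℝ))⁻¹ ≤ ∏ p ∈ Emb.pr (n + 1), (1 - 1 / (p : ℝ))⁻¹ := by
        refine Finset.prod_le_prod_of_subset_of_one_le h4 ?_ ?_
        · intro p hp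
          exact zero_le_one.trans (M1_fac (mem_primesUpTo.1 hp).1)
        · intro p hp _
          exact M1_fac (Emb.mem_pr.1 hp).1
    _ ≤ C * 2 ^ (n + 1) := h (n + 1)
    _ = C * 2 * 2 ^ n := by ring
    _ ≤ C * 2 * (2 * Real.log y) := mul_le_mul_of_nonneg_left h1 (by positivity)
    _ = C * 4 * Real.log y := by ring
    _ ≤ max 1 (C * 4) * Real.log y := mul_le_mul_of_nonneg_right (le_max_right _ _) (by linarith)

end Pool.Agent.Lib.H16X
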