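import Pool.Agent.Lib.H16X.D

/-!
# H16X: existence of the sieve weights
-/

set_option linter.unusedVariables false

namespace Pool.Agent.Lib.H16X

open Finset Pool.Agent.Lib.Sieve

theorem A1_union (A B : Finset ℕ) (h : Disjoint A B) (F : Finset ℕ → ℝ) :
    ∑ T ∈ (A ∪ B).powerset, F T = ∑ D ∈ A.powerset, ∑ E ∈ B.powerset, F (D ∪ E) := by
  rw [← Finset.sum_product']
  symm
  refine Finset.sum_nbij' (fun x => x.1 ∪ x.2) (fun T => (T ∩ A, T ∩ B)) ?_ ?_ ?_ ?_ ?_
  · intro x hx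
    rw [Finset.mem_product, Finset.mem_powerset, Finset.mem_powerset] at hx
    rw [Finset.mem_powerset]
    exact Finset.union_subset_union hx.1 hx.2
  · intro T _
    rw [Finset.mem_product, Finset.mem_powerset, Finset.mem_powerset]
    exact ⟨Finset.inter_subset_right, Finset.inter_subset_right⟩
  · rintro ⟨D, E⟩ hx
    rw [Finset.mem_product, Finset.mem_powerset, Finset.mem_powerset] at hx
    obtain ⟨h1, h2⟩ := hx
    simp only at h1 h2 ⊢
    rw [Finset.disjoint_left] at h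
    refine Prod.ext ?_ ?_
    · ext p
      simp only [Finset.mem_inter, Finset.mem_union]
      constructor
      · rintro ⟨h3 | h3, h4⟩
        · exact h3
        · exact absurd (h2 h3) (h h4)
      · intro h3
        exact ⟨Or.inl h3, h1 h3⟩
    · ext p
      simp only [Finset.mem_inter, Finset.mem_union]
      constructor
      · rintro ⟨h3 | h3, h4⟩
        · exact absurd h4 (h (h1 h3))
        · exact h3
      · intro h3
        exact ⟨Or.inr h3, h2 h3⟩
  · intro T hT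
    rw [Finset.mem_powerset] at hT
    simp only
    rw [← Finset.inter_union_distrib_left]
    exact Finset.inter_eq_left.2 hT
  · intro x _
    rfl

theorem A1_prod (c : ℕ → Finset ℕ → ℝ) (Q : ℕ → Finset ℕ) (f : ℕ → ℝ) (J : Finset ℕ)
    (hd : ∀ i ∈ J, ∀ j ∈ J, i ≠ j → Disjoint (Q i) (Q j)) :
    ∑ E ∈ (J.biUnion Q).powerset, (∏ j ∈ J, c j (E ∩ Q j)) * ∏ p ∈ E, f p =
      ∏ j ∈ J, poly (c j) f (Q j) := by
  induction J using Finset.induction_on with
  | empty => simp
  | insert a J ha ih =>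
    have ih' := ih fun i hi j hj hij =>
      hd i (Finset.mem_insert_of_mem hi) j (Finset.mem_insert_of_mem hj) hij
    have hdj : ∀ j ∈ J, Disjoint (Q a) (Q j) := fun j hj =>
      hd a (Finset.mem_insert_self a J) j (Finset.mem_insert_of_mem hj) fun h => ha (h ▸ hj)
    have hdd : Disjoint (Q a) (J.biUnion Q) := by
      rw [Finset.disjoint_biUnion_right]
      exact hdj
    rw [Finset.biUnion_insert, A1_union _ _ hdd, Finset.prod_insert ha, ← ih']
    unfold poly
    rw [Finset.sum_mul_sum]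
    refine Finset.sum_congr rfl fun D hD => Finset.sum_congr rfl fun E hE => ?_
    rw [Finset.mem_powerset] at hD hE
    have hDE : Disjoint D E := Finset.disjoint_of_subset_left hD (Finset.disjoint_of_subset_right hE hdd)
    rw [Finset.prod_insert ha, Finset.prod_union hDE]
    have e1 : (D ∪ E) ∩ Q a = D := by
      rw [Finset.union_inter_distrib_right, Finset.inter_eq_left.2 hD]
      have : E ∩ Q a = ∅ :=
        Finset.disjoint_iff_inter_eq_empty.1 (Finset.disjoint_of_subset_left hE hdd.symm)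
      rw [this, Finset.union_empty]
    have e2 : ∏ j ∈ J, c j ((D ∪ E) ∩ Q j) = ∏ j ∈ J, c j (E ∩ Q j) := by
      refine Finset.prod_congr rfl fun j hj => ?_
      rw [Finset.union_inter_distrib_right]
      have : D ∩ Q j = ∅ :=
        Finset.disjoint_iff_inter_eq_empty.1 (Finset.disjoint_of_subset_left hD (hdj j hj))
      rw [this, Finset.empty_union]
    rw [e1, e2]
    ring

theorem A1_blocks (z : ℕ) : (Finset.range (z + 1)).biUnion (blockSet 6 z) = sprimes 6 z := by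
  ext p
  rw [Finset.mem_biUnion]
  constructor
  · rintro ⟨j, _, hp⟩
    exact mem_sprimes.2 (mem_blockSet.1 hp).1
  · intro hp
    exact ⟨blk z p, Finset.mem_range.2 (Nat.lt_succ_of_le (blk_le z p)),
      mem_blockSet.2 ⟨mem_sprimes.1 hp, rfl⟩⟩

theorem A1_disj (z : ℕ) : ∀ i ∈ Finset.range (z + 1), ∀ j ∈ Finset.range (z + 1), i ≠ j →
    Disjoint (blockSet 6 z i) (blockSet 6 z j) := by
  intro i _ j _ hij
  rw [Finset.disjoint_left]
  intro p hp hp'
  exact hij ((mem_blockSet.mp hp).2.symm.trans (mem_blockSet.mp hp').2)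

/-- The weights. -/
noncomputable def A1_lam (z : ℕ) (E : Finset ℕ) : ℝ :=
  if E ⊆ sprimes 6 z then ∏ j ∈ Finset.range (z + 1), cT (bj 2 j) (E ∩ blockSet 6 z j) else 0

theorem A1_sum (z : ℕ) (f : ℕ → ℝ) :
    ∑ E ∈ (sprimes 6 z).powerset, A1_lam z E * ∏ p ∈ E, f p =
      ∏ j ∈ Finset.range (z + 1), poly (cT (bj 2 j)) f (blockSet 6 z j) := by
  rw [← A1_prod (fun j => cT (bj 2 j)) (blockSet 6 z) f (Finset.range (z + 1)) (A1_disj z), A1_blocks]
  refine Finset.sum_congr rfl fun E hE => ?_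
  rw [Finset.mem_powerset] at hE
  unfold A1_lam
  rw [if_pos hE]

theorem A1_cT_abs (b : ℕ) (D : Finset ℕ) : |cT b D| ≤ 1 := by
  unfold cT
  split_ifs
  · rw [abs_pow, abs_neg, abs_one, one_pow]
  · rw [abs_zero]
    exact zero_le_one

theorem A1_blockE (z : ℕ) (g : ℕ → ℝ) (hg : ∀ p ∈ sprimes 6 z, 0 ≤ g p ∧ g p ≤ 2 / (p : ℝ)) (j : ℕ) :
    poly (cE (bj 2 j + 1)) g (blockSet 6 z j) ≤ epsj 2 j * ∏ p ∈ blockSet 6 z j, (1 - g p) := by
  set Q := blockSet 6 z j with hQ
  have hmem : ∀ p ∈ Q, p ∈ sprimes 6 z ∧ (6 : ℝ) < p := fun p hp => by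
    have h := mem_blockSet.mp hp
    exact ⟨mem_sprimes.2 h.1, by exact_mod_cast h.1.2.1⟩
  have hg0 : ∀ p ∈ Q, 0 ≤ g p := fun p hp => (hg p (hmem p hp).1).1
  have hg1 : ∀ p ∈ Q, g p ≤ 1 / 2 := fun p hp => by
    have h1 := (hg p (hmem p hp).1).2
    have h2 := (hmem p hp).2
    have h3 : 2 / (p : ℝ) ≤ 1 / 2 := by
      rw [div_le_div_iff₀ (by linarith) (by norm_num)]
      linarith
    linarith
  have hsum : ∑ p ∈ Q, g p ≤ 12 := by
    calc ∑ p ∈ Q, g p ≤ ∑ p ∈ Q, (2 : ℝ) * (1 / p) :=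
          Finset.sum_le_sum fun p hp => by
            have h1 := (hg p (hmem p hp).1).2
            rw [mul_one_div]
            exact h1
      _ = 2 * ∑ p ∈ Q, (1 : ℝ) / p := by rw [Finset.mul_sum]
      _ ≤ 2 * 6 := mul_le_mul_of_nonneg_left (block_sum_inv _ _ _) (by norm_num)
      _ = 12 := by norm_num
  have h1 := rankinE hg0 (bj 2 j + 1) (l := 2) (by norm_num)
  have h2 : ∏ p ∈ Q, (1 + 2 * g p) ≤ Real.exp (∑ p ∈ Q, 2 * g p) :=
    prod_one_add_le fun p hp => by
      have := hg0 p hp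
      linarith
  rw [← Finset.mul_sum] at h2
  have h3 : Real.exp (2 * ∑ p ∈ Q, g p) ≤ Real.exp 24 :=
    Real.exp_le_exp.mpr (by linarith)
  have h4 : Real.exp (-24) ≤ ∏ p ∈ Q, (1 - g p) :=
    (Real.exp_le_exp.mpr (by linarith)).trans (prod_one_sub_ge hg0 hg1)
  have h5 : (0 : ℝ) < 2 ^ (bj 2 j + 1) := by positivity
  have h6 : poly (cE (bj 2 j + 1)) g Q ≤ Real.exp 24 / 2 ^ (bj 2 j + 1) := by
    rw [le_div_iff₀ h5]
    linarith
  refine h6.trans ?_
  unfold epsj
  have h7 : Real.exp 24 = Real.exp (24 * ((2 : ℕ) : ℝ)) * Real.exp (-24) := by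
    rw [← Real.exp_add]
    congr 1
    push_cast
    norm_num
  rw [h7]
  have h8 : 0 ≤ Real.exp (24 * ((2 : ℕ) : ℝ)) / 2 ^ (bj 2 j + 1) := by positivity
  calc Real.exp (24 * ((2 : ℕ) : ℝ)) * Real.exp (-24) / 2 ^ (bj 2 j + 1)
      = Real.exp (24 * ((2 : ℕ) : ℝ)) / 2 ^ (bj 2 j + 1) * Real.exp (-24) := by ring
    _ ≤ Real.exp (24 * ((2 : ℕ) : ℝ)) / 2 ^ (bj 2 j + 1) * ∏ p ∈ Q, (1 - g p) :=
        mul_le_mul_of_nonneg_left h4 h8

theorem A1_PP (z : ℕ) (hz : 2 ≤ z) (E : Finset ℕ) (hE : E ⊆ sprimes 6 z)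
    (hc : ∀ j ∈ Finset.range (z + 1), (E ∩ blockSet 6 z j).card ≤ bj 2 j) : PP E ≤ z ^ 200 := by
  have hz' : (2 : ℝ) ≤ z := by exact_mod_cast hz
  have hlogz : 0 ≤ Real.log z := Real.log_nonneg (by linarith)
  have hp0 : ∀ p ∈ E, (0 : ℝ) < p := fun p hp => by
    exact_mod_cast (mem_sprimes.1 (hE hp)).1.pos
  have hlog : Real.log ((PP E : ℕ) : ℝ) = ∑ p ∈ E, Real.log p := by
    unfold PP
    rw [Nat.cast_prod, Real.log_prod fun p hp => (hp0 p hp).ne']
  have hfib : ∑ j ∈ Finset.range (z + 1), ∑ p ∈ E.filter (fun p => blk z p = j), Real.log (p : ℝ) =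
      ∑ p ∈ E, Real.log (p : ℝ) :=
    Finset.sum_fiberwise_of_maps_to (fun p _ => Finset.mem_range.mpr (Nat.lt_succ_of_le (blk_le z p))) _
  have hblk : ∀ j ∈ Finset.range (z + 1), ∑ p ∈ E.filter (fun p => blk z p = j), Real.log (p : ℝ) ≤
      (98 + 2 * (j : ℝ)) / 2 ^ j * Real.log z := by
    intro j hj
    have h1 : ∀ p ∈ E.filter (fun p => blk z p = j), Real.log (p : ℝ) ≤ Real.log z / 2 ^ j := by
      intro p hp
      rw [Finset.mem_filter] at hp
      have h2 := mem_sprimes.1 (hE hp.1)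
      have h3 := (blk_spec h2.1 h2.2.2).1
      rw [hp.2] at h3
      have h4 : Real.log ((p : ℝ) ^ (2 ^ j)) ≤ Real.log z := by
        apply Real.log_le_log (pow_pos (hp0 p hp.1) _)
        exact_mod_cast h3
      rw [Real.log_pow] at h4
      push_cast at h4
      rw [le_div_iff₀ (by positivity)]
      linarith
    have h5 : E.filter (fun p => blk z p = j) = E ∩ blockSet 6 z j := by
      ext p
      rw [Finset.mem_filter, Finset.mem_inter, mem_blockSet]
      constructor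
      · rintro ⟨h6, h7⟩
        exact ⟨h6, mem_sprimes.1 (hE h6), h7⟩
      · rintro ⟨h6, _, h7⟩
        exact ⟨h6, h7⟩
    have h6 : ((E.filter (fun p => blk z p = j)).card : ℝ) ≤ 98 + 2 * (j : ℝ) := by
      rw [h5]
      have := hc j hj
      have e : ((bj 2 j : ℕ) : ℝ) = 98 + 2 * (j : ℝ) := by
        unfold bj
        push_cast
        ring
      rw [← e]
      exact_mod_cast this
    calc ∑ p ∈ E.filter (fun p => blk z p = j), Real.log (p : ℝ)
        ≤ ∑ _p ∈ E.filter (fun p => blk z p = j), Real.log z / 2 ^ j := Finset.sum_le_sum h1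
      _ = ((E.filter (fun p => blk z p = j)).card : ℝ) * (Real.log z / 2 ^ j) := by
          rw [Finset.sum_const, nsmul_eq_mul]
      _ ≤ (98 + 2 * (j : ℝ)) * (Real.log z / 2 ^ j) :=
          mul_le_mul_of_nonneg_right h6 (by positivity)
      _ = (98 + 2 * (j : ℝ)) / 2 ^ j * Real.log z := by ring
  have h1 : Real.log ((PP E : ℕ) : ℝ) ≤ 200 * Real.log z := by
    rw [hlog, ← hfib]
    refine (Finset.sum_le_sum hblk).trans ?_
    rw [← Finset.sum_mul]
    have := sum_aux 98 (by norm_num) (z + 1)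
    apply mul_le_mul_of_nonneg_right _ hlogz
    linarith
  have h2 : ((PP E : ℕ) : ℝ) ≤ (z : ℝ) ^ 200 := by
    have hPP : (0 : ℝ) < ((PP E : ℕ) : ℝ) := by
      unfold PP
      rw [Nat.cast_prod]
      exact Finset.prod_pos hp0
    rw [← Real.log_le_log_iff hPP (by positivity), Real.log_pow]
    push_cast
    exact h1
  exact_mod_cast h2

/-- Existence of the sieve weights (Brun-Hooley), as divisor sums.

Proof. `K = 200`. Let `P = sprimes 6 z`, `Q_j = blockSet 6 z j` (`Lib/Sieve/Fundamental`, with `k = 2`, `w = 6 = 2k+2`),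
`b_j = bj 2 j = 98 + 2 j` (even). Put `lam E = ∏_{j ≤ z} cT (b_j) (E ∩ Q_j)` if `E ⊆ P` and `0` otherwise. Then
`Σ_{E ⊆ P} lam E ∏_{p ∈ E} f p = ∏_j poly (cT b_j) f Q_j` (the `Q_j` partition `P`: `Finset.prod_sum`-type identity, by
induction on `j`, cf. `Sieve.rep`). `maj`: `Sieve.le_polyT_of_even` on every block. `main`: on every block
`poly (cT b_j) g Q_j ≤ ∏ (1 - g p) + poly (cE (b_j + 1)) g Q_j ≤ (1 + epsj 2 j) ∏ (1 - g p)` (`Sieve.polyT_le_of_even`
and the proof of `Sieve.block_E`, which only uses `0 ≤ g p ≤ 2/p`, `g p ≤ 1/2` and `block_sum_inv`), `Σ_j epsj ≤ 1/2`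
(`sum_epsj`), so the product is `≤ e^(1/2) ∏ (1 - g p)` (as at the end of `Sieve.brun_hooley`). `supp`: if `lam E ≠ 0` then
`|E ∩ Q_j| ≤ b_j` and all `p ∈ Q_j` satisfy `p^(2^j) ≤ z` (`blk_spec`), so `log PP E ≤ Σ_j (98 + 2j) 2^(-j) log z ≤ 200 log z`
(`Sieve.sum_aux`). `lam ∅ = 1`. -/
theorem A1 : ∃ K : ℕ, ∀ z : ℕ, 2 ≤ z → ∃ lam : Finset ℕ → ℝ, IsLam K z lam := by
  refine ⟨200, fun z hz => ⟨A1_lam z, ?_, ?_, ?_, ?_, ?_⟩⟩
  · intro E
    unfold A1_lam
    split_ifs
    · rw [Finset.abs_prod]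
      exact Finset.prod_le_one (fun j _ => abs_nonneg _) fun j _ => A1_cT_abs _ _
    · rw [abs_zero]
      exact zero_le_one
  · unfold A1_lam
    rw [if_pos (Finset.empty_subset _)]
    refine Finset.prod_eq_one fun j _ => ?_
    simp [cT]
  · intro E hE
    unfold A1_lam at hE
    split_ifs at hE with h
    · refine ⟨h, A1_PP z hz E h fun j hj => ?_⟩
      have h1 := Finset.prod_ne_zero_iff.1 hE j hj
      by_contra h2
      apply h1
      unfold cT
      rw [if_neg h2]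
    · exact absurd rfl hE
  · intro f hf
    rw [A1_sum, ← prod_blocks]
    refine Finset.prod_le_prod (fun j _ => Finset.prod_nonneg fun p _ => by linarith [(hf p).2]) fun j _ => ?_
    exact le_polyT_of_even (fun p _ => (hf p).1) (fun p _ => (hf p).2) (bj_even 2 j)
  · intro g hg
    rw [A1_sum, ← prod_blocks]
    have hmem : ∀ j, ∀ p ∈ blockSet 6 z j, 0 ≤ g p ∧ g p ≤ 1 := fun j p hp => by
      have h := mem_blockSet.mp hp
      have h1 := hg p (mem_sprimes.2 h.1)
      have h2 : (6 : ℝ) < p := by exact_mod_cast h.1.2.1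
      refine ⟨h1.1, h1.2.trans ?_⟩
      rw [div_le_one (by linarith)]
      linarith
    have hVnn : ∀ j ∈ Finset.range (z + 1), 0 ≤ ∏ p ∈ blockSet 6 z j, (1 - g p) := fun j _ =>
      Finset.prod_nonneg fun p hp => by linarith [(hmem j p hp).2]
    have hVT : ∀ j ∈ Finset.range (z + 1), ∏ p ∈ blockSet 6 z j, (1 - g p) ≤
        poly (cT (bj 2 j)) g (blockSet 6 z j) := fun j _ =>
      le_polyT_of_even (fun p hp => (hmem j p hp).1) (fun p hp => (hmem j p hp).2) (bj_even 2 j)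
    have hTV : ∀ j ∈ Finset.range (z + 1), poly (cT (bj 2 j)) g (blockSet 6 z j) ≤
        (1 + epsj 2 j) * ∏ p ∈ blockSet 6 z j, (1 - g p) := fun j _ => by
      have h1 := polyT_le_of_even (fun p hp => (hmem j p hp).1) (fun p hp => (hmem j p hp).2) (bj_even 2 j)
      have h2 := A1_blockE z g hg j
      linarith
    have h3 := Finset.prod_le_prod (fun j hj => (hVnn j hj).trans (hVT j hj)) hTV
    rw [Finset.prod_mul_distrib] at h3
    have h4 : ∏ j ∈ Finset.range (z + 1), (1 + epsj 2 j) ≤ Real.exp (∑ j ∈ Finset.range (z + 1), epsj 2 j) :=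
      prod_one_add_le fun j _ => epsj_nonneg 2 j
    have h5 : Real.exp (∑ j ∈ Finset.range (z + 1), epsj 2 j) ≤ Real.exp (1 / 2) :=
      Real.exp_le_exp.mpr (sum_epsj 2 (z + 1))
    have h6 : Real.exp (1 / 2) ≤ 2 := by
      have h7 : Real.exp (1 / 2) ^ 2 = Real.exp 1 := by
        rw [← Real.exp_nat_mul]
        norm_num
      have h8 := Real.exp_one_lt_d9
      have h9 : 0 < Real.exp (1 / 2) := Real.exp_pos _
      nlinarith
    have h10 : 0 ≤ ∏ j ∈ Finset.range (z + 1), ∏ p ∈ blockSet 6 z j, (1 - g p) := Finset.prod_nonneg hVnn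
    exact h3.trans (mul_le_mul_of_nonneg_right (by linarith) h10)

end Pool.Agent.Lib.H16X
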