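import Pool.Agent.Lib.H16X.D

/-!
# H16X: mean value of the sieve weight
-/

set_option linter.unusedVariables false

namespace Pool.Agent.Lib.H16X

open Finset Pool.Agent.Lib.Sieve

private theorem a2_sub (Z z : ℕ) (hZ : 6 ≤ Z) : sprimes Z z ⊆ sprimes 6 z := by
  intro p hp
  rw [mem_sprimes] at hp ⊢
  exact ⟨hp.1, lt_of_le_of_lt hZ hp.2.1, hp.2.2⟩

private theorem a2_sum (Z z : ℕ) (hZ : 6 ≤ Z) (lam : Finset ℕ → ℝ) (g : ℕ → ℝ) :
    ∑ E ∈ (sprimes 6 z).powerset, lam E * ∏ p ∈ E, (if p ∈ sprimes Z z then g p else 0) =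
      ∑ E ∈ (sprimes Z z).powerset, lam E * ∏ p ∈ E, g p := by
  symm
  have h1 : ∑ E ∈ (sprimes Z z).powerset, lam E * ∏ p ∈ E, g p =
      ∑ E ∈ (sprimes Z z).powerset, lam E * ∏ p ∈ E, (if p ∈ sprimes Z z then g p else 0) := by
    refine Finset.sum_congr rfl fun E hE => ?_
    rw [Finset.mem_powerset] at hE
    refine congrArg _ (Finset.prod_congr rfl fun p hp => ?_)
    rw [if_pos (hE hp)]
  rw [h1]
  refine Finset.sum_subset (Finset.powerset_mono.mpr (a2_sub Z z hZ)) fun E _ hE => ?_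
  rw [Finset.mem_powerset, Finset.not_subset] at hE
  obtain ⟨p, hp, hpz⟩ := hE
  rw [Finset.prod_eq_zero hp (if_neg hpz), mul_zero]

private theorem a2_prod (Z z : ℕ) (hZ : 6 ≤ Z) (g : ℕ → ℝ) :
    ∏ p ∈ sprimes 6 z, (1 - (if p ∈ sprimes Z z then g p else 0)) =
      ∏ p ∈ sprimes Z z, (1 - g p) := by
  symm
  have h1 : ∏ p ∈ sprimes Z z, (1 - g p) =
      ∏ p ∈ sprimes Z z, (1 - (if p ∈ sprimes Z z then g p else 0)) :=
    Finset.prod_congr rfl fun p hp => by rw [if_pos hp]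
  rw [h1]
  refine Finset.prod_subset (a2_sub Z z hZ) fun p _ hp => ?_
  rw [if_neg hp, sub_zero]

/-- The mean value of the sieve weight with the primes in `(Z, z]`.

Proof. Apply `maj` to `f p = 1/p` for `p ∈ sprimes Z z` (`f p = 0` for all other `p`) and `main` to the same function (it is
`≤ 2/p`): in the sums over `E ⊆ sprimes 6 z` only the `E ⊆ sprimes Z z` give non-zero terms (`6 ≤ Z`), and the products
become products over `sprimes Z z`. `nA ≥ 0`: `maj` with `f p = dv p a` for `p ∈ sprimes Z z`, `0` otherwise; the left side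
is `≥ 0`. Last part: if no prime of `(Z, z]` divides `a` then only `E = ∅` contributes, `lam ∅ = 1`. -/
theorem A2 (K z Z : ℕ) (lam : Finset ℕ → ℝ) (h : IsLam K z lam) (hZ : 6 ≤ Z) :
    VV (sprimes Z z) ≤ MA lam Z z ∧ MA lam Z z ≤ 2 * VV (sprimes Z z) ∧ 0 < MA lam Z z ∧
    MA lam Z z ≤ 2 ∧ (∀ a : ℤ, 0 ≤ nA lam Z z a) ∧
    (∀ a : ℤ, (∀ p ∈ sprimes Z z, ¬ (p : ℤ) ∣ a) → nA lam Z z a = (MA lam Z z)⁻¹) := by
  have hp1 : ∀ p ∈ sprimes Z z, (1 : ℝ) / (p : ℝ) ≤ 1 / 2 ∧ 0 ≤ (1 : ℝ) / (p : ℝ) := by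
    intro p hp
    have h2 : (2 : ℝ) ≤ p := by exact_mod_cast (mem_sprimes.mp hp).1.two_le
    exact ⟨one_div_le_one_div_of_le (by norm_num) h2, by positivity⟩
  have hVpos : 0 < VV (sprimes Z z) := Finset.prod_pos fun p hp => by
    have := (hp1 p hp).1
    linarith
  have hV1 : VV (sprimes Z z) ≤ 1 := Finset.prod_le_one
    (fun p hp => by have := (hp1 p hp).1; linarith) fun p hp => by have := (hp1 p hp).2; linarith
  have h1 : VV (sprimes Z z) ≤ MA lam Z z := by
    have := h.maj (fun p => if p ∈ sprimes Z z then 1 / (p : ℝ) else 0) (fun p => by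
      show 0 ≤ (if p ∈ sprimes Z z then 1 / (p : ℝ) else 0) ∧ (if p ∈ sprimes Z z then 1 / (p : ℝ) else 0) ≤ 1
      split_ifs with hp
      · have := hp1 p hp
        exact ⟨this.2, by linarith [this.1]⟩
      · exact ⟨le_refl _, zero_le_one⟩)
    rw [a2_prod Z z hZ (fun p => 1 / (p : ℝ)), a2_sum Z z hZ lam (fun p => 1 / (p : ℝ))] at this
    exact this
  have h2 : MA lam Z z ≤ 2 * VV (sprimes Z z) := by
    have := h.main (fun p => if p ∈ sprimes Z z then 1 / (p : ℝ) else 0) (fun p hp => by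
      show 0 ≤ (if p ∈ sprimes Z z then 1 / (p : ℝ) else 0) ∧
        (if p ∈ sprimes Z z then 1 / (p : ℝ) else 0) ≤ 2 / (p : ℝ)
      have hp0 : (0 : ℝ) < p := by exact_mod_cast (mem_sprimes.mp hp).1.pos
      split_ifs with hpz
      · exact ⟨by positivity, div_le_div_of_nonneg_right (by norm_num) hp0.le⟩
      · exact ⟨le_refl _, by positivity⟩)
    rw [a2_prod Z z hZ (fun p => 1 / (p : ℝ)), a2_sum Z z hZ lam (fun p => 1 / (p : ℝ))] at this
    exact this
  have h3 : 0 < MA lam Z z := lt_of_lt_of_le hVpos h1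
  refine ⟨h1, h2, h3, by linarith, ?_, ?_⟩
  · intro a
    unfold nA
    refine div_nonneg ?_ h3.le
    have := h.maj (fun p => if p ∈ sprimes Z z then dv p a else 0) (fun p => by
      show 0 ≤ (if p ∈ sprimes Z z then dv p a else 0) ∧ (if p ∈ sprimes Z z then dv p a else 0) ≤ 1
      unfold dv
      split_ifs <;> norm_num)
    rw [a2_prod Z z hZ (fun p => dv p a), a2_sum Z z hZ lam (fun p => dv p a)] at this
    refine le_trans (Finset.prod_nonneg fun p _ => ?_) this
    unfold dv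
    split_ifs <;> norm_num
  · intro a ha
    unfold nA
    have hsum : ∑ E ∈ (sprimes Z z).powerset, lam E * ∏ p ∈ E, dv p a = 1 := by
      rw [Finset.sum_eq_single ∅]
      · rw [Finset.prod_empty, h.empty, mul_one]
      · intro E hE hne
        obtain ⟨p, hp⟩ := Finset.nonempty_iff_ne_empty.mpr hne
        have hpz : p ∈ sprimes Z z := (Finset.mem_powerset.mp hE) hp
        have h0 : dv p a = 0 := by
          unfold dv
          rw [if_neg (ha p hpz)]
        rw [Finset.prod_eq_zero hp h0, mul_zero]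
      · intro hne
        exact absurd (Finset.empty_mem_powerset _) hne
    rw [hsum, one_div]

end Pool.Agent.Lib.H16X
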