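import Pool.Agent.Lib.H16X.D

/-!
# H16X: counting in a residue class
-/

set_option linter.unusedVariables false

namespace Pool.Agent.Lib.H16X

open Finset Pool.Agent.Lib.Sieve

private theorem a3a_two (p : ℕ) (hp : p.Prime) (h3 : 3 ≤ p) (c u : ℤ) :
    (p : ℤ) ∣ 2 * u - c ↔ (u : ZMod p) = (c : ZMod p) * 2⁻¹ := by
  have : Fact p.Prime := ⟨hp⟩
  have h2 : (2 : ZMod p) ≠ 0 := by
    intro h
    have h' : ((2 : ℕ) : ZMod p) = 0 := by exact_mod_cast h
    have := (ZMod.natCast_eq_zero_iff 2 p).1 h'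
    have := Nat.le_of_dvd (by norm_num) this
    omega
  rw [← ZMod.intCast_zmod_eq_zero_iff_dvd]
  push_cast
  constructor
  · intro h
    have h1 : 2 * (u : ZMod p) = c := sub_eq_zero.1 h
    rw [← h1, mul_comm (2 : ZMod p) (u : ZMod p), mul_assoc, mul_inv_cancel₀ h2, mul_one]
  · intro h
    rw [h, mul_comm (c : ZMod p) 2⁻¹, ← mul_assoc, mul_inv_cancel₀ h2, one_mul, sub_self]

private theorem a3a_crt (Q : ℕ) (b : ℤ) (c : ℕ → ℤ) (U : Finset ℕ) :
    (∀ p ∈ U, p.Prime ∧ 3 ≤ p ∧ ¬ p ∣ Q) →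
    ∃ r : ℤ, ∀ n : ℤ, ((Q : ℤ) ∣ n - b ∧ ∀ p : ℕ, p ∈ U → (p : ℤ) ∣ 2 * n - c p) ↔
      n ≡ r [ZMOD ((Q * ∏ p ∈ U, p : ℕ) : ℤ)] := by
  induction U using Finset.induction_on with
  | empty =>
    intro _
    refine ⟨b, fun n => ?_⟩
    rw [prod_empty, mul_one, Int.modEq_comm, Int.modEq_iff_dvd]
    constructor
    · intro h
      exact h.1
    · intro h
      exact ⟨h, fun p hp => absurd hp (notMem_empty p)⟩
  | insert p U hp ih =>
    intro hU
    obtain ⟨r, hr⟩ := ih fun q hq => hU q (mem_insert_of_mem hq)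
    obtain ⟨hpp, hp3, hpQ⟩ := hU p (mem_insert_self p U)
    have hnd : ¬ p ∣ Q * ∏ q ∈ U, q := by
      intro h
      rcases (Nat.Prime.dvd_mul hpp).1 h with h | h
      · exact hpQ h
      · obtain ⟨q, hq, hpq⟩ := (Prime.dvd_finset_prod_iff hpp.prime _).1 h
        have := (Nat.prime_dvd_prime_iff_eq hpp (hU q (mem_insert_of_mem hq)).1).1 hpq
        exact hp (this ▸ hq)
    obtain ⟨c', hc'⟩ := exists_lift (Q * ∏ q ∈ U, q) p hpp hnd r
    refine ⟨c' ((c p : ZMod p) * 2⁻¹), fun n => ?_⟩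
    rw [prod_insert hp, mul_comm p, ← mul_assoc, hc', ← hr, ← a3a_two p hpp hp3 (c p) n]
    constructor
    · rintro ⟨h1, h2⟩
      exact ⟨⟨h1, fun q hq => h2 q (mem_insert_of_mem hq)⟩, h2 p (mem_insert_self p U)⟩
    · rintro ⟨⟨h1, h2⟩, h3⟩
      refine ⟨h1, fun q hq => ?_⟩
      rcases mem_insert.1 hq with h | h
      · rw [h]
        exact h3
      · exact h2 q h

/-- Counting in a residue class.

Proof. `U` is a set of primes not dividing `Q`; by the Chinese remainder theorem the conditions say that `n` lies in one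
residue class modulo `Q * PP U` (`2` is invertible modulo `p ≥ 3`; so `p ∣ 2n - c p` is one class modulo `p`). The number of
`n ∈ range N` in a class modulo `q` is `N/q` up to an error `≤ 1` (`Nat.count_modEq_card`, or `Sieve.count_prog`,
`Sieve.count_classes'` in `Lib/Sieve/CRT`). -/
theorem A3a (N Q : ℕ) (hQ : 0 < Q) (U : Finset ℕ) (hU : ∀ p ∈ U, p.Prime ∧ 3 ≤ p ∧ ¬ p ∣ Q) (b : ℤ)
    (c : ℕ → ℤ) :
    |(((range N).filter (fun n : ℕ => (Q : ℤ) ∣ (n : ℤ) - b ∧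
      ∀ p : ℕ, p ∈ U → (p : ℤ) ∣ 2 * (n : ℤ) - c p)).card : ℝ)
      - (N : ℝ) / Q * ∏ p ∈ U, 1 / (p : ℝ)| ≤ 1 := by
  obtain ⟨r, hr⟩ := a3a_crt Q b c U hU
  have hq : 0 < Q * ∏ p ∈ U, p := Nat.mul_pos hQ (prod_pos fun p hp => (hU p hp).1.pos)
  have h := count_prog 0 N (Q * ∏ p ∈ U, p) hq r
  have e1 : ∑ u ∈ Finset.Ico (0 : ℤ) (0 + N), (if u ≡ r [ZMOD ((Q * ∏ p ∈ U, p : ℕ) : ℤ)] then (1 : ℝ) else 0)
      = (((range N).filter (fun n : ℕ => (Q : ℤ) ∣ (n : ℤ) - b ∧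
      ∀ p : ℕ, p ∈ U → (p : ℤ) ∣ 2 * (n : ℤ) - c p)).card : ℝ) := by
    rw [card_filter]
    push_cast
    symm
    apply sum_nbij (fun n : ℕ => (n : ℤ))
    · intro n hn
      rw [mem_range] at hn
      rw [mem_Ico]
      constructor
      · positivity
      · rw [zero_add]
        exact_mod_cast hn
    · intro n _ m _ h
      exact Nat.cast_injective (R := ℤ) h
    · intro u hu
      rw [mem_coe, mem_Ico, zero_add] at hu
      refine ⟨u.toNat, ?_, Int.toNat_of_nonneg hu.1⟩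
      rw [mem_coe, mem_range]
      omega
    · intro n _
      have := hr n
      by_cases h1 : (n : ℤ) ≡ r [ZMOD ((Q * ∏ p ∈ U, p : ℕ) : ℤ)]
      · rw [if_pos (this.2 h1)]
        push_cast at h1
        rw [if_pos h1]
      · rw [if_neg (fun h2 => h1 (this.1 h2))]
        push_cast at h1
        rw [if_neg h1]
  have e2 : (N : ℝ) / ((Q * ∏ p ∈ U, p : ℕ) : ℝ) = (N : ℝ) / Q * ∏ p ∈ U, 1 / (p : ℝ) := by
    push_cast
    rw [prod_div_distrib, prod_const_one, div_mul_div_comm, mul_one]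
  rw [e1, e2] at h
  exact h

end Pool.Agent.Lib.H16X
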