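import Pool.Agent.Lib.H16X.D

/-!
# H16X: tuples with a common prime, independent weights
-/

set_option linter.unusedVariables false

namespace Pool.Agent.Lib.H16X

open Finset Pool.Agent.Lib.Sieve

private theorem A3b_all (P : Finset ℕ) :
    ∑ F ∈ P.powerset, ∏ q ∈ F, 1 / (q : ℝ) = ∏ q ∈ P, (1 + 1 / (q : ℝ)) := by
  rw [Finset.prod_one_add]

private theorem A3b_one {P : Finset ℕ} {p : ℕ} (hp : p ∈ P) :
    ∑ F ∈ P.powerset, (if p ∈ F then 1 else 0) * ∏ q ∈ F, 1 / (q : ℝ) ≤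
      1 / (p : ℝ) * ∏ q ∈ P, (1 + 1 / (q : ℝ)) := by
  classical
  have h1 : ∑ F ∈ P.powerset, (if p ∈ F then (1 : ℝ) else 0) * ∏ q ∈ F, 1 / (q : ℝ) =
      ∏ q ∈ P, (1 / (q : ℝ) + if q = p then 0 else 1) := by
    rw [Finset.prod_add]
    refine Finset.sum_congr rfl fun F hF => ?_
    rw [mul_comm]
    refine congrArg _ ?_
    by_cases h : p ∈ F
    · rw [if_pos h]
      symm
      refine Finset.prod_eq_one fun q hq => ?_
      have hne : q ≠ p := by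
        rintro rfl
        exact (Finset.mem_sdiff.mp hq).2 h
      rw [if_neg hne]
    · rw [if_neg h]
      symm
      exact Finset.prod_eq_zero (Finset.mem_sdiff.mpr ⟨hp, h⟩) (if_pos rfl)
  rw [h1, ← Finset.mul_prod_erase P _ hp, ← Finset.mul_prod_erase P (fun q => 1 + 1 / (q : ℝ)) hp]
  have h2 : ∏ q ∈ P.erase p, (1 / (q : ℝ) + if q = p then 0 else 1) =
      ∏ q ∈ P.erase p, (1 + 1 / (q : ℝ)) := by
    refine Finset.prod_congr rfl fun q hq => ?_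
    rw [if_neg (Finset.ne_of_mem_erase hq), add_comm]
  rw [h2, if_pos rfl, add_zero]
  have h3 : 0 ≤ ∏ q ∈ P.erase p, (1 + 1 / (q : ℝ)) :=
    Finset.prod_nonneg fun q _ => by positivity
  have h4 : 0 ≤ 1 / (p : ℝ) := by positivity
  nlinarith [mul_nonneg h4 h3, mul_nonneg h4 (mul_nonneg h4 h3)]

private theorem A3b_pair {P : Finset ℕ} {p : ℕ} (hp : p ∈ P) {i j : Fin 4} (hij : i ≠ j) :
    ∑ E ∈ Fintype.piFinset (fun _ : Fin 4 => P.powerset),
      (if p ∈ E i ∧ p ∈ E j then 1 else 0) * ∏ k : Fin 4, ∏ q ∈ E k, 1 / (q : ℝ) ≤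
      (1 / (p : ℝ)) ^ 2 * ∏ q ∈ P, (1 + 1 / (q : ℝ)) ^ 4 := by
  classical
  let g : Fin 4 → Finset ℕ → ℝ := fun k F =>
    (if k = i ∨ k = j then (if p ∈ F then 1 else 0) else 1) * ∏ q ∈ F, 1 / (q : ℝ)
  have h1 : ∑ E ∈ Fintype.piFinset (fun _ : Fin 4 => P.powerset),
      (if p ∈ E i ∧ p ∈ E j then (1 : ℝ) else 0) * ∏ k : Fin 4, ∏ q ∈ E k, 1 / (q : ℝ) =
      ∏ k : Fin 4, ∑ F ∈ P.powerset, g k F := by
    rw [Finset.prod_univ_sum]
    refine Finset.sum_congr rfl fun E _ => ?_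
    simp only [g]
    rw [Finset.prod_mul_distrib]
    refine congrArg (· * _) ?_
    by_cases hi : p ∈ E i
    · by_cases hj : p ∈ E j
      · rw [if_pos ⟨hi, hj⟩]
        symm
        refine Finset.prod_eq_one fun k _ => ?_
        by_cases hk : k = i ∨ k = j
        · rw [if_pos hk]
          rcases hk with rfl | rfl
          · rw [if_pos hi]
          · rw [if_pos hj]
        · rw [if_neg hk]
      · rw [if_neg (fun h => hj h.2)]
        symm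
        refine Finset.prod_eq_zero (Finset.mem_univ j) ?_
        rw [if_pos (Or.inr rfl), if_neg hj]
    · rw [if_neg (fun h => hi h.1)]
      symm
      refine Finset.prod_eq_zero (Finset.mem_univ i) ?_
      rw [if_pos (Or.inl rfl), if_neg hi]
  rw [h1]
  set W : ℝ := ∏ q ∈ P, (1 + 1 / (q : ℝ)) with hW
  have hW0 : 0 ≤ W := Finset.prod_nonneg fun q _ => by positivity
  have hp0 : 0 ≤ 1 / (p : ℝ) := by positivity
  have h2 : ∀ k : Fin 4, ∑ F ∈ P.powerset, g k F ≤ (if k = i ∨ k = j then 1 / (p : ℝ) else 1) * W := by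
    intro k
    by_cases hk : k = i ∨ k = j
    · simp only [g, if_pos hk]
      exact A3b_one hp
    · simp only [g, if_neg hk, one_mul]
      exact (A3b_all P).le
  have h3 : ∀ k : Fin 4, 0 ≤ ∑ F ∈ P.powerset, g k F := by
    intro k
    refine Finset.sum_nonneg fun F _ => ?_
    simp only [g]
    refine mul_nonneg ?_ (Finset.prod_nonneg fun q _ => by positivity)
    split_ifs <;> norm_num
  refine (Finset.prod_le_prod (fun k _ => h3 k) (fun k _ => h2 k)).trans ?_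
  rw [Finset.prod_mul_distrib, Finset.prod_const, Finset.card_univ, Fintype.card_fin,
    Finset.prod_pow]
  have h4 : ∏ k : Fin 4, (if k = i ∨ k = j then 1 / (p : ℝ) else 1) = (1 / (p : ℝ)) ^ 2 := by
    rw [Finset.prod_ite, Finset.prod_const, Finset.prod_const_one, mul_one]
    have h5 : (Finset.univ.filter fun k : Fin 4 => k = i ∨ k = j) = {i, j} := by
      ext k
      simp
    rw [h5, Finset.card_pair hij]
  rw [h4]

private theorem A3b_sq {Z : ℕ} (hZ : 1 ≤ Z) (P : Finset ℕ) (hP : ∀ p ∈ P, Z < p) :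
    ∑ p ∈ P, (1 / (p : ℝ)) ^ 2 ≤ 1 / (Z : ℝ) := by
  have h1 : P ⊆ Finset.Ioc Z (Z + P.sup id) := by
    intro p hp
    rw [Finset.mem_Ioc]
    refine ⟨hP p hp, ?_⟩
    have : p ≤ P.sup id := Finset.le_sup (f := id) hp
    omega
  have h2 : ∑ p ∈ P, (1 / (p : ℝ)) ^ 2 ≤ ∑ p ∈ Finset.Ioc Z (Z + P.sup id), ((p : ℝ) ^ 2)⁻¹ := by
    refine le_trans (Finset.sum_le_sum_of_subset_of_nonneg h1 fun q _ _ => by positivity) ?_
    refine Finset.sum_le_sum fun q _ => ?_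
    rw [one_div, inv_pow]
  have h3 := sum_Ioc_inv_sq_le_sub (α := ℝ) (k := Z) (n := Z + P.sup id) (by omega) (by omega)
  have h4 : (0 : ℝ) ≤ ((Z + P.sup id : ℕ) : ℝ)⁻¹ := by positivity
  rw [one_div (Z : ℝ)]
  linarith

/-- Tuples with a common prime, independent weights.

Proof. If `E i` and `E j` (`i ≠ j`) are not disjoint there is `p ∈ P` with `p ∈ E i ∩ E j`. For fixed `i < j`, `p`, the sum over
all tuples of the product is `(1/p²) ∏_{q ≠ p} (1 + 1/q)² · ∏_q (1 + 1/q)² ≤ (1/p²) ∏_{q ∈ P} (1 + 1/q)^4`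
(`Finset.prod_univ_sum`/`Finset.prod_add`: `Σ_{E ⊆ P} ∏_{p ∈ E} 1/p = ∏ (1 + 1/p)`). There are 6 pairs, and
`Σ_{p > Z} 1/p² ≤ 1/Z`. -/
theorem A3b (Z : ℕ) (hZ : 1 ≤ Z) (P : Finset ℕ) (hP : ∀ p ∈ P, Z < p) :
    ∑ E ∈ (Fintype.piFinset (fun _ : Fin 4 => P.powerset)).filter
        (fun E => ∃ i j : Fin 4, i ≠ j ∧ ¬ Disjoint (E i) (E j)),
      ∏ i : Fin 4, ∏ p ∈ E i, 1 / (p : ℝ) ≤ 6 / Z * ∏ p ∈ P, (1 + 1 / (p : ℝ)) ^ 4 := by
  classical
  set U := Fintype.piFinset (fun _ : Fin 4 => P.powerset) with hU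
  set w : (Fin 4 → Finset ℕ) → ℝ := fun E => ∏ i : Fin 4, ∏ p ∈ E i, 1 / (p : ℝ) with hw
  set I : Finset (Fin 4 × Fin 4) := Finset.univ.filter (fun x => x.1 < x.2) with hI
  set B : ℝ := ∏ p ∈ P, (1 + 1 / (p : ℝ)) ^ 4 with hB
  have hB0 : 0 ≤ B := Finset.prod_nonneg fun q _ => by positivity
  have hw0 : ∀ E, 0 ≤ w E := fun E =>
    Finset.prod_nonneg fun i _ => Finset.prod_nonneg fun q _ => by positivity
  have h1 : ∀ E ∈ U.filter (fun E => ∃ i j : Fin 4, i ≠ j ∧ ¬ Disjoint (E i) (E j)),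
      w E ≤ ∑ x ∈ I, ∑ p ∈ P, (if p ∈ E x.1 ∧ p ∈ E x.2 then 1 else 0) * w E := by
    intro E hE
    rw [Finset.mem_filter] at hE
    obtain ⟨hEU, i, j, hij, hd⟩ := hE
    obtain ⟨p, hpi, hpj⟩ := Finset.not_disjoint_iff.mp hd
    have hEP : ∀ k, E k ⊆ P := fun k =>
      Finset.mem_powerset.mp (Fintype.mem_piFinset.mp hEU k)
    have hpP : p ∈ P := hEP i hpi
    have hx : ∃ x ∈ I, p ∈ E x.1 ∧ p ∈ E x.2 := by
      rcases lt_or_gt_of_ne hij with h | h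
      · exact ⟨(i, j), by rw [hI, Finset.mem_filter]; exact ⟨Finset.mem_univ _, h⟩, hpi, hpj⟩
      · exact ⟨(j, i), by rw [hI, Finset.mem_filter]; exact ⟨Finset.mem_univ _, h⟩, hpj, hpi⟩
    obtain ⟨x, hxI, hx⟩ := hx
    have hnn : ∀ x ∈ I, ∀ p ∈ P, 0 ≤ (if p ∈ E x.1 ∧ p ∈ E x.2 then (1 : ℝ) else 0) * w E := by
      intro x _ p _
      refine mul_nonneg ?_ (hw0 E)
      split_ifs <;> norm_num
    have h2 : w E ≤ ∑ p ∈ P, (if p ∈ E x.1 ∧ p ∈ E x.2 then (1 : ℝ) else 0) * w E := by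
      have h3 := Finset.single_le_sum (hnn x hxI) hpP
      rw [if_pos hx, one_mul] at h3
      exact h3
    exact h2.trans (Finset.single_le_sum
      (f := fun x : Fin 4 × Fin 4 => ∑ p ∈ P, (if p ∈ E x.1 ∧ p ∈ E x.2 then (1 : ℝ) else 0) * w E)
      (fun x hx => Finset.sum_nonneg (hnn x hx)) hxI)
  have h2 : ∑ E ∈ U.filter (fun E => ∃ i j : Fin 4, i ≠ j ∧ ¬ Disjoint (E i) (E j)), w E ≤
      ∑ E ∈ U, ∑ x ∈ I, ∑ p ∈ P, (if p ∈ E x.1 ∧ p ∈ E x.2 then 1 else 0) * w E := by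
    refine (Finset.sum_le_sum h1).trans ?_
    refine Finset.sum_le_sum_of_subset_of_nonneg (Finset.filter_subset _ _) fun E _ _ => ?_
    refine Finset.sum_nonneg fun x _ => Finset.sum_nonneg fun p _ => ?_
    refine mul_nonneg ?_ (hw0 E)
    split_ifs <;> norm_num
  have h3 : ∑ E ∈ U, ∑ x ∈ I, ∑ p ∈ P, (if p ∈ E x.1 ∧ p ∈ E x.2 then (1 : ℝ) else 0) * w E =
      ∑ x ∈ I, ∑ p ∈ P, ∑ E ∈ U, (if p ∈ E x.1 ∧ p ∈ E x.2 then (1 : ℝ) else 0) * w E := by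
    rw [Finset.sum_comm]
    refine Finset.sum_congr rfl fun x _ => ?_
    rw [Finset.sum_comm]
  have h4 : ∑ x ∈ I, ∑ p ∈ P, ∑ E ∈ U, (if p ∈ E x.1 ∧ p ∈ E x.2 then (1 : ℝ) else 0) * w E ≤
      ∑ x ∈ I, ∑ p ∈ P, (1 / (p : ℝ)) ^ 2 * B := by
    refine Finset.sum_le_sum fun x hx => Finset.sum_le_sum fun p hp => ?_
    have hxne : x.1 ≠ x.2 := ne_of_lt (Finset.mem_filter.mp hx).2
    exact A3b_pair hp hxne
  have h5 : ∑ p ∈ P, (1 / (p : ℝ)) ^ 2 * B ≤ 1 / Z * B := by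
    rw [← Finset.sum_mul]
    exact mul_le_mul_of_nonneg_right (A3b_sq hZ P hP) hB0
  have h6 : I.card = 6 := by
    rw [hI]
    decide
  refine (h2.trans (h3.le.trans h4)).trans ?_
  rw [Finset.sum_const, h6, nsmul_eq_mul]
  calc ((6 : ℕ) : ℝ) * ∑ p ∈ P, (1 / (p : ℝ)) ^ 2 * B ≤ 6 * (1 / Z * B) := by
        push_cast
        linarith
    _ = 6 / Z * B := by ring

end Pool.Agent.Lib.H16X
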