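import Pool.Agent.Lib.H16X.D

/-!
# H16X: tuples with a common prime, true weights
-/

set_option linter.unusedVariables false

namespace Pool.Agent.Lib.H16X

open Finset Pool.Agent.Lib.Sieve

private def A3c_glue (p : ℕ) (A : Finset (Fin 4)) (E : Fin 4 → Finset ℕ) : Fin 4 → Finset ℕ :=
  fun i => if i ∈ A then insert p (E i) else E i

private noncomputable def A3c_w (E : Fin 4 → Finset ℕ) : ℝ :=
  ∏ p ∈ univ.biUnion E, 1 / (p : ℝ)

private lemma A3c_w_nonneg (E : Fin 4 → Finset ℕ) : 0 ≤ A3c_w E :=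
  Finset.prod_nonneg fun _ _ => by positivity

private lemma A3c_split (P : Finset ℕ) (p : ℕ) (hp : p ∉ P) (F : (Fin 4 → Finset ℕ) → ℝ) :
    ∑ E ∈ Fintype.piFinset (fun _ : Fin 4 => (insert p P).powerset), F E =
      ∑ A : Finset (Fin 4), ∑ E ∈ Fintype.piFinset (fun _ : Fin 4 => P.powerset),
        F (A3c_glue p A E) := by
  classical
  rw [← Finset.sum_product']
  refine Finset.sum_bij' (fun E _ => (univ.filter (fun i => p ∈ E i), fun i => (E i).erase p))
    (fun a _ => A3c_glue p a.1 a.2) ?_ ?_ ?_ ?_ ?_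
  · intro E hE
    simp only [mem_product, mem_univ, true_and, Fintype.mem_piFinset, mem_powerset] at hE ⊢
    intro i x hx
    have h1 := hE i (mem_of_mem_erase hx)
    rcases mem_insert.1 h1 with h2 | h2
    · exact absurd h2 (ne_of_mem_erase hx)
    · exact h2
  · intro a ha
    simp only [mem_product, mem_univ, true_and, Fintype.mem_piFinset, mem_powerset] at ha ⊢
    intro i
    unfold A3c_glue
    split_ifs
    · exact insert_subset_insert _ (ha i)
    · exact (ha i).trans (subset_insert _ _)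
  · intro E hE
    funext i
    simp only [A3c_glue, mem_filter, mem_univ, true_and]
    split_ifs with h
    · exact insert_erase h
    · exact erase_eq_of_notMem h
  · intro a ha
    simp only [mem_product, mem_univ, true_and, Fintype.mem_piFinset, mem_powerset] at ha
    have hpa : ∀ i, p ∉ a.2 i := fun i h => hp (ha i h)
    refine Prod.ext ?_ ?_
    · ext i
      simp only [A3c_glue, mem_filter, mem_univ, true_and]
      split_ifs with h
      · simp [h]
      · simp [h, hpa i]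
    · funext i
      simp only [A3c_glue]
      split_ifs with h
      · exact erase_insert (hpa i)
      · exact erase_eq_of_notMem (hpa i)
  · intro E hE
    congr 1
    funext i
    simp only [A3c_glue, mem_filter, mem_univ, true_and]
    split_ifs with h
    · exact (insert_erase h).symm
    · exact (erase_eq_of_notMem h).symm

private lemma A3c_w_glue (P : Finset ℕ) (p : ℕ) (hp : p ∉ P) (A : Finset (Fin 4))
    (E : Fin 4 → Finset ℕ) (hE : ∀ i, E i ⊆ P) :
    A3c_w (A3c_glue p A E) = (if A.Nonempty then 1 / (p : ℝ) else 1) * A3c_w E := by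
  classical
  unfold A3c_w
  split_ifs with hA
  · have h1 : univ.biUnion (A3c_glue p A E) = insert p (univ.biUnion E) := by
      ext x
      simp only [mem_biUnion, mem_univ, true_and, mem_insert, A3c_glue]
      constructor
      · rintro ⟨i, hi⟩
        split_ifs at hi with h
        · rcases mem_insert.1 hi with h2 | h2
          · exact Or.inl h2
          · exact Or.inr ⟨i, h2⟩
        · exact Or.inr ⟨i, hi⟩
      · rintro (h | ⟨i, hi⟩)
        · obtain ⟨i, hi⟩ := hA
          exact ⟨i, by rw [if_pos hi, h]; exact mem_insert_self _ _⟩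
        · refine ⟨i, ?_⟩
          split_ifs
          · exact mem_insert_of_mem hi
          · exact hi
    rw [h1, Finset.prod_insert]
    intro h
    obtain ⟨i, -, hi⟩ := mem_biUnion.1 h
    exact hp (hE i hi)
  · rw [Finset.not_nonempty_iff_eq_empty] at hA
    subst hA
    rw [one_mul]
    rfl

private lemma A3c_sum_nonempty (x : ℝ) :
    ∑ A : Finset (Fin 4), (if A.Nonempty then x else 1) = 1 + 15 * x := by
  rw [Finset.sum_ite, Finset.sum_const, Finset.sum_const]
  have h1 : (univ.filter fun A : Finset (Fin 4) => A.Nonempty).card = 15 := by decide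
  have h2 : (univ.filter fun A : Finset (Fin 4) => ¬ A.Nonempty).card = 1 := by decide
  rw [h1, h2, nsmul_eq_mul, nsmul_eq_mul]
  push_cast
  ring

private lemma A3c_total (P : Finset ℕ) :
    ∑ E ∈ Fintype.piFinset (fun _ : Fin 4 => P.powerset), A3c_w E =
      ∏ p ∈ P, (1 + 15 / (p : ℝ)) := by
  classical
  induction P using Finset.induction_on with
  | empty =>
    have h : Fintype.piFinset (fun _ : Fin 4 => (∅ : Finset ℕ).powerset) =
        {fun _ => (∅ : Finset ℕ)} := by
      ext E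
      simp only [powerset_empty, Fintype.mem_piFinset, mem_singleton]
      constructor
      · intro h; funext i; exact h i
      · rintro rfl i; rfl
    rw [h, Finset.sum_singleton, Finset.prod_empty]
    unfold A3c_w
    rw [Finset.prod_eq_one]
    intro x hx
    simp at hx
  | insert p P hp ih =>
    rw [A3c_split P p hp, Finset.prod_insert hp]
    have h1 : ∀ A : Finset (Fin 4), ∑ E ∈ Fintype.piFinset (fun _ : Fin 4 => P.powerset),
        A3c_w (A3c_glue p A E) =
        (if A.Nonempty then 1 / (p : ℝ) else 1) * ∏ p ∈ P, (1 + 15 / (p : ℝ)) := by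
      intro A
      rw [← ih, Finset.mul_sum]
      refine Finset.sum_congr rfl fun E hE => ?_
      refine A3c_w_glue P p hp A E fun i => ?_
      exact mem_powerset.1 (Fintype.mem_piFinset.1 hE i)
    rw [Finset.sum_congr rfl fun A _ => h1 A, ← Finset.sum_mul, A3c_sum_nonempty]
    ring

private lemma A3c_card : ∀ i : Fin 4, (univ.filter fun A : Finset (Fin 4) => i ∈ A).card = 8 := by
  decide

private lemma A3c_one (Z : ℕ) (hZ : 1 ≤ Z) (P : Finset ℕ) (hP : ∀ p ∈ P, Z < p) (p : ℕ)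
    (hp : p ∈ P) (i : Fin 4) :
    ∑ E ∈ Fintype.piFinset (fun _ : Fin 4 => P.powerset), (if p ∈ E i then A3c_w E else 0) ≤
      8 / Z * ∏ p ∈ P, (1 + 15 / (p : ℝ)) := by
  classical
  have hpe : p ∉ P.erase p := notMem_erase p P
  have h0 := A3c_split (P.erase p) p hpe (fun E => if p ∈ E i then A3c_w E else 0)
  rw [insert_erase hp] at h0
  rw [h0]
  have h1 : ∀ A : Finset (Fin 4), ∑ E ∈ Fintype.piFinset (fun _ : Fin 4 => (P.erase p).powerset),
      (if p ∈ A3c_glue p A E i then A3c_w (A3c_glue p A E) else 0) =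
      (if i ∈ A then (1 / (p : ℝ)) * ∏ p ∈ P.erase p, (1 + 15 / (p : ℝ)) else 0) := by
    intro A
    rw [← A3c_total]
    by_cases hi : i ∈ A
    · rw [if_pos hi, Finset.mul_sum]
      refine Finset.sum_congr rfl fun E hE => ?_
      have hE' : ∀ j, E j ⊆ P.erase p := fun j => mem_powerset.1 (Fintype.mem_piFinset.1 hE j)
      rw [if_pos, A3c_w_glue (P.erase p) p hpe A E hE', if_pos ⟨i, hi⟩]
      simp [A3c_glue, hi]
    · rw [if_neg hi]
      refine Finset.sum_eq_zero fun E hE => ?_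
      have hE' : ∀ j, E j ⊆ P.erase p := fun j => mem_powerset.1 (Fintype.mem_piFinset.1 hE j)
      rw [if_neg]
      simp only [A3c_glue, hi, if_false]
      exact fun h => hpe (hE' i h)
  rw [Finset.sum_congr rfl fun A _ => h1 A, Finset.sum_ite, Finset.sum_const_zero, add_zero,
    Finset.sum_const]
  have h2 := A3c_card i
  rw [h2, nsmul_eq_mul]
  have hZ0 : (0 : ℝ) < Z := by exact_mod_cast hZ
  have hpZ : (Z : ℝ) < p := by exact_mod_cast hP p hp
  have h3 : 1 / (p : ℝ) ≤ 1 / Z := one_div_le_one_div_of_le hZ0 hpZ.le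
  have h4 : (0 : ℝ) ≤ ∏ p ∈ P.erase p, (1 + 15 / (p : ℝ)) :=
    Finset.prod_nonneg fun _ _ => by positivity
  have h5 : ∏ p ∈ P.erase p, (1 + 15 / (p : ℝ)) ≤ ∏ p ∈ P, (1 + 15 / (p : ℝ)) := by
    rw [← Finset.mul_prod_erase P _ hp]
    refine le_mul_of_one_le_left h4 ?_
    have : (0 : ℝ) ≤ 15 / (p : ℝ) := by positivity
    linarith
  calc ((8 : ℕ) : ℝ) * (1 / (p : ℝ) * ∏ p ∈ P.erase p, (1 + 15 / (p : ℝ)))
      ≤ 8 * (1 / Z * ∏ p ∈ P, (1 + 15 / (p : ℝ))) := by
        push_cast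
        refine mul_le_mul_of_nonneg_left ?_ (by norm_num)
        exact mul_le_mul h3 h5 h4 (by positivity)
    _ = 8 / Z * ∏ p ∈ P, (1 + 15 / (p : ℝ)) := by ring

/-- Tuples with a common prime, true weights.

Proof. For `i ≠ j` and a prime `p ∈ E i ∩ E j` with `p ∣ s i - s j`: there are at most `6 m` such `(pair, p)`, `m` = the bound
for the number of the `p ∈ P` dividing `s i - s j`. For a fixed `p ∈ P`, the sum over all tuples with `p ∈ ⋃ E i` of
`∏_{q ∈ ⋃ E i} 1/q` is `(15/p) ∏_{q ≠ p} (1 + 15/q) ≤ (15/Z) ∏_{q ∈ P} (1 + 15/q)`: a tuple is a choice, for every `q ∈ P`, of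
the set of the `i` with `q ∈ E i` (16 choices, 15 of them non-empty). Total `≤ 90 m / Z ∏ (1 + 15/q)`. -/
theorem A3c (Z m : ℕ) (hZ : 1 ≤ Z) (P : Finset ℕ) (hP : ∀ p ∈ P, Z < p) (s : Fin 4 → ℤ)
    (hm : ∀ i j : Fin 4, i ≠ j → (P.filter (fun p : ℕ => (p : ℤ) ∣ s i - s j)).card ≤ m) :
    ∑ E ∈ (Fintype.piFinset (fun _ : Fin 4 => P.powerset)).filter
        (fun E => ∃ i j : Fin 4, i ≠ j ∧ ∃ p : ℕ, p ∈ E i ∩ E j ∧ (p : ℤ) ∣ s i - s j),
      ∏ p ∈ univ.biUnion E, 1 / (p : ℝ) ≤ 100 * m / Z * ∏ p ∈ P, (1 + 15 / (p : ℝ)) := by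
  classical
  set T := Fintype.piFinset (fun _ : Fin 4 => P.powerset) with hT
  have hZ0 : (0 : ℝ) < Z := by exact_mod_cast hZ
  have hPi0 : (0 : ℝ) ≤ ∏ p ∈ P, (1 + 15 / (p : ℝ)) :=
    Finset.prod_nonneg fun _ _ => by positivity
  have hnn : ∀ (E : Fin 4 → Finset ℕ) (i : Fin 4) (p : ℕ),
      0 ≤ (if p ∈ E i then A3c_w E else 0) := by
    intro E i p
    split_ifs
    · exact A3c_w_nonneg E
    · exact le_rfl
  have step1 : ∑ E ∈ T.filter
        (fun E => ∃ i j : Fin 4, i ≠ j ∧ ∃ p : ℕ, p ∈ E i ∩ E j ∧ (p : ℤ) ∣ s i - s j),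
      ∏ p ∈ univ.biUnion E, 1 / (p : ℝ) ≤
      ∑ E ∈ T, ∑ a ∈ (univ : Finset (Fin 4)).offDiag,
        ∑ p ∈ P.filter (fun p : ℕ => (p : ℤ) ∣ s a.1 - s a.2),
          (if p ∈ E a.1 then A3c_w E else 0) := by
    refine (Finset.sum_le_sum fun E hE => ?_).trans
      (Finset.sum_le_sum_of_subset_of_nonneg (Finset.filter_subset _ T) fun E _ _ =>
        Finset.sum_nonneg fun a _ => Finset.sum_nonneg fun p _ => hnn E a.1 p)
    obtain ⟨hET, i, j, hij, p, hpij, hps⟩ := Finset.mem_filter.1 hE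
    have hpi : p ∈ E i := (Finset.mem_inter.1 hpij).1
    have hpP : p ∈ P := by
      rw [hT, Fintype.mem_piFinset] at hET
      exact mem_powerset.1 (hET i) hpi
    have h1 : A3c_w E ≤ ∑ p ∈ P.filter (fun p : ℕ => (p : ℤ) ∣ s i - s j),
        (if p ∈ E i then A3c_w E else 0) := by
      have hmem : p ∈ P.filter (fun p : ℕ => (p : ℤ) ∣ s i - s j) :=
        Finset.mem_filter.2 ⟨hpP, hps⟩
      have := Finset.single_le_sum (f := fun p => if p ∈ E i then A3c_w E else 0)
        (fun q _ => hnn E i q) hmem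
      simp only [hpi, if_true] at this
      exact this
    refine le_trans h1 ?_
    have hmem2 : (i, j) ∈ (univ : Finset (Fin 4)).offDiag :=
      Finset.mem_offDiag.2 ⟨mem_univ i, mem_univ j, hij⟩
    exact Finset.single_le_sum (f := fun a : Fin 4 × Fin 4 =>
        ∑ p ∈ P.filter (fun p : ℕ => (p : ℤ) ∣ s a.1 - s a.2),
          (if p ∈ E a.1 then A3c_w E else 0))
      (fun a _ => Finset.sum_nonneg fun q _ => hnn E a.1 q) hmem2
  refine step1.trans ?_
  rw [Finset.sum_comm]
  have step2 : ∀ a ∈ (univ : Finset (Fin 4)).offDiag,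
      ∑ E ∈ T, ∑ p ∈ P.filter (fun p : ℕ => (p : ℤ) ∣ s a.1 - s a.2),
          (if p ∈ E a.1 then A3c_w E else 0) ≤
        m * (8 / Z * ∏ p ∈ P, (1 + 15 / (p : ℝ))) := by
    intro a ha
    rw [Finset.sum_comm]
    have hne : a.1 ≠ a.2 := (Finset.mem_offDiag.1 ha).2.2
    refine (Finset.sum_le_card_nsmul _ _ (8 / Z * ∏ p ∈ P, (1 + 15 / (p : ℝ))) fun p hp => ?_).trans ?_
    · exact A3c_one Z hZ P hP p (Finset.mem_filter.1 hp).1 a.1
    · rw [nsmul_eq_mul]
      refine mul_le_mul_of_nonneg_right ?_ (by positivity)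
      exact_mod_cast hm a.1 a.2 hne
  refine (Finset.sum_le_card_nsmul _ _ _ step2).trans ?_
  have h12 : ((univ : Finset (Fin 4)).offDiag).card = 12 := by decide
  rw [h12, nsmul_eq_mul]
  have hm0 : (0 : ℝ) ≤ m := Nat.cast_nonneg m
  have h6 : (0 : ℝ) ≤ m / Z * ∏ p ∈ P, (1 + 15 / (p : ℝ)) := by positivity
  have h7 : (100 : ℝ) * m / Z * ∏ p ∈ P, (1 + 15 / (p : ℝ)) =
      100 * (m / Z * ∏ p ∈ P, (1 + 15 / (p : ℝ))) := by ring
  have h8 : ((12 : ℕ) : ℝ) * (m * (8 / Z * ∏ p ∈ P, (1 + 15 / (p : ℝ)))) =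
      96 * (m / Z * ∏ p ∈ P, (1 + 15 / (p : ℝ))) := by push_cast; ring
  rw [h7, h8]
  linarith

end Pool.Agent.Lib.H16X
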