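import Pool.Agent.Lib.H16X.D
import Pool.Agent.Lib.H16X.M1

/-!
# H16X: Mertens for ranges of primes
-/

set_option linter.unusedVariables false

namespace Pool.Agent.Lib.H16X

open Finset Pool.Agent.Lib.Sieve

private theorem m2_pos (T : Finset ℕ) (h : ∀ p ∈ T, p.Prime) : 0 < VV T := by
  unfold VV
  refine Finset.prod_pos fun p hp => ?_
  have h1 : (2 : ℝ) ≤ p := by exact_mod_cast (h p hp).two_le
  have h2 : 1 / (p : ℝ) ≤ 1 / 2 := one_div_le_one_div_of_le (by norm_num) h1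
  linarith

private theorem m2_le_one (T : Finset ℕ) (h : ∀ p ∈ T, p.Prime) : VV T ≤ 1 := by
  unfold VV
  refine Finset.prod_le_one (fun p hp => ?_) (fun p hp => ?_)
  · have h1 : (2 : ℝ) ≤ p := by exact_mod_cast (h p hp).two_le
    have h2 : 1 / (p : ℝ) ≤ 1 / 2 := one_div_le_one_div_of_le (by norm_num) h1
    linarith
  · have h2 : 0 ≤ 1 / (p : ℝ) := by positivity
    linarith

private theorem m2_split (S T : Finset ℕ) (h : T ⊆ S) : VV S = VV T * VV (S \ T) := by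
  unfold VV
  rw [mul_comm]
  exact (Finset.prod_sdiff h).symm

/-- `∏_{w < p ≤ z} (1 - 1/p) ≤ C log w / log z`, and the trivial bounds for sub-products.

Proof. `VV (sprimes w z) = VV (primesUpTo z) / VV (primesUpTo w)` (for `w ≤ z`), `VV (primesUpTo z) ≤ 1 / log z`
(`Sieve.prod_one_sub_inv_le`) and `(VV (primesUpTo w))⁻¹ ≤ C log w` (`M1`). Second part: all factors of `(VV ..)⁻¹` are
`≥ 1`, so `(VV T)⁻¹ ≤ (VV (primesUpTo z))⁻¹` for `T ⊆ primesUpTo z`. -/
theorem M2 : ∃ C : ℝ, 1 ≤ C ∧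
    (∀ w z : ℕ, 2 ≤ w → w ≤ z → VV (sprimes w z) ≤ C * Real.log w / Real.log z) ∧
    (∀ (z : ℕ) (T : Finset ℕ), 2 ≤ z → (∀ p ∈ T, p.Prime ∧ p ≤ z) →
      0 < VV T ∧ 1 ≤ (VV T)⁻¹ ∧ (VV T)⁻¹ ≤ C * Real.log z) := by
  obtain ⟨C, hC1, hC⟩ := M1
  refine ⟨C, hC1, fun w z hw hwz => ?_, fun z T hz hT => ?_⟩
  · have hsub : primesUpTo w ⊆ primesUpTo z := by
      intro p hp
      rw [mem_primesUpTo] at hp ⊢
      exact ⟨hp.1, hp.2.trans hwz⟩
    have hsd : primesUpTo z \ primesUpTo w = sprimes w z := by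
      ext p
      rw [Finset.mem_sdiff, mem_primesUpTo, mem_primesUpTo, mem_sprimes]
      constructor
      · rintro ⟨⟨h1, h2⟩, h3⟩
        refine ⟨h1, ?_, h2⟩
        by_contra h4
        exact h3 ⟨h1, by omega⟩
      · rintro ⟨h1, h2, h3⟩
        exact ⟨⟨h1, h3⟩, fun h4 => by omega⟩
    have h1 := m2_split (primesUpTo z) (primesUpTo w) hsub
    rw [hsd] at h1
    have hw0 : 0 < VV (primesUpTo w) := m2_pos _ fun p hp => (mem_primesUpTo.1 hp).1
    have hz0 : 0 < VV (primesUpTo z) := m2_pos _ fun p hp => (mem_primesUpTo.1 hp).1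
    have h2 : VV (sprimes w z) = VV (primesUpTo z) * (VV (primesUpTo w))⁻¹ := by
      rw [h1]
      field_simp
    have h3 : VV (primesUpTo z) ≤ 1 / Real.log z := prod_one_sub_inv_le z (hw.trans hwz)
    have h4 := hC w hw
    rw [h2]
    calc VV (primesUpTo z) * (VV (primesUpTo w))⁻¹ ≤ 1 / Real.log z * (C * Real.log w) :=
          mul_le_mul h3 h4 (inv_nonneg.2 hw0.le) (hz0.le.trans h3)
      _ = C * Real.log w / Real.log z := by ring
  · have hTp : ∀ p ∈ T, p.Prime := fun p hp => (hT p hp).1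
    have h0 := m2_pos T hTp
    refine ⟨h0, (one_le_inv₀ h0).2 (m2_le_one T hTp), ?_⟩
    have hsub : T ⊆ primesUpTo z := by
      intro p hp
      rw [mem_primesUpTo]
      exact hT p hp
    have hz0 : 0 < VV (primesUpTo z) := m2_pos _ fun p hp => (mem_primesUpTo.1 hp).1
    have h1 : VV (primesUpTo z) ≤ VV T := by
      rw [m2_split _ _ hsub]
      have h2 : VV (primesUpTo z \ T) ≤ 1 :=
        m2_le_one _ fun p hp => (mem_primesUpTo.1 (Finset.mem_sdiff.1 hp).1).1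
      calc VV T * VV (primesUpTo z \ T) ≤ VV T * 1 := mul_le_mul_of_nonneg_left h2 h0.le
        _ = VV T := mul_one _
    exact (inv_anti₀ hz0 h1).trans (hC z hz)

end Pool.Agent.Lib.H16X
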