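import Pool.Agent.Lib.H16X.D

/-!
# H16X: Chebyshev bounds for the X-th prime
-/

set_option linter.unusedVariables false

namespace Pool.Agent.Lib.H16X

open Finset Pool.Agent.Lib.Sieve

private lemma P1_prime (X : ℕ) : Nat.Prime (pr X) := Nat.prime_nth_prime X

private lemma P1_pi (X : ℕ) : Nat.primeCounting (pr X) = X + 1 := by
  have h1 : Nat.primeCounting' (pr X) = X := Nat.primeCounting'_nth_eq X
  unfold Nat.primeCounting
  unfold Nat.primeCounting' at h1 ⊢
  rw [Nat.count_succ, h1, if_pos (P1_prime X)]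

private lemma P1_five (X : ℕ) (hX : 2 ≤ X) : 5 ≤ pr X := by
  have h3 : Nat.primeCounting 4 = 2 := by decide
  by_contra hlt
  push Not at hlt
  have h4 := Nat.monotone_primeCounting (show pr X ≤ 4 by omega)
  rw [P1_pi, h3] at h4
  omega

private lemma P1_le (X : ℕ) : X ≤ pr X := by
  have h1 : Nat.primeCounting' (pr X) = X := Nat.primeCounting'_nth_eq X
  calc X = Nat.primeCounting' (pr X) := h1.symm
    _ ≤ pr X := Nat.count_le _

/-- Chebyshev: `X log X ≪ p_X ≪ X log X`.

Proof. `Nat.primeCounting' (pr X) = X` (`Nat.primeCounting'_nth_eq`), i.e. the number of primes `< pr X` is `X`.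
Mathlib's `Mathlib/NumberTheory/Chebyshev.lean` has `π(x) ≪ x / log x` and `π(x) ≫ x / log x` (see `theta_le_log4_mul_x`,
`theta_ge`, `psi_ge`, and the statements about `primeCounting` at the end of that file). From `X ≥ c pr X / log (pr X)` one
gets first `pr X ≤ C X²` (crude: `log x ≤ C √x`), hence `log (pr X) ≤ C log X` and `pr X ≤ C X log X`; from
`X ≤ C pr X / log (pr X)` and `pr X ≥ X` one gets `pr X ≥ c X log X`. Small `X` are absorbed by the constant. -/
theorem P1 : ∃ C : ℝ, 1 ≤ C ∧ ∀ X : ℕ, 2 ≤ X →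
    (X : ℝ) * Real.log X ≤ C * pr X ∧ (pr X : ℝ) ≤ C * X * Real.log X := by
  refine ⟨80, by norm_num, ?_⟩
  intro X hX
  have hP5 := P1_five X hX
  have hXP := P1_le X
  have hpi := P1_pi X
  generalize pr X = P at *
  have hP5r : (5 : ℝ) ≤ P := by exact_mod_cast hP5
  have hX2 : (2 : ℝ) ≤ X := by exact_mod_cast hX
  have hXPr : (X : ℝ) ≤ P := by exact_mod_cast hXP
  have hP0 : (0 : ℝ) < P := by linarith
  have hX0 : (0 : ℝ) < X := by linarith
  have hlogP : 0 < Real.log P := Real.log_pos (by linarith)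
  have hsq : 0 < √(P : ℝ) := Real.sqrt_pos.mpr hP0
  have hsqsq : √(P : ℝ) * √(P : ℝ) = P := Real.mul_self_sqrt hP0.le
  have hlogsq : Real.log √(P : ℝ) = Real.log P / 2 := Real.log_sqrt hP0.le
  have hlogle : Real.log P ≤ 2 * √(P : ℝ) := by
    have h := Real.log_le_sub_one_of_pos hsq
    linarith
  constructor
  · -- lower bound for `P`
    have h1 := Chebyshev.pi_le_log4_mul_div (x := (P : ℝ)) (by linarith)
    rw [Nat.floor_natCast, hpi, hlogsq] at h1
    push_cast at h1
    have hlog4 : Real.log 4 ≤ 2 := by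
      have := Real.log_le_sub_one_of_pos (x := (2 : ℝ)) (by norm_num)
      have h4 : Real.log 4 = 2 * Real.log 2 := by
        rw [show (4 : ℝ) = 2 ^ 2 by norm_num, Real.log_pow]
        norm_num
      linarith
    have hlogX : Real.log X ≤ Real.log P := Real.log_le_log hX0 hXPr
    have h2 : (X : ℝ) * Real.log X ≤ (X : ℝ) * Real.log P := by
      exact mul_le_mul_of_nonneg_left hlogX hX0.le
    have h3 : (X : ℝ) * Real.log P ≤ (Real.log 4 * P / (Real.log P / 2) + √(P : ℝ)) * Real.log P := by
      apply mul_le_mul_of_nonneg_right _ hlogP.le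
      linarith
    have h4 : (Real.log 4 * P / (Real.log P / 2) + √(P : ℝ)) * Real.log P =
        2 * Real.log 4 * P + √(P : ℝ) * Real.log P := by
      field_simp
    have h5 : √(P : ℝ) * Real.log P ≤ 2 * P := by
      calc √(P : ℝ) * Real.log P ≤ √(P : ℝ) * (2 * √(P : ℝ)) := by
            exact mul_le_mul_of_nonneg_left hlogle hsq.le
        _ = 2 * P := by linear_combination 2 * hsqsq
    have h6 : 2 * Real.log 4 * P ≤ 4 * P := by
      apply mul_le_mul_of_nonneg_right _ hP0.le
      linarith
    linarith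
  · -- upper bound for `P`
    have h1 := Chebyshev.pi_ge P
    rw [hpi, div_le_iff₀ hlogP] at h1
    push_cast at h1
    have hlog2 : 0.69 < Real.log 2 := by
      have := Real.log_two_gt_d9
      linarith
    have hlog2' : Real.log 2 < 0.7 := by
      have := Real.log_two_lt_d9
      linarith
    have h2 : Real.log ((P : ℝ) + 1) ≤ ((P : ℝ) + 1) / 4 + 2 * Real.log 2 - 1 := by
      have h3 := Real.log_le_sub_one_of_pos (x := ((P : ℝ) + 1) / 4) (by positivity)
      have h4 : Real.log (((P : ℝ) + 1) / 4) = Real.log ((P : ℝ) + 1) - 2 * Real.log 2 := by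
        rw [Real.log_div (by positivity) (by norm_num), show (4 : ℝ) = 2 ^ 2 by norm_num, Real.log_pow]
        norm_num
      linarith
    have h3 : (P : ℝ) / 4 ≤ ((X : ℝ) + 1) * Real.log P := by nlinarith
    have h4 : (P : ℝ) ≤ 8 * X * Real.log P := by nlinarith
    have h5 : (P : ℝ) ≤ 16 * X * √(P : ℝ) := by nlinarith
    have h6 : √(P : ℝ) ≤ 16 * X := by
      by_contra hlt
      push Not at hlt
      nlinarith
    have h7 : (P : ℝ) ≤ 256 * (X : ℝ) ^ 2 := by nlinarith
    have h8 : Real.log P ≤ 10 * Real.log X := by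
      have h9 := Real.log_le_log hP0 h7
      rw [Real.log_mul (by norm_num) (by positivity), Real.log_pow,
        show (256 : ℝ) = 2 ^ 8 by norm_num, Real.log_pow] at h9
      have h10 : Real.log 2 ≤ Real.log X := Real.log_le_log (by norm_num) hX2
      push_cast at h9
      linarith
    calc (P : ℝ) ≤ 8 * X * Real.log P := h4
      _ ≤ 8 * X * (10 * Real.log X) := mul_le_mul_of_nonneg_left h8 (by positivity)
      _ = 80 * X * Real.log X := by ring

end Pool.Agent.Lib.H16X
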