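import Pool.Agent.Lib.H16X.D
import Pool.Agent.Lib.H16X.M2
import Pool.Agent.Lib.H16X.P1
import Pool.Agent.Lib.H16X.A3a
import Pool.Agent.Lib.H16X.A3b
import Pool.Agent.Lib.H16X.A3c

/-!
# H16X: linear forms estimate
-/

set_option linter.unusedVariables false

namespace Pool.Agent.Lib.H16X

open Finset Pool.Agent.Lib.Sieve

/-- the number of `n` of a tuple -/
private noncomputable def A3NE (N Q : ℕ) (b : ℤ) (s : Fin 4 → ℤ) (E : Fin 4 → Finset ℕ) : ℝ :=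
  (((range N).filter (fun n : ℕ => (Q : ℤ) ∣ (n : ℤ) - b ∧
    ∀ i : Fin 4, ∀ p : ℕ, p ∈ E i → (p : ℤ) ∣ 2 * (n : ℤ) - s i)).card : ℝ)

private theorem A3_dv (n : ℤ) (s : Fin 4 → ℤ) (E : Fin 4 → Finset ℕ)
    [Decidable (∀ i : Fin 4, ∀ p : ℕ, p ∈ E i → (p : ℤ) ∣ 2 * n - s i)] :
    ∏ i : Fin 4, ∏ p ∈ E i, dv p (2 * n - s i) =
      if (∀ i : Fin 4, ∀ p : ℕ, p ∈ E i → (p : ℤ) ∣ 2 * n - s i) then 1 else 0 := by
  by_cases h : ∀ i : Fin 4, ∀ p : ℕ, p ∈ E i → (p : ℤ) ∣ 2 * n - s i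
  · rw [if_pos h]
    refine Finset.prod_eq_one fun i _ => Finset.prod_eq_one fun p hp => ?_
    unfold dv
    rw [if_pos (h i p hp)]
  · rw [if_neg h]
    push Not at h
    obtain ⟨i, p, hp, hd⟩ := h
    refine Finset.prod_eq_zero (Finset.mem_univ i) (Finset.prod_eq_zero hp ?_)
    unfold dv
    rw [if_neg hd]

private theorem A3_expand (N Q : ℕ) (P : Finset ℕ) (b : ℤ) (s : Fin 4 → ℤ) (c : Fin 4 → Finset ℕ → ℝ) :
    ∑ n ∈ (range N).filter (fun n : ℕ => (Q : ℤ) ∣ (n : ℤ) - b),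
        ∏ i : Fin 4, ∑ E ∈ P.powerset, c i E * ∏ p ∈ E, dv p (2 * (n : ℤ) - s i) =
      ∑ E ∈ Fintype.piFinset (fun _ : Fin 4 => P.powerset), (∏ i, c i (E i)) * A3NE N Q b s E := by
  simp only [Finset.prod_univ_sum]
  rw [Finset.sum_comm]
  refine Finset.sum_congr rfl fun E _ => ?_
  simp only [Finset.prod_mul_distrib]
  rw [← Finset.mul_sum]
  congr 1
  simp only [A3_dv]
  rw [← Finset.sum_filter, Finset.sum_const, Finset.filter_filter, nsmul_eq_mul, mul_one]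
  rfl

private theorem A3_expand' (r : ℝ) (P : Finset ℕ) (c : Fin 4 → Finset ℕ → ℝ) :
    r * ∏ i : Fin 4, ∑ E ∈ P.powerset, c i E * ∏ p ∈ E, 1 / (p : ℝ) =
      ∑ E ∈ Fintype.piFinset (fun _ : Fin 4 => P.powerset), (∏ i, c i (E i)) *
        (r * ∏ i : Fin 4, ∏ p ∈ E i, 1 / (p : ℝ)) := by
  rw [Finset.prod_univ_sum, Finset.mul_sum]
  refine Finset.sum_congr rfl fun E _ => ?_
  rw [Finset.prod_mul_distrib]
  ring

private theorem A3_le_union (N Q : ℕ) (hQ : 0 < Q) (P : Finset ℕ) (hP : ∀ p ∈ P, p.Prime ∧ 3 ≤ p ∧ ¬ p ∣ Q) (b : ℤ)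
    (s : Fin 4 → ℤ) (E : Fin 4 → Finset ℕ) (hE : ∀ i, E i ⊆ P) :
    A3NE N Q b s E ≤ (N : ℝ) / Q * ∏ p ∈ univ.biUnion E, 1 / (p : ℝ) + 1 := by
  have h1 : ∀ p : ℕ, ∃ t : ℤ, p ∈ univ.biUnion E → ∃ i, p ∈ E i ∧ t = s i := by
    intro p
    by_cases hp : p ∈ univ.biUnion E
    · obtain ⟨i, -, hi⟩ := Finset.mem_biUnion.1 hp
      exact ⟨s i, fun _ => ⟨i, hi, rfl⟩⟩
    · exact ⟨0, fun h => absurd h hp⟩
  choose c hc using h1
  have h2 := A3a N Q hQ (univ.biUnion E) (fun p hp => by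
    obtain ⟨i, -, hi⟩ := Finset.mem_biUnion.1 hp
    exact hP p (hE i hi)) b c
  have h3 := sub_le_iff_le_add.1 (abs_le.1 h2).2
  refine le_trans ?_ (h3.trans_eq (add_comm _ _))
  unfold A3NE
  rw [Nat.cast_le]
  refine Finset.card_le_card fun n hn => ?_
  obtain ⟨hn1, hn2, hn3⟩ := Finset.mem_filter.1 hn
  refine Finset.mem_filter.2 ⟨hn1, hn2, fun p hp => ?_⟩
  obtain ⟨i, hi, ht⟩ := hc p hp
  rw [ht]
  exact hn3 i p hi

private theorem A3_disj (N Q : ℕ) (hQ : 0 < Q) (P : Finset ℕ) (hP : ∀ p ∈ P, p.Prime ∧ 3 ≤ p ∧ ¬ p ∣ Q) (b : ℤ)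
    (s : Fin 4 → ℤ) (E : Fin 4 → Finset ℕ) (hE : ∀ i, E i ⊆ P) (hd : ∀ i j : Fin 4, i ≠ j → Disjoint (E i) (E j)) :
    |A3NE N Q b s E - (N : ℝ) / Q * ∏ i, ∏ p ∈ E i, 1 / (p : ℝ)| ≤ 1 := by
  have h1 : ∀ p : ℕ, ∃ t : ℤ, ∀ i, p ∈ E i → t = s i := by
    intro p
    by_cases hp : ∃ i, p ∈ E i
    · obtain ⟨i, hi⟩ := hp
      refine ⟨s i, fun j hj => ?_⟩
      by_cases hij : i = j
      · rw [hij]
      · exact absurd hj (Finset.disjoint_left.1 (hd i j hij) hi)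
    · exact ⟨0, fun i hi => absurd ⟨i, hi⟩ hp⟩
  choose c hc using h1
  have h2 := A3a N Q hQ (univ.biUnion E) (fun p hp => by
    obtain ⟨i, -, hi⟩ := Finset.mem_biUnion.1 hp
    exact hP p (hE i hi)) b c
  have h3 : ∏ p ∈ univ.biUnion E, 1 / (p : ℝ) = ∏ i, ∏ p ∈ E i, 1 / (p : ℝ) :=
    Finset.prod_biUnion fun i _ j _ hij => hd i j hij
  rw [← h3]
  refine le_trans (le_of_eq ?_) h2
  congr 2
  unfold A3NE
  congr 2
  ext n
  simp only [Finset.mem_filter]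
  refine and_congr_right fun _ => and_congr_right fun _ => ?_
  constructor
  · intro h p hp
    obtain ⟨i, -, hi⟩ := Finset.mem_biUnion.1 hp
    rw [hc p i hi]
    exact h i p hi
  · intro h i p hp
    rw [← hc p i hp]
    exact h p (Finset.mem_biUnion.2 ⟨i, Finset.mem_univ i, hp⟩)

/-- the first kind of bad tuples -/
private def A3b1 (E : Fin 4 → Finset ℕ) : Prop := ∃ i j : Fin 4, i ≠ j ∧ ¬ Disjoint (E i) (E j)

/-- the second kind of bad tuples -/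
private def A3b2 (s : Fin 4 → ℤ) (E : Fin 4 → Finset ℕ) : Prop :=
  ∃ i j : Fin 4, i ≠ j ∧ ∃ p : ℕ, p ∈ E i ∩ E j ∧ (p : ℤ) ∣ s i - s j

private theorem A3_prod_nonneg (E : Finset ℕ) : 0 ≤ ∏ p ∈ E, 1 / (p : ℝ) :=
  Finset.prod_nonneg fun p _ => by positivity

open Classical in
private theorem A3_tuple (N Q : ℕ) (hQ : 0 < Q) (P : Finset ℕ) (hP : ∀ p ∈ P, p.Prime ∧ 3 ≤ p ∧ ¬ p ∣ Q) (b : ℤ)
    (s : Fin 4 → ℤ) (E : Fin 4 → Finset ℕ) (hE : ∀ i, E i ⊆ P) :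
    |A3NE N Q b s E - (N : ℝ) / Q * ∏ i, ∏ p ∈ E i, 1 / (p : ℝ)| ≤
      1 + (if A3b1 E then (N : ℝ) / Q * ∏ i, ∏ p ∈ E i, 1 / (p : ℝ) else 0) +
        (if A3b2 s E then (N : ℝ) / Q * ∏ p ∈ univ.biUnion E, 1 / (p : ℝ) else 0) := by
  have hr : 0 ≤ (N : ℝ) / Q := by positivity
  have hw : 0 ≤ (N : ℝ) / Q * ∏ i, ∏ p ∈ E i, 1 / (p : ℝ) :=
    mul_nonneg hr (Finset.prod_nonneg fun i _ => A3_prod_nonneg _)
  have hu : 0 ≤ (N : ℝ) / Q * ∏ p ∈ univ.biUnion E, 1 / (p : ℝ) := mul_nonneg hr (A3_prod_nonneg _)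
  have h0 : 0 ≤ A3NE N Q b s E := by
    unfold A3NE
    positivity
  by_cases h1 : A3b1 E
  · rw [if_pos h1]
    by_cases h2 : A3b2 s E
    · rw [if_pos h2]
      have h3 := A3_le_union N Q hQ P hP b s E hE
      rw [abs_le]
      constructor <;> linarith
    · rw [if_neg h2]
      have h3 : A3NE N Q b s E = 0 := by
        unfold A3NE
        norm_cast
        rw [Finset.card_eq_zero, Finset.filter_eq_empty_iff]
        rintro n - ⟨-, hn⟩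
        obtain ⟨i, j, hij, hd⟩ := h1
        rw [Finset.not_disjoint_iff] at hd
        obtain ⟨p, hpi, hpj⟩ := hd
        refine h2 ⟨i, j, hij, p, Finset.mem_inter.2 ⟨hpi, hpj⟩, ?_⟩
        have e : s i - s j = (2 * (n : ℤ) - s j) - (2 * (n : ℤ) - s i) := by ring
        rw [e]
        exact dvd_sub (hn j p hpj) (hn i p hpi)
      rw [h3, abs_le]
      constructor <;> linarith
  · have h2 : ¬ A3b2 s E := by
      rintro ⟨i, j, hij, p, hp, -⟩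
      obtain ⟨hpi, hpj⟩ := Finset.mem_inter.1 hp
      exact h1 ⟨i, j, hij, Finset.not_disjoint_iff.2 ⟨p, hpi, hpj⟩⟩
    rw [if_neg h1, if_neg h2, add_zero, add_zero]
    refine A3_disj N Q hQ P hP b s E hE fun i j hij => ?_
    by_contra hd
    exact h1 ⟨i, j, hij, hd⟩

private theorem A3_card (P : Finset ℕ) (hP : ∀ p ∈ P, p.Prime) (M : ℕ) :
    (P.powerset.filter fun E => PP E ≤ M).card ≤ M := by
  have h : Set.InjOn PP ((P.powerset.filter fun E => PP E ≤ M : Finset (Finset ℕ)) : Set (Finset ℕ)) := by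
    intro E hE F hF hEF
    have hE1 := Finset.mem_powerset.1 (Finset.mem_filter.1 hE).1
    have hF1 := Finset.mem_powerset.1 (Finset.mem_filter.1 hF).1
    have e1 : (PP E).primeFactors = E := Nat.primeFactors_prod fun p hp => hP p (hE1 hp)
    have e2 : (PP F).primeFactors = F := Nat.primeFactors_prod fun p hp => hP p (hF1 hp)
    rw [← e1, ← e2, hEF]
  calc (P.powerset.filter fun E => PP E ≤ M).card = ((P.powerset.filter fun E => PP E ≤ M).image PP).card :=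
        (Finset.card_image_of_injOn h).symm
    _ ≤ (Finset.Icc 1 M).card := by
        refine Finset.card_le_card fun x hx => ?_
        obtain ⟨E, hE, rfl⟩ := Finset.mem_image.1 hx
        obtain ⟨h1, h2⟩ := Finset.mem_filter.1 hE
        rw [Finset.mem_Icc]
        refine ⟨?_, h2⟩
        exact Finset.prod_pos fun p hp => (hP p (Finset.mem_powerset.1 h1 hp)).pos
    _ = M := by rw [Nat.card_Icc]; omega

open Classical in
private theorem A3_sum (N Q : ℕ) (hQ : 0 < Q) (P : Finset ℕ) (hP : ∀ p ∈ P, p.Prime ∧ 3 ≤ p ∧ ¬ p ∣ Q) (b : ℤ)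
    (s : Fin 4 → ℤ) (c : Fin 4 → Finset ℕ → ℝ) (hc : ∀ i E, |c i E| ≤ 1) (M : ℕ)
    (hM : ∀ i E, c i E ≠ 0 → PP E ≤ M) :
    |∑ E ∈ Fintype.piFinset (fun _ : Fin 4 => P.powerset), (∏ i, c i (E i)) * A3NE N Q b s E -
      ∑ E ∈ Fintype.piFinset (fun _ : Fin 4 => P.powerset), (∏ i, c i (E i)) *
        ((N : ℝ) / Q * ∏ i : Fin 4, ∏ p ∈ E i, 1 / (p : ℝ))| ≤
    (M : ℝ) ^ 4 + (N : ℝ) / Q *
      (∑ E ∈ (Fintype.piFinset (fun _ : Fin 4 => P.powerset)).filter A3b1, ∏ i : Fin 4, ∏ p ∈ E i, 1 / (p : ℝ)) +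
      (N : ℝ) / Q * ∑ E ∈ (Fintype.piFinset (fun _ : Fin 4 => P.powerset)).filter (A3b2 s),
        ∏ p ∈ univ.biUnion E, 1 / (p : ℝ) := by
  rw [← Finset.sum_sub_distrib]
  refine (Finset.abs_sum_le_sum_abs _ _).trans ?_
  have hr : 0 ≤ (N : ℝ) / Q := by positivity
  have h1 : ∀ E ∈ Fintype.piFinset (fun _ : Fin 4 => P.powerset),
      |(∏ i, c i (E i)) * A3NE N Q b s E - (∏ i, c i (E i)) *
        ((N : ℝ) / Q * ∏ i : Fin 4, ∏ p ∈ E i, 1 / (p : ℝ))| ≤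
      (if (∀ i, PP (E i) ≤ M) then 1 else 0) +
        (if A3b1 E then (N : ℝ) / Q * ∏ i, ∏ p ∈ E i, 1 / (p : ℝ) else 0) +
        (if A3b2 s E then (N : ℝ) / Q * ∏ p ∈ univ.biUnion E, 1 / (p : ℝ) else 0) := by
    intro E hE
    have hE' : ∀ i, E i ⊆ P := fun i => Finset.mem_powerset.1 (Fintype.mem_piFinset.1 hE i)
    have hb1 : 0 ≤ (if A3b1 E then (N : ℝ) / Q * ∏ i, ∏ p ∈ E i, 1 / (p : ℝ) else 0) := by
      split_ifs
      · exact mul_nonneg hr (Finset.prod_nonneg fun i _ => A3_prod_nonneg _)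
      · exact le_rfl
    have hb2 : 0 ≤ (if A3b2 s E then (N : ℝ) / Q * ∏ p ∈ univ.biUnion E, 1 / (p : ℝ) else 0) := by
      split_ifs
      · exact mul_nonneg hr (A3_prod_nonneg _)
      · exact le_rfl
    rw [← mul_sub, abs_mul]
    by_cases h2 : ∀ i, c i (E i) ≠ 0
    · rw [if_pos fun i => hM i _ (h2 i)]
      have h3 : |∏ i, c i (E i)| ≤ 1 := by
        rw [Finset.abs_prod]
        exact Finset.prod_le_one (fun i _ => abs_nonneg _) fun i _ => hc i _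
      calc |∏ i, c i (E i)| * |A3NE N Q b s E - (N : ℝ) / Q * ∏ i : Fin 4, ∏ p ∈ E i, 1 / (p : ℝ)| ≤
          1 * |A3NE N Q b s E - (N : ℝ) / Q * ∏ i : Fin 4, ∏ p ∈ E i, 1 / (p : ℝ)| :=
            mul_le_mul_of_nonneg_right h3 (abs_nonneg _)
        _ = |A3NE N Q b s E - (N : ℝ) / Q * ∏ i : Fin 4, ∏ p ∈ E i, 1 / (p : ℝ)| := one_mul _
        _ ≤ _ := A3_tuple N Q hQ P hP b s E hE'
    · push Not at h2
      obtain ⟨i, hi⟩ := h2
      rw [Finset.prod_eq_zero (Finset.mem_univ i) hi, abs_zero, zero_mul]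
      have hb0 : (0 : ℝ) ≤ (if (∀ i, PP (E i) ≤ M) then 1 else 0) := by
        split_ifs
        · exact zero_le_one
        · exact le_rfl
      linarith
  refine (Finset.sum_le_sum h1).trans ?_
  rw [Finset.sum_add_distrib, Finset.sum_add_distrib]
  have h4 : ∑ E ∈ Fintype.piFinset (fun _ : Fin 4 => P.powerset), (if (∀ i, PP (E i) ≤ M) then (1 : ℝ) else 0) ≤
      (M : ℝ) ^ 4 := by
    rw [← Finset.sum_filter, Finset.sum_const, nsmul_eq_mul, mul_one]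
    have h5 : ((Fintype.piFinset (fun _ : Fin 4 => P.powerset)).filter fun E => ∀ i, PP (E i) ≤ M) ⊆
        Fintype.piFinset (fun _ : Fin 4 => P.powerset.filter fun E => PP E ≤ M) := by
      intro E hE
      obtain ⟨h6, h7⟩ := Finset.mem_filter.1 hE
      refine Fintype.mem_piFinset.2 fun i => ?_
      exact Finset.mem_filter.2 ⟨Fintype.mem_piFinset.1 h6 i, h7 i⟩
    have h8 := Finset.card_le_card h5
    rw [Fintype.card_piFinset_const] at h8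
    have h9 : (P.powerset.filter fun E => PP E ≤ M).card ^ 4 ≤ M ^ 4 :=
      Nat.pow_le_pow_left (A3_card P (fun p hp => (hP p hp).1) M) 4
    exact_mod_cast h8.trans h9
  have h5 : ∑ E ∈ Fintype.piFinset (fun _ : Fin 4 => P.powerset),
      (if A3b1 E then (N : ℝ) / Q * ∏ i, ∏ p ∈ E i, 1 / (p : ℝ) else 0) = (N : ℝ) / Q *
      (∑ E ∈ (Fintype.piFinset (fun _ : Fin 4 => P.powerset)).filter A3b1, ∏ i : Fin 4, ∏ p ∈ E i, 1 / (p : ℝ)) := by
    rw [← Finset.sum_filter, Finset.mul_sum]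
  have h6 : ∑ E ∈ Fintype.piFinset (fun _ : Fin 4 => P.powerset),
      (if A3b2 s E then (N : ℝ) / Q * ∏ p ∈ univ.biUnion E, 1 / (p : ℝ) else 0) =
      (N : ℝ) / Q * ∑ E ∈ (Fintype.piFinset (fun _ : Fin 4 => P.powerset)).filter (A3b2 s),
        ∏ p ∈ univ.biUnion E, 1 / (p : ℝ) := by
    rw [← Finset.sum_filter, Finset.mul_sum]
  rw [h5, h6]
  linarith

/-- the number of prime divisors in `P` of a nonzero integer -/
private theorem A3_div (P : Finset ℕ) (hP : ∀ p ∈ P, p.Prime) (t : ℤ) (ht : t ≠ 0) (X : ℕ) (hX : 1 ≤ X)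
    (h : |t| ≤ 2 * (X : ℤ) ^ 2) : ((P.filter (fun p : ℕ => (p : ℤ) ∣ t)).card : ℕ) ≤ Nat.log 2 (2 * X ^ 2) := by
  set F := P.filter (fun p : ℕ => (p : ℤ) ∣ t) with hF
  have h1 : ∏ p ∈ F, p ∣ t.natAbs := by
    refine Finset.prod_primes_dvd _ (fun p hp => (hP p (Finset.mem_filter.1 hp).1).prime) fun p hp => ?_
    exact Int.natCast_dvd.1 (Finset.mem_filter.1 hp).2
  have h2 : t.natAbs ≤ 2 * X ^ 2 := by
    zify
    exact h
  have h3 : 2 ^ F.card ≤ 2 * X ^ 2 := by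
    calc 2 ^ F.card = ∏ _p ∈ F, 2 := by rw [Finset.prod_const]
      _ ≤ ∏ p ∈ F, p := Finset.prod_le_prod' fun p hp => (hP p (Finset.mem_filter.1 hp).1).two_le
      _ ≤ t.natAbs := Nat.le_of_dvd (Int.natAbs_pos.2 ht) h1
      _ ≤ 2 * X ^ 2 := h2
  exact Nat.le_log_of_pow_le (by norm_num) h3

private theorem A3_VV1 (P : Finset ℕ) (hP : ∀ p ∈ P, p.Prime) :
    ∏ p ∈ P, (1 + 1 / (p : ℝ)) ^ 4 ≤ ((VV P)⁻¹) ^ 4 := by
  rw [Finset.prod_pow]
  refine pow_le_pow_left₀ (Finset.prod_nonneg fun p _ => by positivity) ?_ 4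
  unfold VV
  rw [← Finset.prod_inv_distrib]
  refine Finset.prod_le_prod (fun p _ => by positivity) fun p hp => ?_
  have h2 : (2 : ℝ) ≤ p := by exact_mod_cast (hP p hp).two_le
  have hx : 1 / (p : ℝ) ≤ 1 / 2 := one_div_le_one_div_of_le two_pos h2
  have hx0 : 0 ≤ 1 / (p : ℝ) := by positivity
  rw [← one_div, le_div_iff₀ (by linarith)]
  nlinarith

private theorem A3_VV2 (P : Finset ℕ) (hP : ∀ p ∈ P, p.Prime) :
    ∏ p ∈ P, (1 + 15 / (p : ℝ)) ≤ ((VV P)⁻¹) ^ 15 := by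
  unfold VV
  rw [← Finset.prod_inv_distrib, ← Finset.prod_pow]
  refine Finset.prod_le_prod (fun p _ => by positivity) fun p hp => ?_
  have h2 : (2 : ℝ) ≤ p := by exact_mod_cast (hP p hp).two_le
  have hx : 1 / (p : ℝ) ≤ 1 / 2 := one_div_le_one_div_of_le two_pos h2
  have hx0 : 0 ≤ 1 / (p : ℝ) := by positivity
  have h3 : 1 + 1 / (p : ℝ) ≤ (1 - 1 / (p : ℝ))⁻¹ := by
    rw [← one_div (1 - 1 / (p : ℝ)), le_div_iff₀ (by linarith)]
    nlinarith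
  have h4 := one_add_mul_le_pow (a := 1 / (p : ℝ)) (by linarith) 15
  calc 1 + 15 / (p : ℝ) = 1 + ((15 : ℕ) : ℝ) * (1 / (p : ℝ)) := by push_cast; ring
    _ ≤ (1 + 1 / (p : ℝ)) ^ 15 := h4
    _ ≤ ((1 - 1 / (p : ℝ))⁻¹) ^ 15 := pow_le_pow_left₀ (by linarith) h3 15

/-- Linear forms estimate with arbitrary bounded coefficients.

Proof. `P = sprimes Z z`, `N = pr X`. Expand the product over `i` into a sum over the tuples `E ∈ piFinset P.powerset` of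
`∏ c i (E i)` times `N_E = #{n < N : Q ∣ n - b, ∀ i, ∀ p ∈ E i, p ∣ 2n - s i}`. Only tuples with `PP (E i) ≤ z^K` count; their number is
`≤ (z^K)^4` (`E ↦ PP E` is injective on sets of primes) `≤ X^(1/4)`. If the `E i` are pairwise disjoint then
`|N_E - (N/Q) ∏ ∏ 1/p| ≤ 1` by `A3a` (`U = ⋃ E i`; `p > Z` so `p ∤ Q`, `p ≥ 3`). If not, `N_E = 0` unless `p ∣ s i - s j`
for every common prime `p` of `E i`, `E j`, and in this case `N_E ≤ (N/Q) ∏_{p ∈ ⋃ E i} 1/p + 1` (`A3a` with `c p = s i` for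
some `i` with `p ∈ E i`). So the left side is `≤ X^(1/4) + (N/Q) (A3b-sum + A3c-sum)`, where `m` is at most
`log_2 (2 X²) ≤ 4 log X` (the non-zero integer `s i - s j` has absolute value `≤ 2 X²` and its prime divisors are `≥ 2`).
`∏ (1 + 1/q)^4 ≤ (VV P)^(-4)`, `∏ (1 + 15/q) ≤ (VV P)^(-15)` (`1 + 15 x ≤ (1 - x)^(-15)`), and `(VV P)⁻¹ ≤ C log X` (`M2`).
Finally `X^(1/4) ≤ (N/Q)/Z` because `N/(Q Z) ≥ X^(1/2)`. So `C = 20` works for large `X`. -/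
theorem A3 (K : ℕ) : ∃ C : ℕ, ∃ X0 : ℕ, ∀ X : ℕ, X0 ≤ X → ∀ Z z Q : ℕ, 6 ≤ Z →
    (Z : ℝ) ≤ (X : ℝ) ^ (1 / 4 : ℝ) → z ^ (16 * (K + 1)) ≤ X → 0 < Q → (Q : ℝ) ≤ (X : ℝ) ^ (1 / 4 : ℝ) →
    (∀ p : ℕ, p.Prime → p ∣ Q → p ≤ Z) → ∀ b : ℤ, ∀ s : Fin 4 → ℤ, Function.Injective s →
    (∀ i, |s i| ≤ (X : ℤ) ^ 2) → ∀ c : Fin 4 → Finset ℕ → ℝ, (∀ i E, |c i E| ≤ 1) →
    (∀ i E, c i E ≠ 0 → PP E ≤ z ^ K) →
    |∑ n ∈ (range (pr X)).filter (fun n : ℕ => (Q : ℤ) ∣ (n : ℤ) - b),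
        ∏ i : Fin 4, ∑ E ∈ (sprimes Z z).powerset, c i E * ∏ p ∈ E, dv p (2 * (n : ℤ) - s i)
      - (pr X : ℝ) / Q * ∏ i : Fin 4, ∑ E ∈ (sprimes Z z).powerset, c i E * ∏ p ∈ E, 1 / (p : ℝ)| ≤
      (pr X : ℝ) / Q * (Real.log X) ^ C / Z := by
  classical
  obtain ⟨C0, hC0, -, hM2⟩ := M2
  refine ⟨17, max 3 ⌈Real.exp (407 * C0 ^ 15)⌉₊, ?_⟩
  intro X hX Z z Q hZ hZX hzX hQ hQX hQp b s hs hsX c hc hcs
  have hX3 : 3 ≤ X := (le_max_left _ _).trans hX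
  have hXr : (3 : ℝ) ≤ X := by exact_mod_cast hX3
  have hX0 : (0 : ℝ) < X := by linarith
  have hL : 407 * C0 ^ 15 ≤ Real.log X := by
    rw [Real.le_log_iff_exp_le hX0]
    exact (Nat.le_ceil _).trans (by exact_mod_cast (le_max_right _ _).trans hX)
  have hC15 : 1 ≤ C0 ^ 15 := one_le_pow₀ hC0
  have hL1 : 1 ≤ Real.log X := by linarith
  set L := Real.log X with hLdef
  set P := sprimes Z z with hPdef
  have hPm : ∀ p ∈ P, p.Prime ∧ Z < p ∧ p ≤ z := fun p hp => mem_sprimes.1 hp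
  have hPp : ∀ p ∈ P, p.Prime := fun p hp => (hPm p hp).1
  have hP : ∀ p ∈ P, p.Prime ∧ 3 ≤ p ∧ ¬ p ∣ Q := by
    intro p hp
    obtain ⟨h1, h2, h3⟩ := hPm p hp
    refine ⟨h1, by omega, fun h4 => ?_⟩
    have h5 := hQp p h1 h4
    omega
  have hzX' : z ≤ X := by
    rcases Nat.eq_zero_or_pos z with h | h
    · omega
    · calc z = z ^ 1 := (pow_one z).symm
        _ ≤ z ^ (16 * (K + 1)) := Nat.pow_le_pow_right h (by omega)
        _ ≤ X := hzX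
  obtain ⟨hV1, hV2, hV3⟩ := hM2 X P (by omega) fun p hp => ⟨hPp p hp, (hPm p hp).2.2.trans hzX'⟩
  rw [A3_expand, A3_expand']
  refine (A3_sum (pr X) Q hQ P hP b s c hc (z ^ K) hcs).trans ?_
  have hZ0 : (0 : ℝ) < Z := by exact_mod_cast (by omega : 0 < Z)
  have hQ0 : (0 : ℝ) < Q := by exact_mod_cast hQ
  have hr : 0 ≤ (pr X : ℝ) / Q := by positivity
  -- first term
  have t1 : (((z ^ K : ℕ) : ℝ)) ^ 4 ≤ (pr X : ℝ) / Q * 1 / Z := by
    have h1 : (((z ^ K : ℕ) : ℝ)) ^ 4 ≤ (X : ℝ) ^ (1 / 4 : ℝ) := by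
      have h2 : ((((z ^ K : ℕ) : ℝ)) ^ 4) ^ 4 ≤ (X : ℝ) := by
        have h3 : ((z ^ K) ^ 4) ^ 4 ≤ X := by
          rcases Nat.eq_zero_or_pos z with h | h
          · rw [h]
            rcases Nat.eq_zero_or_pos K with h' | h'
            · rw [h']
              simp
              omega
            · rw [zero_pow (by omega)]
              simp
          · calc ((z ^ K) ^ 4) ^ 4 = z ^ (16 * K) := by rw [← pow_mul, ← pow_mul]; congr 1; ring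
              _ ≤ z ^ (16 * (K + 1)) := Nat.pow_le_pow_right h (by omega)
              _ ≤ X := hzX
        exact_mod_cast h3
      rw [one_div, Real.le_rpow_inv_iff_of_pos (by positivity) hX0.le (by norm_num)]
      exact_mod_cast h2
    have h4 : (X : ℝ) ≤ pr X := by exact_mod_cast pr_strictMono.le_apply
    rw [mul_one, div_div, le_div_iff₀ (by positivity)]
    calc (((z ^ K : ℕ) : ℝ)) ^ 4 * ((Q : ℝ) * Z) ≤
        (X : ℝ) ^ (1 / 4 : ℝ) * ((X : ℝ) ^ (1 / 4 : ℝ) * (X : ℝ) ^ (1 / 4 : ℝ)) := by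
          refine mul_le_mul h1 (mul_le_mul hQX hZX hZ0.le (by positivity)) (by positivity) (by positivity)
      _ = (X : ℝ) ^ (3 / 4 : ℝ) := by
          rw [← Real.rpow_add hX0, ← Real.rpow_add hX0]
          norm_num
      _ ≤ (X : ℝ) ^ (1 : ℝ) := Real.rpow_le_rpow_of_exponent_le (by linarith) (by norm_num)
      _ = X := Real.rpow_one _
      _ ≤ pr X := h4
  have t2 := A3b Z (by omega) P fun p hp => (hPm p hp).2.1
  have t2' := A3_VV1 P hPp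
  have t3 := A3c Z (Nat.log 2 (2 * X ^ 2)) (by omega) P (fun p hp => (hPm p hp).2.1) s (by
    intro i j hij
    refine A3_div P hPp (s i - s j) (sub_ne_zero.2 fun h => hij (hs h)) X (by omega) ?_
    calc |s i - s j| ≤ |s i| + |s j| := abs_sub _ _
      _ ≤ (X : ℤ) ^ 2 + (X : ℤ) ^ 2 := add_le_add (hsX i) (hsX j)
      _ = 2 * (X : ℤ) ^ 2 := by ring)
  have t3' := A3_VV2 P hPp
  have hV0 : 0 ≤ (VV P)⁻¹ := by linarith
  have hm : ((Nat.log 2 (2 * X ^ 2) : ℕ) : ℝ) ≤ 4 * L := by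
    have h1 : (2 : ℝ) ^ (Nat.log 2 (2 * X ^ 2)) ≤ 2 * (X : ℝ) ^ 2 := by
      have := Nat.pow_log_le_self 2 (x := 2 * X ^ 2) (by positivity)
      exact_mod_cast this
    have h2 := Real.log_le_log (by positivity) h1
    rw [Real.log_pow, Real.log_mul (by norm_num) (by positivity), Real.log_pow] at h2
    have h3 : (0.6931471803 : ℝ) < Real.log 2 := Real.log_two_gt_d9
    have h4 : Real.log 2 < 0.6931471808 := Real.log_two_lt_d9
    push_cast at h2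
    by_contra hcon
    push Not at hcon
    nlinarith
  have hCL : (VV P)⁻¹ ≤ C0 * L := hV3
  have hCL0 : 0 ≤ C0 * L := by positivity
  have e1 : ((VV P)⁻¹) ^ 4 ≤ C0 ^ 15 * L ^ 16 := by
    calc ((VV P)⁻¹) ^ 4 ≤ (C0 * L) ^ 4 := pow_le_pow_left₀ hV0 hCL 4
      _ = C0 ^ 4 * L ^ 4 := by ring
      _ ≤ C0 ^ 15 * L ^ 16 :=
        mul_le_mul (pow_le_pow_right₀ hC0 (by norm_num)) (pow_le_pow_right₀ hL1 (by norm_num)) (by positivity)
          (by positivity)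
  have e2 : ((VV P)⁻¹) ^ 15 ≤ C0 ^ 15 * L ^ 15 := by
    calc ((VV P)⁻¹) ^ 15 ≤ (C0 * L) ^ 15 := pow_le_pow_left₀ hV0 hCL 15
      _ = C0 ^ 15 * L ^ 15 := by ring
  have s1 : ∑ E ∈ (Fintype.piFinset (fun _ : Fin 4 => P.powerset)).filter A3b1,
      ∏ i : Fin 4, ∏ p ∈ E i, 1 / (p : ℝ) ≤ 6 / Z * (C0 ^ 15 * L ^ 16) := by
    refine le_trans (le_of_eq ?_) (t2.trans (mul_le_mul_of_nonneg_left (t2'.trans e1) (by positivity)))
    refine Finset.sum_congr ?_ fun _ _ => rfl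
    ext E
    simp only [Finset.mem_filter, A3b1]
  have s2 : ∑ E ∈ (Fintype.piFinset (fun _ : Fin 4 => P.powerset)).filter (A3b2 s),
      ∏ p ∈ univ.biUnion E, 1 / (p : ℝ) ≤ 100 * (4 * L) / Z * (C0 ^ 15 * L ^ 15) := by
    refine le_trans (le_of_eq ?_) (t3.trans (mul_le_mul ?_ (t3'.trans e2)
      (Finset.prod_nonneg fun p _ => by positivity) (by positivity)))
    · refine Finset.sum_congr ?_ fun _ _ => rfl
      ext E
      simp only [Finset.mem_filter, A3b2]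
    · exact div_le_div_of_nonneg_right (mul_le_mul_of_nonneg_left hm (by norm_num)) hZ0.le
  have s1' := mul_le_mul_of_nonneg_left s1 hr
  have s2' := mul_le_mul_of_nonneg_left s2 hr
  have hfin : (pr X : ℝ) / Q * 1 / Z + (pr X : ℝ) / Q * (6 / Z * (C0 ^ 15 * L ^ 16)) +
      (pr X : ℝ) / Q * (100 * (4 * L) / Z * (C0 ^ 15 * L ^ 15)) ≤ (pr X : ℝ) / Q * L ^ 17 / Z := by
    have e3 : (pr X : ℝ) / Q * 1 / Z + (pr X : ℝ) / Q * (6 / Z * (C0 ^ 15 * L ^ 16)) +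
        (pr X : ℝ) / Q * (100 * (4 * L) / Z * (C0 ^ 15 * L ^ 15)) =
        (pr X : ℝ) / Q * (1 + 406 * (C0 ^ 15 * L ^ 16)) / Z := by ring
    rw [e3]
    refine div_le_div_of_nonneg_right (mul_le_mul_of_nonneg_left ?_ hr) hZ0.le
    have e4 : 1 ≤ C0 ^ 15 * L ^ 16 := one_le_mul_of_one_le_of_one_le hC15 (one_le_pow₀ hL1)
    calc 1 + 406 * (C0 ^ 15 * L ^ 16) ≤ (407 * C0 ^ 15) * L ^ 16 := by linarith
      _ ≤ L * L ^ 16 := mul_le_mul_of_nonneg_right hL (by positivity)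
      _ = L ^ 17 := by ring
  linarith

end Pool.Agent.Lib.H16X
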