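import Pool.Agent.Lib.H16X.D
import Pool.Agent.Lib.H16X.M2
import Pool.Agent.Lib.H16X.P1
import Pool.Agent.Lib.H16X.A2
import Pool.Agent.Lib.H16X.A3

/-!
# H16X: four-fold products of FA
-/

set_option linter.unusedVariables false

namespace Pool.Agent.Lib.H16X

open Finset Pool.Agent.Lib.Sieve

private theorem a4_nu_bd (B : Finset ℕ) (hB : ∀ p ∈ B, p.Prime) (a : ℤ) :
    0 ≤ nu B a ∧ nu B a ≤ (VV B)⁻¹ := by
  have hpos : ∀ p ∈ B, (0 : ℝ) < (1 - 1 / (p : ℝ))⁻¹ := by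
    intro p hp
    have h1 : (2 : ℝ) ≤ p := by exact_mod_cast (hB p hp).two_le
    have h2 : 1 / (p : ℝ) ≤ 1 / 2 := one_div_le_one_div_of_le (by norm_num) h1
    rw [inv_pos]
    linarith
  constructor
  · unfold nu
    refine prod_nonneg fun p hp => ?_
    split_ifs
    · exact le_rfl
    · exact (hpos p hp).le
  · unfold nu VV
    rw [← prod_inv_distrib]
    refine prod_le_prod (fun p hp => ?_) (fun p hp => ?_)
    · split_ifs
      · exact le_rfl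
      · exact (hpos p hp).le
    · split_ifs
      · exact (hpos p hp).le
      · exact le_rfl

private theorem a4_per (B : Finset ℕ) (a b t : ℤ) (hab : ((PP B : ℕ) : ℤ) ∣ a - b) :
    nu B (2 * a - t) = nu B (2 * b - t) := by
  unfold nu
  refine prod_congr rfl fun q hq => ?_
  have h1 : (q : ℤ) ∣ (PP B : ℤ) := by
    unfold PP
    exact_mod_cast dvd_prod_of_mem (fun p : ℕ => p) hq
  have h2 : (q : ℤ) ∣ a - b := h1.trans hab
  have h3 : (q : ℤ) ∣ (2 * a - t) - (2 * b - t) := by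
    have : (2 * a - t) - (2 * b - t) = 2 * (a - b) := by ring
    rw [this]
    exact Dvd.dvd.mul_left h2 2
  have h4 : (q : ℤ) ∣ 2 * a - t ↔ (q : ℤ) ∣ 2 * b - t := by
    constructor
    · intro h
      have := dvd_sub h h3
      rwa [sub_sub_cancel] at this
    · intro h
      have := dvd_add h3 h
      rwa [sub_add_cancel] at this
  by_cases hc : (q : ℤ) ∣ 2 * b - t
  · rw [if_pos hc, if_pos (h4.2 hc)]
  · rw [if_neg hc, if_neg (fun h => hc (h4.1 h))]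

private theorem a4_class (N Q : ℕ) (hQ : 0 < Q) (f : ℕ → ℝ) :
    ∑ n ∈ range N, f n = ∑ b ∈ range Q, ∑ n ∈ (range N).filter (fun n : ℕ => (Q : ℤ) ∣ (n : ℤ) - b), f n := by
  classical
  rw [← sum_fiberwise_of_maps_to (s := range N) (t := range Q) (g := fun n => n % Q)
    (fun n _ => mem_range.2 (Nat.mod_lt _ hQ)) f]
  refine sum_congr rfl fun b hb => ?_
  have hb' := mem_range.1 hb
  refine sum_congr ?_ fun _ _ => rfl
  refine filter_congr fun n _ => ?_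
  constructor
  · intro h
    have h1 : n ≡ b [MOD Q] := by
      show n % Q = b % Q
      rw [h, Nat.mod_eq_of_lt hb']
    rw [dvd_sub_comm]
    exact Nat.modEq_iff_dvd.1 h1
  · intro h
    rw [dvd_sub_comm] at h
    have h1 : n ≡ b [MOD Q] := Nat.modEq_iff_dvd.2 h
    have h2 : n % Q = b % Q := h1
    rwa [Nat.mod_eq_of_lt hb'] at h2

/-- The four-fold product of `FA` at four distinct shifts is small on average.

Proof. `nA lam Z z a - 1 = (1/M) Σ_{E ⊆ P} c E ∏_{p ∈ E} dv p a`, `M = MA lam Z z`, `P = sprimes Z z`, `c E = lam E` for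
`E ≠ ∅`, `c ∅ = 1 - M` (`|1 - M| ≤ 1` by `A2`), and `Σ_E c E ∏ 1/p = M - M = 0`: the main term in `A3` vanishes. Put
`Q = PP B`. Sum over the residues `b ∈ range Q`: on the class of `b` the factor `∏_i nu B (2n - s i)` is constant and
`≤ (VV B)^(-4) ≤ (C log X)^4` (`M2`), and by `A3` the rest is `≤ M^(-4) (pr X / Q) (log X)^C / Z`,
`M⁻¹ ≤ (VV P)⁻¹ ≤ C log X`. The `Q` classes together give `pr X (log X)^(C+9) / Z`. -/
theorem A4 (K : ℕ) : ∃ C : ℕ, ∃ X0 : ℕ, ∀ X : ℕ, X0 ≤ X → ∀ Z z : ℕ, 6 ≤ Z →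
    (Z : ℝ) ≤ (X : ℝ) ^ (1 / 4 : ℝ) → z ^ (16 * (K + 1)) ≤ X → ∀ lam : Finset ℕ → ℝ, IsLam K z lam →
    ∀ B : Finset ℕ, (∀ p ∈ B, p.Prime ∧ 3 ≤ p ∧ p ≤ Z) → (PP B : ℝ) ≤ (X : ℝ) ^ (1 / 4 : ℝ) →
    ∀ s : Fin 4 → ℤ, Function.Injective s → (∀ i, |s i| ≤ (X : ℤ) ^ 2) →
    |∑ n ∈ range (pr X), ∏ i : Fin 4, FA lam Z z B (2 * (n : ℤ) - s i)| ≤
      (pr X : ℝ) * (Real.log X) ^ C / Z := by
  classical
  obtain ⟨C3, X3, h3⟩ := A3 K
  obtain ⟨C2, hC2, -, hM2⟩ := M2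
  obtain ⟨X1, hX1⟩ := exists_nat_ge (Real.exp (C2 ^ 8))
  refine ⟨C3 + 9, max X3 (max X1 2), ?_⟩
  intro X hX Z z hZ hZX hzX lam hlam B hB hBX s hs hsX
  have hX3 : X3 ≤ X := (le_max_left _ _).trans hX
  have hX1' : X1 ≤ X := ((le_max_left _ _).trans (le_max_right _ _)).trans hX
  have hX2 : 2 ≤ X := ((le_max_right _ _).trans (le_max_right _ _)).trans hX
  have hXR : (1 : ℝ) ≤ X := by exact_mod_cast (by omega : 1 ≤ X)
  have hX14 : (X : ℝ) ^ (1 / 4 : ℝ) ≤ X := by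
    calc (X : ℝ) ^ (1 / 4 : ℝ) ≤ (X : ℝ) ^ (1 : ℝ) := Real.rpow_le_rpow_of_exponent_le hXR (by norm_num)
      _ = X := Real.rpow_one _
  have hZX' : Z ≤ X := by exact_mod_cast hZX.trans hX14
  have hzX' : z ≤ X := by
    rcases Nat.eq_zero_or_pos z with h0 | h0
    · omega
    · calc z = z ^ 1 := (pow_one z).symm
        _ ≤ z ^ (16 * (K + 1)) := Nat.pow_le_pow_right h0 (by omega)
        _ ≤ X := hzX
  have hlog : C2 ^ 8 ≤ Real.log X := by
    have h5 : Real.exp (C2 ^ 8) ≤ X := hX1.trans (by exact_mod_cast hX1')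
    calc C2 ^ 8 = Real.log (Real.exp (C2 ^ 8)) := (Real.log_exp _).symm
      _ ≤ Real.log X := Real.log_le_log (Real.exp_pos _) h5
  have hC28 : (1 : ℝ) ≤ C2 ^ 8 := one_le_pow₀ hC2
  have hlog1 : 1 ≤ Real.log X := hC28.trans hlog
  obtain ⟨hM1, -, hM0, hM2', -, -⟩ := A2 K z Z lam hlam hZ
  have hBp : ∀ p ∈ B, p.Prime := fun p hp => (hB p hp).1
  obtain ⟨hB0, hB1, hB2⟩ := hM2 X B hX2 (fun p hp => ⟨(hB p hp).1, (hB p hp).2.2.trans hZX'⟩)
  obtain ⟨hP0, hP1, hP2⟩ := hM2 X (sprimes Z z) hX2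
    (fun p hp => ⟨(mem_sprimes.1 hp).1, (mem_sprimes.1 hp).2.2.trans hzX'⟩)
  have hMinv : (MA lam Z z)⁻¹ ≤ C2 * Real.log X := (inv_anti₀ hP0 hM1).trans hP2
  have hMinv0 : 0 < (MA lam Z z)⁻¹ := inv_pos.2 hM0
  set c : Finset ℕ → ℝ := fun E => lam E - if E = ∅ then MA lam Z z else 0 with hcdef
  have hc1 : ∀ E, |c E| ≤ 1 := by
    intro E
    simp only [hcdef]
    split_ifs with h
    · rw [h, hlam.empty, abs_le]
      constructor <;> linarith
    · rw [sub_zero]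
      exact hlam.abs_le E
  have hcs : ∀ E, c E ≠ 0 → PP E ≤ z ^ K := by
    intro E hE
    simp only [hcdef] at hE
    by_cases h : E = ∅
    · rw [h]
      exact (hlam.supp ∅ (by rw [hlam.empty]; exact one_ne_zero)).2
    · rw [if_neg h, sub_zero] at hE
      exact (hlam.supp E hE).2
  have hsplit : ∀ w : Finset ℕ → ℝ, w ∅ = 1 → ∑ E ∈ (sprimes Z z).powerset, c E * w E =
      ∑ E ∈ (sprimes Z z).powerset, lam E * w E - MA lam Z z := by
    intro w hw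
    simp only [hcdef, sub_mul]
    rw [sum_sub_distrib]
    congr 1
    rw [sum_eq_single_of_mem ∅ (empty_mem_powerset _)]
    · rw [if_pos rfl, hw, mul_one]
    · intro E _ hE
      rw [if_neg hE, zero_mul]
  have hc0 : ∑ E ∈ (sprimes Z z).powerset, c E * ∏ p ∈ E, 1 / (p : ℝ) = 0 := by
    rw [hsplit (fun E => ∏ p ∈ E, 1 / (p : ℝ)) (by simp)]
    exact sub_self _
  have hR : ∀ a : ℤ, nA lam Z z a - 1 =
      (MA lam Z z)⁻¹ * ∑ E ∈ (sprimes Z z).powerset, c E * ∏ p ∈ E, dv p a := by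
    intro a
    rw [hsplit (fun E => ∏ p ∈ E, dv p a) (by simp)]
    unfold nA
    field_simp
  have hQ0 : 0 < PP B := by
    unfold PP
    exact prod_pos fun q hq => (hBp q hq).pos
  have hQR : (0 : ℝ) < (PP B : ℝ) := by exact_mod_cast hQ0
  have hQp : ∀ p : ℕ, p.Prime → p ∣ PP B → p ≤ Z := by
    intro p hp hd
    unfold PP at hd
    obtain ⟨q, hq, hpq⟩ := (Prime.dvd_finsetProd_iff hp.prime (fun p : ℕ => p)).1 hd
    have : p = q := (Nat.prime_dvd_prime_iff_eq hp (hBp q hq)).1 hpq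
    rw [this]
    exact (hB q hq).2.2
  have key : ∀ b : ℤ, |∑ n ∈ (range (pr X)).filter (fun n : ℕ => ((PP B : ℕ) : ℤ) ∣ (n : ℤ) - b),
      ∏ i : Fin 4, ∑ E ∈ (sprimes Z z).powerset, c E * ∏ p ∈ E, dv p (2 * (n : ℤ) - s i)| ≤
      (pr X : ℝ) / (PP B : ℝ) * (Real.log X) ^ C3 / Z := by
    intro b
    have h6 := h3 X hX3 Z z (PP B) hZ hZX hzX hQ0 hBX hQp b s hs hsX (fun _ => c) (fun _ => hc1)
      (fun _ => hcs)
    have h7 : ∏ i : Fin 4, ∑ E ∈ (sprimes Z z).powerset, (fun _ : Fin 4 => c) i E *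
        ∏ p ∈ E, 1 / (p : ℝ) = 0 := prod_eq_zero (mem_univ (0 : Fin 4)) hc0
    rw [h7, mul_zero, sub_zero] at h6
    exact h6
  rw [a4_class (pr X) (PP B) hQ0 (fun n => ∏ i : Fin 4, FA lam Z z B (2 * (n : ℤ) - s i))]
  have hcls : ∀ b ∈ range (PP B),
      |∑ n ∈ (range (pr X)).filter (fun n : ℕ => ((PP B : ℕ) : ℤ) ∣ (n : ℤ) - b),
        ∏ i : Fin 4, FA lam Z z B (2 * (n : ℤ) - s i)| ≤
      (C2 * Real.log X) ^ 8 * ((pr X : ℝ) / (PP B : ℝ) * (Real.log X) ^ C3 / Z) := by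
    intro b _
    have e1 : ∑ n ∈ (range (pr X)).filter (fun n : ℕ => ((PP B : ℕ) : ℤ) ∣ (n : ℤ) - b),
        ∏ i : Fin 4, FA lam Z z B (2 * (n : ℤ) - s i) =
        ((∏ i : Fin 4, nu B (2 * (b : ℤ) - s i)) * ((MA lam Z z)⁻¹) ^ 4) *
        ∑ n ∈ (range (pr X)).filter (fun n : ℕ => ((PP B : ℕ) : ℤ) ∣ (n : ℤ) - b),
          ∏ i : Fin 4, ∑ E ∈ (sprimes Z z).powerset, c E * ∏ p ∈ E, dv p (2 * (n : ℤ) - s i) := by
      rw [mul_sum]
      refine sum_congr rfl fun n hn => ?_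
      have hnb := (mem_filter.1 hn).2
      have e2 : ∀ i : Fin 4, FA lam Z z B (2 * (n : ℤ) - s i) = nu B (2 * (b : ℤ) - s i) *
          ((MA lam Z z)⁻¹ * ∑ E ∈ (sprimes Z z).powerset, c E * ∏ p ∈ E, dv p (2 * (n : ℤ) - s i)) := by
        intro i
        unfold FA
        rw [hR, a4_per B n b (s i) hnb]
      rw [prod_congr rfl fun i _ => e2 i, prod_mul_distrib, prod_mul_distrib, prod_const, card_univ,
        Fintype.card_fin]
      ring
    rw [e1, abs_mul, abs_mul]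
    have e3 : |∏ i : Fin 4, nu B (2 * (b : ℤ) - s i)| ≤ (C2 * Real.log X) ^ 4 := by
      rw [abs_of_nonneg (prod_nonneg fun i _ => (a4_nu_bd B hBp _).1)]
      calc ∏ i : Fin 4, nu B (2 * (b : ℤ) - s i) ≤ ∏ _i : Fin 4, (C2 * Real.log X) :=
            prod_le_prod (fun i _ => (a4_nu_bd B hBp _).1) (fun i _ => (a4_nu_bd B hBp _).2.trans hB2)
        _ = (C2 * Real.log X) ^ 4 := by rw [prod_const, card_univ, Fintype.card_fin]
    have e4 : |((MA lam Z z)⁻¹) ^ 4| ≤ (C2 * Real.log X) ^ 4 := by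
      rw [abs_of_nonneg (by positivity)]
      exact pow_le_pow_left₀ hMinv0.le hMinv 4
    have e5 : (0 : ℝ) ≤ C2 * Real.log X := by positivity
    calc |∏ i : Fin 4, nu B (2 * (b : ℤ) - s i)| * |((MA lam Z z)⁻¹) ^ 4| * _
        ≤ ((C2 * Real.log X) ^ 4 * (C2 * Real.log X) ^ 4) *
          ((pr X : ℝ) / (PP B : ℝ) * (Real.log X) ^ C3 / Z) :=
          mul_le_mul (mul_le_mul e3 e4 (abs_nonneg _) (by positivity)) (key b) (abs_nonneg _)
            (by positivity)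
      _ = _ := by rw [← pow_add]
  calc |∑ b ∈ range (PP B), _| ≤ ∑ b ∈ range (PP B), |_| := abs_sum_le_sum_abs _ _
    _ ≤ ∑ b ∈ range (PP B), (C2 * Real.log X) ^ 8 * ((pr X : ℝ) / (PP B : ℝ) * (Real.log X) ^ C3 / Z) :=
        sum_le_sum hcls
    _ = C2 ^ 8 * ((pr X : ℝ) * (Real.log X) ^ (C3 + 8) / Z) := by
        rw [sum_const, card_range, nsmul_eq_mul, mul_pow, pow_add]
        field_simp
    _ ≤ Real.log X * ((pr X : ℝ) * (Real.log X) ^ (C3 + 8) / Z) :=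
        mul_le_mul_of_nonneg_right hlog (by positivity)
    _ = (pr X : ℝ) * (Real.log X) ^ (C3 + 9) / Z := by
        rw [pow_succ (Real.log X) (C3 + 8)]
        ring

end Pool.Agent.Lib.H16X
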