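import Pool.Agent.Lib.H16X.D
import Pool.Agent.Lib.H16X.M2
import Pool.Agent.Lib.H16X.P1
import Pool.Agent.Lib.H16X.A2
import Pool.Agent.Lib.H16X.A4

/-!
# H16X: mean square of the inner sum, last scale
-/

set_option linter.unusedVariables false

namespace Pool.Agent.Lib.H16X

open Finset Pool.Agent.Lib.Sieve

private theorem a5_nu_bd (B : Finset ℕ) (hB : ∀ p ∈ B, p.Prime) (a : ℤ) :
    0 ≤ nu B a ∧ nu B a ≤ (VV B)⁻¹ := by
  have hpos : ∀ p ∈ B, (0 : ℝ) < (1 - 1 / (p : ℝ))⁻¹ := by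
    intro p hp
    have h1 : (2 : ℝ) ≤ p := by exact_mod_cast (hB p hp).two_le
    have h2 : 1 / (p : ℝ) ≤ 1 / 2 := one_div_le_one_div_of_le (by norm_num) h1
    rw [inv_pos]
    linarith
  constructor
  · unfold nu
    refine prod_nonneg fun p hp => ?_
    split_ifs
    · exact le_rfl
    · exact (hpos p hp).le
  · unfold nu VV
    rw [← prod_inv_distrib]
    refine prod_le_prod (fun p hp => ?_) (fun p hp => ?_)
    · split_ifs
      · exact le_rfl
      · exact (hpos p hp).le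
    · split_ifs
      · exact (hpos p hp).le
      · exact le_rfl

private theorem a5_card (K Z z : ℕ) (lam : Finset ℕ → ℝ) (h : IsLam K z lam) :
    (((sprimes Z z).powerset.filter (fun E => lam E ≠ 0)).card : ℝ) ≤ (z : ℝ) ^ K := by
  have h1 : ((sprimes Z z).powerset.filter (fun E => lam E ≠ 0)).card ≤ (Icc 1 (z ^ K)).card := by
    refine Finset.card_le_card_of_injOn PP ?_ ?_
    · intro E hE
      have hE' := Finset.mem_filter.1 (Finset.mem_coe.1 hE)
      have h2 := h.supp E hE'.2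
      rw [Finset.coe_Icc, Set.mem_Icc]
      refine ⟨?_, h2.2⟩
      unfold PP
      exact Finset.prod_pos fun p hp => (mem_sprimes.1 (h2.1 hp)).1.pos
    · intro E hE E' hE' heq
      have h2 := h.supp E (Finset.mem_filter.1 (Finset.mem_coe.1 hE)).2
      have h3 := h.supp E' (Finset.mem_filter.1 (Finset.mem_coe.1 hE')).2
      have h4 : (PP E).primeFactors = E := by
        unfold PP
        exact Nat.primeFactors_prod fun p hp => (mem_sprimes.1 (h2.1 hp)).1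
      have h5 : (PP E').primeFactors = E' := by
        unfold PP
        exact Nat.primeFactors_prod fun p hp => (mem_sprimes.1 (h3.1 hp)).1
      rw [← h4, ← h5, heq]
  rw [Nat.card_Icc, Nat.add_sub_cancel] at h1
  exact_mod_cast h1

private theorem a5_dv (E : Finset ℕ) (a : ℤ) : |∏ p ∈ E, dv p a| ≤ 1 := by
  rw [Finset.abs_prod]
  refine Finset.prod_le_one (fun p _ => abs_nonneg _) fun p _ => ?_
  unfold dv
  split_ifs <;> norm_num

private theorem a5_nA (K Z z : ℕ) (lam : Finset ℕ → ℝ) (h : IsLam K z lam) (hM : 0 < MA lam Z z)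
    (a : ℤ) : |nA lam Z z a| ≤ (MA lam Z z)⁻¹ * (z : ℝ) ^ K := by
  unfold nA
  rw [abs_div, abs_of_pos hM, div_eq_mul_inv, mul_comm]
  refine mul_le_mul_of_nonneg_left ?_ (inv_nonneg.2 hM.le)
  calc |∑ E ∈ (sprimes Z z).powerset, lam E * ∏ p ∈ E, dv p a|
      ≤ ∑ E ∈ (sprimes Z z).powerset, |lam E * ∏ p ∈ E, dv p a| := Finset.abs_sum_le_sum_abs _ _
    _ ≤ ∑ E ∈ (sprimes Z z).powerset, (if lam E ≠ 0 then (1 : ℝ) else 0) := by
        refine Finset.sum_le_sum fun E _ => ?_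
        split_ifs with h0
        · rw [abs_mul]
          calc |lam E| * |∏ p ∈ E, dv p a| ≤ 1 * 1 :=
                mul_le_mul (h.abs_le E) (a5_dv E a) (abs_nonneg _) zero_le_one
            _ = 1 := one_mul 1
        · rw [not_not] at h0
          rw [h0, zero_mul, abs_zero]
    _ = (((sprimes Z z).powerset.filter (fun E => lam E ≠ 0)).card : ℝ) := by
        rw [← Finset.sum_filter, Finset.sum_const, nsmul_eq_mul, mul_one]
    _ ≤ (z : ℝ) ^ K := a5_card K Z z lam h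

/-- the coincidences -/
private theorem a5_coin (j d k k' : ℕ) (hj : 1 ≤ j) (h : ¬ Function.Injective (sh j d k k')) :
    k' = k ∨ (pr (k' + j) : ℤ) = (pr k : ℤ) - 2 * (d : ℤ) ∨
      (pr k' : ℤ) = (pr (k + j) : ℤ) + 2 * (d : ℤ) := by
  have hlt : ∀ i, (pr i : ℤ) < (pr (i + j) : ℤ) := fun i => by
    exact_mod_cast pr_strictMono (Nat.lt_add_of_pos_right hj)
  have hinj : ∀ i i' : ℕ, (pr i : ℤ) = (pr i' : ℤ) → i = i' := fun i i' h0 =>
    pr_strictMono.injective (by exact_mod_cast h0)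
  by_contra hno
  push Not at hno
  obtain ⟨h1, h2, h3⟩ := hno
  apply h
  have hd : (0 : ℤ) ≤ (d : ℤ) := Int.natCast_nonneg d
  have hk := hlt k
  have hk' := hlt k'
  have e01 : (pr k : ℤ) - 2 * (d : ℤ) ≠ (pr (k + j) : ℤ) := by omega
  have e02 : (pr k : ℤ) - 2 * (d : ℤ) ≠ (pr k' : ℤ) - 2 * (d : ℤ) := fun h0 =>
    h1 (hinj k' k (by omega))
  have e03 : (pr k : ℤ) - 2 * (d : ℤ) ≠ (pr (k' + j) : ℤ) := fun h0 => h2 h0.symm
  have e12 : (pr (k + j) : ℤ) ≠ (pr k' : ℤ) - 2 * (d : ℤ) := fun h0 => h3 (by omega)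
  have e13 : (pr (k + j) : ℤ) ≠ (pr (k' + j) : ℤ) := fun h0 =>
    h1 (by have := hinj _ _ h0; omega)
  have e23 : (pr k' : ℤ) - 2 * (d : ℤ) ≠ (pr (k' + j) : ℤ) := by omega
  have s0 : sh j d k k' 0 = (pr k : ℤ) - 2 * (d : ℤ) := rfl
  have s1 : sh j d k k' 1 = (pr (k + j) : ℤ) := rfl
  have s2 : sh j d k k' 2 = (pr k' : ℤ) - 2 * (d : ℤ) := rfl
  have s3 : sh j d k k' 3 = (pr (k' + j) : ℤ) := rfl
  intro u v huv
  fin_cases u <;> fin_cases v <;> first
    | rfl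
    | exact absurd huv e01
    | exact absurd huv.symm e01
    | exact absurd huv e02
    | exact absurd huv.symm e02
    | exact absurd huv e03
    | exact absurd huv.symm e03
    | exact absurd huv e12
    | exact absurd huv.symm e12
    | exact absurd huv e13
    | exact absurd huv.symm e13
    | exact absurd huv e23
    | exact absurd huv.symm e23

private theorem a5_three (X j d k : ℕ) (hj : 1 ≤ j) :
    ((range X).filter (fun k' => ¬ Function.Injective (sh j d k k'))).card ≤ 3 := by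
  classical
  have hinj : ∀ i i' : ℕ, (pr i : ℤ) = (pr i' : ℤ) → i = i' := fun i i' h0 =>
    pr_strictMono.injective (by exact_mod_cast h0)
  have hsub : (range X).filter (fun k' => ¬ Function.Injective (sh j d k k')) ⊆
      {k} ∪ ((range X).filter (fun k' => (pr (k' + j) : ℤ) = (pr k : ℤ) - 2 * (d : ℤ)) ∪
        (range X).filter (fun k' => (pr k' : ℤ) = (pr (k + j) : ℤ) + 2 * (d : ℤ))) := by
    intro k' hk'
    have h1 := Finset.mem_filter.1 hk'
    rcases a5_coin j d k k' hj h1.2 with h2 | h2 | h2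
    · exact Finset.mem_union_left _ (Finset.mem_singleton.2 h2)
    · exact Finset.mem_union_right _ (Finset.mem_union_left _ (Finset.mem_filter.2 ⟨h1.1, h2⟩))
    · exact Finset.mem_union_right _ (Finset.mem_union_right _ (Finset.mem_filter.2 ⟨h1.1, h2⟩))
  have c1 : ((range X).filter (fun k' => (pr (k' + j) : ℤ) = (pr k : ℤ) - 2 * (d : ℤ))).card ≤ 1 := by
    rw [Finset.card_le_one]
    intro u hu v hv
    have h1 := (Finset.mem_filter.1 hu).2
    have h2 := (Finset.mem_filter.1 hv).2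
    have h3 := hinj _ _ (h1.trans h2.symm)
    omega
  have c2 : ((range X).filter (fun k' => (pr k' : ℤ) = (pr (k + j) : ℤ) + 2 * (d : ℤ))).card ≤ 1 := by
    rw [Finset.card_le_one]
    intro u hu v hv
    exact hinj _ _ ((Finset.mem_filter.1 hu).2.trans (Finset.mem_filter.1 hv).2.symm)
  refine (Finset.card_le_card hsub).trans ?_
  refine (Finset.card_union_le _ _).trans ?_
  have h1 := Finset.card_union_le
    ((range X).filter (fun k' => (pr (k' + j) : ℤ) = (pr k : ℤ) - 2 * (d : ℤ)))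
    ((range X).filter (fun k' => (pr k' : ℤ) = (pr (k + j) : ℤ) + 2 * (d : ℤ)))
  rw [Finset.card_singleton]
  omega

/-- The mean square of the inner sum over all `n < pr X`.

Proof. `GG_sq` (file D): the left side is `Σ_{k,k'} w k w k' Σ_n ∏_i FA (2n - sh j d k k' i)`, only `k, k'` with `k + j < X`, `k' + j < X`
matter, so all `|sh ..| ≤ X²` (`pr X ≤ C X log X`, `d ≤ X`). If the four shifts are distinct use `A4`: total
`≤ X² pr X (log X)^C / Z`. Otherwise, as `j ≥ 1`, `d ≥ 0`, `pr` is strictly increasing: `k = k'`, or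
`pr k - 2d = pr (k'+j)`, or `pr (k+j) = pr k' - 2d`; for every `k` at most three `k'`. For these use the trivial bound
`|FA| ≤ (VV B)⁻¹ (M⁻¹ z^K + 1) ≤ C (log X)² X^(1/16) ≤ X^(1/8)` (number of `E` with `lam E ≠ 0` is `≤ z^K` since `PP` is
injective on sets of primes): `≤ 3 X pr X X^(1/2) ≤ X² pr X / Z` since `Z ≤ X^(1/4)`. -/
theorem A5 (K : ℕ) : ∃ C : ℕ, ∃ X0 : ℕ, ∀ X : ℕ, X0 ≤ X → ∀ Z z : ℕ, 6 ≤ Z →
    (Z : ℝ) ≤ (X : ℝ) ^ (1 / 4 : ℝ) → z ^ (16 * (K + 1)) ≤ X → ∀ lam : Finset ℕ → ℝ, IsLam K z lam →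
    ∀ B : Finset ℕ, (∀ p ∈ B, p.Prime ∧ 3 ≤ p ∧ p ≤ Z) → (PP B : ℝ) ≤ (X : ℝ) ^ (1 / 4 : ℝ) →
    ∀ j d : ℕ, 1 ≤ j → d ≤ X → ∀ w : ℕ → ℝ, (∀ k, |w k| ≤ 1) → (∀ k, w k ≠ 0 → k + j < X) →
    ∑ n ∈ range (pr X), (GG X j d w (FA lam Z z B) n) ^ 2 ≤
      (X : ℝ) ^ 2 * pr X * (Real.log X) ^ C / Z := by
  classical
  obtain ⟨C4, X4, h4⟩ := A4 K
  obtain ⟨C2, hC2, -, hM2⟩ := M2
  obtain ⟨C1, hC1, hP1⟩ := P1
  obtain ⟨Y1, hY1⟩ := exists_nat_ge ((8192 * C2 ^ 2) ^ 32)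
  obtain ⟨Y2, hY2⟩ := exists_nat_ge ((2 * C1) ^ 2)
  refine ⟨C4 + 1, max X4 (max Y1 (max Y2 100)), ?_⟩
  intro X hX Z z hZ hZX hzX lam hlam B hB hBX j d hj hd w hw hwX
  have hX4 : X4 ≤ X := (le_max_left _ _).trans hX
  have hXa : Y1 ≤ X := ((le_max_left _ _).trans (le_max_right _ _)).trans hX
  have hXb : Y2 ≤ X :=
    (((le_max_left _ _).trans (le_max_right _ _)).trans (le_max_right _ _)).trans hX
  have hXc : 100 ≤ X :=
    (((le_max_right _ _).trans (le_max_right _ _)).trans (le_max_right _ _)).trans hX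
  have hXR : (100 : ℝ) ≤ X := by exact_mod_cast hXc
  have hX1 : (1 : ℝ) ≤ X := by linarith
  have hX0 : (0 : ℝ) < X := by linarith
  have hX2 : 2 ≤ X := by omega
  have hXa' : (8192 * C2 ^ 2) ^ 32 ≤ (X : ℝ) := hY1.trans (by exact_mod_cast hXa)
  have hXb' : (2 * C1) ^ 2 ≤ (X : ℝ) := hY2.trans (by exact_mod_cast hXb)
  -- powers of X
  have hpow32 : 8192 * C2 ^ 2 ≤ (X : ℝ) ^ (1 / 32 : ℝ) := by
    have h1 : ((X : ℝ) ^ (1 / 32 : ℝ)) ^ 32 = X := by
      rw [← Real.rpow_natCast, ← Real.rpow_mul hX0.le]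
      norm_num
    rw [← h1] at hXa'
    exact le_of_pow_le_pow_left₀ (by norm_num) (by positivity) hXa'
  have hpow2 : 2 * C1 ≤ (X : ℝ) ^ (1 / 2 : ℝ) := by
    have h1 : ((X : ℝ) ^ (1 / 2 : ℝ)) ^ 2 = X := by
      rw [← Real.rpow_natCast, ← Real.rpow_mul hX0.le]
      norm_num
    rw [← h1] at hXb'
    exact le_of_pow_le_pow_left₀ (by norm_num) (by positivity) hXb'
  have hlog0 : 0 < Real.log X := Real.log_pos (by linarith)
  have hlog2 : 2 ≤ Real.log X := by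
    rw [Real.le_log_iff_exp_le hX0]
    have h1 : Real.exp 2 = Real.exp 1 ^ 2 := by
      rw [← Real.exp_nat_mul]
      norm_num
    have h2 := Real.exp_one_lt_d9
    have h3 : 0 < Real.exp 1 := Real.exp_pos 1
    rw [h1]
    nlinarith
  have hlog64 : Real.log X ≤ 64 * (X : ℝ) ^ (1 / 64 : ℝ) := by
    have h1 := Real.log_le_rpow_div hX0.le (show (0 : ℝ) < 1 / 64 by norm_num)
    calc Real.log X ≤ (X : ℝ) ^ (1 / 64 : ℝ) / (1 / 64) := h1
      _ = 64 * (X : ℝ) ^ (1 / 64 : ℝ) := by ring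
  have hlog12 : Real.log X ≤ 2 * (X : ℝ) ^ (1 / 2 : ℝ) := by
    have h1 := Real.log_le_rpow_div hX0.le (show (0 : ℝ) < 1 / 2 by norm_num)
    calc Real.log X ≤ (X : ℝ) ^ (1 / 2 : ℝ) / (1 / 2) := h1
      _ = 2 * (X : ℝ) ^ (1 / 2 : ℝ) := by ring
  have hprX : (pr X : ℝ) ≤ (X : ℝ) ^ 2 := by
    have h1 := (hP1 X hX2).2
    have h2 : (X : ℝ) ^ (1 / 2 : ℝ) * (X : ℝ) ^ (1 / 2 : ℝ) = X := by
      rw [← Real.rpow_add hX0]
      norm_num
    have h3 : 0 ≤ (X : ℝ) ^ (1 / 2 : ℝ) := by positivity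
    calc (pr X : ℝ) ≤ C1 * X * Real.log X := h1
      _ ≤ C1 * X * (2 * (X : ℝ) ^ (1 / 2 : ℝ)) :=
          mul_le_mul_of_nonneg_left hlog12 (by positivity)
      _ = (2 * C1) * (X * (X : ℝ) ^ (1 / 2 : ℝ)) := by ring
      _ ≤ (X : ℝ) ^ (1 / 2 : ℝ) * (X * (X : ℝ) ^ (1 / 2 : ℝ)) :=
          mul_le_mul_of_nonneg_right hpow2 (by positivity)
      _ = X * ((X : ℝ) ^ (1 / 2 : ℝ) * (X : ℝ) ^ (1 / 2 : ℝ)) := by ring
      _ = (X : ℝ) ^ 2 := by rw [h2]; ring
  have hprXZ : (pr X : ℤ) ≤ (X : ℤ) ^ 2 := by exact_mod_cast hprX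
  have hX14 : (X : ℝ) ^ (1 / 4 : ℝ) ≤ X := by
    calc (X : ℝ) ^ (1 / 4 : ℝ) ≤ (X : ℝ) ^ (1 : ℝ) := Real.rpow_le_rpow_of_exponent_le hX1 (by norm_num)
      _ = X := Real.rpow_one _
  have hZX' : Z ≤ X := by exact_mod_cast hZX.trans hX14
  have hzX' : z ≤ X := by
    rcases Nat.eq_zero_or_pos z with h0 | h0
    · omega
    · calc z = z ^ 1 := (pow_one z).symm
        _ ≤ z ^ (16 * (K + 1)) := Nat.pow_le_pow_right h0 (by omega)
        _ ≤ X := hzX
  obtain ⟨hM1, -, hM0, hM2', -, -⟩ := A2 K z Z lam hlam hZ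
  have hBp : ∀ p ∈ B, p.Prime := fun p hp => (hB p hp).1
  obtain ⟨hB0, hB1, hB2⟩ := hM2 X B hX2 (fun p hp => ⟨(hB p hp).1, (hB p hp).2.2.trans hZX'⟩)
  obtain ⟨hP0, hP1', hP2⟩ := hM2 X (sprimes Z z) hX2
    (fun p hp => ⟨(mem_sprimes.1 hp).1, (mem_sprimes.1 hp).2.2.trans hzX'⟩)
  have hMinv : (MA lam Z z)⁻¹ ≤ C2 * Real.log X := (inv_anti₀ hP0 hM1).trans hP2
  have hMinv0 : 0 < (MA lam Z z)⁻¹ := inv_pos.2 hM0
  -- z ^ K
  have hz1 : 1 ≤ z ^ K := by
    have h1 := (hlam.supp ∅ (by rw [hlam.empty]; exact one_ne_zero)).2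
    unfold PP at h1
    rwa [Finset.prod_empty] at h1
  have hz16 : (z : ℝ) ^ K ≤ (X : ℝ) ^ (1 / 16 : ℝ) := by
    have h1 : (z ^ K) ^ 16 ≤ X := by
      rcases Nat.eq_zero_or_pos z with h0 | h0
      · subst h0
        rcases Nat.eq_zero_or_pos K with hK | hK
        · subst hK
          simp only [pow_zero, one_pow]
          omega
        · rw [zero_pow (by omega)] at hz1
          omega
      · calc (z ^ K) ^ 16 = z ^ (16 * K) := by rw [← pow_mul, mul_comm]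
          _ ≤ z ^ (16 * (K + 1)) := Nat.pow_le_pow_right h0 (by omega)
          _ ≤ X := hzX
    have h2 : ((z : ℝ) ^ K) ^ 16 ≤ ((X : ℝ) ^ (1 / 16 : ℝ)) ^ 16 := by
      have h3 : ((X : ℝ) ^ (1 / 16 : ℝ)) ^ 16 = X := by
        rw [← Real.rpow_natCast, ← Real.rpow_mul hX0.le]
        norm_num
      rw [h3]
      exact_mod_cast h1
    exact le_of_pow_le_pow_left₀ (by norm_num) (by positivity) h2
  have hz1R : (1 : ℝ) ≤ (z : ℝ) ^ K := by exact_mod_cast hz1
  -- bound for FA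
  have hCl : 1 ≤ C2 * Real.log X := by nlinarith
  have hFA : ∀ a : ℤ, |FA lam Z z B a| ≤ (X : ℝ) ^ (1 / 8 : ℝ) := by
    intro a
    unfold FA
    rw [abs_mul, abs_of_nonneg (a5_nu_bd B hBp a).1]
    have h1 : nu B a ≤ C2 * Real.log X := (a5_nu_bd B hBp a).2.trans hB2
    have h2 : |nA lam Z z a - 1| ≤ 2 * (C2 * Real.log X * (z : ℝ) ^ K) := by
      have h3 := a5_nA K Z z lam hlam hM0 a
      have h5 : (MA lam Z z)⁻¹ * (z : ℝ) ^ K ≤ C2 * Real.log X * (z : ℝ) ^ K :=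
        mul_le_mul_of_nonneg_right hMinv (by linarith)
      have h6 : |nA lam Z z a - 1| ≤ |nA lam Z z a| + 1 := by
        have h7 := abs_sub (nA lam Z z a) 1
        rwa [abs_one] at h7
      nlinarith
    have h16 : (X : ℝ) ^ (1 / 16 : ℝ) * (X : ℝ) ^ (1 / 16 : ℝ) = (X : ℝ) ^ (1 / 8 : ℝ) := by
      rw [← Real.rpow_add hX0]
      norm_num
    have h32 : (X : ℝ) ^ (1 / 32 : ℝ) * (X : ℝ) ^ (1 / 32 : ℝ) = (X : ℝ) ^ (1 / 16 : ℝ) := by
      rw [← Real.rpow_add hX0]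
      norm_num
    have h64 : (X : ℝ) ^ (1 / 64 : ℝ) * (X : ℝ) ^ (1 / 64 : ℝ) = (X : ℝ) ^ (1 / 32 : ℝ) := by
      rw [← Real.rpow_add hX0]
      norm_num
    have hlsq : Real.log X ^ 2 ≤ 4096 * (X : ℝ) ^ (1 / 32 : ℝ) := by
      calc Real.log X ^ 2 ≤ (64 * (X : ℝ) ^ (1 / 64 : ℝ)) ^ 2 := pow_le_pow_left₀ hlog0.le hlog64 2
        _ = 4096 * ((X : ℝ) ^ (1 / 64 : ℝ) * (X : ℝ) ^ (1 / 64 : ℝ)) := by ring
        _ = _ := by rw [h64]
    have hmain : 2 * (C2 * Real.log X) ^ 2 ≤ (X : ℝ) ^ (1 / 16 : ℝ) := by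
      calc 2 * (C2 * Real.log X) ^ 2 = 2 * C2 ^ 2 * Real.log X ^ 2 := by ring
        _ ≤ 2 * C2 ^ 2 * (4096 * (X : ℝ) ^ (1 / 32 : ℝ)) :=
            mul_le_mul_of_nonneg_left hlsq (by positivity)
        _ = (8192 * C2 ^ 2) * (X : ℝ) ^ (1 / 32 : ℝ) := by ring
        _ ≤ (X : ℝ) ^ (1 / 32 : ℝ) * (X : ℝ) ^ (1 / 32 : ℝ) :=
            mul_le_mul_of_nonneg_right hpow32 (by positivity)
        _ = _ := h32
    calc nu B a * |nA lam Z z a - 1| ≤ (C2 * Real.log X) * (2 * (C2 * Real.log X * (z : ℝ) ^ K)) :=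
          mul_le_mul h1 h2 (abs_nonneg _) (by linarith)
      _ = (2 * (C2 * Real.log X) ^ 2) * (z : ℝ) ^ K := by ring
      _ ≤ (X : ℝ) ^ (1 / 16 : ℝ) * (X : ℝ) ^ (1 / 16 : ℝ) :=
          mul_le_mul hmain hz16 (by linarith) (by positivity)
      _ = _ := h16
  -- the two bounds for the sum over n
  obtain ⟨G, hG⟩ : ∃ G : ℝ, G = (pr X : ℝ) * (Real.log X) ^ C4 / Z := ⟨_, rfl⟩
  obtain ⟨T, hT⟩ : ∃ T : ℝ, T = (pr X : ℝ) * (X : ℝ) ^ (1 / 2 : ℝ) := ⟨_, rfl⟩
  have hG0 : 0 ≤ G := by rw [hG]; positivity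
  have hT0 : 0 ≤ T := by rw [hT]; positivity
  have hbadn : ∀ k k' : ℕ,
      |∑ n ∈ range (pr X), ∏ i : Fin 4, FA lam Z z B (2 * (n : ℤ) - sh j d k k' i)| ≤ T := by
    intro k k'
    have h8 : ((X : ℝ) ^ (1 / 8 : ℝ)) ^ 4 = (X : ℝ) ^ (1 / 2 : ℝ) := by
      rw [← Real.rpow_natCast, ← Real.rpow_mul hX0.le]
      norm_num
    calc |∑ n ∈ range (pr X), ∏ i : Fin 4, FA lam Z z B (2 * (n : ℤ) - sh j d k k' i)|
        ≤ ∑ n ∈ range (pr X), |∏ i : Fin 4, FA lam Z z B (2 * (n : ℤ) - sh j d k k' i)| :=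
          Finset.abs_sum_le_sum_abs _ _
      _ ≤ ∑ _n ∈ range (pr X), (X : ℝ) ^ (1 / 2 : ℝ) := by
          refine Finset.sum_le_sum fun n _ => ?_
          rw [Finset.abs_prod, ← h8]
          calc ∏ i : Fin 4, |FA lam Z z B (2 * (n : ℤ) - sh j d k k' i)|
              ≤ ∏ _i : Fin 4, (X : ℝ) ^ (1 / 8 : ℝ) :=
                Finset.prod_le_prod (fun i _ => abs_nonneg _) (fun i _ => hFA _)
            _ = ((X : ℝ) ^ (1 / 8 : ℝ)) ^ 4 := by
                rw [Finset.prod_const, Finset.card_univ, Fintype.card_fin]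
      _ = T := by
          rw [Finset.sum_const, Finset.card_range, nsmul_eq_mul, hT]
  have hpair : ∀ k k' : ℕ,
      |w k * w k' * ∑ n ∈ range (pr X), ∏ i : Fin 4, FA lam Z z B (2 * (n : ℤ) - sh j d k k' i)| ≤
        G + if ¬ Function.Injective (sh j d k k') then T else 0 := by
    intro k k'
    have hrhs : 0 ≤ G + if ¬ Function.Injective (sh j d k k') then T else 0 := by
      split_ifs <;> linarith
    by_cases hk : w k = 0
    · rw [hk, zero_mul, zero_mul, abs_zero]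
      exact hrhs
    by_cases hk' : w k' = 0
    · rw [hk', mul_zero, zero_mul, abs_zero]
      exact hrhs
    have hkX := hwX k hk
    have hkX' := hwX k' hk'
    rw [abs_mul, abs_mul]
    have hww : |w k| * |w k'| ≤ 1 := by
      calc |w k| * |w k'| ≤ 1 * 1 := mul_le_mul (hw k) (hw k') (abs_nonneg _) zero_le_one
        _ = 1 := one_mul 1
    have hle : |w k| * |w k'| *
        |∑ n ∈ range (pr X), ∏ i : Fin 4, FA lam Z z B (2 * (n : ℤ) - sh j d k k' i)| ≤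
        |∑ n ∈ range (pr X), ∏ i : Fin 4, FA lam Z z B (2 * (n : ℤ) - sh j d k k' i)| := by
      calc _ ≤ 1 * |∑ n ∈ range (pr X), ∏ i : Fin 4, FA lam Z z B (2 * (n : ℤ) - sh j d k k' i)| :=
            mul_le_mul_of_nonneg_right hww (abs_nonneg _)
        _ = _ := one_mul _
    refine hle.trans ?_
    by_cases hinj : Function.Injective (sh j d k k')
    · rw [if_neg (not_not.2 hinj), add_zero, hG]
      refine h4 X hX4 Z z hZ hZX hzX lam hlam B hB hBX _ hinj ?_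
      have hmono : ∀ i, i ≤ X → (pr i : ℤ) ≤ (X : ℤ) ^ 2 := fun i hi =>
        (by exact_mod_cast pr_strictMono.monotone hi : (pr i : ℤ) ≤ (pr X : ℤ)).trans hprXZ
      have hpos : ∀ i, (0 : ℤ) ≤ (pr i : ℤ) := fun i => Int.natCast_nonneg _
      have hd2 : 2 * (d : ℤ) ≤ (X : ℤ) ^ 2 := by
        have h1 : (d : ℤ) ≤ (X : ℤ) := by exact_mod_cast hd
        have h2 : (2 : ℤ) ≤ (X : ℤ) := by exact_mod_cast hX2
        nlinarith
      have hd0 : (0 : ℤ) ≤ (d : ℤ) := Int.natCast_nonneg _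
      have a0 := hmono k (by omega)
      have a1 := hmono (k + j) (by omega)
      have a2 := hmono k' (by omega)
      have a3 := hmono (k' + j) (by omega)
      have b0 := hpos k
      have b1 := hpos (k + j)
      have b2 := hpos k'
      have b3 := hpos (k' + j)
      intro i
      fin_cases i
      · show |(pr k : ℤ) - 2 * (d : ℤ)| ≤ (X : ℤ) ^ 2
        rw [abs_le]
        constructor <;> linarith
      · show |(pr (k + j) : ℤ)| ≤ (X : ℤ) ^ 2
        rw [abs_le]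
        constructor <;> linarith
      · show |(pr k' : ℤ) - 2 * (d : ℤ)| ≤ (X : ℤ) ^ 2
        rw [abs_le]
        constructor <;> linarith
      · show |(pr (k' + j) : ℤ)| ≤ (X : ℤ) ^ 2
        rw [abs_le]
        constructor <;> linarith
    · rw [if_pos hinj]
      have := hbadn k k'
      linarith
  -- assembly
  have hexp : ∑ n ∈ range (pr X), (GG X j d w (FA lam Z z B) n) ^ 2 =
      ∑ k ∈ range X, ∑ k' ∈ range X, w k * w k' *
        ∑ n ∈ range (pr X), ∏ i : Fin 4, FA lam Z z B (2 * (n : ℤ) - sh j d k k' i) := by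
    rw [Finset.sum_congr rfl fun (n : ℕ) _ => GG_sq X j d w (FA lam Z z B) (n : ℤ)]
    rw [Finset.sum_comm]
    refine Finset.sum_congr rfl fun k _ => ?_
    rw [Finset.sum_comm]
    refine Finset.sum_congr rfl fun k' _ => ?_
    rw [Finset.mul_sum]
  rw [hexp]
  have hZ0 : (0 : ℝ) < Z := by
    have : (6 : ℝ) ≤ Z := by exact_mod_cast hZ
    linarith
  calc ∑ k ∈ range X, ∑ k' ∈ range X, w k * w k' *
        ∑ n ∈ range (pr X), ∏ i : Fin 4, FA lam Z z B (2 * (n : ℤ) - sh j d k k' i)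
      ≤ ∑ k ∈ range X, ∑ k' ∈ range X,
          (G + if ¬ Function.Injective (sh j d k k') then T else 0) := by
        refine Finset.sum_le_sum fun k _ => Finset.sum_le_sum fun k' _ => ?_
        exact (le_abs_self _).trans (hpair k k')
    _ ≤ ∑ _k ∈ range X, (X * G + 3 * T) := by
        refine Finset.sum_le_sum fun k _ => ?_
        rw [Finset.sum_add_distrib, Finset.sum_const, Finset.card_range, nsmul_eq_mul,
          ← Finset.sum_filter, Finset.sum_const, nsmul_eq_mul]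
        have h1 := a5_three X j d k hj
        have h2 : (((range X).filter (fun k' => ¬ Function.Injective (sh j d k k'))).card : ℝ) ≤ 3 := by
          exact_mod_cast h1
        have h3 := mul_le_mul_of_nonneg_right h2 hT0
        linarith
    _ = X * (X * G + 3 * T) := by rw [Finset.sum_const, Finset.card_range, nsmul_eq_mul]
    _ = (X : ℝ) ^ 2 * pr X * (Real.log X) ^ C4 / Z + 3 * (X * T) := by
        rw [hG]
        ring
    _ ≤ (X : ℝ) ^ 2 * pr X * (Real.log X) ^ C4 / Z + (X : ℝ) ^ 2 * pr X * (Real.log X) ^ C4 / Z := by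
        have h34 : (X : ℝ) ^ (1 / 2 : ℝ) * 3 ≤ X / Z := by
          rw [le_div_iff₀ hZ0]
          have h3 : (3 : ℝ) ≤ (X : ℝ) ^ (1 / 4 : ℝ) := by
            have h6 : (6 : ℝ) ≤ Z := by exact_mod_cast hZ
            linarith
          have h5 : (X : ℝ) ^ (1 / 4 : ℝ) * (X : ℝ) ^ (1 / 4 : ℝ) = (X : ℝ) ^ (1 / 2 : ℝ) := by
            rw [← Real.rpow_add hX0]
            norm_num
          have h6 : (X : ℝ) ^ (1 / 2 : ℝ) * (X : ℝ) ^ (1 / 2 : ℝ) = X := by
            rw [← Real.rpow_add hX0]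
            norm_num
          calc (X : ℝ) ^ (1 / 2 : ℝ) * 3 * Z
              ≤ (X : ℝ) ^ (1 / 2 : ℝ) * (X : ℝ) ^ (1 / 4 : ℝ) * (X : ℝ) ^ (1 / 4 : ℝ) := by
                apply mul_le_mul _ hZX hZ0.le (by positivity)
                exact mul_le_mul_of_nonneg_left h3 (by positivity)
            _ = (X : ℝ) ^ (1 / 2 : ℝ) * ((X : ℝ) ^ (1 / 4 : ℝ) * (X : ℝ) ^ (1 / 4 : ℝ)) := by ring
            _ = X := by rw [h5, h6]
        have hl1 : (1 : ℝ) ≤ (Real.log X) ^ C4 := one_le_pow₀ (by linarith)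
        have h7 : 3 * (X * T) ≤ (X : ℝ) ^ 2 * pr X * (Real.log X) ^ C4 / Z := by
          calc 3 * (X * T) = (X * pr X) * ((X : ℝ) ^ (1 / 2 : ℝ) * 3) := by rw [hT]; ring
            _ ≤ (X * pr X) * (X / Z) := mul_le_mul_of_nonneg_left h34 (by positivity)
            _ = (X * pr X) * (X / Z) * 1 := (mul_one _).symm
            _ ≤ (X * pr X) * (X / Z) * (Real.log X) ^ C4 :=
                mul_le_mul_of_nonneg_left hl1 (by positivity)
            _ = _ := by ring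
        linarith
    _ = (X : ℝ) ^ 2 * pr X * (2 * (Real.log X) ^ C4) / Z := by ring
    _ ≤ (X : ℝ) ^ 2 * pr X * (Real.log X) ^ (C4 + 1) / Z := by
        apply div_le_div_of_nonneg_right _ hZ0.le
        apply mul_le_mul_of_nonneg_left _ (by positivity)
        rw [pow_succ, mul_comm]
        exact mul_le_mul_of_nonneg_left hlog2 (by positivity)

end Pool.Agent.Lib.H16X
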