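import Pool.Agent.Lib.H16X.D
import Pool.Agent.Lib.H16X.P1
import Pool.Agent.Lib.H16X.A5

/-!
# H16X: correlation estimate, last scale
-/

set_option linter.unusedVariables false

namespace Pool.Agent.Lib.H16X

open Finset Pool.Agent.Lib.Sieve

/-- The correlation of the last scale.

Proof. As in `B7`, but without a sieve: by `TT_eq` `|TT| ≤ Σ_m |GG X j d_m w (FA ..) (pr m)|` over the `m < X` with `α m α (m+j) ≠ 0`,
`d_m = pr (m+j) - pr m ∈ [1, D]`, `w k = β k β (k+j)`. For every `d ∈ [1, D]` the `pr m` are distinct integers `< pr X`, so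
`|TT| ≤ Σ_{d ≤ D} Σ_{n < pr X} |GG X j d w (FA ..) n| ≤ D (pr X · max_d Σ_n GG²)^(1/2) ≤ D pr X X (log X)^(C/2) / √Z` by
Cauchy-Schwarz and `A5`; `pr X ≤ C X log X`. -/
theorem A6 (K : ℕ) : ∃ C : ℕ, ∃ X0 : ℕ, ∀ X : ℕ, X0 ≤ X → ∀ Z z : ℕ, 6 ≤ Z →
    (Z : ℝ) ≤ (X : ℝ) ^ (1 / 4 : ℝ) → z ^ (16 * (K + 1)) ≤ X → ∀ lam : Finset ℕ → ℝ, IsLam K z lam →
    ∀ B : Finset ℕ, (∀ p ∈ B, p.Prime ∧ 3 ≤ p ∧ p ≤ Z) → (PP B : ℝ) ≤ (X : ℝ) ^ (1 / 4 : ℝ) →
    ∀ L j D : ℕ, 1 ≤ j → j < L → D ≤ X → ∀ α β : ℕ → ℝ, (∀ m, |α m| ≤ 1) → (∀ k, |β k| ≤ 1) →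
    (∀ m, α m ≠ 0 → m < X) → (∀ k, β k ≠ 0 → k < X) → Gap L D α →
    |TT X (ff α β (FA lam Z z B)) j| ≤ D * (X : ℝ) ^ 2 * (Real.log X) ^ C / Real.sqrt Z := by
  obtain ⟨C5, X5, h5⟩ := A5 K
  obtain ⟨C1, hC1, hP1⟩ := P1
  refine ⟨C5 + 2, max (max X5 2) (⌈Real.exp C1⌉₊ + 1), ?_⟩
  intro X hX Z z hZ hZX hz lam hlam B hB hPB L j D hj1 hjL hDX α β hα hβ hαX hβX hgap
  have hX5 : X5 ≤ X := (le_max_left _ _).trans ((le_max_left _ _).trans hX)
  have hX2 : 2 ≤ X := (le_max_right _ _).trans ((le_max_left _ _).trans hX)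
  have hXe : ⌈Real.exp C1⌉₊ + 1 ≤ X := (le_max_right _ _).trans hX
  have hX0 : (0 : ℝ) < X := by
    have : 0 < X := by omega
    exact_mod_cast this
  have hlog : C1 ≤ Real.log X := by
    rw [Real.le_log_iff_exp_le hX0]
    have h1 := Nat.le_ceil (Real.exp C1)
    have h2 : ((⌈Real.exp C1⌉₊ + 1 : ℕ) : ℝ) ≤ X := by exact_mod_cast hXe
    push_cast at h2
    linarith
  have hlog1 : 1 ≤ Real.log X := hC1.trans hlog
  have hlog0 : 0 ≤ Real.log X := zero_le_one.trans hlog1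
  have hZ0 : (0 : ℝ) < Z := by
    have : 0 < Z := by omega
    exact_mod_cast this
  have hsZ : 0 < Real.sqrt Z := Real.sqrt_pos.2 hZ0
  have hw1 : ∀ k, |β k * β (k + j)| ≤ 1 := by
    intro k
    rw [abs_mul]
    exact mul_le_one₀ (hβ k) (abs_nonneg _) (hβ (k + j))
  have hw2 : ∀ k, β k * β (k + j) ≠ 0 → k + j < X := fun k hk => hβX _ (right_ne_zero_of_mul hk)
  -- the sum over all `n` for a given gap
  have hd : ∀ d ∈ Finset.Icc 1 D, ∑ n ∈ range (pr X),
      |GG X j d (fun k => β k * β (k + j)) (FA lam Z z B) n| ≤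
      (pr X : ℝ) * ((X : ℝ) * (Real.log X) ^ C5 / Real.sqrt Z) := by
    intro d hd
    have h := h5 X hX5 Z z hZ hZX hz lam hlam B hB hPB j d hj1 ((Finset.mem_Icc.1 hd).2.trans hDX)
      (fun k => β k * β (k + j)) hw1 hw2
    have hT0 : 0 ≤ (pr X : ℝ) * ((X : ℝ) * (Real.log X) ^ C5 / Real.sqrt Z) := by positivity
    refine (sq_le_sq₀ (Finset.sum_nonneg fun n _ => abs_nonneg _) hT0).1 ?_
    refine (sq_sum_le_card_mul_sum_sq).trans ?_
    have e1 : ∑ n ∈ range (pr X),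
        |GG X j d (fun k => β k * β (k + j)) (FA lam Z z B) n| ^ 2 =
        ∑ n ∈ range (pr X), (GG X j d (fun k => β k * β (k + j)) (FA lam Z z B) n) ^ 2 :=
      Finset.sum_congr rfl fun n _ => sq_abs _
    rw [e1, Finset.card_range]
    have e2 : (pr X : ℝ) * ((X : ℝ) ^ 2 * pr X * (Real.log X) ^ C5 / Z) ≤
        ((pr X : ℝ) * ((X : ℝ) * (Real.log X) ^ C5 / Real.sqrt Z)) ^ 2 := by
      have e3 : ((pr X : ℝ) * ((X : ℝ) * (Real.log X) ^ C5 / Real.sqrt Z)) ^ 2 =
          (pr X : ℝ) * ((X : ℝ) ^ 2 * pr X * ((Real.log X) ^ C5 * (Real.log X) ^ C5) / Z) := by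
        rw [mul_pow, div_pow, mul_pow, Real.sq_sqrt hZ0.le]
        ring
      rw [e3]
      have e4 : (Real.log X) ^ C5 ≤ (Real.log X) ^ C5 * (Real.log X) ^ C5 :=
        le_mul_of_one_le_left (pow_nonneg hlog0 _) (one_le_pow₀ hlog1)
      gcongr
    exact (mul_le_mul_of_nonneg_left h (Nat.cast_nonneg _)).trans e2
  -- reduction to the sums over all `n`
  have hmain : |TT X (ff α β (FA lam Z z B)) j| ≤ ∑ d ∈ Finset.Icc 1 D, ∑ n ∈ range (pr X),
      |GG X j d (fun k => β k * β (k + j)) (FA lam Z z B) n| := by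
    rw [TT_eq]
    refine (Finset.abs_sum_le_sum_abs _ _).trans ?_
    have h1 : ∑ m ∈ range X, |α (m + j) * α m *
        GG X j (pr (m + j) - pr m) (fun k => β k * β (k + j)) (FA lam Z z B) (pr m)| ≤
        ∑ m ∈ range X, ∑ d ∈ Finset.Icc 1 D,
          |GG X j d (fun k => β k * β (k + j)) (FA lam Z z B) (pr m)| := by
      refine Finset.sum_le_sum fun m _ => ?_
      by_cases hm : α (m + j) * α m = 0
      · rw [hm, zero_mul, abs_zero]
        exact Finset.sum_nonneg fun d _ => abs_nonneg _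
      · have hmj : α (m + j) ≠ 0 := left_ne_zero_of_mul hm
        have hlt : pr m < pr (m + j) := pr_strictMono (by omega)
        have hg := hgap m j hjL hmj
        have hmem : pr (m + j) - pr m ∈ Finset.Icc 1 D := by
          rw [Finset.mem_Icc]
          refine ⟨by omega, ?_⟩
          have h2 : ((pr (m + j) - pr m : ℕ) : ℝ) ≤ D := by
            rw [Nat.cast_sub hlt.le]
            exact hg
          exact_mod_cast h2
        have h3 : |α (m + j) * α m *
            GG X j (pr (m + j) - pr m) (fun k => β k * β (k + j)) (FA lam Z z B) (pr m)| ≤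
            |GG X j (pr (m + j) - pr m) (fun k => β k * β (k + j)) (FA lam Z z B) (pr m)| := by
          rw [abs_mul, abs_mul]
          exact mul_le_of_le_one_left (abs_nonneg _)
            (mul_le_one₀ (hα _) (abs_nonneg _) (hα _))
        exact h3.trans (Finset.single_le_sum
          (f := fun d => |GG X j d (fun k => β k * β (k + j)) (FA lam Z z B) (pr m)|)
          (fun d _ => abs_nonneg _) hmem)
    refine h1.trans ?_
    rw [Finset.sum_comm]
    refine Finset.sum_le_sum fun d _ => ?_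
    have h4 : ∑ m ∈ range X,
        |GG X j d (fun k => β k * β (k + j)) (FA lam Z z B) (pr m)| =
        ∑ n ∈ (range X).image pr,
          |GG X j d (fun k => β k * β (k + j)) (FA lam Z z B) n| := by
      rw [Finset.sum_image fun a _ b _ hab => pr_strictMono.injective hab]
    rw [h4]
    refine Finset.sum_le_sum_of_subset_of_nonneg ?_ fun n _ _ => abs_nonneg _
    intro n hn
    obtain ⟨m, hm, rfl⟩ := Finset.mem_image.1 hn
    exact Finset.mem_range.2 (pr_strictMono (Finset.mem_range.1 hm))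
  have hsum : |TT X (ff α β (FA lam Z z B)) j| ≤
      (D : ℝ) * ((pr X : ℝ) * ((X : ℝ) * (Real.log X) ^ C5 / Real.sqrt Z)) := by
    refine hmain.trans ((Finset.sum_le_card_nsmul _ _ _ hd).trans ?_)
    rw [Nat.card_Icc, nsmul_eq_mul, Nat.add_sub_cancel]
  refine hsum.trans ?_
  have hpX : (pr X : ℝ) ≤ (X : ℝ) * Real.log X * Real.log X := by
    refine (hP1 X hX2).2.trans ?_
    have h1 := mul_le_mul_of_nonneg_right hlog (mul_nonneg hX0.le hlog0)
    calc C1 * X * Real.log X = C1 * (X * Real.log X) := by ring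
      _ ≤ Real.log X * (X * Real.log X) := h1
      _ = (X : ℝ) * Real.log X * Real.log X := by ring
  calc (D : ℝ) * ((pr X : ℝ) * ((X : ℝ) * (Real.log X) ^ C5 / Real.sqrt Z))
      ≤ (D : ℝ) * (((X : ℝ) * Real.log X * Real.log X) *
          ((X : ℝ) * (Real.log X) ^ C5 / Real.sqrt Z)) := by
        refine mul_le_mul_of_nonneg_left ?_ (Nat.cast_nonneg _)
        exact mul_le_mul_of_nonneg_right hpX (by positivity)
    _ = D * (X : ℝ) ^ 2 * (Real.log X) ^ (C5 + 2) / Real.sqrt Z := by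
        rw [pow_add]
        ring

end Pool.Agent.Lib.H16X
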