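import Pool.Agent.Lib.H16X.D
import Pool.Agent.Lib.H16X.M2
import Pool.Agent.Lib.H16X.P1
import Pool.Agent.Lib.H16X.A2

/-!
# H16X: diagonal term, last scale
-/

set_option linter.unusedVariables false

namespace Pool.Agent.Lib.H16X

open Finset Pool.Agent.Lib.Sieve

private theorem A7_dv (E : Finset ℕ) (hE : ∀ p ∈ E, p.Prime) (a : ℤ) :
    ∏ p ∈ E, dv p a = if ((PP E : ℕ) : ℤ) ∣ a then 1 else 0 := by
  by_cases h : ∀ p ∈ E, (p : ℤ) ∣ a
  · have h1 : ((PP E : ℕ) : ℤ) ∣ a := by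
      rw [Int.natCast_dvd]
      refine Finset.prod_primes_dvd _ (fun p hp => (hE p hp).prime) fun p hp => ?_
      exact Int.natCast_dvd.1 (h p hp)
    rw [if_pos h1]
    refine Finset.prod_eq_one fun p hp => ?_
    rw [dv, if_pos (h p hp)]
  · have h1 : ¬ ((PP E : ℕ) : ℤ) ∣ a := by
      intro h2
      refine h fun p hp => (Int.natCast_dvd_natCast.2 ?_).trans h2
      exact Finset.dvd_prod_of_mem _ hp
    rw [if_neg h1]
    push Not at h
    obtain ⟨p, hp, hpa⟩ := h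
    refine Finset.prod_eq_zero hp ?_
    rw [dv, if_neg hpa]

private theorem A7_cnt (N d : ℕ) (hd : 0 < d) :
    (∑ a ∈ Finset.Icc (-(N : ℤ)) (2 * (N : ℤ)), if (d : ℤ) ∣ a then (1 : ℝ) else 0) ≤ 3 * N / d + 1 := by
  rw [← Finset.sum_filter, Finset.sum_const, nsmul_eq_mul, mul_one]
  have h1 : ((Finset.Icc (-(N : ℤ)) (2 * (N : ℤ))).filter fun a => (d : ℤ) ∣ a).card ≤
      (Finset.Icc (-((N / d : ℕ) : ℤ)) ((2 * N / d : ℕ) : ℤ)).card := by
    refine Finset.card_le_card_of_injOn (fun a => a / (d : ℤ)) ?_ ?_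
    · intro a ha
      have ha' := Finset.mem_filter.1 (Finset.mem_coe.1 ha)
      obtain ⟨h2, b, hb⟩ := ha'
      rw [Finset.mem_Icc] at h2
      have hd' : (0 : ℤ) < d := by exact_mod_cast hd
      have e : a / (d : ℤ) = b := by
        rw [hb]
        exact Int.mul_ediv_cancel_left b hd'.ne'
      rw [Finset.coe_Icc, Set.mem_Icc]
      simp only [e]
      constructor
      · have h3 : -b ≤ (N : ℤ) / d := by
          rw [Int.le_ediv_iff_mul_le hd']
          nlinarith [h2.1]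
        push_cast
        linarith
      · push_cast
        rw [Int.le_ediv_iff_mul_le hd']
        nlinarith [h2.2]
    · intro a ha b hb hab
      have ha' := (Finset.mem_filter.1 (Finset.mem_coe.1 ha)).2
      have hb' := (Finset.mem_filter.1 (Finset.mem_coe.1 hb)).2
      simp only at hab
      rw [← Int.ediv_mul_cancel ha', ← Int.ediv_mul_cancel hb', hab]
  have h2 : (Finset.Icc (-((N / d : ℕ) : ℤ)) ((2 * N / d : ℕ) : ℤ)).card = 2 * N / d + N / d + 1 := by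
    generalize 2 * N / d = u
    generalize N / d = v
    rw [Int.card_Icc]
    omega
  rw [h2] at h1
  have h3 : ((2 * N / d : ℕ) : ℝ) ≤ 2 * N / d := by
    have := @Nat.cast_div_le ℝ _ _ _ (2 * N) d
    push_cast at this
    exact this
  have h4 : ((N / d : ℕ) : ℝ) ≤ N / d := Nat.cast_div_le
  have h5 : (((Finset.Icc (-(N : ℤ)) (2 * (N : ℤ))).filter fun a => (d : ℤ) ∣ a).card : ℝ) ≤
      ((2 * N / d + N / d + 1 : ℕ) : ℝ) := by exact_mod_cast h1
  push_cast at h5 h3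
  calc _ ≤ _ := h5
    _ ≤ 2 * N / d + N / d + 1 := by linarith
    _ = _ := by ring

private theorem A7_pairs (S : Finset ℕ) (g : ℕ → ℝ) :
    ∑ E ∈ S.powerset, ∑ E' ∈ S.powerset, ∏ p ∈ E ∪ E', g p = ∏ p ∈ S, (1 + 3 * g p) := by
  induction S using Finset.induction_on with
  | empty => simp
  | insert q S hq ih =>
    rw [Finset.prod_insert hq, ← ih, Finset.sum_powerset_insert hq, ← Finset.sum_add_distrib, Finset.mul_sum]
    refine Finset.sum_congr rfl fun E hE => ?_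
    rw [Finset.sum_powerset_insert hq, Finset.sum_powerset_insert hq, ← Finset.sum_add_distrib,
      ← Finset.sum_add_distrib, ← Finset.sum_add_distrib, Finset.mul_sum]
    refine Finset.sum_congr rfl fun E' hE' => ?_
    have hE1 : q ∉ E ∪ E' := by
      intro h
      rcases Finset.mem_union.1 h with h | h
      · exact hq (Finset.mem_powerset.1 hE h)
      · exact hq (Finset.mem_powerset.1 hE' h)
    rw [Finset.union_insert, Finset.insert_union, Finset.insert_union, Finset.union_insert,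
      Finset.insert_idem, Finset.prod_insert hE1]
    ring

private theorem A7_T (S : Finset ℕ) (hS : ∀ p ∈ S, p.Prime) (R : ℕ) :
    (S.powerset.filter fun E => PP E ≤ R).card ≤ R := by
  have h : (S.powerset.filter fun E => PP E ≤ R).card ≤ (Finset.Icc 1 R).card := by
    refine Finset.card_le_card_of_injOn PP ?_ ?_
    · intro E hE
      have hE' := Finset.mem_filter.1 (Finset.mem_coe.1 hE)
      rw [Finset.coe_Icc, Set.mem_Icc]
      refine ⟨?_, hE'.2⟩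
      refine Nat.one_le_iff_ne_zero.2 ?_
      refine Finset.prod_ne_zero_iff.2 fun p hp => ?_
      exact (hS p (Finset.mem_powerset.1 hE'.1 hp)).ne_zero
    · intro E hE E' hE' h
      have h1 := Finset.mem_powerset.1 (Finset.mem_filter.1 (Finset.mem_coe.1 hE)).1
      have h2 := Finset.mem_powerset.1 (Finset.mem_filter.1 (Finset.mem_coe.1 hE')).1
      have e1 : (PP E).primeFactors = E := Nat.primeFactors_prod fun p hp => hS p (h1 hp)
      have e2 : (PP E').primeFactors = E' := Nat.primeFactors_prod fun p hp => hS p (h2 hp)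
      rw [← e1, ← e2, h]
  rwa [Nat.card_Icc, Nat.add_sub_cancel] at h

private theorem A7_VV (S : Finset ℕ) (hS : ∀ p ∈ S, p.Prime) :
    ∏ p ∈ S, (1 + 3 * (1 / (p : ℝ))) ≤ ((VV S)⁻¹) ^ 3 := by
  rw [VV, ← Finset.prod_inv_distrib, ← Finset.prod_pow]
  refine Finset.prod_le_prod (fun p _ => by positivity) fun p hp => ?_
  have hp2 : (2 : ℝ) ≤ p := by exact_mod_cast (hS p hp).two_le
  have hx0 : (0 : ℝ) ≤ 1 / (p : ℝ) := by positivity
  have hx1 : 1 / (p : ℝ) ≤ 1 / 2 := by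
    apply one_div_le_one_div_of_le <;> linarith
  generalize 1 / (p : ℝ) = x at hx0 hx1
  have h1 : 1 + x ≤ (1 - x)⁻¹ := by
    rw [le_inv_comm₀ (by linarith) (by linarith), ← one_div, le_div_iff₀ (by linarith)]
    nlinarith
  have h2 : (1 + x) ^ 3 ≤ ((1 - x)⁻¹) ^ 3 := pow_le_pow_left₀ (by linarith) h1 3
  have h3 : 1 + 3 * x ≤ (1 + x) ^ 3 := by nlinarith [pow_nonneg hx0 3, pow_nonneg hx0 2]
  linarith

private theorem A7_nu (B : Finset ℕ) (hB : ∀ p ∈ B, p.Prime) (a : ℤ) : 0 ≤ nu B a ∧ nu B a ≤ (VV B)⁻¹ := by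
  have h0 : ∀ p ∈ B, (0 : ℝ) ≤ (1 - 1 / (p : ℝ))⁻¹ := by
    intro p hp
    have hp2 : (2 : ℝ) ≤ p := by exact_mod_cast (hB p hp).two_le
    have hx1 : 1 / (p : ℝ) ≤ 1 / 2 := by
      apply one_div_le_one_div_of_le <;> linarith
    exact inv_nonneg.2 (by linarith)
  constructor
  · refine Finset.prod_nonneg fun p hp => ?_
    split_ifs
    · exact le_rfl
    · exact h0 p hp
  · rw [VV, ← Finset.prod_inv_distrib]
    refine Finset.prod_le_prod (fun p hp => ?_) fun p hp => ?_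
    · split_ifs
      · exact le_rfl
      · exact h0 p hp
    · split_ifs
      · exact h0 p hp
      · exact le_rfl

/-- The sum of `nA²` over the integers of `[-N, 2N]`. -/
private theorem A7_sum (K : ℕ) (Z z N : ℕ) (lam : Finset ℕ → ℝ) (h : IsLam K z lam) (hZ : 6 ≤ Z) :
    ∑ a ∈ Finset.Icc (-(N : ℤ)) (2 * (N : ℤ)), nA lam Z z a ^ 2 ≤
      ((MA lam Z z)⁻¹) ^ 2 * (3 * N * ((VV (sprimes Z z))⁻¹) ^ 3 + (z : ℝ) ^ (2 * K)) := by
  classical
  have hS : ∀ p ∈ sprimes Z z, p.Prime := fun p hp => (mem_sprimes.1 hp).1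
  obtain ⟨S, hSe⟩ : ∃ S, S = sprimes Z z := ⟨_, rfl⟩
  rw [← hSe] at hS ⊢
  obtain ⟨T, hT⟩ : ∃ T, T = S.powerset.filter fun E => PP E ≤ z ^ K := ⟨_, rfl⟩
  have hTm : ∀ E ∈ T, E ⊆ S := fun E hE => by
    rw [hT] at hE
    exact Finset.mem_powerset.1 (Finset.mem_filter.1 hE).1
  have hTc : (T.card : ℝ) ≤ (z : ℝ) ^ K := by
    have := A7_T S hS (z ^ K)
    rw [← hT] at this
    exact_mod_cast this
  have hdv0 : ∀ (E : Finset ℕ) (a : ℤ), 0 ≤ ∏ p ∈ E, dv p a := fun E a =>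
    Finset.prod_nonneg fun p _ => by
      rw [dv]
      split_ifs <;> norm_num
  have h1 : ∀ a : ℤ, |∑ E ∈ S.powerset, lam E * ∏ p ∈ E, dv p a| ≤ ∑ E ∈ T, ∏ p ∈ E, dv p a := by
    intro a
    refine (Finset.abs_sum_le_sum_abs _ _).trans ?_
    rw [hT, Finset.sum_filter]
    refine Finset.sum_le_sum fun E hE => ?_
    split_ifs with h2
    · rw [abs_mul, abs_of_nonneg (hdv0 E a)]
      exact mul_le_of_le_one_left (hdv0 E a) (h.abs_le E)
    · have h3 : lam E = 0 := by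
        by_contra h4
        exact h2 (h.supp E h4).2
      rw [h3]
      simp
  have h2 : ∀ a : ℤ, nA lam Z z a ^ 2 ≤ ((MA lam Z z)⁻¹) ^ 2 * ∑ E ∈ T, ∑ E' ∈ T,
      (if ((PP (E ∪ E') : ℕ) : ℤ) ∣ a then (1 : ℝ) else 0) := by
    intro a
    have e1 : nA lam Z z a ^ 2 = ((MA lam Z z)⁻¹) ^ 2 * |∑ E ∈ S.powerset, lam E * ∏ p ∈ E, dv p a| ^ 2 := by
      rw [nA, ← hSe, sq_abs, div_eq_mul_inv]
      ring
    rw [e1]
    refine mul_le_mul_of_nonneg_left ?_ (by positivity)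
    refine (pow_le_pow_left₀ (abs_nonneg _) (h1 a) 2).trans (le_of_eq ?_)
    rw [sq, Finset.sum_mul_sum]
    refine Finset.sum_congr rfl fun E hE => Finset.sum_congr rfl fun E' hE' => ?_
    rw [← A7_dv (E ∪ E') (fun p hp => ?_) a]
    · rw [A7_dv E (fun p hp => hS p (hTm E hE hp)), A7_dv E' (fun p hp => hS p (hTm E' hE' hp)),
        A7_dv (E ∪ E') (fun p hp => ?_) a]
      · by_cases h3 : ((PP (E ∪ E') : ℕ) : ℤ) ∣ a
        · have h4 : ((PP E : ℕ) : ℤ) ∣ a :=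
            (Int.natCast_dvd_natCast.2 (Finset.prod_dvd_prod_of_subset _ _ _ Finset.subset_union_left)).trans h3
          have h5 : ((PP E' : ℕ) : ℤ) ∣ a :=
            (Int.natCast_dvd_natCast.2 (Finset.prod_dvd_prod_of_subset _ _ _ Finset.subset_union_right)).trans h3
          rw [if_pos h3, if_pos h4, if_pos h5, mul_one]
        · rw [if_neg h3]
          by_cases h4 : ((PP E : ℕ) : ℤ) ∣ a
          · by_cases h5 : ((PP E' : ℕ) : ℤ) ∣ a
            · exfalso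
              apply h3
              rw [Int.natCast_dvd] at h4 h5 ⊢
              refine Finset.prod_primes_dvd _ (fun p hp => ?_) fun p hp => ?_
              · rcases Finset.mem_union.1 hp with hp | hp
                · exact (hS p (hTm E hE hp)).prime
                · exact (hS p (hTm E' hE' hp)).prime
              · rcases Finset.mem_union.1 hp with hp | hp
                · exact (Finset.dvd_prod_of_mem _ hp).trans h4
                · exact (Finset.dvd_prod_of_mem _ hp).trans h5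
            · rw [if_neg h5, mul_zero]
          · rw [if_neg h4, zero_mul]
      · rcases Finset.mem_union.1 hp with hp | hp
        · exact hS p (hTm E hE hp)
        · exact hS p (hTm E' hE' hp)
    · rcases Finset.mem_union.1 hp with hp | hp
      · exact hS p (hTm E hE hp)
      · exact hS p (hTm E' hE' hp)
  calc ∑ a ∈ Finset.Icc (-(N : ℤ)) (2 * (N : ℤ)), nA lam Z z a ^ 2
      ≤ ∑ a ∈ Finset.Icc (-(N : ℤ)) (2 * (N : ℤ)), ((MA lam Z z)⁻¹) ^ 2 * ∑ E ∈ T, ∑ E' ∈ T,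
      (if ((PP (E ∪ E') : ℕ) : ℤ) ∣ a then (1 : ℝ) else 0) := Finset.sum_le_sum fun a _ => h2 a
    _ = ((MA lam Z z)⁻¹) ^ 2 * ∑ E ∈ T, ∑ E' ∈ T, ∑ a ∈ Finset.Icc (-(N : ℤ)) (2 * (N : ℤ)),
      (if ((PP (E ∪ E') : ℕ) : ℤ) ∣ a then (1 : ℝ) else 0) := by
      rw [← Finset.mul_sum, Finset.sum_comm]
      congr 1
      refine Finset.sum_congr rfl fun E _ => ?_
      rw [Finset.sum_comm]
    _ ≤ ((MA lam Z z)⁻¹) ^ 2 * ∑ E ∈ T, ∑ E' ∈ T, (3 * N * ∏ p ∈ E ∪ E', 1 / (p : ℝ) + 1) := by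
      refine mul_le_mul_of_nonneg_left ?_ (by positivity)
      refine Finset.sum_le_sum fun E hE => Finset.sum_le_sum fun E' hE' => ?_
      have hpos : 0 < PP (E ∪ E') := by
        refine Nat.pos_of_ne_zero (Finset.prod_ne_zero_iff.2 fun p hp => ?_)
        rcases Finset.mem_union.1 hp with hp | hp
        · exact (hS p (hTm E hE hp)).ne_zero
        · exact (hS p (hTm E' hE' hp)).ne_zero
      refine (A7_cnt N (PP (E ∪ E')) hpos).trans (le_of_eq ?_)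
      have e2 : ((PP (E ∪ E') : ℕ) : ℝ) = ∏ p ∈ E ∪ E', (p : ℝ) := by
        rw [PP]
        push_cast
        rfl
      rw [e2, Finset.prod_div_distrib, Finset.prod_const_one]
      ring
    _ ≤ ((MA lam Z z)⁻¹) ^ 2 * (3 * N * ((VV S)⁻¹) ^ 3 + (z : ℝ) ^ (2 * K)) := by
      refine mul_le_mul_of_nonneg_left ?_ (by positivity)
      simp only [Finset.sum_add_distrib, ← Finset.mul_sum, Finset.sum_const, nsmul_eq_mul, mul_one]
      refine add_le_add ?_ ?_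
      · refine mul_le_mul_of_nonneg_left ?_ (by positivity)
        have h3 : ∑ E ∈ T, ∑ E' ∈ T, ∏ p ∈ E ∪ E', 1 / (p : ℝ) ≤
            ∑ E ∈ S.powerset, ∑ E' ∈ S.powerset, ∏ p ∈ E ∪ E', 1 / (p : ℝ) := by
          have hsub : T ⊆ S.powerset := by
            rw [hT]
            exact Finset.filter_subset _ _
          calc ∑ E ∈ T, ∑ E' ∈ T, ∏ p ∈ E ∪ E', 1 / (p : ℝ)
              ≤ ∑ E ∈ T, ∑ E' ∈ S.powerset, ∏ p ∈ E ∪ E', 1 / (p : ℝ) :=
                Finset.sum_le_sum fun E _ => Finset.sum_le_sum_of_subset_of_nonneg hsub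
                  fun E' _ _ => Finset.prod_nonneg fun p _ => by positivity
            _ ≤ _ := Finset.sum_le_sum_of_subset_of_nonneg hsub
                  fun E _ _ => Finset.sum_nonneg fun E' _ => Finset.prod_nonneg fun p _ => by positivity
        rw [A7_pairs S fun p => 1 / (p : ℝ)] at h3
        exact h3.trans (A7_VV S hS)
      · rw [two_mul, pow_add]
        exact mul_le_mul hTc hTc (by positivity) (by positivity)

/-- The diagonal term of the last scale.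

Proof. `TT X f 0 = Σ_{m,k<X} (f m k)² ≤ Σ_{n, h < pr X} FA (2n - h)² ≤ 2 (VV B)^(-2) Σ_{n,h < pr X} (nA (2n-h)² + 1)`. For fixed `n` the
integers `2n - h` are distinct and lie in `[-N, 2N]`, `N = pr X`. With `M = MA lam Z z`,
`Σ_{|a| ≤ 2N} nA(a)² = M^(-2) Σ_{E,E'} lam E lam E' #{|a| ≤ 2N : PP (E ∪ E') ∣ a}
≤ M^(-2) Σ_{E,E'} (4N / PP (E ∪ E') + 1) ≤ M^(-2) (4N ∏_{q ∈ sprimes Z z} (1 + 3/q) + z^(2K))` (sum over the `E`, `E'` with
`lam ≠ 0`; number `≤ z^K` each), `∏ (1 + 3/q) ≤ (VV ..)^(-3) ≤ (C log X)^3`, `M⁻¹ ≤ (VV ..)⁻¹ ≤ C log X`, `(VV B)⁻¹ ≤ C log X`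
(`M2`), `N ≤ C X log X`. -/
theorem A7 (K : ℕ) : ∃ C : ℕ, ∃ X0 : ℕ, ∀ X : ℕ, X0 ≤ X → ∀ Z z : ℕ, 6 ≤ Z →
    (Z : ℝ) ≤ (X : ℝ) ^ (1 / 4 : ℝ) → z ^ (16 * (K + 1)) ≤ X → ∀ lam : Finset ℕ → ℝ, IsLam K z lam →
    ∀ B : Finset ℕ, (∀ p ∈ B, p.Prime ∧ 3 ≤ p ∧ p ≤ Z) →
    ∀ α β : ℕ → ℝ, (∀ m, |α m| ≤ 1) → (∀ k, |β k| ≤ 1) →
    |TT X (ff α β (FA lam Z z B)) 0| ≤ (X : ℝ) ^ 2 * (Real.log X) ^ C := by
  obtain ⟨C1, hC1, hC1a, hC1b⟩ := M2
  obtain ⟨C2, hC2, hC2a⟩ := P1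
  obtain ⟨C, hC⟩ : ∃ C, C = max C1 C2 := ⟨_, rfl⟩
  have hCC1 : C1 ≤ C := hC ▸ le_max_left _ _
  have hCC2 : C2 ≤ C := hC ▸ le_max_right _ _
  have hC0 : 1 ≤ C := hC1.trans hCC1
  refine ⟨9, ⌈Real.exp (6 * C ^ 8)⌉₊ + 3, fun X hX Z z hZ hZX hz lam hlam B hB α β hα hβ => ?_⟩
  have hX3 : 3 ≤ X := by omega
  have hXr : (3 : ℝ) ≤ X := by exact_mod_cast hX3
  obtain ⟨L, hL⟩ : ∃ L, L = Real.log X := ⟨_, rfl⟩
  have hL6 : 6 * C ^ 8 ≤ L := by
    rw [hL, Real.le_log_iff_exp_le (by linarith)]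
    have h1 : Real.exp (6 * C ^ 8) ≤ (⌈Real.exp (6 * C ^ 8)⌉₊ : ℝ) := Nat.le_ceil _
    have h2 : ((⌈Real.exp (6 * C ^ 8)⌉₊ : ℕ) : ℝ) ≤ (X : ℝ) := by
      exact_mod_cast (by omega : ⌈Real.exp (6 * C ^ 8)⌉₊ ≤ X)
    linarith
  have hC8 : 1 ≤ C ^ 8 := one_le_pow₀ hC0
  have hL1 : 1 ≤ L := by linarith
  have hzX : z ≤ X := by
    refine le_trans (Nat.le_self_pow (by omega) z) hz
  have hZX' : Z ≤ X := by
    have h1 : (X : ℝ) ^ (1 / 4 : ℝ) ≤ (X : ℝ) ^ (1 : ℝ) :=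
      Real.rpow_le_rpow_of_exponent_le (by linarith) (by norm_num)
    rw [Real.rpow_one] at h1
    exact_mod_cast hZX.trans h1
  have hzK : (z : ℝ) ^ (2 * K) ≤ X := by
    rcases Nat.eq_zero_or_pos z with h0 | h0
    · rcases Nat.eq_zero_or_pos K with hK | hK
      · rw [hK]
        simp
        linarith
      · rw [h0]
        rw [Nat.cast_zero, zero_pow (by omega)]
        linarith
    · have h1 : z ^ (2 * K) ≤ z ^ (16 * (K + 1)) := Nat.pow_le_pow_right h0 (by omega)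
      exact_mod_cast h1.trans hz
  have hBp : ∀ p ∈ B, p.Prime := fun p hp => (hB p hp).1
  obtain ⟨hB1, hB2, hB3⟩ := hC1b X B (by omega) fun p hp => ⟨(hB p hp).1, (hB p hp).2.2.trans hZX'⟩
  obtain ⟨hS1, hS2, hS3⟩ := hC1b X (sprimes Z z) (by omega) fun p hp =>
    ⟨(mem_sprimes.1 hp).1, (mem_sprimes.1 hp).2.2.trans hzX⟩
  obtain ⟨hM1, hM2, hM3, hM4, hM5, hM6⟩ := A2 K z Z lam hlam hZ
  rw [← hL] at hB3 hS3
  have hVB : (VV B)⁻¹ ≤ C * L := hB3.trans (mul_le_mul_of_nonneg_right hCC1 (by linarith))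
  have hVS : (VV (sprimes Z z))⁻¹ ≤ C * L := hS3.trans (mul_le_mul_of_nonneg_right hCC1 (by linarith))
  have hMi : (MA lam Z z)⁻¹ ≤ C * L := (inv_anti₀ hS1 hM1).trans hVS
  have hMi0 : 0 ≤ (MA lam Z z)⁻¹ := inv_nonneg.2 hM3.le
  have hN : ((pr X : ℕ) : ℝ) ≤ C * X * L := by
    refine (hC2a X (by omega)).2.trans ?_
    rw [hL]
    refine mul_le_mul_of_nonneg_right (mul_le_mul_of_nonneg_right hCC2 (by linarith)) ?_
    rw [← hL]
    linarith
  have hCL : 0 ≤ C * L := by positivity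
  -- the sum of the squares of `nA`
  have hsum : ∑ a ∈ Finset.Icc (-((pr X : ℕ) : ℤ)) (2 * ((pr X : ℕ) : ℤ)), nA lam Z z a ^ 2 ≤
      (C * L) ^ 2 * (4 * C ^ 4 * L ^ 4 * X) := by
    refine (A7_sum K Z z (pr X) lam hlam hZ).trans ?_
    have h1 : ((MA lam Z z)⁻¹) ^ 2 ≤ (C * L) ^ 2 := pow_le_pow_left₀ hMi0 hMi 2
    have h2 : ((VV (sprimes Z z))⁻¹) ^ 3 ≤ (C * L) ^ 3 := pow_le_pow_left₀ (by linarith) hVS 3
    have h3 : 3 * ((pr X : ℕ) : ℝ) * ((VV (sprimes Z z))⁻¹) ^ 3 ≤ 3 * (C * X * L) * (C * L) ^ 3 :=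
      mul_le_mul (by linarith) h2 (by positivity) (by positivity)
    have h4 : (X : ℝ) ≤ C ^ 4 * L ^ 4 * X := by
      have h5 : 1 ≤ C ^ 4 * L ^ 4 := one_le_mul_of_one_le_of_one_le (one_le_pow₀ hC0) (one_le_pow₀ hL1)
      nlinarith
    have h5 : 0 ≤ 3 * ((pr X : ℕ) : ℝ) * ((VV (sprimes Z z))⁻¹) ^ 3 + (z : ℝ) ^ (2 * K) := by positivity
    refine mul_le_mul h1 ?_ h5 (by positivity)
    calc 3 * ((pr X : ℕ) : ℝ) * ((VV (sprimes Z z))⁻¹) ^ 3 + (z : ℝ) ^ (2 * K)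
        ≤ 3 * (C * X * L) * (C * L) ^ 3 + X := add_le_add h3 hzK
      _ ≤ 3 * (C * X * L) * (C * L) ^ 3 + C ^ 4 * L ^ 4 * X := by linarith
      _ = 4 * C ^ 4 * L ^ 4 * X := by ring
  have hFA : ∀ a : ℤ, FA lam Z z B a ^ 2 ≤ (C * L) ^ 2 * (nA lam Z z a ^ 2 + 1) := by
    intro a
    obtain ⟨h1, h2⟩ := A7_nu B hBp a
    have h3 : nu B a ^ 2 ≤ (C * L) ^ 2 := pow_le_pow_left₀ h1 (h2.trans hVB) 2
    have h4 : (nA lam Z z a - 1) ^ 2 ≤ nA lam Z z a ^ 2 + 1 := by nlinarith [hM5 a]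
    rw [FA, mul_pow]
    exact mul_le_mul h3 h4 (by positivity) (by positivity)
  have hrow : ∀ m ∈ range X, ∑ k ∈ range X, FA lam Z z B (2 * (pr m : ℤ) - (pr k : ℤ)) ^ 2 ≤
      (C * L) ^ 2 * ((C * L) ^ 2 * (4 * C ^ 4 * L ^ 4 * X) + X) := by
    intro m hm
    have hmX : pr m ≤ pr X := pr_strictMono.monotone (Finset.mem_range.1 hm).le
    have hinj : Set.InjOn (fun k : ℕ => 2 * (pr m : ℤ) - (pr k : ℤ)) (range X : Finset ℕ) := by
      intro k _ k' _ hk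
      simp only at hk
      have h1 : pr k = pr k' := by omega
      exact pr_strictMono.injective h1
    have h1 : ∑ k ∈ range X, nA lam Z z (2 * (pr m : ℤ) - (pr k : ℤ)) ^ 2 ≤
        ∑ a ∈ Finset.Icc (-((pr X : ℕ) : ℤ)) (2 * ((pr X : ℕ) : ℤ)), nA lam Z z a ^ 2 := by
      rw [← Finset.sum_image (s := range X) (g := fun k : ℕ => 2 * (pr m : ℤ) - (pr k : ℤ))
        (f := fun a => nA lam Z z a ^ 2) hinj]
      refine Finset.sum_le_sum_of_subset_of_nonneg ?_ fun _ _ _ => by positivity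
      intro a ha
      obtain ⟨k, hk, rfl⟩ := Finset.mem_image.1 ha
      have hkX : pr k ≤ pr X := pr_strictMono.monotone (Finset.mem_range.1 hk).le
      rw [Finset.mem_Icc]
      constructor
      · have : (0 : ℤ) ≤ (pr m : ℤ) := by positivity
        have h2 : ((pr k : ℕ) : ℤ) ≤ ((pr X : ℕ) : ℤ) := by exact_mod_cast hkX
        linarith
      · have : (0 : ℤ) ≤ (pr k : ℤ) := by positivity
        have h2 : ((pr m : ℕ) : ℤ) ≤ ((pr X : ℕ) : ℤ) := by exact_mod_cast hmX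
        linarith
    calc ∑ k ∈ range X, FA lam Z z B (2 * (pr m : ℤ) - (pr k : ℤ)) ^ 2
        ≤ ∑ k ∈ range X, (C * L) ^ 2 * (nA lam Z z (2 * (pr m : ℤ) - (pr k : ℤ)) ^ 2 + 1) :=
          Finset.sum_le_sum fun k _ => hFA _
      _ = (C * L) ^ 2 * (∑ k ∈ range X, nA lam Z z (2 * (pr m : ℤ) - (pr k : ℤ)) ^ 2 + X) := by
          rw [← Finset.mul_sum, Finset.sum_add_distrib]
          simp
      _ ≤ _ := by
          refine mul_le_mul_of_nonneg_left ?_ (by positivity)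
          linarith [h1.trans hsum]
  have hTT : |TT X (ff α β (FA lam Z z B)) 0| ≤
      X * ((C * L) ^ 2 * ((C * L) ^ 2 * (4 * C ^ 4 * L ^ 4 * X) + X)) := by
    have e : TT X (ff α β (FA lam Z z B)) 0 =
        ∑ m ∈ range X, ∑ k ∈ range X, (ff α β (FA lam Z z B) m k) ^ 2 := by
      unfold TT
      refine Finset.sum_congr rfl fun m _ => Finset.sum_congr rfl fun k _ => ?_
      rw [Nat.add_zero, Nat.add_zero]
      ring
    have h0 : 0 ≤ ∑ m ∈ range X, ∑ k ∈ range X, (ff α β (FA lam Z z B) m k) ^ 2 :=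
      Finset.sum_nonneg fun m _ => Finset.sum_nonneg fun k _ => by positivity
    rw [e, abs_of_nonneg h0]
    calc ∑ m ∈ range X, ∑ k ∈ range X, (ff α β (FA lam Z z B) m k) ^ 2
        ≤ ∑ m ∈ range X, ∑ k ∈ range X, FA lam Z z B (2 * (pr m : ℤ) - (pr k : ℤ)) ^ 2 := by
          refine Finset.sum_le_sum fun m _ => Finset.sum_le_sum fun k _ => ?_
          rw [ff, mul_pow, mul_pow]
          have h1 : α m ^ 2 ≤ 1 := by
            rw [← sq_abs]
            exact pow_le_one₀ (abs_nonneg _) (hα m)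
          have h2 : β k ^ 2 ≤ 1 := by
            rw [← sq_abs]
            exact pow_le_one₀ (abs_nonneg _) (hβ k)
          have h3 : α m ^ 2 * β k ^ 2 ≤ 1 := mul_le_one₀ h1 (by positivity) h2
          exact mul_le_of_le_one_left (by positivity) h3
      _ ≤ ∑ m ∈ range X, (C * L) ^ 2 * ((C * L) ^ 2 * (4 * C ^ 4 * L ^ 4 * X) + X) := Finset.sum_le_sum hrow
      _ = _ := by simp
  refine hTT.trans ?_
  rw [← hL]
  have h1 : X * ((C * L) ^ 2 * ((C * L) ^ 2 * (4 * C ^ 4 * L ^ 4 * X) + X)) =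
      (X : ℝ) ^ 2 * (4 * C ^ 8 * L ^ 8 + C ^ 2 * L ^ 2) := by ring
  rw [h1]
  refine mul_le_mul_of_nonneg_left ?_ (by positivity)
  have h2 : C ^ 2 * L ^ 2 ≤ C ^ 8 * L ^ 8 := by
    refine mul_le_mul (pow_le_pow_right₀ hC0 (by norm_num)) (pow_le_pow_right₀ hL1 (by norm_num))
      (by positivity) (by positivity)
  have h3 : 5 * C ^ 8 * L ^ 8 ≤ L ^ 9 := by
    have h4 : 5 * C ^ 8 ≤ L := by linarith
    calc 5 * C ^ 8 * L ^ 8 ≤ L * L ^ 8 := mul_le_mul_of_nonneg_right h4 (by positivity)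
      _ = L ^ 9 := by ring
  linarith

end Pool.Agent.Lib.H16X
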