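import Pool.Agent.Lib.H16X.D

/-!
# H16X: van der Corput inequality
-/

set_option linter.unusedVariables false

namespace Pool.Agent.Lib.H16X

open Finset Pool.Agent.Lib.Sieve

private theorem V1_shift (X L i : ℕ) (hi : i ≤ L) (g : ℕ → ℝ) (hg : ∀ k, X ≤ k → g k = 0) :
    ∑ t ∈ range (X + L), (if i ≤ t then g (t - i) else 0) = ∑ k ∈ range X, g k := by
  obtain ⟨c, rfl⟩ := Nat.exists_eq_add_of_le hi
  have e : X + (i + c) = i + (X + c) := by omega
  rw [e, Finset.sum_range_add]
  have h1 : ∑ x ∈ range i, (if i ≤ x then g (x - i) else 0) = 0 := by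
    refine Finset.sum_eq_zero fun x hx => ?_
    rw [if_neg (by have := Finset.mem_range.1 hx; omega)]
  have h2 : ∑ x ∈ range (X + c), (if i ≤ i + x then g (i + x - i) else 0)
      = ∑ x ∈ range (X + c), g x := by
    refine Finset.sum_congr rfl fun x _ => ?_
    rw [if_pos (Nat.le_add_right i x), Nat.add_sub_cancel_left]
  rw [h1, h2, zero_add, Finset.sum_range_add]
  have h3 : ∑ x ∈ range c, g (X + x) = 0 :=
    Finset.sum_eq_zero fun x _ => hg _ (Nat.le_add_right X x)
  rw [h3, add_zero]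

private theorem V1_one (X L : ℕ) (a : ℕ → ℝ) (ha : ∀ k, X ≤ k → a k = 0) :
    ((L : ℝ) * ∑ k ∈ range X, a k) ^ 2 ≤ ((X : ℝ) + L) *
      ∑ i ∈ range L, ∑ j ∈ range L, ∑ k ∈ range X, a k * a (k + ((i - j) + (j - i))) := by
  have h1 : (L : ℝ) * ∑ k ∈ range X, a k
      = ∑ t ∈ range (X + L), ∑ i ∈ range L, (if i ≤ t then a (t - i) else 0) := by
    rw [Finset.sum_comm]
    have h : ∀ i ∈ range L, ∑ t ∈ range (X + L), (if i ≤ t then a (t - i) else 0)
        = ∑ k ∈ range X, a k := fun i hi =>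
      V1_shift X L i (le_of_lt (Finset.mem_range.1 hi)) a ha
    rw [Finset.sum_congr rfl h, Finset.sum_const, Finset.card_range, nsmul_eq_mul]
  have h2 : (∑ t ∈ range (X + L), ∑ i ∈ range L, (if i ≤ t then a (t - i) else 0)) ^ 2
      ≤ ((X : ℝ) + L) * ∑ t ∈ range (X + L),
        (∑ i ∈ range L, (if i ≤ t then a (t - i) else 0)) ^ 2 := by
    have h := @sq_sum_le_card_mul_sum_sq ℕ ℝ _ _ _ _ (range (X + L))
      (fun t => ∑ i ∈ range L, (if i ≤ t then a (t - i) else 0))
    rw [Finset.card_range] at h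
    push_cast at h
    exact h
  have h3 : ∑ t ∈ range (X + L), (∑ i ∈ range L, (if i ≤ t then a (t - i) else 0)) ^ 2
      = ∑ i ∈ range L, ∑ j ∈ range L, ∑ k ∈ range X, a k * a (k + ((i - j) + (j - i))) := by
    have h4 : ∀ t ∈ range (X + L), (∑ i ∈ range L, (if i ≤ t then a (t - i) else 0)) ^ 2
        = ∑ i ∈ range L, ∑ j ∈ range L,
          (if i ≤ t then a (t - i) else 0) * (if j ≤ t then a (t - j) else 0) := by
      intro t _
      rw [sq, Finset.sum_mul_sum]
    rw [Finset.sum_congr rfl h4, Finset.sum_comm]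
    refine Finset.sum_congr rfl fun i hi => ?_
    rw [Finset.sum_comm]
    refine Finset.sum_congr rfl fun j hj => ?_
    have hi' := Finset.mem_range.1 hi
    have hj' := Finset.mem_range.1 hj
    rcases le_total i j with hij | hij
    · have h5 := V1_shift X L j (le_of_lt hj') (fun k => a k * a (k + ((i - j) + (j - i))))
        (fun k hk => by rw [ha k hk, zero_mul])
      rw [← h5]
      refine Finset.sum_congr rfl fun t _ => ?_
      by_cases ht : j ≤ t
      · rw [if_pos ht, if_pos ht, if_pos (le_trans hij ht)]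
        have e : t - j + ((i - j) + (j - i)) = t - i := by omega
        rw [e, mul_comm]
      · rw [if_neg ht, if_neg ht, mul_zero]
    · have h5 := V1_shift X L i (le_of_lt hi') (fun k => a k * a (k + ((i - j) + (j - i))))
        (fun k hk => by rw [ha k hk, zero_mul])
      rw [← h5]
      refine Finset.sum_congr rfl fun t _ => ?_
      by_cases ht : i ≤ t
      · rw [if_pos ht, if_pos ht, if_pos (le_trans hij ht)]
        have e : t - i + ((i - j) + (j - i)) = t - j := by omega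
        rw [e]
      · rw [if_neg ht, if_neg ht, zero_mul]
  rw [h1]
  rw [h3] at h2
  exact h2

private theorem V1_AD (X : ℕ) (f : ℕ → ℕ → ℝ) (hf : Sq X f) (s : ℕ) :
    AD f s = ∑ k ∈ range X, (if k ≤ s then f (s - k) k else 0) := by
  unfold AD
  have h1 : ∑ q ∈ antidiagonal s, f q.1 q.2 = ∑ k ∈ range (s + 1), f (s - k) k := by
    rw [← Finset.Nat.sum_antidiagonal_swap]
    exact Finset.Nat.sum_antidiagonal_eq_sum_range_succ (fun k m => f m k) s
  rw [h1]
  have h2 : ∑ k ∈ range (s + 1), f (s - k) k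
      = ∑ k ∈ range (s + 1 + X), (if k ≤ s then f (s - k) k else 0) := by
    rw [Finset.sum_range_add (fun k => if k ≤ s then f (s - k) k else 0) (s + 1) X]
    have h3 : ∑ x ∈ range X, (if s + 1 + x ≤ s then f (s - (s + 1 + x)) (s + 1 + x) else 0) = 0 :=
      Finset.sum_eq_zero fun x _ => by rw [if_neg (by omega)]
    rw [h3, add_zero]
    refine Finset.sum_congr rfl fun k hk => ?_
    rw [if_pos (by have := Finset.mem_range.1 hk; omega)]
  rw [h2]
  have e : s + 1 + X = X + (s + 1) := by omega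
  rw [e, Finset.sum_range_add]
  have h4 : ∑ x ∈ range (s + 1), (if X + x ≤ s then f (s - (X + x)) (X + x) else 0) = 0 := by
    refine Finset.sum_eq_zero fun x _ => ?_
    rw [hf _ _ (Or.inr (Nat.le_add_right X x)), ite_self]
  rw [h4, add_zero]

private theorem V1_TT (X j : ℕ) (f : ℕ → ℕ → ℝ) (hf : Sq X f) :
    ∑ s ∈ range (2 * X), ∑ k ∈ range X,
      (if k ≤ s then f (s - k) k else 0) * (if k + j ≤ s then f (s - (k + j)) (k + j) else 0)
      = TT X f j := by
  unfold TT
  rw [Finset.sum_comm]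
  conv_rhs => rw [Finset.sum_comm]
  refine Finset.sum_congr rfl fun k _ => ?_
  by_cases hk : k + j ≤ X
  · have h := V1_shift X X (k + j) hk (fun m => f (m + j) k * f m (k + j))
      (fun m hm => by rw [hf m (k + j) (Or.inl hm), mul_zero])
    rw [← h, two_mul]
    refine Finset.sum_congr rfl fun s _ => ?_
    by_cases hs : k + j ≤ s
    · rw [if_pos hs, if_pos hs, if_pos (by omega)]
      have e : s - (k + j) + j = s - k := by omega
      rw [e]
    · rw [if_neg hs, if_neg hs, mul_zero]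
  · have hk' : X ≤ k + j := le_of_lt (not_le.1 hk)
    rw [Finset.sum_eq_zero (fun s _ => by rw [hf _ (k + j) (Or.inr hk'), ite_self, mul_zero]),
      Finset.sum_eq_zero (fun m _ => by rw [hf _ (k + j) (Or.inr hk'), mul_zero])]

private theorem V1_row (L i : ℕ) (hi : i < L) (c : ℕ → ℝ) :
    ∑ j ∈ range L, c ((i - j) + (j - i)) ≤ |c 0| + 2 * ∑ j ∈ Ico 1 L, |c j| := by
  obtain ⟨r, rfl⟩ := Nat.exists_eq_add_of_lt hi
  have e : i + r + 1 = i + (r + 1) := by omega
  rw [e, Finset.sum_range_add, Finset.sum_range_succ' (fun x => c ((i - (i + x)) + (i + x - i))) r]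
  have h1 : ∑ x ∈ range i, c ((i - x) + (x - i)) ≤ ∑ j ∈ Ico 1 (i + (r + 1)), |c j| := by
    have h2 : ∑ x ∈ range i, c ((i - x) + (x - i)) = ∑ x ∈ range i, c (x + 1) := by
      rw [← Finset.sum_range_reflect (fun x => c (x + 1)) i]
      refine Finset.sum_congr rfl fun x hx => ?_
      have := Finset.mem_range.1 hx
      have e : (i - x) + (x - i) = i - 1 - x + 1 := by omega
      rw [e]
    rw [h2, Finset.sum_Ico_eq_sum_range]
    have h3 : ∑ x ∈ range i, c (x + 1) ≤ ∑ x ∈ range i, |c (1 + x)| := by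
      refine Finset.sum_le_sum fun x _ => ?_
      rw [add_comm x 1]
      exact le_abs_self _
    refine le_trans h3 (Finset.sum_le_sum_of_subset_of_nonneg ?_ fun x _ _ => abs_nonneg _)
    exact Finset.range_subset_range.2 (by omega)
  have h4 : ∑ x ∈ range r, c ((i - (i + (x + 1))) + (i + (x + 1) - i))
      ≤ ∑ j ∈ Ico 1 (i + (r + 1)), |c j| := by
    rw [Finset.sum_Ico_eq_sum_range]
    have h3 : ∑ x ∈ range r, c ((i - (i + (x + 1))) + (i + (x + 1) - i))
        ≤ ∑ x ∈ range r, |c (1 + x)| := by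
      refine Finset.sum_le_sum fun x _ => ?_
      have e : (i - (i + (x + 1))) + (i + (x + 1) - i) = 1 + x := by omega
      rw [e]
      exact le_abs_self _
    refine le_trans h3 (Finset.sum_le_sum_of_subset_of_nonneg ?_ fun x _ _ => abs_nonneg _)
    exact Finset.range_subset_range.2 (by omega)
  have h5 : c ((i - (i + 0)) + (i + 0 - i)) ≤ |c 0| := by
    have e : (i - (i + 0)) + (i + 0 - i) = 0 := by omega
    rw [e]
    exact le_abs_self _
  linarith

/-- van der Corput's inequality on every antidiagonal.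

Proof. Fix `s` and put `a_k = f (s - k) k` for `0 ≤ k ≤ s`, `a_k = 0` for all other integers `k` (so `a_k = 0` for
`k ≥ X`). `AD f s = Σ_k a_k`, and `L Σ_k a_k = Σ_t Σ_{0 ≤ i < L} a_(t+i)` where only the `X + L - 1` values
`-L < t < X` matter. Cauchy-Schwarz: `L² (AD f s)² ≤ (X + L) Σ_t (Σ_i a_(t+i))²
= (X + L) (L Σ_k a_k² + 2 Σ_{1 ≤ j < L} (L - j) Σ_k a_k a_(k+j))`. Now sum over `s < 2X`: since
`a_k a_(k+j) = f (s-k) k * f (s-k-j) (k+j)`, we have (put `m = s - k - j ≥ 0`, all non-zero terms have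
`m + j < X`, `k + j < X`, so `s < 2X`) `Σ_s Σ_k a_k a_(k+j) = TT X f j`. Finally `L - j ≤ L`.
(It may be convenient to shift the indices by `L` in order to work with naturals, or to extend `f` by `0` to integers.) -/
theorem V1 (X L : ℕ) (hL : 1 ≤ L) (f : ℕ → ℕ → ℝ) (hf : Sq X f) :
    ∑ s ∈ range (2 * X), (AD f s) ^ 2 ≤
      (((X : ℝ) + L) / L) * (|TT X f 0| + 2 * ∑ j ∈ Ico 1 L, |TT X f j|) := by
  have hL' : (0 : ℝ) < L := by exact_mod_cast hL
  have h1 : ∀ s ∈ range (2 * X), ((L : ℝ) * AD f s) ^ 2 ≤ ((X : ℝ) + L) *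
      ∑ i ∈ range L, ∑ j ∈ range L, ∑ k ∈ range X,
        (if k ≤ s then f (s - k) k else 0) * (if k + ((i - j) + (j - i)) ≤ s then
          f (s - (k + ((i - j) + (j - i)))) (k + ((i - j) + (j - i))) else 0) := by
    intro s _
    rw [V1_AD X f hf s]
    exact V1_one X L (fun k => if k ≤ s then f (s - k) k else 0)
      (fun k hk => by
        show (if k ≤ s then f (s - k) k else 0) = 0
        rw [hf _ k (Or.inr hk), ite_self])
  have h2 : ∑ s ∈ range (2 * X), ((L : ℝ) * AD f s) ^ 2 ≤ ((X : ℝ) + L) *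
      ∑ i ∈ range L, ∑ j ∈ range L, TT X f ((i - j) + (j - i)) := by
    refine le_trans (Finset.sum_le_sum h1) (le_of_eq ?_)
    rw [← Finset.mul_sum, Finset.sum_comm]
    refine congrArg (((X : ℝ) + L) * ·) (Finset.sum_congr rfl fun i _ => ?_)
    rw [Finset.sum_comm]
    refine Finset.sum_congr rfl fun j _ => ?_
    exact V1_TT X ((i - j) + (j - i)) f hf
  have h3 : ∑ i ∈ range L, ∑ j ∈ range L, TT X f ((i - j) + (j - i))
      ≤ (L : ℝ) * (|TT X f 0| + 2 * ∑ j ∈ Ico 1 L, |TT X f j|) := by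
    refine le_trans (Finset.sum_le_sum fun i hi =>
      V1_row L i (Finset.mem_range.1 hi) (TT X f)) (le_of_eq ?_)
    rw [Finset.sum_const, Finset.card_range, nsmul_eq_mul]
  have h4 : ∑ s ∈ range (2 * X), ((L : ℝ) * AD f s) ^ 2
      = (L : ℝ) ^ 2 * ∑ s ∈ range (2 * X), (AD f s) ^ 2 := by
    rw [Finset.mul_sum]
    exact Finset.sum_congr rfl fun s _ => mul_pow _ _ _
  have h5 : (L : ℝ) ^ 2 * ∑ s ∈ range (2 * X), (AD f s) ^ 2 ≤ (L : ℝ) ^ 2 *
      ((((X : ℝ) + L) / L) * (|TT X f 0| + 2 * ∑ j ∈ Ico 1 L, |TT X f j|)) := by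
    rw [← h4]
    refine le_trans h2 ?_
    have hX : (0 : ℝ) ≤ (X : ℝ) + L := by positivity
    refine le_trans (mul_le_mul_of_nonneg_left h3 hX) (le_of_eq ?_)
    field_simp
  exact le_of_mul_le_mul_left h5 (by positivity)

end Pool.Agent.Lib.H16X
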