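import Pool.Agent.Lib.H16X.D
import Pool.Agent.Lib.H16X.V1
import Pool.Agent.Lib.H16X.A6
import Pool.Agent.Lib.H16X.A7

/-!
# H16X: mean square, last scale
-/

set_option linter.unusedVariables false

namespace Pool.Agent.Lib.H16X

open Finset Pool.Agent.Lib.Sieve

private theorem a8_pow_le (n : ℕ) : ∃ X0 : ℕ, ∀ X : ℕ, X0 ≤ X → lg X ^ n ≤ X := by
  have h1 := tendsto_pow_const_div_const_pow_of_one_lt n (one_lt_two : (1 : ℝ) < 2)
  have h2 : ∀ᶠ l : ℕ in Filter.atTop, (l : ℝ) ^ n / 2 ^ l < 1 :=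
    h1.eventually_lt_const one_pos
  obtain ⟨l0, hl0⟩ := h2.exists_forall_of_atTop
  refine ⟨2 ^ l0, fun X hX => ?_⟩
  have hX0 : X ≠ 0 := by
    have : 0 < 2 ^ l0 := by positivity
    omega
  have h3 : l0 ≤ lg X := Nat.le_log_of_pow_le (by norm_num) hX
  have h4 := hl0 (lg X) h3
  rw [div_lt_one (by positivity)] at h4
  have h5 : lg X ^ n < 2 ^ lg X := by exact_mod_cast h4
  have h6 : 2 ^ lg X ≤ X := Nat.pow_log_le_self 2 hX0
  omega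

private theorem a8_lg_ge (l0 : ℕ) : ∃ X0 : ℕ, ∀ X : ℕ, X0 ≤ X → l0 ≤ lg X :=
  ⟨2 ^ l0, fun _ hX => Nat.le_log_of_pow_le (by norm_num) hX⟩

private theorem a8_log_le {X : ℕ} (h : 3 ≤ lg X) : Real.log X ≤ lg X := by
  have hX0 : X ≠ 0 := by
    rintro rfl
    simp [lg] at h
  have h1 : X < 2 ^ (lg X + 1) := Nat.lt_pow_succ_log_self (by norm_num) X
  have h2 : (X : ℝ) ≤ 2 ^ (lg X + 1) := by exact_mod_cast h1.le
  have h3 : Real.log X ≤ Real.log (2 ^ (lg X + 1)) :=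
    Real.log_le_log (by exact_mod_cast Nat.pos_of_ne_zero hX0) h2
  rw [Real.log_pow] at h3
  have h4 : Real.log 2 < 0.6931471808 := Real.log_two_lt_d9
  have h5 : (3 : ℝ) ≤ lg X := by exact_mod_cast h
  push_cast at h3
  nlinarith

private theorem a8_quarter {X Z : ℕ} (h : Z ^ 4 ≤ X) : (Z : ℝ) ≤ (X : ℝ) ^ (1 / 4 : ℝ) := by
  have h1 : (Z : ℝ) = ((Z : ℝ) ^ (4 : ℕ)) ^ (1 / 4 : ℝ) := by
    rw [← Real.rpow_natCast, ← Real.rpow_mul (Nat.cast_nonneg _)]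
    norm_num
  rw [h1]
  exact Real.rpow_le_rpow (by positivity) (by exact_mod_cast h) (by norm_num)

private theorem a8_PP {X y : ℕ} (hX : 1 ≤ X) (w : ℕ) (h : (y : ℝ) ≤ Real.log X / 16) :
    (PP (sprimes w y) : ℝ) ≤ (X : ℝ) ^ (1 / 4 : ℝ) := by
  have h1 : PP (sprimes w y) ≤ 4 ^ y := by
    refine le_trans ?_ (primorial_le_four_pow y)
    unfold PP primorial
    refine Finset.prod_le_prod_of_subset_of_one_le' ?_ ?_
    · intro p hp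
      rw [mem_sprimes] at hp
      rw [Finset.mem_filter, Finset.mem_range]
      exact ⟨by omega, hp.1⟩
    · intro p hp _
      exact (Finset.mem_filter.1 hp).2.one_lt.le
  have h2 : (PP (sprimes w y) : ℝ) ≤ 4 ^ y := by exact_mod_cast h1
  refine h2.trans ?_
  have hX0 : (0 : ℝ) < X := by exact_mod_cast hX
  have h3 : ((4 : ℝ) ^ y) = Real.exp (y * Real.log 4) := by
    rw [mul_comm, Real.exp_mul, Real.exp_log (by norm_num), Real.rpow_natCast]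
  rw [h3, Real.rpow_def_of_pos hX0]
  apply Real.exp_le_exp.2
  have h4 : Real.log 4 ≤ 2 := by
    have h5 : Real.log 4 = 2 * Real.log 2 := by
      rw [show (4 : ℝ) = 2 ^ 2 by norm_num, Real.log_pow]
      norm_num
    have h6 : Real.log 2 < 0.6931471808 := Real.log_two_lt_d9
    rw [h5]
    linarith
  have h7 : 0 ≤ Real.log X := Real.log_nonneg (by exact_mod_cast hX)
  have h8 : (0 : ℝ) ≤ y := Nat.cast_nonneg y
  have h9 : 0 ≤ Real.log 4 := Real.log_nonneg (by norm_num)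
  nlinarith

private theorem a8_Sq {X : ℕ} {α β : ℕ → ℝ} (Φ : ℤ → ℝ) (hα : ∀ m, α m ≠ 0 → m < X)
    (hβ : ∀ k, β k ≠ 0 → k < X) : Sq X (ff α β Φ) := by
  intro m k h
  unfold ff
  rcases h with h | h
  · have h1 : α m = 0 := by
      by_contra h2
      have := hα m h2
      omega
    rw [h1, zero_mul, zero_mul]
  · have h1 : β k = 0 := by
      by_contra h2
      have := hβ k h2
      omega
    rw [h1, mul_zero, zero_mul]

/-- The mean square over the antidiagonals, last scale.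

Proof. Let `C6`, `C7` be the exponents of `A6`, `A7`, `l = lg X` (`log X ≤ l + 1 ≤ 2 l`, `l ≤ 2 log X`). Take `a1 = C7 + 1`,
`L = l^a1`, `D = l^(a1+2)`, `a2 = 2 (a1 + 2 + C6) + 2`, `Z = l^a2` (`≤ X^(1/4)` and `≥ 6` for large `X`). `B = sprimes (yy 0) (yy i)`: its
primes are `≤ log X / 16 ≤ Z` and `PP B ≤ 4^(yy i) ≤ X^(1/4)`. `V1`:
`Σ_s (AD f s)² ≤ (2X/L) |TT 0| + 4 X max_{1 ≤ j < L} |TT j| ≤ 2 X³ (log X)^C7 / l^a1 + 4 X D X² (log X)^C6 / √Z`, and both are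
`≤ C X³` (`√Z = l^(a1+3+C6)`). -/
theorem A8 (K : ℕ) : ∃ a1 a2 : ℕ, 1 ≤ a2 ∧ ∃ C : ℝ, 1 ≤ C ∧ ∃ X0 : ℕ, ∀ X : ℕ, X0 ≤ X → ∀ z : ℕ,
    z ^ (16 * (K + 1)) ≤ X → ∀ lam : Finset ℕ → ℝ, IsLam K z lam → ∀ i : ℕ, (yy i : ℝ) ≤ Real.log X / 16 →
    ∀ α β : ℕ → ℝ, (∀ m, |α m| ≤ 1) → (∀ k, |β k| ≤ 1) → (∀ m, α m ≠ 0 → m < X) →
    (∀ k, β k ≠ 0 → k < X) → Gap (lg X ^ a1) ((lg X : ℝ) ^ (a1 + 2)) α →
    ∑ s ∈ range (2 * X), (AD (ff α β (FA lam (lg X ^ a2) z (sprimes (yy 0) (yy i)))) s) ^ 2 ≤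
      C * (X : ℝ) ^ 3 := by
  obtain ⟨C6, X6, h6⟩ := A6 K
  obtain ⟨C7, X7, h7⟩ := A7 K
  obtain ⟨a1, ha1⟩ : ∃ a1, a1 = C7 + 1 := ⟨_, rfl⟩
  obtain ⟨a2, ha2⟩ : ∃ a2, a2 = 2 * (a1 + 2 + C6) + 2 := ⟨_, rfl⟩
  obtain ⟨X1, hX1⟩ := a8_pow_le (4 * a2)
  obtain ⟨X2, hX2⟩ := a8_lg_ge 6
  refine ⟨a1, a2, by omega, 6, by norm_num, max (max X6 X7) (max X1 X2), ?_⟩
  intro X hX z hz lam hlam i hi α β hα hβ hαX hβX hgap
  have hX6 : X6 ≤ X := le_trans (le_trans (le_max_left _ _) (le_max_left _ _)) hX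
  have hX7 : X7 ≤ X := le_trans (le_trans (le_max_right _ _) (le_max_left _ _)) hX
  have hX1' := hX1 X (le_trans (le_trans (le_max_left _ _) (le_max_right _ _)) hX)
  have hl6 := hX2 X (le_trans (le_trans (le_max_right _ _) (le_max_right _ _)) hX)
  obtain ⟨l, hl⟩ : ∃ l, l = lg X := ⟨_, rfl⟩
  have hlog : Real.log X ≤ l := by rw [hl]; exact a8_log_le (by omega)
  rw [← hl] at hX1' hl6 hgap ⊢
  have hl1 : 1 ≤ l := by omega
  have hXl : l ≤ X := by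
    calc l = l ^ 1 := (pow_one l).symm
      _ ≤ l ^ (4 * a2) := Nat.pow_le_pow_right hl1 (by omega)
      _ ≤ X := hX1'
  have hX0 : 1 ≤ X := by omega
  have hlr : (1 : ℝ) ≤ l := by exact_mod_cast hl1
  have hl0 : (0 : ℝ) < l := by linarith
  have hXr : (1 : ℝ) ≤ X := by exact_mod_cast hX0
  have hXr0 : (0 : ℝ) < X := by linarith
  have hlogX : 0 ≤ Real.log X := Real.log_nonneg hXr
  have hZ6 : 6 ≤ l ^ a2 := by
    calc 6 ≤ l := hl6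
      _ = l ^ 1 := (pow_one l).symm
      _ ≤ l ^ a2 := Nat.pow_le_pow_right hl1 (by omega)
  have hZq : ((l ^ a2 : ℕ) : ℝ) ≤ (X : ℝ) ^ (1 / 4 : ℝ) := by
    apply a8_quarter
    rw [← pow_mul, mul_comm a2 4]
    exact hX1'
  have hyl : yy i ≤ l := by
    have h1 : (yy i : ℝ) ≤ l := by linarith
    exact_mod_cast h1
  have hB : ∀ p ∈ sprimes (yy 0) (yy i), p.Prime ∧ 3 ≤ p ∧ p ≤ l ^ a2 := by
    intro p hp
    rw [mem_sprimes] at hp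
    refine ⟨hp.1, ?_, ?_⟩
    · have h1 : 3 ≤ yy 0 := by norm_num [yy, uu]
      omega
    · calc p ≤ yy i := hp.2.2
        _ ≤ l := hyl
        _ = l ^ 1 := (pow_one l).symm
        _ ≤ l ^ a2 := Nat.pow_le_pow_right hl1 (by omega)
  have hPP := a8_PP hX0 (yy 0) hi
  have hDX : l ^ (a1 + 2) ≤ X := le_trans (Nat.pow_le_pow_right hl1 (by omega)) hX1'
  have hLX : l ^ a1 ≤ X := le_trans (Nat.pow_le_pow_right hl1 (by omega)) hX1'
  have hL1 : 1 ≤ l ^ a1 := Nat.one_le_pow _ _ hl1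
  obtain ⟨f, hf⟩ : ∃ f, f = ff α β (FA lam (l ^ a2) z (sprimes (yy 0) (yy i))) := ⟨_, rfl⟩
  have hT0 : |TT X f 0| ≤ (X : ℝ) ^ 2 * (l : ℝ) ^ C7 := by
    rw [hf]
    refine (h7 X hX7 (l ^ a2) z hZ6 hZq hz lam hlam _ hB α β hα hβ).trans ?_
    gcongr
  have hTj : ∀ j ∈ Ico 1 (l ^ a1), |TT X f j| ≤ (X : ℝ) ^ 2 := by
    intro j hj
    rw [Finset.mem_Ico] at hj
    rw [hf]
    have hgap' : Gap (l ^ a1) ((l ^ (a1 + 2) : ℕ) : ℝ) α := by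
      intro m j' hj' hne
      have := hgap m j' hj' hne
      push_cast
      exact this
    refine (h6 X hX6 (l ^ a2) z hZ6 hZq hz lam hlam _ hB hPP (l ^ a1) j (l ^ (a1 + 2)) hj.1 hj.2 hDX
      α β hα hβ hαX hβX hgap').trans ?_
    have hsq : Real.sqrt ((l ^ a2 : ℕ) : ℝ) = (l : ℝ) ^ (a1 + 2 + C6 + 1) := by
      have e1 : ((l ^ a2 : ℕ) : ℝ) = ((l : ℝ) ^ (a1 + 2 + C6 + 1)) ^ 2 := by
        push_cast
        rw [← pow_mul, ha2]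
        congr 1
        ring
      rw [e1]
      exact Real.sqrt_sq (by positivity)
    rw [hsq, div_le_iff₀ (by positivity)]
    push_cast
    calc (l : ℝ) ^ (a1 + 2) * (X : ℝ) ^ 2 * Real.log X ^ C6
        ≤ (l : ℝ) ^ (a1 + 2) * (X : ℝ) ^ 2 * (l : ℝ) ^ C6 := by gcongr
      _ = (X : ℝ) ^ 2 * (l : ℝ) ^ (a1 + 2 + C6) := by ring
      _ ≤ (X : ℝ) ^ 2 * (l : ℝ) ^ (a1 + 2 + C6 + 1) :=
          mul_le_mul_of_nonneg_left (pow_le_pow_right₀ hlr (by omega)) (by positivity)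
  have hV := V1 X (l ^ a1) hL1 f (by rw [hf]; exact a8_Sq _ hαX hβX)
  rw [← hf]
  refine hV.trans ?_
  have hsum : ∑ j ∈ Ico 1 (l ^ a1), |TT X f j| ≤ ((l ^ a1 : ℕ) : ℝ) * (X : ℝ) ^ 2 := by
    calc ∑ j ∈ Ico 1 (l ^ a1), |TT X f j| ≤ ∑ j ∈ Ico 1 (l ^ a1), (X : ℝ) ^ 2 := Finset.sum_le_sum hTj
      _ = ((l ^ a1 - 1 : ℕ) : ℝ) * (X : ℝ) ^ 2 := by
          rw [Finset.sum_const, Nat.card_Ico, nsmul_eq_mul]
      _ ≤ ((l ^ a1 : ℕ) : ℝ) * (X : ℝ) ^ 2 := by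
          gcongr
          omega
  obtain ⟨L, hL⟩ : ∃ L : ℝ, L = ((l ^ a1 : ℕ) : ℝ) := ⟨_, rfl⟩
  rw [← hL] at hsum ⊢
  have hLr : 1 ≤ L := by rw [hL]; exact_mod_cast hL1
  have hLXr : L ≤ X := by rw [hL]; exact_mod_cast hLX
  have hlC : (l : ℝ) ^ C7 ≤ L := by
    rw [hL, ha1]
    push_cast
    exact pow_le_pow_right₀ hlr (by omega)
  have hTT : |TT X f 0| + 2 * ∑ j ∈ Ico 1 (l ^ a1), |TT X f j| ≤ 3 * L * (X : ℝ) ^ 2 := by
    have h1 : (X : ℝ) ^ 2 * (l : ℝ) ^ C7 ≤ L * (X : ℝ) ^ 2 := by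
      rw [mul_comm]
      gcongr
    linarith
  have hfac : ((X : ℝ) + L) / L ≤ 2 * X / L := by
    gcongr
    linarith
  calc ((X : ℝ) + L) / L * (|TT X f 0| + 2 * ∑ j ∈ Ico 1 (l ^ a1), |TT X f j|)
      ≤ (2 * X / L) * (3 * L * (X : ℝ) ^ 2) := by
        apply mul_le_mul hfac hTT
        · exact add_nonneg (abs_nonneg _) (mul_nonneg (by norm_num) (Finset.sum_nonneg fun _ _ => abs_nonneg _))
        · positivity
    _ = 6 * (X : ℝ) ^ 3 := by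
        field_simp
        ring

end Pool.Agent.Lib.H16X
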