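import Pool.Agent.Lib.H16X.D

/-!
# H16X: CRT for means
-/

set_option linter.unusedVariables false

namespace Pool.Agent.Lib.H16X

open Finset Pool.Agent.Lib.Sieve

private theorem B1_per {Q : ℕ} {F : ℤ → ℝ} (hF : Per Q F) (b : ℕ) :
    F (b : ℤ) = F ((b % Q : ℕ) : ℤ) := by
  refine hF _ _ ⟨((b / Q : ℕ) : ℤ), ?_⟩
  have h2 : (b : ℤ) = ((b % Q : ℕ) : ℤ) + (Q : ℤ) * ((b / Q : ℕ) : ℤ) := by
    exact_mod_cast (Nat.mod_add_div b Q).symm
  linarith

/-- Chinese remainder theorem for means.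

Proof. `b ↦ (b mod Q1, b mod Q2)` is a bijection from `range (Q1 * Q2)` to `range Q1 × range Q2` (`Nat.chineseRemainder`,
or `ZMod.chineseRemainder`), and `F b = F (b mod Q1)`, `G b = G (b mod Q2)`. -/
theorem B1 (Q1 Q2 : ℕ) (h1 : 0 < Q1) (h2 : 0 < Q2) (hc : Nat.Coprime Q1 Q2) (F G : ℤ → ℝ)
    (hF : Per Q1 F) (hG : Per Q2 G) :
    mn (Q1 * Q2) (fun b => F b * G b) = mn Q1 F * mn Q2 G := by
  have key : ∑ b ∈ range (Q1 * Q2), F (b : ℤ) * G (b : ℤ) =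
      (∑ a ∈ range Q1, F (a : ℤ)) * ∑ b ∈ range Q2, G (b : ℤ) := by
    rw [Finset.sum_mul_sum, ← Finset.sum_product']
    refine Finset.sum_bij' (fun b _ => (b % Q1, b % Q2))
      (fun x _ => (Nat.chineseRemainder hc x.1 x.2 : ℕ)) ?_ ?_ ?_ ?_ ?_
    · intro b _
      rw [mem_product, mem_range, mem_range]
      exact ⟨Nat.mod_lt _ h1, Nat.mod_lt _ h2⟩
    · intro x _
      rw [mem_range]
      exact Nat.chineseRemainder_lt_mul hc x.1 x.2 h1.ne' h2.ne'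
    · intro b hb
      rw [mem_range] at hb
      have h3 := (Nat.chineseRemainder hc (b % Q1) (b % Q2)).2
      have h4 : (Nat.chineseRemainder hc (b % Q1) (b % Q2) : ℕ) ≡ b [MOD Q1 * Q2] := by
        rw [← Nat.modEq_and_modEq_iff_modEq_mul hc]
        exact ⟨h3.1.trans (Nat.mod_modEq b Q1), h3.2.trans (Nat.mod_modEq b Q2)⟩
      exact Nat.ModEq.eq_of_lt_of_lt h4
        (Nat.chineseRemainder_lt_mul hc _ _ h1.ne' h2.ne') hb
    · intro x hx
      rw [mem_product, mem_range, mem_range] at hx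
      have h3 := (Nat.chineseRemainder hc x.1 x.2).2
      ext
      · change (Nat.chineseRemainder hc x.1 x.2 : ℕ) % Q1 = x.1
        rw [h3.1, Nat.mod_eq_of_lt hx.1]
      · change (Nat.chineseRemainder hc x.1 x.2 : ℕ) % Q2 = x.2
        rw [h3.2, Nat.mod_eq_of_lt hx.2]
    · intro b _
      change F (b : ℤ) * G (b : ℤ) = F ((b % Q1 : ℕ) : ℤ) * G ((b % Q2 : ℕ) : ℤ)
      rw [← B1_per hF, ← B1_per hG]
  unfold mn
  rw [key]
  have h3 : (Q1 : ℝ) ≠ 0 := by exact_mod_cast h1.ne'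
  have h4 : (Q2 : ℝ) ≠ 0 := by exact_mod_cast h2.ne'
  push_cast
  field_simp

end Pool.Agent.Lib.H16X
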