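import Pool.Agent.Lib.H16X.D
import Pool.Agent.Lib.H16X.B1

/-!
# H16X: product formula for means of nu
-/

set_option linter.unusedVariables false

namespace Pool.Agent.Lib.H16X

open Finset Pool.Agent.Lib.Sieve

private theorem b2_count (p : ℕ) (hp : p.Prime) (h3 : 3 ≤ p) (I : Finset (Fin 4)) (s : Fin 4 → ℤ)
    [DecidablePred fun b : ℕ => ∃ i ∈ I, (p : ℤ) ∣ 2 * (b : ℤ) - s i] :
    ((range p).filter (fun b : ℕ => ∃ i ∈ I, (p : ℤ) ∣ 2 * (b : ℤ) - s i)).card =
      (I.image (fun i => s i % (p : ℤ))).card := by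
  have hp0 : (0 : ℤ) < p := by exact_mod_cast hp.pos
  have hodd : Odd p := hp.odd_of_ne_two (by omega)
  obtain ⟨h, hh⟩ := hodd
  refine card_bij (fun b _ => (2 * (b : ℤ)) % (p : ℤ)) ?_ ?_ ?_
  · intro b hb
    rw [mem_filter] at hb
    obtain ⟨_, i, hi, hd⟩ := hb
    rw [mem_image]
    exact ⟨i, hi, (Int.emod_emod_of_dvd _ (dvd_refl _) ▸ (Int.emod_eq_emod_iff_emod_sub_eq_zero.2
      (Int.emod_eq_zero_of_dvd hd)).symm)⟩
  · intro b hb b' hb' he
    rw [mem_filter, mem_range] at hb hb'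
    have h1 : (p : ℤ) ∣ 2 * (b : ℤ) - 2 * (b' : ℤ) :=
      Int.dvd_of_emod_eq_zero (Int.emod_eq_emod_iff_emod_sub_eq_zero.1 he)
    have h2 : (p : ℤ) ∣ 2 * ((b : ℤ) - b') := by
      rw [mul_sub]
      exact h1
    have hpp : Prime (p : ℤ) := Nat.prime_iff_prime_int.1 hp
    rcases hpp.dvd_or_dvd h2 with h4 | h4
    · have := Int.le_of_dvd (by norm_num) h4
      omega
    · have h5 : (b : ℤ) - b' = 0 := by
        apply Int.eq_zero_of_abs_lt_dvd h4
        rw [abs_lt]
        constructor <;> omega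
      omega
  · intro y hy
    rw [mem_image] at hy
    obtain ⟨i, hi, rfl⟩ := hy
    have hn : 0 ≤ (s i * (h + 1)) % (p : ℤ) := Int.emod_nonneg _ hp0.ne'
    have hl : (s i * (h + 1)) % (p : ℤ) < p := Int.emod_lt_of_pos _ hp0
    have hdvd : (p : ℤ) ∣ 2 * ((s i * (h + 1)) % (p : ℤ)) - s i := by
      have e1 : 2 * ((s i * (h + 1)) % (p : ℤ)) - s i =
          (p : ℤ) * (s i - 2 * ((s i * (h + 1)) / (p : ℤ))) := by
        have e2 := Int.emod_add_mul_ediv (s i * (h + 1)) (p : ℤ)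
        have e3 : (p : ℤ) = 2 * h + 1 := by exact_mod_cast hh
        have e4 : (s i * (h + 1)) % (p : ℤ) = s i * (h + 1) - (p : ℤ) * ((s i * (h + 1)) / (p : ℤ)) := by
          linarith
        rw [e4]
        have e5 : (p : ℤ) * (s i - 2 * ((s i * (h + 1)) / (p : ℤ))) =
          (p : ℤ) * s i - 2 * ((p : ℤ) * ((s i * (h + 1)) / (p : ℤ))) := by ring
        rw [e5]
        have e6 : (p : ℤ) * s i = (2 * h + 1) * s i := by rw [e3]
        rw [e6]
        ring
      rw [e1]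
      exact dvd_mul_right _ _
    refine ⟨((s i * (h + 1)) % (p : ℤ)).toNat, ?_, ?_⟩
    · rw [mem_filter, mem_range]
      refine ⟨by omega, i, hi, ?_⟩
      rw [Int.toNat_of_nonneg hn]
      exact hdvd
    · show (2 * ((((s i * (h + 1)) % (p : ℤ)).toNat : ℕ) : ℤ)) % (p : ℤ) = s i % (p : ℤ)
      rw [Int.toNat_of_nonneg hn]
      exact Int.emod_eq_emod_iff_emod_sub_eq_zero.2 (Int.emod_eq_zero_of_dvd hdvd)

private theorem b2_prime (p : ℕ) (hp : p.Prime) (h3 : 3 ≤ p) (I : Finset (Fin 4)) (s : Fin 4 → ℤ)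
    (c : ℝ) : (∑ b ∈ range p, ∏ i ∈ I, (if (p : ℤ) ∣ 2 * (b : ℤ) - s i then (0 : ℝ) else c)) =
      ((p : ℝ) - (I.image (fun i => s i % (p : ℤ))).card) * c ^ I.card := by
  classical
  have h1 : ∀ b ∈ range p, ∏ i ∈ I, (if (p : ℤ) ∣ 2 * (b : ℤ) - s i then (0 : ℝ) else c) =
      if (∃ i ∈ I, (p : ℤ) ∣ 2 * (b : ℤ) - s i) then 0 else c ^ I.card := by
    intro b _
    split_ifs with h
    · obtain ⟨i, hi, hd⟩ := h
      exact prod_eq_zero hi (if_pos hd)
    · push Not at h
      rw [prod_congr rfl (fun i hi => if_neg (h i hi)), prod_const]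
  rw [sum_congr rfl h1, sum_ite, sum_const_zero, zero_add, sum_const, nsmul_eq_mul]
  congr 1
  have h2 := card_filter_add_card_filter_not (s := range p)
    (fun b : ℕ => ∃ i ∈ I, (p : ℤ) ∣ 2 * (b : ℤ) - s i)
  rw [card_range, b2_count p hp h3 I s] at h2
  have h4 : (((I.image (fun i => s i % (p : ℤ))).card : ℕ) : ℝ) +
      ((filter (fun b : ℕ => ¬ ∃ i ∈ I, (p : ℤ) ∣ 2 * (b : ℤ) - s i) (range p)).card : ℝ) = (p : ℝ) := by
    exact_mod_cast h2
  linarith

private theorem b2_per (S : Finset ℕ) (I : Finset (Fin 4)) (s : Fin 4 → ℤ) :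
    Per (PP S) (fun b => ∏ i ∈ I, nu S (2 * b - s i)) := by
  intro a b hab
  refine prod_congr rfl fun i _ => ?_
  unfold nu
  refine prod_congr rfl fun q hq => ?_
  have h1 : (q : ℤ) ∣ (PP S : ℤ) := by
    unfold PP
    exact_mod_cast dvd_prod_of_mem (fun p : ℕ => p) hq
  have h2 : (q : ℤ) ∣ a - b := h1.trans hab
  have h3 : (q : ℤ) ∣ (2 * a - s i) - (2 * b - s i) := by
    have : (2 * a - s i) - (2 * b - s i) = 2 * (a - b) := by ring
    rw [this]
    exact Dvd.dvd.mul_left h2 2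
  have h4 : (q : ℤ) ∣ 2 * a - s i ↔ (q : ℤ) ∣ 2 * b - s i := by
    constructor
    · intro h
      have := dvd_sub h h3
      rwa [sub_sub_cancel] at this
    · intro h
      have := dvd_add h3 h
      rwa [sub_add_cancel] at this
  by_cases hc : (q : ℤ) ∣ 2 * b - s i
  · rw [if_pos hc, if_pos (h4.2 hc)]
  · rw [if_neg hc, if_neg (fun h => hc (h4.1 h))]

/-- The mean of a product of `nu`'s is the product of the local factors.

Proof. Induction on `S` with `B1` (`Q1 = p`, `Q2 = PP S`; `nu (insert p S) a = (local factor at p) * nu S a`; periodicity of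
`b ↦ ∏_{i ∈ I} nu S (2b - s i)` with period `PP S` is clear). For one prime `p ≥ 3`: among the `b ∈ range p` exactly
`r = #{s i mod p : i ∈ I}` satisfy `p ∣ 2b - s i` for some `i ∈ I` (`b ↦ 2b` is a bijection modulo `p`), and for the other
`p - r` values of `b` the product is `((1 - 1/p)⁻¹)^|I|`. -/
theorem B2 (S : Finset ℕ) (hS : ∀ p ∈ S, p.Prime ∧ 3 ≤ p) (I : Finset (Fin 4)) (s : Fin 4 → ℤ) :
    mn (PP S) (fun b => ∏ i ∈ I, nu S (2 * b - s i)) =
      ∏ p ∈ S, (1 - ((I.image (fun i => s i % (p : ℤ))).card : ℝ) / p) *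
        ((1 - 1 / (p : ℝ))⁻¹) ^ I.card := by
  classical
  induction S using Finset.induction_on with
  | empty =>
    simp [mn, PP, nu]
  | insert p S hpS ih =>
    have hp := hS p (mem_insert_self p S)
    have hS' : ∀ q ∈ S, q.Prime ∧ 3 ≤ q := fun q hq => hS q (mem_insert_of_mem hq)
    have hpp : (p : ℝ) ≠ 0 := by exact_mod_cast hp.1.ne_zero
    have e1 : PP (insert p S) = p * PP S := by
      unfold PP
      rw [prod_insert hpS]
    have e2 : (fun b : ℤ => ∏ i ∈ I, nu (insert p S) (2 * b - s i)) =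
        fun b : ℤ => (∏ i ∈ I, (if (p : ℤ) ∣ 2 * b - s i then (0 : ℝ) else (1 - 1 / (p : ℝ))⁻¹)) *
          ∏ i ∈ I, nu S (2 * b - s i) := by
      funext b
      rw [← prod_mul_distrib]
      refine prod_congr rfl fun i _ => ?_
      unfold nu
      rw [prod_insert hpS]
    have hPS : 0 < PP S := by
      unfold PP
      exact prod_pos fun q hq => (hS' q hq).1.pos
    have hcop : Nat.Coprime p (PP S) := by
      unfold PP
      refine Nat.Coprime.prod_right fun q hq => ?_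
      rw [Nat.coprime_primes hp.1 (hS' q hq).1]
      rintro rfl
      exact hpS hq
    have hF : Per p (fun b : ℤ => ∏ i ∈ I, (if (p : ℤ) ∣ 2 * b - s i then (0 : ℝ) else (1 - 1 / (p : ℝ))⁻¹)) := by
      have h5 := b2_per {p} I s
      have h6 : PP {p} = p := by
        unfold PP
        rw [prod_singleton]
      rw [h6] at h5
      have h7 : (fun b : ℤ => ∏ i ∈ I, nu {p} (2 * b - s i)) =
          fun b : ℤ => ∏ i ∈ I, (if (p : ℤ) ∣ 2 * b - s i then (0 : ℝ) else (1 - 1 / (p : ℝ))⁻¹) := by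
        funext b
        refine prod_congr rfl fun i _ => ?_
        unfold nu
        rw [prod_singleton]
      rwa [h7] at h5
    rw [e1, e2, B1 p (PP S) hp.1.pos hPS hcop _ _ hF (b2_per S I s), ih hS', prod_insert hpS]
    congr 1
    unfold mn
    rw [b2_prime p hp.1 hp.2 I s]
    field_simp

end Pool.Agent.Lib.H16X
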