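import Pool.Agent.Lib.H16X.D
import Pool.Agent.Lib.H16X.B2

/-!
# H16X: mean of the product of four oscillating factors
-/

set_option linter.unusedVariables false

namespace Pool.Agent.Lib.H16X

open Finset Pool.Agent.Lib.Sieve

private lemma B3_mn_sum {ι : Type*} (J : Finset ι) (Q : ℕ) (c : ι → ℝ) (F : ι → ℤ → ℝ) :
    mn Q (fun b => ∑ I ∈ J, c I * F I b) = ∑ I ∈ J, c I * mn Q (F I) := by
  unfold mn
  rw [Finset.sum_comm, Finset.sum_div]
  refine Finset.sum_congr rfl fun I _ => ?_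
  rw [← Finset.mul_sum, mul_div_assoc]

private lemma B3_loc (x : ℝ) (hx0 : 0 ≤ x) (hx : x ≤ 1 / 5) (n r : ℕ) (hn : n ≤ 4) (hr : r ≤ n) :
    |(1 - r * x) * ((1 - x)⁻¹) ^ n - 1| ≤ 16 * x ^ 2 + (if r = n then 0 else 16 * x) := by
  have h1 : (1 - n * x) ≤ (1 - x) ^ n ∧ (1 - x) ^ n ≤ 1 - n * x + 6 * x ^ 2 := by
    have hx2 : 0 ≤ x ^ 2 := sq_nonneg x
    have hx3 : 0 ≤ x ^ 3 := pow_nonneg hx0 3
    have hx4 : 0 ≤ x ^ 4 := pow_nonneg hx0 4
    have hx32 : x ^ 3 ≤ x ^ 2 := pow_le_pow_of_le_one hx0 (by linarith) (by norm_num)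
    have hx43 : x ^ 4 ≤ x ^ 3 := pow_le_pow_of_le_one hx0 (by linarith) (by norm_num)
    have e2 : (1 - x) ^ 2 = 1 - 2 * x + x ^ 2 := by ring
    have e3 : (1 - x) ^ 3 = 1 - 3 * x + 3 * x ^ 2 - x ^ 3 := by ring
    have e4 : (1 - x) ^ 4 = 1 - 4 * x + 6 * x ^ 2 - 4 * x ^ 3 + x ^ 4 := by ring
    interval_cases n
    · constructor <;> norm_num <;> linarith
    · constructor <;> norm_num <;> linarith
    · rw [e2]; push_cast; constructor <;> linarith
    · rw [e3]; push_cast; constructor <;> linarith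
    · rw [e4]; push_cast; constructor <;> linarith
  have hq0 : 0 < 1 - x := by linarith
  have hq1 : (1 - x)⁻¹ ≤ 5 / 4 := by
    rw [inv_le_comm₀ hq0 (by norm_num)]
    norm_num
    linarith
  have hqn0 : 0 < ((1 - x)⁻¹) ^ n := by positivity
  have hqn : ((1 - x)⁻¹) ^ n ≤ 5 / 2 := by
    calc ((1 - x)⁻¹) ^ n ≤ (5 / 4 : ℝ) ^ n := pow_le_pow_left₀ (by positivity) hq1 n
      _ ≤ (5 / 4 : ℝ) ^ 4 := pow_le_pow_right₀ (by norm_num) hn
      _ ≤ 5 / 2 := by norm_num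
  have hid : (1 - r * x) * ((1 - x)⁻¹) ^ n - 1 = ((1 - r * x) - (1 - x) ^ n) * ((1 - x)⁻¹) ^ n := by
    have h9 : (1 - x) ^ n * ((1 - x)⁻¹) ^ n = 1 := by
      rw [← mul_pow, mul_inv_cancel₀ hq0.ne', one_pow]
    rw [sub_mul (1 - r * x) ((1 - x) ^ n), h9]
  have hrn : (r : ℝ) ≤ n := by exact_mod_cast hr
  have hn4 : (n : ℝ) ≤ 4 := by exact_mod_cast hn
  have hr0 : (0 : ℝ) ≤ r := Nat.cast_nonneg r
  rw [hid, abs_mul, abs_of_pos hqn0]
  split_ifs with h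
  · have h2 : |(1 - r * x) - (1 - x) ^ n| ≤ 6 * x ^ 2 := by
      rw [h, abs_le]
      constructor
      · linarith [h1.2]
      · have := sq_nonneg x
        linarith [h1.1]
    calc |(1 - r * x) - (1 - x) ^ n| * ((1 - x)⁻¹) ^ n ≤ (6 * x ^ 2) * (5 / 2) :=
          mul_le_mul h2 hqn hqn0.le (by positivity)
      _ ≤ 16 * x ^ 2 + 0 := by
          have := sq_nonneg x
          linarith
  · have h2 : |(1 - r * x) - (1 - x) ^ n| ≤ 4 * x + 6 * x ^ 2 := by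
      have h3 : 0 ≤ (n - r) * x := mul_nonneg (by linarith) hx0
      have h4 : (n - r) * x ≤ 4 * x := mul_le_mul_of_nonneg_right (by linarith) hx0
      have h5 := sq_nonneg x
      rw [abs_le]
      constructor
      · nlinarith [h1.2]
      · nlinarith [h1.1]
    calc |(1 - r * x) - (1 - x) ^ n| * ((1 - x)⁻¹) ^ n ≤ (4 * x + 6 * x ^ 2) * (5 / 2) :=
          mul_le_mul h2 hqn hqn0.le (by positivity)
      _ ≤ 16 * x ^ 2 + 16 * x := by
          have := sq_nonneg x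
          linarith

private lemma B3_coin (p : ℕ) (s : Fin 4 → ℤ) (I : Finset (Fin 4))
    (h : (I.image (fun i => s i % (p : ℤ))).card ≠ I.card) : Coin p s := by
  by_contra hc
  apply h
  apply Finset.card_image_of_injOn
  intro i _ j _ hij
  by_contra hne
  apply hc
  refine ⟨i, j, hne, ?_⟩
  have h2 : s i % (p : ℤ) = s j % (p : ℤ) := hij
  exact Int.ModEq.dvd (n := (p : ℤ)) (a := s j) (b := s i) h2.symm

open Classical in
private lemma B3_mu (y : ℕ) (hy : 4 ≤ y) (S : Finset ℕ)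
    (hS : ∀ p ∈ S, p.Prime ∧ y < p ∧ p ≤ y ^ 2) (s : Fin 4 → ℤ) (I : Finset (Fin 4)) :
    |mn (PP S) (fun b => ∏ i ∈ I, nu S (2 * b - s i)) - 1| ≤
      16 * Real.exp 112 * (1 / (y : ℝ) + cs S s) := by
  rw [B2 S (fun p hp => ⟨(hS p hp).1, by have := (hS p hp).2.1; omega⟩)]
  set t : ℕ → ℝ := fun p => (1 - ((I.image (fun i => s i % (p : ℤ))).card : ℝ) / p) *
        ((1 - 1 / (p : ℝ))⁻¹) ^ I.card - 1 with ht
  have hprod : ∏ p ∈ S, (1 - ((I.image (fun i => s i % (p : ℤ))).card : ℝ) / p) *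
        ((1 - 1 / (p : ℝ))⁻¹) ^ I.card = ∏ p ∈ S, (1 + t p) := by
    refine Finset.prod_congr rfl fun p _ => ?_
    rw [ht]
    ring
  have hcard : I.card ≤ 4 := by
    have := Finset.card_le_univ I
    simpa using this
  have htp : ∀ p ∈ S, ‖t p‖ ≤ 16 * ((p : ℝ) ^ 2)⁻¹ + (if Coin p s then 16 * (1 / (p : ℝ)) else 0) := by
    intro p hp
    have hp5 : (5 : ℝ) ≤ p := by
      have := (hS p hp).2.1
      exact_mod_cast (by omega : 5 ≤ p)
    have hp0 : (0 : ℝ) < p := by linarith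
    have hx : 1 / (p : ℝ) ≤ 1 / 5 := one_div_le_one_div_of_le (by norm_num) hp5
    have h1 := B3_loc (1 / (p : ℝ)) (by positivity) hx I.card
      (I.image (fun i => s i % (p : ℤ))).card hcard Finset.card_image_le
    rw [mul_one_div] at h1
    rw [Real.norm_eq_abs, ht]
    refine h1.trans ?_
    have e1 : (1 / (p : ℝ)) ^ 2 = ((p : ℝ) ^ 2)⁻¹ := by
      rw [one_div, inv_pow]
    rw [e1]
    refine add_le_add le_rfl ?_
    by_cases hr : (I.image (fun i => s i % (p : ℤ))).card = I.card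
    · rw [if_pos hr]
      split_ifs
      · positivity
      · exact le_rfl
    · rw [if_neg hr, if_pos (B3_coin p s I hr)]
  have hsq : ∑ p ∈ S, ((p : ℝ) ^ 2)⁻¹ ≤ 1 / (y : ℝ) := by
    have h1 : S ⊆ Finset.Ioc y (y ^ 2) := by
      intro p hp
      rw [Finset.mem_Ioc]
      exact ⟨(hS p hp).2.1, (hS p hp).2.2⟩
    have h2 : ∑ p ∈ S, ((p : ℝ) ^ 2)⁻¹ ≤ ∑ p ∈ Finset.Ioc y (y ^ 2), ((p : ℝ) ^ 2)⁻¹ :=
      Finset.sum_le_sum_of_subset_of_nonneg h1 fun i _ _ => by positivity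
    have h3 := sum_Ioc_inv_sq_le_sub (α := ℝ) (k := y) (n := y ^ 2) (by omega) (Nat.le_self_pow (by norm_num) y)
    have h4 : 0 ≤ (((y ^ 2 : ℕ) : ℝ))⁻¹ := by positivity
    rw [one_div]
    linarith
  have hcs0 : 0 ≤ cs S s := by
    unfold cs
    exact Finset.sum_nonneg fun p _ => by positivity
  have hcs : cs S s ≤ 6 := by
    have h1 := sum_inv_le (y ^ 2)
    refine le_trans ?_ h1
    unfold cs
    refine Finset.sum_le_sum_of_subset_of_nonneg ?_ fun i _ _ => by positivity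
    intro p hp
    rw [Finset.mem_filter] at hp ⊢
    obtain ⟨h2, h3, h4⟩ := hS p hp.1
    refine ⟨mem_primesUpTo.mpr ⟨h2, h4⟩, ?_⟩
    exact Nat.pow_lt_pow_left h3 (by norm_num)
  have hy0 : (0 : ℝ) < y := by exact_mod_cast (by omega : 0 < y)
  have hy4 : 1 / (y : ℝ) ≤ 1 / 4 := one_div_le_one_div_of_le (by norm_num) (by exact_mod_cast hy)
  have hy4' : 0 < 1 / (y : ℝ) := by positivity
  have hsum : ∑ p ∈ S, ‖t p‖ ≤ 16 * (1 / (y : ℝ) + cs S s) := by
    refine (Finset.sum_le_sum htp).trans ?_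
    rw [Finset.sum_add_distrib, ← Finset.mul_sum]
    have e2 : ∑ p ∈ S, (if Coin p s then 16 * (1 / (p : ℝ)) else 0) = 16 * cs S s := by
      unfold cs
      rw [← Finset.sum_filter, Finset.mul_sum]
    rw [e2]
    linarith
  set E : ℝ := 1 / (y : ℝ) + cs S s with hE
  have hE0 : 0 ≤ E := by linarith
  have hE7 : 16 * E ≤ 112 := by linarith
  rw [hprod]
  have h5 := Finset.norm_prod_one_add_sub_one_le S t
  rw [Real.norm_eq_abs] at h5
  refine h5.trans ?_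
  have h6 : Real.exp (∑ p ∈ S, ‖t p‖) ≤ Real.exp (16 * E) := Real.exp_le_exp.2 hsum
  have h7 : Real.exp (16 * E) - 1 ≤ 16 * E * Real.exp (16 * E) := by
    have h8 := Real.add_one_le_exp (-(16 * E))
    have h9 : Real.exp (-(16 * E)) * Real.exp (16 * E) = 1 := by
      rw [← Real.exp_add]
      simp
    have h10 : (-(16 * E) + 1) * Real.exp (16 * E) ≤ Real.exp (-(16 * E)) * Real.exp (16 * E) :=
      mul_le_mul_of_nonneg_right h8 (Real.exp_pos _).le
    linarith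
  have h11 : Real.exp (16 * E) ≤ Real.exp 112 := Real.exp_le_exp.2 hE7
  have h12 : 16 * E * Real.exp (16 * E) ≤ 16 * E * Real.exp 112 :=
    mul_le_mul_of_nonneg_left h11 (by positivity)
  linarith

/-- The mean of `∏_{i < 4} (nu S (2b - s_i) - 1)` for the primes of one scale `(y, y²]`.

Proof. Expand: the mean is `Σ_{I ⊆ Fin 4} (-1)^(4-|I|) μ_I`, `μ_I` = the mean in `B2`, and `Σ_I (-1)^(4-|I|) = 0`, so it is
`≤ Σ_I |μ_I - 1|`. By `B2` `μ_I = ∏_{p ∈ S} (1 + t_p)`, `1 + t_p = (1 - r_p/p) (1 - 1/p)^(-|I|)`, `1 ≤ r_p ≤ |I| ≤ 4` (for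
`I ≠ ∅`); all `p ≥ 5`. If there is no coincidence (`Coin p s` false) then `r_p = |I|` and `|t_p| ≤ C/p²`; in any case
`|t_p| ≤ C/p`. So `Σ_{p ∈ S} |t_p| ≤ C Σ_{p > y} 1/p² + C cs S s ≤ C (1/y + cs S s)`, which is also `≤ C'` since
`cs S s ≤ Σ_{p ∈ S} 1/p ≤ 6` (`Sieve.sum_inv_le` with `n = y^2`: `y < p` means `y² < p²`). Finally
`|∏ (1 + t_p) - 1| ≤ exp (Σ |t_p|) - 1 ≤ e^(C') Σ |t_p|`. -/
theorem B3 : ∃ C : ℝ, 1 ≤ C ∧ ∀ y : ℕ, 4 ≤ y → ∀ S : Finset ℕ,
    (∀ p ∈ S, p.Prime ∧ y < p ∧ p ≤ y ^ 2) → ∀ s : Fin 4 → ℤ,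
    |mn (PP S) (fun b => ∏ i : Fin 4, (nu S (2 * b - s i) - 1))| ≤ C * (1 / (y : ℝ) + cs S s) := by
  refine ⟨16 * (16 * Real.exp 112), ?_, ?_⟩
  · have := Real.add_one_le_exp 112
    linarith
  intro y hy S hS s
  have h1 : (fun b : ℤ => ∏ i : Fin 4, (nu S (2 * b - s i) - 1)) =
      fun b : ℤ => ∑ I ∈ (univ : Finset (Fin 4)).powerset,
        (-1 : ℝ) ^ (univ \ I).card * ∏ i ∈ I, nu S (2 * b - s i) := by
    funext b
    have h2 := Finset.prod_add (fun i : Fin 4 => nu S (2 * b - s i)) (fun _ => (-1 : ℝ)) univ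
    simp only [Finset.prod_const] at h2
    calc ∏ i : Fin 4, (nu S (2 * b - s i) - 1) = ∏ i : Fin 4, (nu S (2 * b - s i) + (-1 : ℝ)) := by
          simp only [sub_eq_add_neg]
      _ = _ := by
          rw [h2]
          exact Finset.sum_congr rfl fun I _ => mul_comm _ _
  have h0 : ∑ I ∈ (univ : Finset (Fin 4)).powerset, (-1 : ℝ) ^ (univ \ I).card = 0 := by
    have h2 := Finset.prod_add (fun _ : Fin 4 => (1 : ℝ)) (fun _ => (-1 : ℝ)) univ
    simp only [Finset.prod_const, one_pow, one_mul] at h2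
    rw [← h2]
    norm_num
  rw [h1, B3_mn_sum (univ : Finset (Fin 4)).powerset (PP S) (fun I => (-1 : ℝ) ^ (univ \ I).card)
    (fun I b => ∏ i ∈ I, nu S (2 * b - s i))]
  have h3 : ∑ I ∈ (univ : Finset (Fin 4)).powerset, (-1 : ℝ) ^ (univ \ I).card *
      mn (PP S) (fun b => ∏ i ∈ I, nu S (2 * b - s i)) =
      ∑ I ∈ (univ : Finset (Fin 4)).powerset, (-1 : ℝ) ^ (univ \ I).card *
        (mn (PP S) (fun b => ∏ i ∈ I, nu S (2 * b - s i)) - 1) := by
    have h4 : ∑ I ∈ (univ : Finset (Fin 4)).powerset, (-1 : ℝ) ^ (univ \ I).card *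
        (mn (PP S) (fun b => ∏ i ∈ I, nu S (2 * b - s i)) - 1) =
        ∑ I ∈ (univ : Finset (Fin 4)).powerset, (-1 : ℝ) ^ (univ \ I).card *
        mn (PP S) (fun b => ∏ i ∈ I, nu S (2 * b - s i)) -
        ∑ I ∈ (univ : Finset (Fin 4)).powerset, (-1 : ℝ) ^ (univ \ I).card := by
      rw [← Finset.sum_sub_distrib]
      exact Finset.sum_congr rfl fun I _ => by ring
    rw [h4, h0, sub_zero]
  rw [h3]
  refine (Finset.abs_sum_le_sum_abs _ _).trans ?_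
  have h5 : ∀ I ∈ (univ : Finset (Fin 4)).powerset, |(-1 : ℝ) ^ (univ \ I).card *
        (mn (PP S) (fun b => ∏ i ∈ I, nu S (2 * b - s i)) - 1)| ≤
      16 * Real.exp 112 * (1 / (y : ℝ) + cs S s) := by
    intro I _
    rw [abs_mul, abs_pow, abs_neg, abs_one, one_pow, one_mul]
    exact B3_mu y hy S hS s I
  refine (Finset.sum_le_sum h5).trans ?_
  rw [Finset.sum_const, Finset.card_powerset, Finset.card_univ, Fintype.card_fin, nsmul_eq_mul]
  norm_num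
  exact le_of_eq (by ring)

end Pool.Agent.Lib.H16X
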