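import Pool.Agent.Lib.H16X.D
import Pool.Agent.Lib.H16X.B1
import Pool.Agent.Lib.H16X.B3
import Pool.Agent.Lib.H16X.M2

/-!
# H16X: mean of the product of four values of FB
-/

set_option linter.unusedVariables false

namespace Pool.Agent.Lib.H16X

open Finset Pool.Agent.Lib.Sieve

private theorem B4_nu_congr (S : Finset ℕ) (a b : ℤ) (h : ((PP S : ℕ) : ℤ) ∣ a - b) :
    nu S a = nu S b := by
  unfold nu
  refine prod_congr rfl fun p hp => ?_
  have h1 : (p : ℤ) ∣ a - b :=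
    dvd_trans (Int.natCast_dvd_natCast.2 (by unfold PP; exact dvd_prod_of_mem (fun q => q) hp)) h
  have h2 : ((p : ℤ) ∣ a) = ((p : ℤ) ∣ b) := by
    refine propext ⟨fun ha => ?_, fun hb => ?_⟩
    · have h3 := dvd_sub ha h1
      rwa [sub_sub_cancel] at h3
    · have h3 := dvd_add h1 hb
      rwa [sub_add_cancel] at h3
  simp only [h2]

private theorem B4_inv_pos (p : ℕ) (hp : p.Prime) : 0 < 1 - 1 / (p : ℝ) := by
  have h2 : (2 : ℝ) ≤ p := by exact_mod_cast hp.two_le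
  have h3 : 1 / (p : ℝ) ≤ 1 / 2 := one_div_le_one_div_of_le (by norm_num) h2
  linarith

private theorem B4_nu_nonneg (S : Finset ℕ) (hS : ∀ p ∈ S, p.Prime) (a : ℤ) : 0 ≤ nu S a := by
  unfold nu
  refine prod_nonneg fun p hp => ?_
  split_ifs
  · exact le_refl _
  · exact inv_nonneg.2 (B4_inv_pos p (hS p hp)).le

private theorem B4_nu_le (S : Finset ℕ) (hS : ∀ p ∈ S, p.Prime) (a : ℤ) : nu S a ≤ (VV S)⁻¹ := by
  unfold nu VV
  rw [← prod_inv_distrib]
  refine prod_le_prod (fun p hp => ?_) (fun p hp => ?_)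
  · split_ifs
    · exact le_refl _
    · exact inv_nonneg.2 (B4_inv_pos p (hS p hp)).le
  · split_ifs
    · exact inv_nonneg.2 (B4_inv_pos p (hS p hp)).le
    · exact le_refl _

private theorem B4_PP_pos (S : Finset ℕ) (hS : ∀ p ∈ S, p.Prime) : 0 < PP S := by
  unfold PP
  exact prod_pos fun p hp => (hS p hp).pos

private theorem B4_split (w y : ℕ) (hw : w ≤ y) (hy : y ≤ y ^ 2) :
    sprimes w (y ^ 2) = sprimes w y ∪ sprimes y (y ^ 2) := by
  ext p
  simp only [mem_union, mem_sprimes]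
  constructor
  · rintro ⟨h1, h2, h3⟩
    rcases le_or_gt p y with h | h
    · exact Or.inl ⟨h1, h2, h⟩
    · exact Or.inr ⟨h1, h, h3⟩
  · rintro (⟨h1, h2, h3⟩ | ⟨h1, h2, h3⟩)
    · exact ⟨h1, h2, h3.trans hy⟩
    · exact ⟨h1, lt_of_le_of_lt hw h2, h3⟩

private theorem B4_disj (w y z : ℕ) : Disjoint (sprimes w y) (sprimes y z) := by
  rw [disjoint_left]
  intro p h1 h2
  exact absurd (mem_sprimes.1 h2).2.1 (not_lt.2 (mem_sprimes.1 h1).2.2)

private theorem B4_coprime (w y z : ℕ) : Nat.Coprime (PP (sprimes w y)) (PP (sprimes y z)) := by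
  unfold PP
  refine Nat.Coprime.prod_left fun p hp => Nat.Coprime.prod_right fun q hq => ?_
  refine (Nat.coprime_primes (mem_sprimes.1 hp).1 (mem_sprimes.1 hq).1).2 fun h => ?_
  subst h
  exact absurd (mem_sprimes.1 hq).2.1 (not_lt.2 (mem_sprimes.1 hp).2.2)

private theorem B4_mn_le (Q : ℕ) (hQ : 0 < Q) (F : ℤ → ℝ) (M : ℝ) (h0 : ∀ b, 0 ≤ F b)
    (h1 : ∀ b, F b ≤ M) : |mn Q F| ≤ M := by
  have hQ' : (0 : ℝ) < Q := by exact_mod_cast hQ
  have hs : 0 ≤ ∑ b ∈ range Q, F (b : ℤ) := sum_nonneg fun b _ => h0 _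
  unfold mn
  rw [abs_of_nonneg (div_nonneg hs hQ'.le), div_le_iff₀ hQ']
  calc ∑ b ∈ range Q, F (b : ℤ) ≤ ∑ b ∈ range Q, M := sum_le_sum fun b _ => h1 _
    _ = M * Q := by rw [sum_const, card_range, nsmul_eq_mul, mul_comm]

/-- The mean of `∏_{i < 4} FB y (2b - s_i)`.

Proof. `sprimes (yy 0) (y^2)` is the disjoint union of `A = sprimes (yy 0) y` and `S = sprimes y (y^2)`, `PP` is
multiplicative and `PP A`, `PP S` are coprime. By `B1` the mean is the product of the mean of `∏ nu A (2b - s_i)` over the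
residues modulo `PP A`, which lies in `[0, (VV A)⁻⁴]`, `(VV A)⁻¹ ≤ C log y` (`M2`), and of the mean in `B3` (all primes of
`A`, `S` are `≥ 3`; periodicity of `nu` is clear). -/
theorem B4 : ∃ C : ℝ, 1 ≤ C ∧ ∀ y : ℕ, yy 0 ≤ y → ∀ s : Fin 4 → ℤ,
    |mn (PP (sprimes (yy 0) (y ^ 2))) (fun b => ∏ i : Fin 4, FB y (2 * b - s i))| ≤
      C * (Real.log y) ^ 4 * (1 / (y : ℝ) + cs (sprimes y (y ^ 2)) s) := by
  obtain ⟨C1, hC1, -, hM⟩ := M2
  obtain ⟨C3, hC3, hB⟩ := B3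
  refine ⟨C1 ^ 4 * C3, one_le_mul_of_one_le_of_one_le (one_le_pow₀ hC1) hC3, ?_⟩
  intro y hy s
  have hyy : 4 ≤ yy 0 := by norm_num [yy, uu]
  have hy4 : 4 ≤ y := hyy.trans hy
  have hyle : y ≤ y ^ 2 := Nat.le_self_pow (by norm_num) y
  have hA : ∀ p ∈ sprimes (yy 0) y, p.Prime := fun p hp => (mem_sprimes.1 hp).1
  have hS : ∀ p ∈ sprimes y (y ^ 2), p.Prime := fun p hp => (mem_sprimes.1 hp).1
  have hPP : PP (sprimes (yy 0) (y ^ 2)) = PP (sprimes (yy 0) y) * PP (sprimes y (y ^ 2)) := by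
    rw [B4_split (yy 0) y hy hyle]
    unfold PP
    exact prod_union (B4_disj _ _ _)
  have hfun : (fun b : ℤ => ∏ i : Fin 4, FB y (2 * b - s i)) =
      fun b : ℤ => (∏ i : Fin 4, nu (sprimes (yy 0) y) (2 * b - s i)) *
        ∏ i : Fin 4, (nu (sprimes y (y ^ 2)) (2 * b - s i) - 1) := by
    funext b
    rw [← prod_mul_distrib]
    rfl
  have hper : ∀ (T : Finset ℕ) (a b : ℤ), ((PP T : ℕ) : ℤ) ∣ a - b → ∀ i : Fin 4,
      nu T (2 * a - s i) = nu T (2 * b - s i) := by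
    intro T a b h i
    refine B4_nu_congr T _ _ ?_
    have e : (2 * a - s i) - (2 * b - s i) = 2 * (a - b) := by ring
    rw [e]
    exact Dvd.dvd.mul_left h 2
  rw [hPP, hfun, B1 _ _ (B4_PP_pos _ hA) (B4_PP_pos _ hS) (B4_coprime _ _ _)
    (fun b => ∏ i : Fin 4, nu (sprimes (yy 0) y) (2 * b - s i))
    (fun b => ∏ i : Fin 4, (nu (sprimes y (y ^ 2)) (2 * b - s i) - 1))
    (fun a b h => prod_congr rfl fun i _ => hper _ a b h i)
    (fun a b h => prod_congr rfl fun i _ => by rw [hper _ a b h i]), abs_mul]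
  obtain ⟨hV0, hV1, hV2⟩ := hM y (sprimes (yy 0) y) (by omega)
    (fun p hp => ⟨(mem_sprimes.1 hp).1, (mem_sprimes.1 hp).2.2⟩)
  have h1 : |mn (PP (sprimes (yy 0) y)) (fun b => ∏ i : Fin 4, nu (sprimes (yy 0) y) (2 * b - s i))| ≤
      (C1 * Real.log y) ^ 4 := by
    refine B4_mn_le _ (B4_PP_pos _ hA) _ _ (fun b => prod_nonneg fun i _ => B4_nu_nonneg _ hA _)
      (fun b => ?_)
    calc ∏ i : Fin 4, nu (sprimes (yy 0) y) (2 * b - s i)
        ≤ ∏ i : Fin 4, (C1 * Real.log y) :=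
          prod_le_prod (fun i _ => B4_nu_nonneg _ hA _)
            (fun i _ => (B4_nu_le _ hA _).trans hV2)
      _ = (C1 * Real.log y) ^ 4 := by simp
  have h2 := hB y hy4 (sprimes y (y ^ 2)) (fun p hp => mem_sprimes.1 hp) s
  calc _ ≤ (C1 * Real.log y) ^ 4 * (C3 * (1 / (y : ℝ) + cs (sprimes y (y ^ 2)) s)) :=
        mul_le_mul h1 h2 (abs_nonneg _) (by positivity)
    _ = C1 ^ 4 * C3 * (Real.log y) ^ 4 * (1 / (y : ℝ) + cs (sprimes y (y ^ 2)) s) := by ring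

end Pool.Agent.Lib.H16X
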