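import Pool.Agent.Lib.H16X.D
import Pool.Agent.Lib.H16X.M2
import Pool.Agent.Lib.H16X.P1

/-!
# H16X: Brun-Titchmarsh for small moduli
-/

set_option linter.unusedVariables false

namespace Pool.Agent.Lib.H16X

open Finset Pool.Agent.Lib.Sieve

/-- the removed classes -/
private noncomputable def p3_Om (p : ℕ) (r0 : ℤ) (q : ℕ) : Finset (ZMod q) :=
  open Classical in
  if q.Prime ∧ q ≠ p then {-(r0 : ZMod q) * (p : ZMod q)⁻¹} else ∅

private theorem p3_card (p : ℕ) (r0 : ℤ) (q : ℕ) : (p3_Om p r0 q).card ≤ 1 := by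
  unfold p3_Om
  split_ifs <;> simp

private theorem p3_dens (p : ℕ) (r0 : ℤ) (q : ℕ) (hq : q.Prime) (hqp : q ≠ p) :
    Sieve.dens (p3_Om p r0) q = 1 / (q : ℝ) := by
  unfold Sieve.dens p3_Om
  rw [if_pos ⟨hq, hqp⟩]
  simp

private theorem p3_dens' (p : ℕ) (r0 : ℤ) : Sieve.dens (p3_Om p r0) p = 0 := by
  unfold Sieve.dens p3_Om
  rw [if_neg (by simp)]
  simp

private theorem p3_fac {q : ℕ} (hq : q.Prime) : (1 : ℝ) / 2 ≤ 1 - 1 / (q : ℝ) := by
  have h1 : (2 : ℝ) ≤ q := by exact_mod_cast hq.two_le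
  have h2 : 1 / (q : ℝ) ≤ 1 / 2 := one_div_le_one_div_of_le (by norm_num) h1
  linarith

private theorem p3_prod (p z : ℕ) (r0 : ℤ) :
    ∏ q ∈ sprimes 4 z, (1 - Sieve.dens (p3_Om p r0) q) ≤ 8 * ∏ q ∈ primesUpTo z, (1 - 1 / (q : ℝ)) := by
  have h1 : ∏ q ∈ sprimes 4 z, (1 - Sieve.dens (p3_Om p r0) q) =
      ∏ q ∈ (sprimes 4 z).erase p, (1 - 1 / (q : ℝ)) := by
    by_cases hp : p ∈ sprimes 4 z
    · rw [← Finset.mul_prod_erase _ _ hp, p3_dens']
      rw [sub_zero, one_mul]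
      refine Finset.prod_congr rfl fun q hq => ?_
      rw [p3_dens p r0 q (mem_sprimes.mp (Finset.mem_of_mem_erase hq)).1 (Finset.ne_of_mem_erase hq)]
    · rw [Finset.erase_eq_of_notMem hp]
      refine Finset.prod_congr rfl fun q hq => ?_
      rw [p3_dens p r0 q (mem_sprimes.mp hq).1 (fun h => hp (h ▸ hq))]
  rw [h1]
  have hsub : (sprimes 4 z).erase p ⊆ primesUpTo z := by
    intro q hq
    have h := mem_sprimes.mp (Finset.mem_of_mem_erase hq)
    exact mem_primesUpTo.mpr ⟨h.1, h.2.2⟩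
  have hsplit := Finset.prod_sdiff (f := fun q : ℕ => (1 - 1 / (q : ℝ))) hsub
  rw [← hsplit]
  have hpos : 0 ≤ ∏ q ∈ (sprimes 4 z).erase p, (1 - 1 / (q : ℝ)) := by
    refine Finset.prod_nonneg fun q hq => ?_
    have := p3_fac (mem_sprimes.mp (Finset.mem_of_mem_erase hq)).1
    linarith
  have hsm : primesUpTo z \ (sprimes 4 z).erase p ⊆ {2, 3, p} := by
    intro q hq
    rw [Finset.mem_sdiff] at hq
    have h2 := mem_primesUpTo.mp hq.1
    simp only [Finset.mem_insert, Finset.mem_singleton]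
    by_contra hne
    push Not at hne
    apply hq.2
    rw [Finset.mem_erase]
    refine ⟨hne.2.2, mem_sprimes.mpr ⟨h2.1, ?_, h2.2⟩⟩
    by_contra h4
    have h5 : q ≤ 4 := by omega
    have h6 := h2.1.two_le
    have h7 : q = 4 := by
      have := hne.1
      have := hne.2.1
      omega
    have h8 := h2.1
    rw [h7] at h8
    exact absurd h8 (by norm_num)
  have hcard : (primesUpTo z \ (sprimes 4 z).erase p).card ≤ 3 :=
    (Finset.card_le_card hsm).trans Finset.card_le_three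
  have hlow : (1 : ℝ) / 8 ≤ ∏ q ∈ primesUpTo z \ (sprimes 4 z).erase p, (1 - 1 / (q : ℝ)) := by
    have h3 : ((1 : ℝ) / 2) ^ (primesUpTo z \ (sprimes 4 z).erase p).card ≤
        ∏ q ∈ primesUpTo z \ (sprimes 4 z).erase p, (1 - 1 / (q : ℝ)) := by
      rw [← Finset.prod_const]
      refine Finset.prod_le_prod (fun q hq => by norm_num) fun q hq => ?_
      exact p3_fac (mem_primesUpTo.mp (Finset.mem_sdiff.mp hq).1).1
    have h4 : ((1 : ℝ) / 2) ^ 3 ≤ ((1 : ℝ) / 2) ^ (primesUpTo z \ (sprimes 4 z).erase p).card :=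
      pow_le_pow_of_le_one (by norm_num) (by norm_num) hcard
    linarith [show ((1 : ℝ) / 2) ^ 3 = 1 / 8 by norm_num]
  nlinarith

private theorem p3_count (X p z : ℕ) (hp : p.Prime) (r : ℤ) (hz : 2 ≤ z)
    (hM : z ^ 224 ≤ pr X / p + 1) :
    (((range X).filter (fun k => (p : ℤ) ∣ (pr k : ℤ) - r)).card : ℝ) ≤
      (z + 1) + 24 * ((pr X / p + 1 : ℕ) : ℝ) / Real.log z := by
  classical
  set r0 : ℤ := r % p with hr0
  set M : ℕ := pr X / p + 1 with hMdef
  set A := (range X).filter (fun k => (p : ℤ) ∣ (pr k : ℤ) - r) with hA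
  have hp0 : 0 < p := hp.pos
  have hrep : ∀ k ∈ A, (pr k : ℤ) = r0 + p * ((pr k / p : ℕ) : ℤ) := by
    intro k hk
    have h1 := (mem_filter.mp hk).2
    have h2 : (pr k : ℤ) % p = r0 := by
      rw [hr0]
      exact Int.emod_eq_emod_iff_emod_sub_eq_zero.mpr (Int.emod_eq_zero_of_dvd h1)
    have h3 := Int.emod_add_mul_ediv (pr k : ℤ) p
    rw [← h2]
    push_cast
    exact h3.symm
  set B := A.filter (fun k => z < pr k) with hB
  have hAB : A.card ≤ (z + 1) + B.card := by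
    have h1 : A ⊆ range (z + 1) ∪ B := by
      intro k hk
      rw [mem_union]
      by_cases h : z < pr k
      · exact Or.inr (mem_filter.mpr ⟨hk, h⟩)
      · left
        have := pr_strictMono.le_apply (x := k)
        rw [mem_range]
        omega
    have h2 := (card_le_card h1).trans (card_union_le _ _)
    rwa [card_range] at h2
  set f : ℕ → ℤ := fun k => ((pr k / p : ℕ) : ℤ) with hf
  have hinj : Set.InjOn f B := by
    intro k hk k' hk' h
    have hk1 := hrep k (mem_filter.mp (mem_coe.mp hk)).1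
    have hk2 := hrep k' (mem_filter.mp (mem_coe.mp hk')).1
    have h' : ((pr k / p : ℕ) : ℤ) = ((pr k' / p : ℕ) : ℤ) := h
    have h3 : (pr k : ℤ) = pr k' := by rw [hk1, hk2, h']
    exact pr_strictMono.injective (by exact_mod_cast h3)
  have himg : B.image f ⊆ Finset.Ico 0 (0 + (M : ℤ)) := by
    intro t ht
    obtain ⟨k, hk, rfl⟩ := mem_image.mp ht
    have hkX : k < X := mem_range.mp (mem_filter.mp (mem_filter.mp hk).1).1
    have h1 : pr k ≤ pr X := (pr_strictMono hkX).le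
    have h2 : pr k / p ≤ pr X / p := Nat.div_le_div_right h1
    rw [mem_Ico]
    refine ⟨by positivity, ?_⟩
    rw [zero_add]
    show ((pr k / p : ℕ) : ℤ) < (M : ℤ)
    exact_mod_cast (by omega : pr k / p < M)
  have hone : ∀ t ∈ B.image f, ∏ q ∈ sprimes 4 z, (1 - chi (p3_Om p r0) q t) = 1 := by
    intro t ht
    obtain ⟨k, hk, rfl⟩ := mem_image.mp ht
    refine Finset.prod_eq_one fun q hq => ?_
    have hq' := mem_sprimes.mp hq
    have hz' : chi (p3_Om p r0) q (f k) = 0 := by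
      unfold chi
      rw [if_neg]
      intro hmem
      unfold p3_Om at hmem
      by_cases hqp : q = p
      · rw [if_neg (fun h => h.2 hqp)] at hmem
        exact absurd hmem (Finset.notMem_empty _)
      · rw [if_pos ⟨hq'.1, hqp⟩, mem_singleton] at hmem
        have := Fact.mk hq'.1
        have hpq : (p : ZMod q) ≠ 0 := by
          intro h0
          rw [ZMod.natCast_eq_zero_iff] at h0
          exact hqp ((Nat.prime_dvd_prime_iff_eq hq'.1 hp).mp h0)
        have h1 : ((pr k : ℤ) : ZMod q) = 0 := by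
          rw [hrep k (mem_filter.mp hk).1]
          have h2 : (((pr k / p : ℕ) : ℤ) : ZMod q) = -(r0 : ZMod q) * (p : ZMod q)⁻¹ := hmem
          rw [Int.cast_add, Int.cast_mul, h2, Int.cast_natCast]
          field_simp
          ring
        rw [Int.cast_natCast, ZMod.natCast_eq_zero_iff] at h1
        have h2 := (Nat.prime_dvd_prime_iff_eq hq'.1 (pr_prime k)).mp h1
        have h3 := (mem_filter.mp hk).2
        omega
    rw [hz', sub_zero]
  have hBsum : (B.card : ℝ) ≤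
      ∑ u ∈ Finset.Ico (0 : ℤ) (0 + (M : ℤ)), ∏ q ∈ sprimes 4 z, (1 - chi (p3_Om p r0) q u) := by
    rw [← Finset.card_image_of_injOn hinj]
    calc ((B.image f).card : ℝ) = ∑ u ∈ B.image f, ∏ q ∈ sprimes 4 z, (1 - chi (p3_Om p r0) q u) := by
          rw [Finset.sum_congr rfl hone]; simp
      _ ≤ _ := by
          refine Finset.sum_le_sum_of_subset_of_nonneg himg fun u _ _ => ?_
          refine Finset.prod_nonneg fun q _ => ?_
          linarith [chi_le_one (p3_Om p r0) q u]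
  have hfs := (fundamental_sum (k := 1) (z := z) (Ω := p3_Om p r0) hz
    (fun q _ _ _ => p3_card p r0 q) 0 M (by simpa using hM)).2
  have hfs' : ∑ u ∈ Finset.Ico (0 : ℤ) (0 + (M : ℤ)), ∏ q ∈ sprimes 4 z, (1 - chi (p3_Om p r0) q u) ≤
      3 * (M : ℝ) * ∏ q ∈ sprimes 4 z, (1 - Sieve.dens (p3_Om p r0) q) := hfs
  have hpr := p3_prod p z r0
  have hlogz : ∏ q ∈ primesUpTo z, (1 - 1 / (q : ℝ)) ≤ 1 / Real.log z := prod_one_sub_inv_le z hz
  have hAr : (A.card : ℝ) ≤ (z + 1) + B.card := by exact_mod_cast hAB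
  have hMr : (0 : ℝ) ≤ M := Nat.cast_nonneg M
  have h9 : 3 * (M : ℝ) * ∏ q ∈ sprimes 4 z, (1 - Sieve.dens (p3_Om p r0) q) ≤
      24 * (M : ℝ) / Real.log z := by
    calc 3 * (M : ℝ) * ∏ q ∈ sprimes 4 z, (1 - Sieve.dens (p3_Om p r0) q)
        ≤ 3 * (M : ℝ) * (8 * (1 / Real.log z)) := by
          refine mul_le_mul_of_nonneg_left ?_ (by positivity)
          linarith
      _ = 24 * (M : ℝ) / Real.log z := by ring
  linarith

/-- Brun-Titchmarsh for small moduli.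

Proof. If `p ∣ r` then only the prime `p` itself is counted: the count is `≤ 1 ≤ X / p`. Otherwise put
`R = ⌊X^(1/4000)⌋`; the primes `≤ R` contribute at most `R ≤ X / p`. The primes in `(R, pr X)` in the class of `r` are
`r0 + p t`, `0 ≤ t < M`, `M = ⌊pr X / p⌋ + 1`, not divisible by any prime `q ∈ (4, R]`, `q ≠ p`.
`Sieve.fundamental_sum` with `k = 1`, `Ω q` = the class of `t` with `q ∣ r0 + p t` for `q ≠ p`, `Ω p = ∅`, gives
`count ≤ 3 M ∏_{4 < q ≤ R, q ≠ p} (1 - 1/q) ≤ C (pr X / p) / log R` (`Sieve.prod_one_sub_inv_le`; leaving out `q = p` and the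
primes `≤ 4` costs a constant), and `pr X ≤ C X log X` (`P1`). -/
theorem P3 : ∃ C : ℝ, 1 ≤ C ∧ ∃ X0 : ℕ, ∀ X : ℕ, X0 ≤ X → ∀ p : ℕ, p.Prime → (p : ℝ) ≤ Real.log X →
    ∀ r : ℤ, (((range X).filter (fun k => (p : ℤ) ∣ (pr k : ℤ) - r)).card : ℝ) ≤ C * X / p := by
  obtain ⟨C1, hC1, hP1⟩ := P1
  have hev : ∀ᶠ x : ℝ in Filter.atTop, Real.log x ≤ x ^ (1 / 2 : ℝ) ∧ 2 ≤ x ^ (1 / 896 : ℝ) := by
    have h := (isLittleO_log_rpow_atTop (r := 1 / 2) (by norm_num)).bound (c := 1) (by norm_num)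
    have h' := (tendsto_rpow_atTop (y := 1 / 896) (by norm_num)).eventually_ge_atTop 2
    filter_upwards [h, h', Filter.eventually_ge_atTop 1] with x hx hx2 hx1
    rw [Real.norm_eq_abs, Real.norm_eq_abs, one_mul, abs_of_nonneg (Real.log_nonneg hx1),
      abs_of_nonneg (by positivity)] at hx
    exact ⟨hx, hx2⟩
  obtain ⟨X1, hX1⟩ := Filter.eventually_atTop.mp
    ((tendsto_natCast_atTop_atTop (R := ℝ)).eventually hev)
  refine ⟨1 + 43008 * C1, by linarith, max X1 2, ?_⟩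
  intro X hX p hp hpX r
  have hXX1 : X1 ≤ X := (le_max_left _ _).trans hX
  have hX2' : 2 ≤ X := (le_max_right _ _).trans hX
  have hX2r : (2 : ℝ) ≤ X := by exact_mod_cast hX2'
  have hXpos : (0 : ℝ) < X := by linarith
  have hX1r : (1 : ℝ) ≤ X := by linarith
  have hlog : Real.log X ≤ (X : ℝ) ^ (1 / 2 : ℝ) := (hX1 X hXX1).1
  have hlogpos : 0 < Real.log X := Real.log_pos (by linarith)
  have hppos : (0 : ℝ) < p := by exact_mod_cast hp.pos
  -- the parameter z
  set z : ℕ := ⌊(X : ℝ) ^ (1 / 448 : ℝ)⌋₊ with hzdef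
  have hb : (2 : ℝ) ≤ (X : ℝ) ^ (1 / 896 : ℝ) := (hX1 X hXX1).2
  have hsq : (X : ℝ) ^ (1 / 448 : ℝ) = (X : ℝ) ^ (1 / 896 : ℝ) * (X : ℝ) ^ (1 / 896 : ℝ) := by
    rw [← Real.rpow_add hXpos]
    norm_num
  have hfl : (X : ℝ) ^ (1 / 448 : ℝ) < z + 1 := Nat.lt_floor_add_one _
  have hzge : (X : ℝ) ^ (1 / 896 : ℝ) ≤ z := by nlinarith
  have hz2 : 2 ≤ z := by
    have : (2 : ℝ) ≤ z := by linarith
    exact_mod_cast this
  have hz2r : (2 : ℝ) ≤ z := by exact_mod_cast hz2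
  have hlogz : Real.log X / 896 ≤ Real.log z := by
    have h1 := Real.log_le_log (by positivity) hzge
    rw [Real.log_rpow hXpos] at h1
    linarith
  have hzle : (z : ℝ) ≤ (X : ℝ) ^ (1 / 448 : ℝ) := Nat.floor_le (by positivity)
  have hz224 : (z : ℝ) ^ 224 ≤ (X : ℝ) ^ (1 / 2 : ℝ) := by
    calc (z : ℝ) ^ 224 ≤ ((X : ℝ) ^ (1 / 448 : ℝ)) ^ 224 := pow_le_pow_left₀ (by positivity) hzle _
      _ = (X : ℝ) ^ (1 / 2 : ℝ) := by
          rw [← Real.rpow_natCast, ← Real.rpow_mul hXpos.le]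
          norm_num
  have hhalf : (X : ℝ) ^ (1 / 2 : ℝ) * (X : ℝ) ^ (1 / 2 : ℝ) = X := by
    rw [← Real.rpow_add hXpos]
    norm_num
  have hs0 : 0 ≤ (X : ℝ) ^ (1 / 2 : ℝ) := by positivity
  have hXp : (X : ℝ) ^ (1 / 2 : ℝ) ≤ X / p := by
    rw [le_div_iff₀ hppos]
    nlinarith
  have hprX : (X : ℝ) ≤ pr X := by exact_mod_cast pr_strictMono.le_apply (x := X)
  have hMlow : (pr X : ℝ) / p ≤ ((pr X / p + 1 : ℕ) : ℝ) := by
    have h1 := Nat.lt_div_mul_add (a := pr X) hp.pos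
    rw [div_le_iff₀ hppos]
    have h2 : pr X ≤ (pr X / p + 1) * p := by nlinarith
    exact_mod_cast h2
  have hMup : ((pr X / p + 1 : ℕ) : ℝ) ≤ (pr X : ℝ) / p + 1 := by
    push_cast
    have := Nat.cast_div_le (α := ℝ) (m := pr X) (n := p)
    linarith
  have hdiv : (X : ℝ) / p ≤ (pr X : ℝ) / p := by gcongr
  have hM : z ^ 224 ≤ pr X / p + 1 := by
    have : ((z ^ 224 : ℕ) : ℝ) ≤ ((pr X / p + 1 : ℕ) : ℝ) := by
      push_cast at hMlow ⊢
      linarith
    exact_mod_cast this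
  have hcount := p3_count X p z hp r hz2 hM
  have hP := (hP1 X hX2').2
  have hX1p : 1 ≤ (X : ℝ) / p := by
    rw [le_div_iff₀ hppos, one_mul]
    have h1 : (X : ℝ) ^ (1 / 2 : ℝ) ≤ X := by
      calc (X : ℝ) ^ (1 / 2 : ℝ) ≤ (X : ℝ) ^ (1 : ℝ) :=
            Real.rpow_le_rpow_of_exponent_le hX1r (by norm_num)
        _ = X := Real.rpow_one _
    linarith
  have hz1 : (z : ℝ) + 1 ≤ X / p := by
    have h1 : (z : ℝ) + 1 ≤ (z : ℝ) ^ 2 := by nlinarith
    have h2 : (z : ℝ) ^ 2 ≤ (z : ℝ) ^ 224 := pow_le_pow_right₀ (by linarith) (by norm_num)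
    linarith
  have hlz : 0 < Real.log z := by linarith [div_pos hlogpos (by norm_num : (0 : ℝ) < 896)]
  have hM2 : ((pr X / p + 1 : ℕ) : ℝ) ≤ 2 * (C1 * X * Real.log X / p) := by
    have h1 : (pr X : ℝ) / p ≤ C1 * X * Real.log X / p := by gcongr
    linarith
  have hfin : 24 * ((pr X / p + 1 : ℕ) : ℝ) / Real.log z ≤ 43008 * C1 * (X / p) := by
    rw [div_le_iff₀ hlz]
    have h1 : 24 * ((pr X / p + 1 : ℕ) : ℝ) ≤ 48 * (C1 * X * Real.log X / p) := by linarith
    have h2 : 43008 * C1 * ((X : ℝ) / p) * (Real.log X / 896) ≤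
        43008 * C1 * ((X : ℝ) / p) * Real.log z := by
      refine mul_le_mul_of_nonneg_left hlogz ?_
      have : 0 < C1 := by linarith
      positivity
    have h3 : 43008 * C1 * ((X : ℝ) / p) * (Real.log X / 896) = 48 * (C1 * X * Real.log X / p) := by
      ring
    linarith
  calc (((range X).filter (fun k => (p : ℤ) ∣ (pr k : ℤ) - r)).card : ℝ)
      ≤ (z + 1) + 24 * ((pr X / p + 1 : ℕ) : ℝ) / Real.log z := hcount
    _ ≤ X / p + 43008 * C1 * (X / p) := by linarith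
    _ = (1 + 43008 * C1) * X / p := by ring

end Pool.Agent.Lib.H16X
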