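import Pool.Agent.Lib.H16X.D
import Pool.Agent.Lib.H16X.M2
import Pool.Agent.Lib.H16X.P1

/-!
# H16X: upper bound sieve for pairs of primes in progressions
-/

set_option linter.unusedVariables false

namespace Pool.Agent.Lib.H16X

open Finset Pool.Agent.Lib.Sieve

private theorem p2_sieve (k z M : ℕ) (hz : 2 ≤ z) (Ω : (p : ℕ) → Finset (ZMod p))
    (hΩ : ∀ p, p.Prime → 2 * k + 2 < p → p ≤ z → (Ω p).card ≤ k)
    (hM : z ^ (198 * k + 26) ≤ M) (A : Finset ℕ)
    (hA : ∀ u ∈ A, u < M ∧ ∀ p : ℕ, p.Prime → 2 * k + 2 < p → p ≤ z →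
      (u : ZMod p) ∉ Ω p) :
    (A.card : ℝ) ≤ 3 * (M : ℝ) * ∏ p ∈ sprimes (2 * k + 2) z, (1 - dens Ω p) := by
  have hf := (fundamental_sum hz hΩ 0 M hM).2
  refine le_trans ?_ hf
  have hnn : ∀ u ∈ Finset.Ico (0 : ℤ) (0 + M),
      0 ≤ ∏ p ∈ sprimes (2 * k + 2) z, (1 - chi Ω p u) := by
    intro u _
    apply Finset.prod_nonneg
    intro p _
    linarith [chi_le_one Ω p u]
  have hsub : A.image (fun u : ℕ => (u : ℤ)) ⊆ Finset.Ico (0 : ℤ) (0 + M) := by
    intro v hv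
    rw [Finset.mem_image] at hv
    obtain ⟨u, hu, rfl⟩ := hv
    obtain ⟨h2, _⟩ := hA u hu
    rw [Finset.mem_Ico]
    constructor
    · exact Int.natCast_nonneg u
    · have : (u : ℤ) < M := by exact_mod_cast h2
      linarith
  have hone : ∀ v ∈ A.image (fun u : ℕ => (u : ℤ)),
      ∏ p ∈ sprimes (2 * k + 2) z, (1 - chi Ω p v) = 1 := by
    intro v hv
    rw [Finset.mem_image] at hv
    obtain ⟨u, hu, rfl⟩ := hv
    obtain ⟨_, h3⟩ := hA u hu
    apply Finset.prod_eq_one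
    intro p hp
    have hp' := mem_sprimes.mp hp
    have h4 := h3 p hp'.1 hp'.2.1 hp'.2.2
    unfold chi
    rw [if_neg]
    · ring
    · intro h5
      apply h4
      simpa using h5
  calc (A.card : ℝ) = ((A.image (fun u : ℕ => (u : ℤ))).card : ℝ) := by
        rw [Finset.card_image_of_injective _ Nat.cast_injective]
    _ = ∑ v ∈ A.image (fun u : ℕ => (u : ℤ)), (1 : ℝ) := by
        rw [Finset.sum_const, nsmul_eq_mul, mul_one]
    _ = ∑ v ∈ A.image (fun u : ℕ => (u : ℤ)),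
          ∏ p ∈ sprimes (2 * k + 2) z, (1 - chi Ω p v) :=
        Finset.sum_congr rfl fun v hv => (hone v hv).symm
    _ ≤ _ := Finset.sum_le_sum_of_subset_of_nonneg hsub fun v hv _ => hnn v hv

/-- the local classes -/
private def p2_om (z Q b0 d p : ℕ) : Finset (ZMod p) :=
  if z < p then {-(b0 : ZMod p) * (Q : ZMod p)⁻¹, -((b0 + d : ℕ) : ZMod p) * (Q : ZMod p)⁻¹} else ∅

private theorem p2_om_card (z Q b0 d p : ℕ) : (p2_om z Q b0 d p).card ≤ 2 := by
  unfold p2_om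
  split_ifs
  · exact Finset.card_le_two
  · simp

private theorem p2_om_one (z Q b0 d p : ℕ) (hz : z < p) : 1 ≤ (p2_om z Q b0 d p).card := by
  unfold p2_om
  rw [if_pos hz]
  exact Finset.card_pos.2 ⟨_, Finset.mem_insert_self _ _⟩

private theorem p2_om_two (z Q b0 d p : ℕ) (hp : p.Prime) (hz : z < p) (hQ : ¬ p ∣ Q)
    (hd : ¬ p ∣ d) : (p2_om z Q b0 d p).card = 2 := by
  have : Fact p.Prime := ⟨hp⟩
  unfold p2_om
  rw [if_pos hz]
  refine Finset.card_pair ?_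
  intro h
  have hQ0 : (Q : ZMod p) ≠ 0 := fun h' => hQ ((ZMod.natCast_eq_zero_iff _ _).1 h')
  have h1 := mul_right_cancel₀ (inv_ne_zero hQ0) h
  have h2 : ((d : ℕ) : ZMod p) = 0 := by
    rw [neg_inj] at h1
    push_cast at h1
    have h3 : (b0 : ZMod p) + 0 = b0 + d := by rw [add_zero]; exact h1
    exact (add_left_cancel h3).symm
  exact hd ((ZMod.natCast_eq_zero_iff _ _).1 h2)

private theorem p2_notMem (z Q b0 d p t : ℕ) (hp : p.Prime) (hQ : z < p → ¬ p ∣ Q)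
    (h1 : ¬ p ∣ b0 + Q * t) (h2 : ¬ p ∣ b0 + Q * t + d) :
    (t : ZMod p) ∉ p2_om z Q b0 d p := by
  have : Fact p.Prime := ⟨hp⟩
  unfold p2_om
  split_ifs with hz
  · have hQ0 : (Q : ZMod p) ≠ 0 := fun h' => hQ hz ((ZMod.natCast_eq_zero_iff _ _).1 h')
    intro h
    rw [Finset.mem_insert, Finset.mem_singleton] at h
    rcases h with h | h
    · apply h1
      rw [← ZMod.natCast_eq_zero_iff]
      push_cast
      rw [h, mul_comm (Q : ZMod p), mul_assoc, inv_mul_cancel₀ hQ0, mul_one, add_neg_cancel]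
    · apply h2
      rw [← ZMod.natCast_eq_zero_iff]
      push_cast at h ⊢
      rw [h, mul_comm (Q : ZMod p), mul_assoc, inv_mul_cancel₀ hQ0, mul_one]
      ring
  · exact Finset.notMem_empty _

private theorem p2_prod (z Q b0 d R : ℕ) (hz : 6 ≤ z) (hd : 1 ≤ d)
    (hQ : ∀ p : ℕ, p.Prime → p ∣ Q → p ≤ z) :
    ∏ p ∈ sprimes 6 R, (1 - dens (p2_om z Q b0 d) p) ≤ VV (sprimes z R) ^ 2 * hh d := by
  have hsub : sprimes z R ⊆ sprimes 6 R := by
    intro p hp
    rw [mem_sprimes] at hp ⊢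
    exact ⟨hp.1, by omega, hp.2.2⟩
  have h1 : ∏ p ∈ sprimes 6 R, (1 - dens (p2_om z Q b0 d) p) =
      ∏ p ∈ sprimes z R, (1 - dens (p2_om z Q b0 d) p) := by
    symm
    refine Finset.prod_subset hsub fun p hp hp' => ?_
    rw [mem_sprimes] at hp hp'
    have h2 : ¬ z < p := fun h => hp' ⟨hp.1, h, hp.2.2⟩
    unfold Sieve.dens p2_om
    rw [if_neg h2]
    simp
  rw [h1]
  have hstep : ∀ p ∈ sprimes z R, 0 ≤ 1 - dens (p2_om z Q b0 d) p ∧
      1 - dens (p2_om z Q b0 d) p ≤ (1 - 1 / (p : ℝ)) ^ 2 * (if p ∣ d then 1 + 2 / (p : ℝ) else 1) := by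
    intro p hp
    rw [mem_sprimes] at hp
    have hp7 : (7 : ℝ) ≤ p := by exact_mod_cast (show 7 ≤ p by omega)
    have hp0 : (0 : ℝ) < p := by linarith
    have hc2 : ((p2_om z Q b0 d p).card : ℝ) ≤ 2 := by exact_mod_cast p2_om_card z Q b0 d p
    have hi : 1 / (p : ℝ) ≤ 1 / 7 := one_div_le_one_div_of_le (by norm_num) hp7
    have hi0 : 0 < 1 / (p : ℝ) := by positivity
    have hdens : dens (p2_om z Q b0 d) p = ((p2_om z Q b0 d p).card : ℝ) * (1 / p) := by
      unfold Sieve.dens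
      ring
    refine ⟨?_, ?_⟩
    · rw [hdens]
      nlinarith
    · split_ifs with hpd
      · have h3 : (1 : ℝ) ≤ ((p2_om z Q b0 d p).card : ℝ) := by
          exact_mod_cast p2_om_one z Q b0 d p hp.2.1
        rw [hdens, show (2 : ℝ) / p = 2 * (1 / p) by ring]
        set x := 1 / (p : ℝ)
        have h4 : x ≤ ((p2_om z Q b0 d p).card : ℝ) * x := by nlinarith
        have h5 : (1 - x) ≤ (1 - x) ^ 2 * (1 + 2 * x) := by
          have : 0 ≤ (1 - x) * (x * (1 - 2 * x)) := by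
            refine mul_nonneg (by linarith) (mul_nonneg hi0.le (by linarith))
          nlinarith
        linarith
      · have hpQ : ¬ p ∣ Q := fun h => by
          have := hQ p hp.1 h
          omega
        rw [hdens, p2_om_two z Q b0 d p hp.1 hp.2.1 hpQ hpd, mul_one]
        push_cast
        nlinarith [sq_nonneg (1 / (p : ℝ))]
  refine (Finset.prod_le_prod (fun p hp => (hstep p hp).1) (fun p hp => (hstep p hp).2)).trans ?_
  rw [Finset.prod_mul_distrib, Finset.prod_pow]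
  have hV : 0 ≤ VV (sprimes z R) ^ 2 := sq_nonneg _
  refine mul_le_mul_of_nonneg_left ?_ hV
  rw [← Finset.prod_filter]
  unfold hh
  refine Finset.prod_le_prod_of_subset_of_one_le ?_ (fun p _ => by positivity) ?_
  · intro p hp
    rw [Finset.mem_filter, mem_sprimes] at hp
    exact Nat.mem_primeFactors.2 ⟨hp.1.1, hp.2, by omega⟩
  · intro p _ _
    have : (0 : ℝ) ≤ 2 / (p : ℝ) := by positivity
    linarith

private theorem p2_large : ∃ X0 : ℕ, 2 ≤ X0 ∧ ∀ X : ℕ, X0 ≤ X →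
    Real.log X ≤ (X : ℝ) ^ (1 / 8000 : ℝ) ∧ 2 ≤ (X : ℝ) ^ (1 / 8000 : ℝ) := by
  have h1 : ∀ᶠ x : ℝ in Filter.atTop, Real.log x ≤ x ^ (1 / 8000 : ℝ) := by
    have h2 := (isLittleO_log_rpow_atTop (show (0 : ℝ) < 1 / 8000 by norm_num)).bound
      (show (0 : ℝ) < 1 by norm_num)
    filter_upwards [h2, Filter.eventually_ge_atTop (1 : ℝ)] with x hx hx1
    rw [one_mul, Real.norm_of_nonneg (Real.log_nonneg hx1),
      Real.norm_of_nonneg (Real.rpow_nonneg (by linarith) _)] at hx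
    exact hx
  have h3 : ∀ᶠ x : ℝ in Filter.atTop, 2 ≤ x ^ (1 / 8000 : ℝ) :=
    (tendsto_rpow_atTop (show (0 : ℝ) < 1 / 8000 by norm_num)).eventually_ge_atTop 2
  have h4 : ∀ᶠ X : ℕ in Filter.atTop, Real.log (X : ℝ) ≤ (X : ℝ) ^ (1 / 8000 : ℝ) ∧
      2 ≤ (X : ℝ) ^ (1 / 8000 : ℝ) :=
    tendsto_natCast_atTop_atTop.eventually (h1.and h3)
  obtain ⟨X0, hX0⟩ := Filter.eventually_atTop.1 h4
  exact ⟨max X0 2, le_max_right _ _, fun X hX => hX0 X ((le_max_left _ _).trans hX)⟩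

/-- Upper bound sieve for the pairs of primes `n, n + d` in a residue class modulo `Q`, with the primes `≤ z` left out.

Proof. Put `R = ⌊X^(1/4000)⌋`. Let `b0 ∈ [0, Q)` be the residue of `b`. The `n` counted are `n = b0 + Q t` with
`0 ≤ t < M`, `M = ⌊pr X / Q⌋ + 1`; as `n > √X > R` and `n + d > R` are primes, no prime `q ∈ (z, R]` divides
`n (n + d)`. For a prime `q ∈ (z, R]` (so `q ∤ Q`) let `Ω q` be the set of the classes `t` mod `q` with
`q ∣ b0 + Q t` or `q ∣ b0 + Q t + d`: it has one element if `q ∣ d` and two otherwise; for `q ≤ z` let `Ω q = ∅`.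
`Sieve.fundamental_sum` with `k = 2`, `a = 0` (the hypothesis is `R^422 ≤ M`, true since `M ≥ X / X^(1/4)`) gives
`count ≤ 3 M ∏_{z < q ≤ R} (1 - |Ω q| / q)`. Here `1 - 2/q ≤ (1 - 1/q)²`, and for `q ∣ d`
`1 - 1/q = (1 - 1/q)² (1 + 1/(q-1)) ≤ (1 - 1/q)² (1 + 2/q)`. So the product is
`≤ VV (sprimes z R)² hh d ≤ (C log z / log R)² hh d` (`M2`), and `log R ≥ log X / 8000`, `M ≤ 2 pr X / Q`.
(`X0` is absolute: all the inequalities used hold for large `X`, uniformly in `z ≤ log X`.) -/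
theorem P2 : ∃ C : ℝ, 1 ≤ C ∧ ∃ X0 : ℕ, ∀ X : ℕ, X0 ≤ X → ∀ z : ℕ, 6 ≤ z → (z : ℝ) ≤ Real.log X →
    ∀ Q : ℕ, 0 < Q → (Q : ℝ) ≤ (X : ℝ) ^ (1 / 4 : ℝ) → (∀ p : ℕ, p.Prime → p ∣ Q → p ≤ z) →
    ∀ d : ℕ, 1 ≤ d → d ≤ X → ∀ b : ℤ,
    (((range (pr X)).filter (fun n => n.Prime ∧ (n + d).Prime ∧ Real.sqrt X < n ∧
      (Q : ℤ) ∣ (n : ℤ) - b)).card : ℝ) ≤
      C * (pr X / Q) * (Real.log z / Real.log X) ^ 2 * hh d := by
  obtain ⟨C, hC1, hCV, -⟩ := M2
  obtain ⟨X0, hX02, hX0⟩ := p2_large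
  refine ⟨6 * (8000 * C) ^ 2, by nlinarith, X0, ?_⟩
  intro X hX z hz6 hzX Q hQ0 hQX hQz d hd hdX b
  obtain ⟨hlog, htwo⟩ := hX0 X hX
  have hX2 : 2 ≤ X := hX02.trans hX
  have hXr : (2 : ℝ) ≤ X := by exact_mod_cast hX2
  have hXp : (0 : ℝ) < X := by linarith
  have hX1 : (1 : ℝ) ≤ X := by linarith
  have hpr : X + 2 ≤ pr X := Nat.add_two_le_nth_prime X
  have hprr : (X : ℝ) ≤ pr X := by exact_mod_cast (show X ≤ pr X by omega)
  -- the level
  obtain ⟨y, hy⟩ : ∃ y : ℝ, y = (X : ℝ) ^ (1 / 8000 : ℝ) := ⟨_, rfl⟩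
  have hy2 : y ^ 2 = (X : ℝ) ^ (1 / 4000 : ℝ) := by
    rw [hy, ← Real.rpow_natCast, ← Real.rpow_mul hXp.le]
    norm_num
  rw [← hy] at hlog htwo
  have hy0 : 0 < y := by linarith
  set R := ⌊y ^ 2⌋₊ with hR
  have hRle : (R : ℝ) ≤ y ^ 2 := Nat.floor_le (by positivity)
  have hRge : y ≤ R := by
    have h1 : y ^ 2 < R + 1 := Nat.lt_floor_add_one _
    nlinarith
  have hR2 : 2 ≤ R := by
    have : (2 : ℝ) ≤ R := htwo.trans hRge
    exact_mod_cast this
  have hzR : z ≤ R := by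
    have : (z : ℝ) ≤ R := hzX.trans (hlog.trans hRge)
    exact_mod_cast this
  -- the length
  set M := pr X / Q + 1 with hM
  have hQr : (0 : ℝ) < Q := by exact_mod_cast hQ0
  have hMge : (pr X : ℝ) / Q ≤ M := by
    rw [div_le_iff₀ hQr]
    have h1 : pr X ≤ (pr X / Q + 1) * Q := by
      have h2 := Nat.div_add_mod (pr X) Q
      have h3 := Nat.mod_lt (pr X) hQ0
      nlinarith
    exact_mod_cast h1
  have hMle : (M : ℝ) ≤ 2 * (pr X / Q) := by
    have h1 : ((pr X / Q : ℕ) : ℝ) ≤ (pr X : ℝ) / Q := Nat.cast_div_le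
    have h2 : (1 : ℝ) ≤ (pr X : ℝ) / Q := by
      rw [one_le_div hQr]
      refine hQX.trans (le_trans ?_ hprr)
      calc (X : ℝ) ^ (1 / 4 : ℝ) ≤ (X : ℝ) ^ (1 : ℝ) :=
            Real.rpow_le_rpow_of_exponent_le hX1 (by norm_num)
        _ = X := Real.rpow_one _
    rw [hM]
    push_cast
    linarith
  have hRM : R ^ (198 * 2 + 26) ≤ M := by
    have h1 : (R : ℝ) ^ (422 : ℕ) ≤ (X : ℝ) ^ (3 / 4 : ℝ) := by
      calc (R : ℝ) ^ (422 : ℕ) ≤ ((X : ℝ) ^ (1 / 4000 : ℝ)) ^ (422 : ℕ) := by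
            refine pow_le_pow_left₀ (Nat.cast_nonneg _) ?_ _
            rw [← hy2]
            exact hRle
        _ = (X : ℝ) ^ ((1 / 4000 : ℝ) * (422 : ℕ)) := by
            rw [Real.rpow_mul hXp.le, Real.rpow_natCast]
        _ ≤ (X : ℝ) ^ (3 / 4 : ℝ) := by
            refine Real.rpow_le_rpow_of_exponent_le hX1 ?_
            norm_num
    have h2 : (X : ℝ) ^ (3 / 4 : ℝ) ≤ (pr X : ℝ) / Q := by
      rw [le_div_iff₀ hQr]
      calc (X : ℝ) ^ (3 / 4 : ℝ) * Q ≤ (X : ℝ) ^ (3 / 4 : ℝ) * (X : ℝ) ^ (1 / 4 : ℝ) :=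
            mul_le_mul_of_nonneg_left hQX (Real.rpow_nonneg hXp.le _)
        _ = X := by
            rw [← Real.rpow_add hXp]
            norm_num
        _ ≤ _ := hprr
    have h3 : (R : ℝ) ^ (422 : ℕ) ≤ M := h1.trans (h2.trans hMge)
    exact_mod_cast h3
  -- the residue
  obtain ⟨b0, hb0⟩ : ∃ b0 : ℕ, (b0 : ℤ) = b % (Q : ℤ) :=
    ⟨(b % (Q : ℤ)).toNat, Int.toNat_of_nonneg (Int.emod_nonneg _ (by exact_mod_cast hQ0.ne'))⟩
  set S := (range (pr X)).filter (fun n => n.Prime ∧ (n + d).Prime ∧ Real.sqrt X < n ∧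
      (Q : ℤ) ∣ (n : ℤ) - b) with hS
  have hrep : ∀ n ∈ S, n = b0 + Q * (n / Q) := by
    intro n hn
    rw [hS, Finset.mem_filter] at hn
    have h1 : (n : ℤ) % Q = b % Q := (Int.emod_eq_emod_iff_emod_sub_eq_zero).2 (Int.emod_eq_zero_of_dvd hn.2.2.2.2)
    have h2 : n % Q = b0 := by
      have h3 : ((n % Q : ℕ) : ℤ) = b0 := by
        rw [hb0]
        push_cast
        exact h1
      exact_mod_cast h3
    have h4 := Nat.div_add_mod n Q
    rw [h2] at h4
    omega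
  have hinj : Set.InjOn (fun n => n / Q) (S : Set ℕ) := by
    intro n hn m hm h
    rw [hrep n hn, hrep m hm]
    simp only at h
    rw [h]
  have hRs : (R : ℝ) ≤ Real.sqrt X := by
    refine hRle.trans ?_
    rw [hy2, Real.sqrt_eq_rpow]
    exact Real.rpow_le_rpow_of_exponent_le hX1 (by norm_num)
  have hA := p2_sieve 2 R M hR2 (p2_om z Q b0 d)
    (fun p _ _ _ => p2_om_card z Q b0 d p) hRM (S.image fun n => n / Q) (by
      intro t ht
      obtain ⟨n, hn, rfl⟩ := Finset.mem_image.1 ht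
      have hn' := hn
      rw [hS, Finset.mem_filter, Finset.mem_range] at hn'
      refine ⟨?_, fun p hp _ hpR => ?_⟩
      · rw [hM]
        exact Nat.lt_succ_of_le (Nat.div_le_div_right hn'.1.le)
      · have hlt : ∀ q : ℕ, q.Prime → n ≤ q → ¬ p ∣ q := by
          intro q hq hnq hpq
          have h1 : p = q := (Nat.prime_dvd_prime_iff_eq hp hq).1 hpq
          have h2 : (p : ℝ) ≤ R := by exact_mod_cast hpR
          have h3 : (n : ℝ) ≤ q := by exact_mod_cast hnq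
          rw [h1] at h2
          linarith [hn'.2.2.2.1]
        refine p2_notMem z Q b0 d p (n / Q) hp (fun hz h => ?_) ?_ ?_
        · have := hQz p hp h
          omega
        · rw [← hrep n hn]
          exact hlt n hn'.2.1 le_rfl
        · rw [← hrep n hn]
          exact hlt (n + d) hn'.2.2.1 (Nat.le_add_right _ _))
  rw [Finset.card_image_of_injOn hinj] at hA
  refine hA.trans ?_
  have hprod := p2_prod z Q b0 d R hz6 hd hQz
  have hhd : 0 ≤ hh d := Finset.prod_nonneg fun p _ => by positivity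
  have hlogX : 0 < Real.log X := Real.log_pos (by linarith)
  have hlogR : Real.log X / 8000 ≤ Real.log R := by
    have h1 : Real.log y = Real.log X / 8000 := by
      rw [hy, Real.log_rpow hXp]
      ring
    rw [← h1]
    exact Real.log_le_log hy0 hRge
  have hlogz : 0 ≤ Real.log z := Real.log_nonneg (by exact_mod_cast (show 1 ≤ z by omega))
  have hVV : VV (sprimes z R) ≤ 8000 * C * (Real.log z / Real.log X) := by
    refine (hCV z R (by omega) hzR).trans ?_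
    have hlR : 0 < Real.log R := lt_of_lt_of_le (by positivity) hlogR
    rw [div_le_iff₀ hlR]
    have h1 : 8000 * C * (Real.log z / Real.log X) * (Real.log X / 8000) = C * Real.log z := by
      field_simp
    rw [← h1]
    refine mul_le_mul_of_nonneg_left hlogR ?_
    have : 0 ≤ C := by linarith
    positivity
  have hV0 : 0 ≤ VV (sprimes z R) := by
    unfold VV
    refine Finset.prod_nonneg fun p hp => ?_
    have h1 : (2 : ℝ) ≤ p := by exact_mod_cast (mem_sprimes.1 hp).1.two_le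
    have h2 : 1 / (p : ℝ) ≤ 1 / 2 := one_div_le_one_div_of_le (by norm_num) h1
    linarith
  have hV2 : VV (sprimes z R) ^ 2 ≤ (8000 * C * (Real.log z / Real.log X)) ^ 2 :=
    pow_le_pow_left₀ hV0 hVV 2
  have hM0 : (0 : ℝ) ≤ M := Nat.cast_nonneg M
  calc 3 * (M : ℝ) * ∏ p ∈ sprimes (2 * 2 + 2) R, (1 - dens (p2_om z Q b0 d) p)
      ≤ 3 * (M : ℝ) * (VV (sprimes z R) ^ 2 * hh d) :=
        mul_le_mul_of_nonneg_left hprod (by positivity)
    _ ≤ 3 * (2 * (pr X / Q)) * ((8000 * C * (Real.log z / Real.log X)) ^ 2 * hh d) := by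
        refine mul_le_mul (mul_le_mul_of_nonneg_left hMle (by norm_num))
          (mul_le_mul_of_nonneg_right hV2 hhd) (mul_nonneg (sq_nonneg _) hhd) (by positivity)
    _ = 6 * (8000 * C) ^ 2 * (pr X / Q) * (Real.log z / Real.log X) ^ 2 * hh d := by ring

end Pool.Agent.Lib.H16X
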