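import Pool.Agent.Lib.H16X.D
import Pool.Agent.Lib.H16X.P1
import Pool.Agent.Lib.H16X.P2

/-!
# H16X: number of gaps of a given length
-/

set_option linter.unusedVariables false

namespace Pool.Agent.Lib.H16X

open Finset Pool.Agent.Lib.Sieve

theorem p4_hh (e : ℕ) : 1 ≤ hh e := by
  unfold hh
  have h : ∀ p ∈ e.primeFactors, (1 : ℝ) ≤ 1 + 2 / (p : ℝ) := fun p _ => by
    have : 0 ≤ 2 / (p : ℝ) := by positivity
    linarith
  calc (1 : ℝ) = ∏ p ∈ e.primeFactors, (1 : ℝ) := by simp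
    _ ≤ _ := Finset.prod_le_prod (fun _ _ => zero_le_one) h

theorem p4_sqrt (X : ℕ) (hX : 2 ≤ X) : Real.sqrt X + 1 ≤ 4 * (X / Real.log X) := by
  have hX1 : (2 : ℝ) ≤ X := by exact_mod_cast hX
  have hX0 : (0 : ℝ) < X := by linarith
  have hs1 : 1 ≤ Real.sqrt X := by
    rw [Real.one_le_sqrt]
    linarith
  have hs2 : Real.sqrt X * Real.sqrt X = X := Real.mul_self_sqrt hX0.le
  have hl0 : 0 < Real.log X := Real.log_pos (by linarith)
  have hl : Real.log X ≤ 2 * Real.sqrt X := by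
    have h1 : Real.log X = 2 * Real.log (Real.sqrt X) := by
      rw [Real.log_sqrt hX0.le]
      ring
    have h2 := Real.log_le_sub_one_of_pos (by linarith : 0 < Real.sqrt X)
    linarith
  have h3 : Real.sqrt X ≤ 2 * (X / Real.log X) := by
    rw [mul_div_assoc', le_div_iff₀ hl0]
    nlinarith
  linarith

/-- The number of `k < X` with `p_(k+j) = p_k + e` (for a given `j`).

Proof. The primes `n = pr k` are distinct, and `n`, `n + e = pr (k+j)` are primes. Those with `n ≤ √X` are at most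
`√X + 1` in number, the others are counted by `P2` with `Q = 1`, `z = 6`, `b = 0`, `d = e`: `≤ C pr X (log 6 / log X)² hh e`.
Use `pr X ≤ C X log X` (`P1`), `hh e ≥ 1`, `√X + 1 ≤ X / log X` for large `X`. -/
theorem P4 : ∃ C : ℝ, 1 ≤ C ∧ ∃ X0 : ℕ, ∀ X : ℕ, X0 ≤ X → ∀ j e : ℕ, 1 ≤ e → e ≤ X →
    (((range X).filter (fun k => pr (k + j) = pr k + e)).card : ℝ) ≤ C * (X / Real.log X) * hh e := by
  obtain ⟨C1, hC1, h1⟩ := P1
  obtain ⟨C2, hC2, X0, h2⟩ := P2
  refine ⟨4 + C2 * C1 * Real.log 6 ^ 2, by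
    have : 0 ≤ C2 * C1 * Real.log 6 ^ 2 := by positivity
    linarith, max X0 (⌈Real.exp 6⌉₊ + 2), ?_⟩
  intro X hX j e he heX
  have hX0 : X0 ≤ X := (le_max_left _ _).trans hX
  have hX1 : ⌈Real.exp 6⌉₊ + 2 ≤ X := (le_max_right _ _).trans hX
  have hX2 : 2 ≤ X := by omega
  have hXr : (2 : ℝ) ≤ X := by exact_mod_cast hX2
  have hexp : Real.exp 6 ≤ X := by
    have h3 := Nat.le_ceil (Real.exp 6)
    have h4 : ((⌈Real.exp 6⌉₊ : ℕ) : ℝ) ≤ X := by exact_mod_cast (by omega : ⌈Real.exp 6⌉₊ ≤ X)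
    linarith
  have hlog : 6 ≤ Real.log X := by
    rw [Real.le_log_iff_exp_le (by linarith)]
    exact hexp
  have hl0 : 0 < Real.log X := by linarith
  set A := (range X).filter (fun k => pr (k + j) = pr k + e) with hA
  have hsplit := Finset.card_filter_add_card_filter_not (s := A) (fun k => (pr k : ℝ) ≤ Real.sqrt X)
  have hc1 : ((A.filter (fun k => (pr k : ℝ) ≤ Real.sqrt X)).card : ℝ) ≤ Real.sqrt X + 1 := by
    have h3 : A.filter (fun k => (pr k : ℝ) ≤ Real.sqrt X) ⊆ range (⌊Real.sqrt X⌋₊ + 1) := by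
      intro k hk
      rw [Finset.mem_filter] at hk
      rw [Finset.mem_range, Nat.lt_succ_iff]
      apply Nat.le_floor
      have h4 : k ≤ pr k := pr_strictMono.le_apply
      have h5 : (k : ℝ) ≤ pr k := by exact_mod_cast h4
      exact h5.trans hk.2
    have h4 := Finset.card_le_card h3
    rw [Finset.card_range] at h4
    have h5 : ((A.filter (fun k => (pr k : ℝ) ≤ Real.sqrt X)).card : ℝ) ≤ (⌊Real.sqrt X⌋₊ : ℝ) + 1 := by
      exact_mod_cast h4
    have h6 := Nat.floor_le (Real.sqrt_nonneg X)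
    linarith
  have hc2 : ((A.filter (fun k => ¬(pr k : ℝ) ≤ Real.sqrt X)).card : ℝ) ≤
      C2 * (pr X / 1) * (Real.log 6 / Real.log X) ^ 2 * hh e := by
    have h3 := h2 X hX0 6 le_rfl (by exact_mod_cast hlog) 1 one_pos (by
      rw [Nat.cast_one]
      exact Real.one_le_rpow (by linarith) (by norm_num)) (by
      intro p hp hp1
      exact absurd (Nat.le_of_dvd one_pos hp1) (by have := hp.two_le; omega)) e he heX 0
    have h4 : (A.filter (fun k => ¬(pr k : ℝ) ≤ Real.sqrt X)).card ≤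
        ((range (pr X)).filter (fun n => n.Prime ∧ (n + e).Prime ∧ Real.sqrt X < n ∧
          ((1 : ℕ) : ℤ) ∣ (n : ℤ) - 0)).card := by
      refine Finset.card_le_card_of_injOn pr ?_ (pr_strictMono.injective.injOn)
      intro k hk
      rw [Finset.mem_coe, Finset.mem_filter, hA, Finset.mem_filter, Finset.mem_range] at hk
      rw [Finset.mem_coe, Finset.mem_filter, Finset.mem_range]
      refine ⟨pr_strictMono hk.1.1, pr_prime k, ?_, not_le.1 hk.2, ?_⟩
      · rw [← hk.1.2]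
        exact pr_prime _
      · simp
    have h5 : ((A.filter (fun k => ¬(pr k : ℝ) ≤ Real.sqrt X)).card : ℝ) ≤
        (((range (pr X)).filter (fun n => n.Prime ∧ (n + e).Prime ∧ Real.sqrt X < n ∧
          ((1 : ℕ) : ℤ) ∣ (n : ℤ) - 0)).card : ℝ) := by exact_mod_cast h4
    refine h5.trans ?_
    push_cast at h3 ⊢
    exact h3
  have hpr := (h1 X hX2).2
  have hhe := p4_hh e
  have hAc : (A.card : ℝ) = ((A.filter (fun k => (pr k : ℝ) ≤ Real.sqrt X)).card : ℝ) +
      ((A.filter (fun k => ¬(pr k : ℝ) ≤ Real.sqrt X)).card : ℝ) := by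
    rw [← hsplit]
    push_cast
    rfl
  rw [hAc]
  have h6 : C2 * (pr X / 1) * (Real.log 6 / Real.log X) ^ 2 * hh e ≤
      C2 * C1 * Real.log 6 ^ 2 * (X / Real.log X) * hh e := by
    have h7 : C2 * (pr X / 1) * (Real.log 6 / Real.log X) ^ 2 ≤
        C2 * (C1 * X * Real.log X) * (Real.log 6 / Real.log X) ^ 2 := by
      rw [div_one]
      gcongr
    have h8 : C2 * (C1 * X * Real.log X) * (Real.log 6 / Real.log X) ^ 2 =
        C2 * C1 * Real.log 6 ^ 2 * (X / Real.log X) := by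
      field_simp
    rw [h8] at h7
    exact mul_le_mul_of_nonneg_right h7 (by linarith)
  have h9 := p4_sqrt X hX2
  have h10 : 4 * (X / Real.log X) ≤ 4 * (X / Real.log X) * hh e := by
    have : 0 ≤ 4 * (X / Real.log X) := by positivity
    exact le_mul_of_one_le_right this hhe
  calc _ ≤ 4 * (X / Real.log X) * hh e + C2 * C1 * Real.log 6 ^ 2 * (X / Real.log X) * hh e := by linarith
    _ = _ := by ring

end Pool.Agent.Lib.H16X
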