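import Pool.Agent.Lib.H16X.D

/-!
# H16X: averages of hh
-/

set_option linter.unusedVariables false

namespace Pool.Agent.Lib.H16X

open Finset Pool.Agent.Lib.Sieve

theorem p5_card (p D : ℕ) (hp : p.Prime) (hpD : p ≤ D) (c : ℕ) :
    (((Icc 1 D).filter (fun e => p ∣ e + c)).card : ℝ) ≤ 2 * D / p := by
  have hp0 : 0 < p := hp.pos
  have hsub : (Icc 1 D).filter (fun e => p ∣ e + c) ⊆
      (Ioc 0 D).filter (fun x => x ≡ (p - 1) * c [MOD p]) := by
    intro e he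
    rw [mem_filter, mem_Icc] at he
    rw [mem_filter, mem_Ioc]
    refine ⟨⟨by omega, he.1.2⟩, ?_⟩
    have h1 : e + c ≡ 0 [MOD p] := Nat.modEq_zero_iff_dvd.2 he.2
    have h2 : (p - 1) * c + c ≡ 0 [MOD p] := by
      apply Nat.modEq_zero_iff_dvd.2
      refine ⟨c, ?_⟩
      obtain ⟨k, rfl⟩ : ∃ k, p = k + 1 := ⟨p - 1, by omega⟩
      rw [Nat.add_sub_cancel]
      ring
    exact Nat.ModEq.add_right_cancel' c (h1.trans h2.symm)
  have h1 := Finset.card_le_card hsub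
  have h2 : (((Ioc 0 D).filter (fun x => x ≡ (p - 1) * c [MOD p])).card : ℚ) ≤ D / p + 1 := by
    have h3 := Nat.Ioc_filter_modEq_card 0 D hp0 ((p - 1) * c)
    have h4 : ((((Ioc 0 D).filter (fun x => x ≡ (p - 1) * c [MOD p])).card : ℤ) : ℚ) ≤ D / p + 1 := by
      rw [h3, Int.cast_max, max_le_iff]
      constructor
      · push_cast
        have h5 := Int.floor_le (((D : ℚ) - (((p - 1 : ℕ) : ℚ) * c)) / p)
        have h6 := Int.lt_floor_add_one ((((0 : ℕ) : ℚ) - (((p - 1 : ℕ) : ℚ) * c)) / p)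
        have h7 : ((D : ℚ) - (((p - 1 : ℕ) : ℚ) * c)) / p -
            (((0 : ℕ) : ℚ) - (((p - 1 : ℕ) : ℚ) * c)) / p = D / p := by
          rw [← sub_div]
          congr 1
          push_cast
          ring
        push_cast at h5 h6 h7 ⊢
        linarith
      · push_cast
        positivity
    exact_mod_cast h4
  have h3 : (((Ioc 0 D).filter (fun x => x ≡ (p - 1) * c [MOD p])).card : ℝ) ≤ D / p + 1 := by
    have h2' := (Rat.cast_le (K := ℝ)).2 h2
    push_cast at h2'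
    exact h2'
  have h4 : (((Icc 1 D).filter (fun e => p ∣ e + c)).card : ℝ) ≤
      (((Ioc 0 D).filter (fun x => x ≡ (p - 1) * c [MOD p])).card : ℝ) := by
    exact_mod_cast h1
  have h5 : (1 : ℝ) ≤ D / p := by
    rw [le_div_iff₀ (by exact_mod_cast hp0)]
    rw [one_mul]
    exact_mod_cast hpD
  have h6 : 2 * (D : ℝ) / p = D / p + D / p := by ring
  rw [h6]
  linarith

theorem p5_sq (e : ℕ) : hh e ^ 2 ≤ ∏ p ∈ e.primeFactors, (1 + 8 / (p : ℝ)) := by
  unfold hh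
  rw [← Finset.prod_pow]
  refine Finset.prod_le_prod (fun p _ => by positivity) fun p hp => ?_
  have h1 : (1 : ℝ) ≤ p := by
    have := (Nat.prime_of_mem_primeFactors hp).one_lt
    exact_mod_cast this.le
  have h0 : (0 : ℝ) < p := by linarith
  have h2 : (1 + 2 / (p : ℝ)) ^ 2 = 1 + 4 / p + 4 / p * (1 / p) := by ring
  have h3 : 1 / (p : ℝ) ≤ 1 := by
    rw [div_le_one h0]
    exact h1
  have h4 : 4 / (p : ℝ) * (1 / p) ≤ 4 / p * 1 :=
    mul_le_mul_of_nonneg_left h3 (by positivity)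
  have h5 : 8 / (p : ℝ) = 4 / p + 4 / p := by ring
  rw [h2, h5]
  linarith

/-- Averages of `hh`.

Proof. First part: `Sieve.sum_prod_primeFactors_le'` with `h p = 2/p`, `H = 2`. Second part: Cauchy-Schwarz: the number of
`e ∈ [1, D]` with `p ∣ e + c` is `≤ D / p + 1 ≤ 2 D / p`, and `(hh e)² = ∏ (1 + 2/p)² ≤ ∏ (1 + 8/p)`, so that
`Σ_{e ≤ D} (hh e)² ≤ C D` by `Sieve.sum_prod_primeFactors_le'` with `H = 8`. The sum is
`≤ (2 D / p)^(1/2) (C D)^(1/2)`. -/
theorem P5 : ∃ C : ℝ, 1 ≤ C ∧ (∀ D : ℕ, ∑ e ∈ Icc 1 D, hh e ≤ C * D) ∧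
    (∀ p D : ℕ, p.Prime → p ≤ D → ∀ c : ℕ,
      ∑ e ∈ (Icc 1 D).filter (fun e => p ∣ e + c), hh e ≤ C * D / Real.sqrt p) := by
  set ζ : ℝ := ∑' n : ℕ, 1 / (n : ℝ) ^ 2 with hζ
  have hζ0 : 0 ≤ ζ := tsum_nonneg fun n => by positivity
  have hE : 1 ≤ Real.exp (8 * ζ) := Real.one_le_exp (by positivity)
  have hE0 := Real.exp_pos (8 * ζ)
  have hE2 : Real.exp (2 * ζ) ≤ Real.exp (8 * ζ) := Real.exp_le_exp.2 (by linarith)
  refine ⟨2 * Real.exp (8 * ζ), by linarith, fun D => ?_, fun p D hp hpD c => ?_⟩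
  · have h1 := sum_prod_primeFactors_le' 2 (by norm_num) (fun p => 2 / (p : ℝ))
      (fun p => by positivity) (fun p _ => le_refl _) D
    have h2 : (∑ e ∈ Icc 1 D, hh e) ≤ D * Real.exp (2 * ζ) := h1
    have h3 : (0 : ℝ) ≤ D := Nat.cast_nonneg D
    have h4 : (D : ℝ) * Real.exp (2 * ζ) ≤ D * (2 * Real.exp (8 * ζ)) :=
      mul_le_mul_of_nonneg_left (by linarith) h3
    rw [mul_comm (2 * Real.exp (8 * ζ))]
    exact h2.trans h4
  · have hp0 : (0 : ℝ) < p := by exact_mod_cast hp.pos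
    have hD0 : (0 : ℝ) ≤ D := Nat.cast_nonneg D
    have hhh : ∀ e, 0 ≤ hh e := fun e => Finset.prod_nonneg fun p _ => by positivity
    have h1 := sum_prod_primeFactors_le' 8 (by norm_num) (fun p => 8 / (p : ℝ))
      (fun p => by positivity) (fun p _ => le_refl _) D
    have h2 : (∑ e ∈ (Icc 1 D).filter (fun e => p ∣ e + c), hh e ^ 2) ≤
        D * Real.exp (8 * ζ) := by
      refine le_trans ?_ h1
      refine (Finset.sum_le_sum_of_subset_of_nonneg (Finset.filter_subset _ _)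
        fun e _ _ => sq_nonneg _).trans ?_
      exact Finset.sum_le_sum fun e _ => p5_sq e
    have h3 := p5_card p D hp hpD c
    have h4 := sq_sum_le_card_mul_sum_sq (s := (Icc 1 D).filter (fun e => p ∣ e + c)) (f := hh)
    have h5 : (∑ e ∈ (Icc 1 D).filter (fun e => p ∣ e + c), hh e) ^ 2 ≤
        (2 * D / p) * (D * Real.exp (8 * ζ)) :=
      h4.trans (mul_le_mul h3 h2 (Finset.sum_nonneg fun e _ => sq_nonneg _) (by positivity))
    have hsq : Real.sqrt p ^ 2 = p := Real.sq_sqrt hp0.le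
    have hs0 : 0 < Real.sqrt p := Real.sqrt_pos.2 hp0
    rw [← pow_le_pow_iff_left₀ (Finset.sum_nonneg fun e _ => hhh e) (by positivity)
      (two_ne_zero)]
    refine h5.trans ?_
    rw [div_pow, hsq]
    rw [div_mul_eq_mul_div]
    refine div_le_div_of_nonneg_right ?_ hp0.le
    have h6 : (2 * Real.exp (8 * ζ) * D) ^ 2 = 4 * (Real.exp (8 * ζ) * Real.exp (8 * ζ)) * (D * D) := by
      ring
    have h7 : 2 * (D : ℝ) * (D * Real.exp (8 * ζ)) = 2 * Real.exp (8 * ζ) * (D * D) := by ring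
    rw [h6, h7]
    refine mul_le_mul_of_nonneg_right ?_ (mul_nonneg hD0 hD0)
    nlinarith

end Pool.Agent.Lib.H16X
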