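import Pool.Agent.Lib.H16X.D
import Pool.Agent.Lib.H16X.P4
import Pool.Agent.Lib.H16X.P5

/-!
# H16X: gaps in a class modulo p
-/

set_option linter.unusedVariables false

namespace Pool.Agent.Lib.H16X

open Finset Pool.Agent.Lib.Sieve

/-- The number of `k < X` with a gap `p_(k+j) - p_k ≤ D` in a given class modulo `p`.

Proof. `e = p_(k+j) - p_k ∈ [1, D]` (as `j ≥ 1`) and `p ∣ e + 2d`; sum `P4` over these `e` (`e ≤ D ≤ X`) and use `P5`
(`p ≤ log X ≤ D`): `≤ Σ_e C (X / log X) hh e ≤ C C' (X / log X) D / √p`. -/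
theorem P6 : ∃ C : ℝ, 1 ≤ C ∧ ∃ X0 : ℕ, ∀ X : ℕ, X0 ≤ X → ∀ D : ℕ, Real.log X ≤ D → D ≤ X →
    ∀ p : ℕ, p.Prime → (p : ℝ) ≤ Real.log X → ∀ j d : ℕ, 1 ≤ j →
    (((range X).filter (fun k => pr (k + j) ≤ pr k + D ∧
      p ∣ pr (k + j) - pr k + 2 * d)).card : ℝ) ≤ C * X * (D / Real.log X) / Real.sqrt p := by
  obtain ⟨C4, hC4, X0, h4⟩ := P4
  obtain ⟨C5, hC5, -, h5⟩ := P5
  refine ⟨C4 * C5, by nlinarith, X0, fun X hX D hD1 hD2 p hp hpX j d hj => ?_⟩
  have hp2 : (2 : ℝ) ≤ p := by exact_mod_cast hp.two_le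
  have hlog : 0 < Real.log X := by linarith
  have hpD : p ≤ D := by
    have h1 : (p : ℝ) ≤ D := hpX.trans hD1
    exact_mod_cast h1
  have hsub : (range X).filter (fun k => pr (k + j) ≤ pr k + D ∧ p ∣ pr (k + j) - pr k + 2 * d) ⊆
      ((Icc 1 D).filter (fun e => p ∣ e + 2 * d)).biUnion
        (fun e => (range X).filter (fun k => pr (k + j) = pr k + e)) := by
    intro k hk
    rw [mem_filter] at hk
    obtain ⟨hk1, hk2, hk3⟩ := hk
    have hlt : pr k < pr (k + j) := pr_strictMono (by omega)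
    rw [mem_biUnion]
    refine ⟨pr (k + j) - pr k, ?_, ?_⟩
    · rw [mem_filter, mem_Icc]
      exact ⟨⟨by omega, by omega⟩, hk3⟩
    · rw [mem_filter]
      exact ⟨hk1, by omega⟩
  have hcard : (((range X).filter (fun k => pr (k + j) ≤ pr k + D ∧
      p ∣ pr (k + j) - pr k + 2 * d)).card : ℝ) ≤
      ∑ e ∈ (Icc 1 D).filter (fun e => p ∣ e + 2 * d),
        (((range X).filter (fun k => pr (k + j) = pr k + e)).card : ℝ) := by
    have h1 := (card_le_card hsub).trans card_biUnion_le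
    exact_mod_cast h1
  have hXl : (0 : ℝ) ≤ X / Real.log X := by positivity
  calc (((range X).filter (fun k => pr (k + j) ≤ pr k + D ∧
      p ∣ pr (k + j) - pr k + 2 * d)).card : ℝ)
      ≤ ∑ e ∈ (Icc 1 D).filter (fun e => p ∣ e + 2 * d),
        (((range X).filter (fun k => pr (k + j) = pr k + e)).card : ℝ) := hcard
    _ ≤ ∑ e ∈ (Icc 1 D).filter (fun e => p ∣ e + 2 * d), C4 * (X / Real.log X) * hh e := by
        refine sum_le_sum fun e he => ?_
        rw [mem_filter, mem_Icc] at he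
        exact h4 X hX j e he.1.1 (he.1.2.trans hD2)
    _ = C4 * (X / Real.log X) * ∑ e ∈ (Icc 1 D).filter (fun e => p ∣ e + 2 * d), hh e := by
        rw [mul_sum]
    _ ≤ C4 * (X / Real.log X) * (C5 * D / Real.sqrt p) :=
        mul_le_mul_of_nonneg_left (h5 p D hp hpD (2 * d)) (by positivity)
    _ = C4 * C5 * X * (D / Real.log X) / Real.sqrt p := by ring

end Pool.Agent.Lib.H16X
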