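import Pool.Agent.Lib.H16X.D
import Pool.Agent.Lib.H16X.P3
import Pool.Agent.Lib.H16X.P6

/-!
# H16X: coincidences on average
-/

set_option linter.unusedVariables false

namespace Pool.Agent.Lib.H16X

open Finset Pool.Agent.Lib.Sieve

private theorem B5_step (M : ℕ) (hM : 1 ≤ M) :
    1 / (((M + 1 : ℕ) : ℝ) * Real.sqrt ((M + 1 : ℕ) : ℝ)) ≤ 2 / Real.sqrt M - 2 / Real.sqrt ((M + 1 : ℕ) : ℝ) := by
  have hM0 : (0 : ℝ) < M := by exact_mod_cast hM
  set a := Real.sqrt (M : ℝ) with ha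
  set b := Real.sqrt ((M + 1 : ℕ) : ℝ) with hb
  have ha0 : 0 < a := Real.sqrt_pos.2 hM0
  have hb0 : 0 < b := Real.sqrt_pos.2 (by positivity)
  have ha2 : a ^ 2 = M := Real.sq_sqrt hM0.le
  have hb2 : b ^ 2 = ((M + 1 : ℕ) : ℝ) := Real.sq_sqrt (by positivity)
  have hab : a ≤ b := Real.sqrt_le_sqrt (by push_cast; linarith)
  have h1 : (b - a) * (a + b) = 1 := by
    have : (b - a) * (a + b) = b ^ 2 - a ^ 2 := by ring
    rw [this, ha2, hb2]
    push_cast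
    ring
  rw [← hb2, div_sub_div _ _ ha0.ne' hb0.ne', div_le_div_iff₀ (by positivity) (by positivity)]
  have h2 : a * b * (a + b) ≤ 2 * b ^ 3 := by nlinarith [mul_pos ha0 hb0]
  have h3 : (2 * b - a * 2) * (b ^ 2 * b) * (a + b) = 2 * b ^ 3 := by
    have : (2 * b - a * 2) * (b ^ 2 * b) * (a + b) = 2 * b ^ 3 * ((b - a) * (a + b)) := by ring
    rw [this, h1, mul_one]
  have h4 : 1 * (a * b) * (a + b) ≤ (2 * b - a * 2) * (b ^ 2 * b) * (a + b) := by
    rw [h3, one_mul]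
    exact h2
  exact le_of_mul_le_mul_right h4 (by positivity)

private theorem B5_tail (y M : ℕ) (hy : 1 ≤ y) (hM : y ≤ M) :
    ∑ n ∈ Ioc y M, 1 / ((n : ℝ) * Real.sqrt n) ≤ 2 / Real.sqrt y - 2 / Real.sqrt M := by
  induction M, hM using Nat.le_induction with
  | base => simp
  | succ M hM ih =>
    have e : Ioc y (M + 1) = insert (M + 1) (Ioc y M) := by
      ext n
      simp only [Finset.mem_Ioc, Finset.mem_insert]
      omega
    rw [e, Finset.sum_insert (by simp)]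
    have h1 := B5_step M (by omega)
    linarith

private theorem B5_coin (p : ℕ) (s : Fin 4 → ℤ) (h : Coin p s) :
    (p : ℤ) ∣ s 0 - s 1 ∨ (p : ℤ) ∣ s 2 - s 3 ∨ (p : ℤ) ∣ s 0 - s 2 ∨ (p : ℤ) ∣ s 1 - s 3 ∨
      (p : ℤ) ∣ s 0 - s 3 ∨ (p : ℤ) ∣ s 1 - s 2 := by
  obtain ⟨a, b, hab, hd⟩ := h
  have hd' : (p : ℤ) ∣ s b - s a := (dvd_sub_comm).1 hd
  fin_cases a <;> fin_cases b <;> first | exact absurd rfl hab | (revert hd hd'; simp only [Fin.zero_eta, Fin.mk_one, Fin.reduceFinMk]; tauto)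

/-- Indicator. -/
private noncomputable def B5_I (P : Prop) : ℝ := open Classical in if P then 1 else 0

private theorem B5_I_nonneg (P : Prop) : 0 ≤ B5_I P := by
  unfold B5_I
  split_ifs <;> norm_num

private theorem B5_I_of {P : Prop} (h : P) : B5_I P = 1 := by
  unfold B5_I
  rw [if_pos h]

private theorem B5_I_or {P Q R : Prop} (h : P → Q ∨ R) : B5_I P ≤ B5_I Q + B5_I R := by
  by_cases hP : P
  · rw [B5_I_of hP]
    rcases h hP with h1 | h1
    · rw [B5_I_of h1]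
      linarith [B5_I_nonneg R]
    · rw [B5_I_of h1]
      linarith [B5_I_nonneg Q]
  · have : B5_I P = 0 := by
      unfold B5_I
      rw [if_neg hP]
    rw [this]
    linarith [B5_I_nonneg R, B5_I_nonneg Q]

private theorem B5_I_sum (A : Finset ℕ) (P : ℕ → Prop) [DecidablePred P] :
    ∑ k ∈ A, B5_I (P k) = ((A.filter P).card : ℝ) := by
  unfold B5_I
  rw [Finset.card_filter]
  push_cast
  refine Finset.sum_congr rfl fun k _ => ?_
  by_cases h : P k
  · rw [if_pos h, if_pos h]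
  · rw [if_neg h, if_neg h]

private theorem B5_I_le (A : Finset ℕ) (X j : ℕ) (hA : ∀ k ∈ A, k + j < X) (P : ℕ → Prop) [DecidablePred P] :
    ∑ k ∈ A, B5_I (P k) ≤ (((range X).filter P).card : ℝ) := by
  rw [B5_I_sum]
  have : (A.filter P).card ≤ ((range X).filter P).card := by
    apply Finset.card_le_card
    intro k hk
    rw [Finset.mem_filter] at hk ⊢
    exact ⟨Finset.mem_range.2 (by have := hA k hk.1; omega), hk.2⟩
  exact_mod_cast this

private theorem B5_I_le' (A : Finset ℕ) (X j : ℕ) (hA : ∀ k ∈ A, k + j < X) (P : ℕ → Prop) [DecidablePred P] :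
    ∑ k ∈ A, B5_I (P (k + j)) ≤ (((range X).filter P).card : ℝ) := by
  rw [B5_I_sum A (fun k => P (k + j))]
  have : (A.filter (fun k => P (k + j))).card ≤ ((range X).filter P).card := by
    apply Finset.card_le_card_of_injOn (fun k => k + j)
    · intro k hk
      have hk' := Finset.mem_filter.1 (Finset.mem_coe.1 hk)
      exact Finset.mem_coe.2 (Finset.mem_filter.2 ⟨Finset.mem_range.2 (hA k hk'.1), hk'.2⟩)
    · intro a _ b _ hab
      exact Nat.add_right_cancel hab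
  exact_mod_cast this

private theorem B5_count (X p D j d : ℕ) (C3 C6 : ℝ) (hj : 1 ≤ j)
    (A : Finset ℕ) (hA : ∀ k ∈ A, k + j < X ∧ pr (k + j) ≤ pr k + D)
    (h3 : ∀ r : ℤ, (((range X).filter (fun k => (p : ℤ) ∣ (pr k : ℤ) - r)).card : ℝ) ≤ C3)
    (h6 : (((range X).filter (fun k => pr (k + j) ≤ pr k + D ∧
      p ∣ pr (k + j) - pr k + 2 * d)).card : ℝ) ≤ C6) (h30 : 0 ≤ C3) (h60 : 0 ≤ C6) :
    ∑ k ∈ A, ∑ k' ∈ A, B5_I (Coin p (sh j d k k')) ≤ X * (4 * C3 + 2 * C6) := by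
  have hA1 : ∀ k ∈ A, k + j < X := fun k hk => (hA k hk).1
  have hcard : (A.card : ℝ) ≤ X := by
    have : A.card ≤ (range X).card := Finset.card_le_card fun k hk => Finset.mem_range.2 (by have := hA1 k hk; omega)
    rw [Finset.card_range] at this
    exact_mod_cast this
  let P6 : ℕ → Prop := fun k => pr (k + j) ≤ pr k + D ∧ p ∣ pr (k + j) - pr k + 2 * d
  let P3 : ℤ → ℕ → Prop := fun r k => (p : ℤ) ∣ (pr k : ℤ) - r
  have hle : ∀ k, pr k ≤ pr (k + j) := fun k => pr_strictMono.monotone (Nat.le_add_right k j)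
  have hconv : ∀ k ∈ A, (p : ℤ) ∣ ((pr k : ℤ) - 2 * (d : ℤ)) - (pr (k + j) : ℤ) → P6 k := by
    intro k hk h
    refine ⟨(hA k hk).2, ?_⟩
    have h1 : (p : ℤ) ∣ ((pr (k + j) - pr k + 2 * d : ℕ) : ℤ) := by
      push_cast [Nat.cast_sub (hle k)]
      have h2 := (dvd_neg (α := ℤ)).2 h
      have e : -((pr k : ℤ) - 2 * (d : ℤ) - (pr (k + j) : ℤ)) = (pr (k + j) : ℤ) - (pr k : ℤ) + 2 * (d : ℤ) := by ring
      rwa [e] at h2
    exact_mod_cast h1
  have hpt : ∀ k ∈ A, ∀ k' ∈ A, B5_I (Coin p (sh j d k k')) ≤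
      B5_I (P6 k) + (B5_I (P6 k') + (B5_I (P3 (pr k) k') + (B5_I (P3 (pr (k + j)) (k' + j)) +
        (B5_I (P3 ((pr k : ℤ) - 2 * (d : ℤ)) (k' + j)) + B5_I (P3 ((pr (k + j) : ℤ) + 2 * (d : ℤ)) k'))))) := by
    intro k hk k' hk'
    have hcases : Coin p (sh j d k k') → P6 k ∨ P6 k' ∨ P3 (pr k) k' ∨ P3 (pr (k + j)) (k' + j) ∨
        P3 ((pr k : ℤ) - 2 * (d : ℤ)) (k' + j) ∨ P3 ((pr (k + j) : ℤ) + 2 * (d : ℤ)) k' := by
      intro h
      have e0 : sh j d k k' 0 = (pr k : ℤ) - 2 * (d : ℤ) := rfl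
      have e1 : sh j d k k' 1 = (pr (k + j) : ℤ) := rfl
      have e2 : sh j d k k' 2 = (pr k' : ℤ) - 2 * (d : ℤ) := rfl
      have e3 : sh j d k k' 3 = (pr (k' + j) : ℤ) := rfl
      rcases B5_coin p _ h with h | h | h | h | h | h
      · rw [e0, e1] at h
        exact Or.inl (hconv k hk h)
      · rw [e2, e3] at h
        exact Or.inr (Or.inl (hconv k' hk' h))
      · rw [e0, e2] at h
        refine Or.inr (Or.inr (Or.inl ?_))
        show (p : ℤ) ∣ (pr k' : ℤ) - (pr k : ℤ)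
        have e : (pr k : ℤ) - 2 * (d : ℤ) - ((pr k' : ℤ) - 2 * (d : ℤ)) = (pr k : ℤ) - (pr k' : ℤ) := by ring
        rw [e] at h
        exact (dvd_sub_comm).1 h
      · rw [e1, e3] at h
        refine Or.inr (Or.inr (Or.inr (Or.inl ?_)))
        exact (dvd_sub_comm).1 h
      · rw [e0, e3] at h
        refine Or.inr (Or.inr (Or.inr (Or.inr (Or.inl ?_))))
        exact (dvd_sub_comm).1 h
      · rw [e1, e2] at h
        refine Or.inr (Or.inr (Or.inr (Or.inr (Or.inr ?_))))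
        show (p : ℤ) ∣ (pr k' : ℤ) - ((pr (k + j) : ℤ) + 2 * (d : ℤ))
        have h' := (dvd_sub_comm).1 h
        have e : (pr k' : ℤ) - 2 * (d : ℤ) - (pr (k + j) : ℤ) = (pr k' : ℤ) - ((pr (k + j) : ℤ) + 2 * (d : ℤ)) := by ring
        rwa [e] at h'
    refine (B5_I_or hcases).trans (add_le_add_right ?_ _)
    refine (B5_I_or id).trans (add_le_add_right ?_ _)
    refine (B5_I_or id).trans (add_le_add_right ?_ _)
    refine (B5_I_or id).trans (add_le_add_right ?_ _)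
    exact B5_I_or id
  have g6 : ∑ k ∈ A, B5_I (P6 k) ≤ C6 := (B5_I_le A X j hA1 P6).trans h6
  have g3 : ∀ r, ∑ k ∈ A, B5_I (P3 r k) ≤ C3 := fun r => (B5_I_le A X j hA1 (P3 r)).trans (h3 r)
  have g3' : ∀ r, ∑ k ∈ A, B5_I (P3 r (k + j)) ≤ C3 := fun r => (B5_I_le' A X j hA1 (P3 r)).trans (h3 r)
  have hin : ∀ k ∈ A, ∑ k' ∈ A, B5_I (Coin p (sh j d k k')) ≤ A.card * B5_I (P6 k) + (C6 + 4 * C3) := by
    intro k hk
    refine (Finset.sum_le_sum fun k' hk' => hpt k hk k' hk').trans ?_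
    rw [Finset.sum_add_distrib, Finset.sum_add_distrib, Finset.sum_add_distrib, Finset.sum_add_distrib,
      Finset.sum_add_distrib, Finset.sum_const, nsmul_eq_mul]
    have a1 := g3 (pr k)
    have a2 := g3' (pr (k + j))
    have a3 := g3' ((pr k : ℤ) - 2 * (d : ℤ))
    have a4 := g3 ((pr (k + j) : ℤ) + 2 * (d : ℤ))
    linarith
  refine (Finset.sum_le_sum hin).trans ?_
  rw [Finset.sum_add_distrib, ← Finset.mul_sum, Finset.sum_const, nsmul_eq_mul]
  have b1 : (A.card : ℝ) * ∑ k ∈ A, B5_I (P6 k) ≤ X * C6 :=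
    mul_le_mul hcard g6 (Finset.sum_nonneg fun _ _ => B5_I_nonneg _) (by positivity)
  have b2 : (A.card : ℝ) * (C6 + 4 * C3) ≤ X * (C6 + 4 * C3) := mul_le_mul_of_nonneg_right hcard (by positivity)
  linarith

open Classical in
private theorem B5_cs (S : Finset ℕ) (s : Fin 4 → ℤ) : cs S s = ∑ p ∈ S, 1 / (p : ℝ) * B5_I (Coin p s) := by
  unfold cs B5_I
  rw [Finset.sum_filter]
  refine Finset.sum_congr rfl fun p _ => ?_
  split_ifs <;> simp

/-- Coincidences are rare on average over `k, k'`.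

Proof. Write `S = sprimes y (y^2)`; all `p ∈ S` satisfy `p ≤ y² ≤ log X`. Then
`Σ_{k,k'} cs S (sh j d k k') ≤ Σ_{p ∈ S} (1/p) Σ_{pairs {a,b}} #{(k,k') ∈ A² : p ∣ sh a - sh b}` (six pairs).
Pairs (0,2), (1,3), (0,3), (1,2): for fixed `k` the other condition says that `pr k'` or `pr (k'+j)` lies in a given class
modulo `p`; by `P3` there are `≤ C X / p` such `k'` (`k' + j < X`, and `k' ↦ k' + j` is injective), and `|A| ≤ X`. Pair
(0,1): the condition is `p ∣ pr (k+j) - pr k + 2d`: by `P6` `≤ C X (D / log X) / √p` values of `k`, times `|A| ≤ X` for `k'`;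
pair (2,3): the same with `k'`. Altogether
`≤ Σ_{p > y} (1/p) (C X²/p + C X² (D / log X)/√p) ≤ C X² (D / log X)/√y` since `Σ_{n > y} n^(-3/2) ≤ 2/√y`,
`Σ_{n > y} n^(-2) ≤ 1/y`, `D ≥ log X`. The term `1/y` contributes `≤ X²/y`. -/
theorem B5 : ∃ C : ℝ, 1 ≤ C ∧ ∃ X0 : ℕ, ∀ X : ℕ, X0 ≤ X → ∀ y : ℕ, 4 ≤ y →
    (y : ℝ) ^ 2 ≤ Real.log X → ∀ D : ℕ, Real.log X ≤ D → D ≤ X → ∀ j d : ℕ, 1 ≤ j →
    ∀ A : Finset ℕ, (∀ k ∈ A, k + j < X ∧ pr (k + j) ≤ pr k + D) →
    ∑ k ∈ A, ∑ k' ∈ A, (1 / (y : ℝ) + cs (sprimes y (y ^ 2)) (sh j d k k')) ≤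
      C * (X : ℝ) ^ 2 * (D / Real.log X) / Real.sqrt y := by
  obtain ⟨C3, hC3, X3, h3⟩ := P3
  obtain ⟨C6, hC6, X6, h6⟩ := P6
  refine ⟨1 + 2 * (4 * C3 + 2 * C6), by linarith, max (max X3 X6) 3, ?_⟩
  intro X hX y hy hyX D hD hDX j d hj A hA
  have hX3 : X3 ≤ X := le_trans (le_trans (le_max_left _ _) (le_max_left _ _)) hX
  have hX6 : X6 ≤ X := le_trans (le_trans (le_max_right _ _) (le_max_left _ _)) hX
  have hX0 : 3 ≤ X := le_trans (le_max_right _ _) hX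
  have hXr : (0 : ℝ) < X := by exact_mod_cast (by omega : 0 < X)
  have hy4 : (4 : ℝ) ≤ y := by exact_mod_cast hy
  have hlog : 0 < Real.log X := by nlinarith
  have hE1 : 1 ≤ (D : ℝ) / Real.log X := (one_le_div hlog).2 hD
  set E : ℝ := (D : ℝ) / Real.log X with hE
  have hsy : 0 < Real.sqrt y := Real.sqrt_pos.2 (by linarith)
  have hcardA : (A.card : ℝ) ≤ X := by
    have : A.card ≤ (range X).card := Finset.card_le_card fun k hk => Finset.mem_range.2 (by have := (hA k hk).1; omega)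
    rw [Finset.card_range] at this
    exact_mod_cast this
  set S := sprimes y (y ^ 2) with hS
  -- the count for every prime
  have hp : ∀ p ∈ S, ∑ k ∈ A, ∑ k' ∈ A, 1 / (p : ℝ) * B5_I (Coin p (sh j d k k')) ≤
      (4 * C3 + 2 * C6) * (X : ℝ) ^ 2 * E * (1 / ((p : ℝ) * Real.sqrt p)) := by
    intro p hpS
    obtain ⟨hpp, hp1, hp2⟩ := mem_sprimes.1 hpS
    have hp0 : (0 : ℝ) < p := by exact_mod_cast hpp.pos
    have hp1' : (1 : ℝ) ≤ p := by exact_mod_cast hpp.one_lt.le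
    have hsp : 0 < Real.sqrt p := Real.sqrt_pos.2 hp0
    have hplog : (p : ℝ) ≤ Real.log X := by
      have : (p : ℝ) ≤ (y : ℝ) ^ 2 := by exact_mod_cast hp2
      linarith
    have h4 := B5_count X p D j d (C3 * X / p) (C6 * X * E / Real.sqrt p) hj A hA
      (h3 X hX3 p hpp hplog) (h6 X hX6 D hD hDX p hpp hplog j d hj) (by positivity) (by positivity)
    have h5 : C3 * X / p ≤ C3 * X * E / Real.sqrt p := by
      rw [div_le_div_iff₀ hp0 hsp]
      have h7 : Real.sqrt p ≤ p := by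
        rw [Real.sqrt_le_left hp0.le]
        nlinarith
      have h8 : C3 * X * Real.sqrt p ≤ C3 * X * p := mul_le_mul_of_nonneg_left h7 (by positivity)
      have h9 : C3 * X * (p : ℝ) * 1 ≤ C3 * X * (p : ℝ) * E := mul_le_mul_of_nonneg_left hE1 (by positivity)
      nlinarith
    have h10 : ∑ k ∈ A, ∑ k' ∈ A, 1 / (p : ℝ) * B5_I (Coin p (sh j d k k')) =
        1 / (p : ℝ) * ∑ k ∈ A, ∑ k' ∈ A, B5_I (Coin p (sh j d k k')) := by
      rw [Finset.mul_sum]
      refine Finset.sum_congr rfl fun k _ => ?_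
      rw [Finset.mul_sum]
    rw [h10]
    calc 1 / (p : ℝ) * ∑ k ∈ A, ∑ k' ∈ A, B5_I (Coin p (sh j d k k'))
        ≤ 1 / (p : ℝ) * (X * (4 * (C3 * X / p) + 2 * (C6 * X * E / Real.sqrt p))) :=
          mul_le_mul_of_nonneg_left h4 (by positivity)
      _ ≤ 1 / (p : ℝ) * (X * (4 * (C3 * X * E / Real.sqrt p) + 2 * (C6 * X * E / Real.sqrt p))) := by
          refine mul_le_mul_of_nonneg_left ?_ (by positivity)
          refine mul_le_mul_of_nonneg_left ?_ hXr.le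
          linarith
      _ = (4 * C3 + 2 * C6) * (X : ℝ) ^ 2 * E * (1 / ((p : ℝ) * Real.sqrt p)) := by
          field_simp
  have hsum : ∑ k ∈ A, ∑ k' ∈ A, cs S (sh j d k k') =
      ∑ p ∈ S, ∑ k ∈ A, ∑ k' ∈ A, 1 / (p : ℝ) * B5_I (Coin p (sh j d k k')) := by
    have e1 : ∀ k ∈ A, ∑ k' ∈ A, cs S (sh j d k k') =
        ∑ p ∈ S, ∑ k' ∈ A, 1 / (p : ℝ) * B5_I (Coin p (sh j d k k')) := by
      intro k _
      rw [Finset.sum_comm]
      exact Finset.sum_congr rfl fun k' _ => B5_cs S _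
    rw [Finset.sum_congr rfl e1, Finset.sum_comm]
  have htail : ∑ p ∈ S, 1 / ((p : ℝ) * Real.sqrt p) ≤ 2 / Real.sqrt y := by
    have hsub : S ⊆ Ioc y (y ^ 2) := by
      intro p hpS
      obtain ⟨_, hp1, hp2⟩ := mem_sprimes.1 hpS
      exact Finset.mem_Ioc.2 ⟨hp1, hp2⟩
    have h4 := B5_tail y (y ^ 2) (by omega) (by nlinarith)
    have h5 : 0 ≤ 2 / Real.sqrt ((y ^ 2 : ℕ) : ℝ) := by positivity
    have h6 : ∑ p ∈ S, 1 / ((p : ℝ) * Real.sqrt p) ≤ ∑ n ∈ Ioc y (y ^ 2), 1 / ((n : ℝ) * Real.sqrt n) :=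
      Finset.sum_le_sum_of_subset_of_nonneg hsub fun _ _ _ => by positivity
    linarith
  have hmain : ∑ k ∈ A, ∑ k' ∈ A, cs S (sh j d k k') ≤
      (4 * C3 + 2 * C6) * (X : ℝ) ^ 2 * E * (2 / Real.sqrt y) := by
    rw [hsum]
    refine (Finset.sum_le_sum hp).trans ?_
    rw [← Finset.mul_sum]
    exact mul_le_mul_of_nonneg_left htail (by positivity)
  have hfirst : ∑ k ∈ A, ∑ _k' ∈ A, 1 / (y : ℝ) ≤ (X : ℝ) ^ 2 * E * (1 / Real.sqrt y) := by
    rw [Finset.sum_const, Finset.sum_const, nsmul_eq_mul, nsmul_eq_mul]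
    have h4 : 1 / (y : ℝ) ≤ 1 / Real.sqrt y := by
      apply one_div_le_one_div_of_le hsy
      rw [Real.sqrt_le_left (by linarith)]
      nlinarith
    calc (A.card : ℝ) * ((A.card : ℝ) * (1 / (y : ℝ))) ≤ X * (X * (1 / Real.sqrt y)) := by
          refine mul_le_mul hcardA (mul_le_mul hcardA h4 (by positivity) hXr.le) (by positivity) hXr.le
      _ = (X : ℝ) ^ 2 * 1 * (1 / Real.sqrt y) := by ring
      _ ≤ (X : ℝ) ^ 2 * E * (1 / Real.sqrt y) := by
          refine mul_le_mul_of_nonneg_right ?_ (by positivity)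
          exact mul_le_mul_of_nonneg_left hE1 (by positivity)
  have hsplit : ∑ k ∈ A, ∑ k' ∈ A, (1 / (y : ℝ) + cs S (sh j d k k')) =
      ∑ k ∈ A, ∑ _k' ∈ A, 1 / (y : ℝ) + ∑ k ∈ A, ∑ k' ∈ A, cs S (sh j d k k') := by
    rw [← Finset.sum_add_distrib]
    exact Finset.sum_congr rfl fun k _ => Finset.sum_add_distrib
  rw [hsplit]
  refine (add_le_add hfirst hmain).trans (le_of_eq ?_)
  field_simp

end Pool.Agent.Lib.H16X
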