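import Pool.Agent.Lib.H16X.D
import Pool.Agent.Lib.H16X.B4
import Pool.Agent.Lib.H16X.B5

/-!
# H16X: mean square of the inner sum
-/

set_option linter.unusedVariables false

namespace Pool.Agent.Lib.H16X

open Finset Pool.Agent.Lib.Sieve

/-- The mean square of the inner sum over the residues.

Proof. By `GG_sq` (file D) and linearity of `mn`, the left side is
`Σ_{k,k'} w k w k' mn(∏_i FB y (2b - sh j d k k' i)) ≤ Σ_{k,k' ∈ A} |mn ..|`, `A` = the `k < X` with `w k ≠ 0`. Apply `B4` to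
every term and then `B5` (`y² ≤ log X / 16 ≤ log X`). -/
theorem B6 : ∃ C : ℝ, 1 ≤ C ∧ ∃ X0 : ℕ, ∀ X : ℕ, X0 ≤ X → ∀ y : ℕ, yy 0 ≤ y →
    (y : ℝ) ^ 2 ≤ Real.log X / 16 → ∀ D : ℕ, Real.log X ≤ D → D ≤ X → ∀ j d : ℕ, 1 ≤ j →
    ∀ w : ℕ → ℝ, (∀ k, |w k| ≤ 1) → (∀ k, w k ≠ 0 → k + j < X ∧ pr (k + j) ≤ pr k + D) →
    mn (PP (sprimes (yy 0) (y ^ 2))) (fun b => (GG X j d w (FB y) b) ^ 2) ≤
      C * (Real.log y) ^ 4 * (X : ℝ) ^ 2 * (D / Real.log X) / Real.sqrt y := by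
  obtain ⟨C4, hC4, h4⟩ := B4
  obtain ⟨C5, hC5, X0, h5⟩ := B5
  refine ⟨C4 * C5, one_le_mul_of_one_le_of_one_le hC4 hC5, X0, ?_⟩
  intro X hX y hy hyX D hD hDX j d hj w hw1 hw2
  have hyy0 : 4 ≤ yy 0 := by
    unfold yy uu
    norm_num
  have hlog0 : 0 ≤ Real.log X / 16 := le_trans (sq_nonneg _) hyX
  have hyX' : (y : ℝ) ^ 2 ≤ Real.log X := by linarith
  obtain ⟨A, hA⟩ : ∃ A : Finset ℕ, A = (range X).filter fun k => w k ≠ 0 := ⟨_, rfl⟩
  have hAmem : ∀ k ∈ A, k + j < X ∧ pr (k + j) ≤ pr k + D := by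
    intro k hk
    rw [hA] at hk
    exact hw2 k (Finset.mem_filter.1 hk).2
  have h5' := h5 X hX y (hyy0.trans hy) hyX' D hD hDX j d hj A hAmem
  obtain ⟨Q, hQ⟩ : ∃ Q : ℕ, Q = PP (sprimes (yy 0) (y ^ 2)) := ⟨_, rfl⟩
  obtain ⟨R, hR⟩ : ∃ R : ℕ → ℕ → ℝ, R = fun k k' =>
    mn (PP (sprimes (yy 0) (y ^ 2))) (fun b => ∏ i : Fin 4, FB y (2 * b - sh j d k k' i)) := ⟨_, rfl⟩
  have hRle : ∀ k k', |R k k'| ≤
      C4 * (Real.log y) ^ 4 * (1 / (y : ℝ) + cs (sprimes y (y ^ 2)) (sh j d k k')) := by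
    intro k k'
    rw [hR]
    exact h4 y hy (sh j d k k')
  have hexp : mn (PP (sprimes (yy 0) (y ^ 2))) (fun b => (GG X j d w (FB y) b) ^ 2) =
      ∑ k ∈ range X, ∑ k' ∈ range X, w k * w k' * R k k' := by
    rw [hR, ← hQ]
    unfold mn
    simp only [GG_sq]
    rw [Finset.sum_comm, Finset.sum_div]
    refine Finset.sum_congr rfl fun k _ => ?_
    rw [Finset.sum_comm, Finset.sum_div]
    refine Finset.sum_congr rfl fun k' _ => ?_
    rw [← Finset.mul_sum, mul_div_assoc]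
  have hA' : ∑ k ∈ range X, ∑ k' ∈ range X, w k * w k' * R k k' =
      ∑ k ∈ A, ∑ k' ∈ A, w k * w k' * R k k' := by
    rw [hA, Finset.sum_filter_of_ne]
    · refine Finset.sum_congr rfl fun k _ => ?_
      rw [Finset.sum_filter_of_ne]
      intro k' _ hne hz
      apply hne
      rw [hz]
      ring
    · intro k _ hne hz
      apply hne
      rw [hz]
      simp
  have hterm : ∀ k ∈ A, ∀ k' ∈ A, w k * w k' * R k k' ≤
      C4 * (Real.log y) ^ 4 * (1 / (y : ℝ) + cs (sprimes y (y ^ 2)) (sh j d k k')) := by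
    intro k _ k' _
    refine le_trans (le_abs_self _) ?_
    rw [abs_mul, abs_mul]
    have h1 : |w k| * |w k'| ≤ 1 := mul_le_one₀ (hw1 k) (abs_nonneg _) (hw1 k')
    calc |w k| * |w k'| * |R k k'| ≤ 1 * |R k k'| := mul_le_mul_of_nonneg_right h1 (abs_nonneg _)
      _ = |R k k'| := one_mul _
      _ ≤ _ := hRle k k'
  rw [hexp, hA']
  have hC4log : 0 ≤ C4 * (Real.log y) ^ 4 :=
    mul_nonneg (by linarith) (by positivity)
  calc ∑ k ∈ A, ∑ k' ∈ A, w k * w k' * R k k'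
      ≤ ∑ k ∈ A, ∑ k' ∈ A, C4 * (Real.log y) ^ 4 *
          (1 / (y : ℝ) + cs (sprimes y (y ^ 2)) (sh j d k k')) :=
        Finset.sum_le_sum fun k hk => Finset.sum_le_sum fun k' hk' => hterm k hk k' hk'
    _ = C4 * (Real.log y) ^ 4 *
          ∑ k ∈ A, ∑ k' ∈ A, (1 / (y : ℝ) + cs (sprimes y (y ^ 2)) (sh j d k k')) := by
        simp only [Finset.mul_sum]
    _ ≤ C4 * (Real.log y) ^ 4 * (C5 * (X : ℝ) ^ 2 * (D / Real.log X) / Real.sqrt y) :=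
        mul_le_mul_of_nonneg_left h5' hC4log
    _ = C4 * C5 * (Real.log y) ^ 4 * (X : ℝ) ^ 2 * (D / Real.log X) / Real.sqrt y := by ring

end Pool.Agent.Lib.H16X
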