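import Pool.Agent.Lib.H16X.D
import Pool.Agent.Lib.H16X.B6
import Pool.Agent.Lib.H16X.P1
import Pool.Agent.Lib.H16X.P2
import Pool.Agent.Lib.H16X.P5

/-!
# H16X: correlation estimate at scale y
-/

set_option linter.unusedVariables false

namespace Pool.Agent.Lib.H16X

open Finset Pool.Agent.Lib.Sieve

private theorem B7_nu (S : Finset ℕ) (Q : ℕ) (hS : ∀ p ∈ S, p ∣ Q) : Per Q (nu S) := by
  intro a b hab
  unfold nu
  refine Finset.prod_congr rfl fun p hp => ?_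
  have h1 : (p : ℤ) ∣ a - b := (Int.natCast_dvd_natCast.2 (hS p hp)).trans hab
  have h2 : (p : ℤ) ∣ a ↔ (p : ℤ) ∣ b := by
    constructor
    · intro h
      have h3 := dvd_sub h h1
      rwa [sub_sub_cancel] at h3
    · intro h
      have h3 := dvd_add h1 h
      rwa [sub_add_cancel] at h3
  simp only [h2]

private theorem B7_FB (y : ℕ) (hy : yy 0 ≤ y) (hy1 : 1 ≤ y) :
    Per (PP (sprimes (yy 0) (y ^ 2))) (FB y) := by
  have hyy : y ≤ y ^ 2 := by nlinarith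
  have h1 : Per (PP (sprimes (yy 0) (y ^ 2))) (nu (sprimes (yy 0) y)) := by
    apply B7_nu
    intro p hp
    obtain ⟨a1, a2, a3⟩ := mem_sprimes.1 hp
    exact Finset.dvd_prod_of_mem (fun p => p) (mem_sprimes.2 ⟨a1, a2, a3.trans hyy⟩)
  have h2 : Per (PP (sprimes (yy 0) (y ^ 2))) (nu (sprimes y (y ^ 2))) := by
    apply B7_nu
    intro p hp
    obtain ⟨a1, a2, a3⟩ := mem_sprimes.1 hp
    exact Finset.dvd_prod_of_mem (fun p => p) (mem_sprimes.2 ⟨a1, lt_of_le_of_lt hy a2, a3⟩)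
  intro a b hab
  unfold FB
  rw [h1 a b hab, h2 a b hab]

private theorem B7_GG (X j d : ℕ) (w : ℕ → ℝ) (Φ : ℤ → ℝ) (Q : ℕ) (hΦ : Per Q Φ) (n b : ℤ)
    (h : (Q : ℤ) ∣ n - b) : GG X j d w Φ n = GG X j d w Φ b := by
  unfold GG
  refine Finset.sum_congr rfl fun k _ => ?_
  have e : ∀ s : ℤ, Φ (2 * n - s) = Φ (2 * b - s) := by
    intro s
    apply hΦ
    have e1 : 2 * n - s - (2 * b - s) = 2 * (n - b) := by ring
    rw [e1]
    exact Dvd.dvd.mul_left h 2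
  rw [e, e]

private theorem B7_Qpos (a n : ℕ) : 0 < PP (sprimes a n) :=
  Finset.prod_pos fun p hp => (mem_sprimes.1 hp).1.pos

private theorem B7_Qle (a n : ℕ) : PP (sprimes a n) ≤ 4 ^ n := by
  refine le_trans (Nat.le_of_dvd (primorial_pos n) ?_) (primorial_le_four_pow n)
  unfold PP primorial
  apply Finset.prod_dvd_prod_of_subset
  intro p hp
  obtain ⟨a1, a2, a3⟩ := mem_sprimes.1 hp
  exact Finset.mem_filter.2 ⟨Finset.mem_range.2 (by omega), a1⟩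

private theorem B7_Qdvd (a n p : ℕ) (hp : p.Prime) (h : p ∣ PP (sprimes a n)) : p ≤ n := by
  obtain ⟨q, hq, hpq⟩ := (Prime.dvd_finsetProd_iff hp.prime (fun p => p)).1 h
  obtain ⟨a1, a2, a3⟩ := mem_sprimes.1 hq
  have : p = q := (Nat.prime_dvd_prime_iff_eq hp a1).1 hpq
  omega

private theorem B7_Qrpow (X y : ℕ) (hX : 1 ≤ X) (hy : (y : ℝ) ^ 2 ≤ Real.log X / 16) (a : ℕ) :
    (PP (sprimes a (y ^ 2)) : ℝ) ≤ (X : ℝ) ^ (1 / 4 : ℝ) := by
  have h1 : (PP (sprimes a (y ^ 2)) : ℝ) ≤ (4 : ℝ) ^ (y ^ 2) := by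
    exact_mod_cast B7_Qle a (y ^ 2)
  have hX0 : (0 : ℝ) < X := by exact_mod_cast hX
  have h2 : (4 : ℝ) ≤ Real.exp 4 := by
    have := Real.add_one_le_exp (4 : ℝ)
    linarith
  have h3 : (4 : ℝ) ^ (y ^ 2) ≤ (Real.exp 4) ^ (y ^ 2) := pow_le_pow_left₀ (by norm_num) h2 _
  rw [← Real.exp_nat_mul] at h3
  refine h1.trans (h3.trans ?_)
  rw [Real.rpow_def_of_pos hX0]
  apply Real.exp_le_exp.2
  push_cast
  linarith

/-- Sorting by the gap and the residue. -/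
private theorem B7_sort (X j D Q : ℕ) (hQ : 0 < Q) (M : Finset ℕ)
    (hM : ∀ m ∈ M, 1 ≤ pr (m + j) - pr m ∧ pr (m + j) - pr m ≤ D) (H : ℕ → ℕ → ℝ) (W : ℕ → ℕ → ℝ)
    (hH : ∀ d b, 0 ≤ H d b)
    (hW : ∀ d ∈ Icc 1 D, ∀ b ∈ range Q,
      ((M.filter fun m => pr (m + j) - pr m = d ∧ pr m % Q = b).card : ℝ) ≤ W d b) :
    ∑ m ∈ M, H (pr (m + j) - pr m) (pr m % Q) ≤ ∑ d ∈ Icc 1 D, ∑ b ∈ range Q, W d b * H d b := by
  rw [← Finset.sum_product' (Icc 1 D) (range Q) (fun d b => W d b * H d b)]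
  rw [← Finset.sum_fiberwise_of_maps_to (s := M) (t := Icc 1 D ×ˢ range Q)
    (g := fun m => (pr (m + j) - pr m, pr m % Q))
    (by
      intro m hm
      exact Finset.mem_product.2 ⟨Finset.mem_Icc.2 (hM m hm), Finset.mem_range.2 (Nat.mod_lt _ hQ)⟩)]
  refine Finset.sum_le_sum fun q hq => ?_
  obtain ⟨hq1, hq2⟩ := Finset.mem_product.1 hq
  have h1 : ∀ m ∈ M.filter (fun m => (pr (m + j) - pr m, pr m % Q) = q),
      H (pr (m + j) - pr m) (pr m % Q) = H q.1 q.2 := by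
    intro m hm
    have := (Finset.mem_filter.1 hm).2
    rw [← this]
  rw [Finset.sum_congr rfl h1, Finset.sum_const, nsmul_eq_mul]
  refine mul_le_mul_of_nonneg_right ?_ (hH _ _)
  refine le_trans (le_of_eq ?_) (hW q.1 hq1 q.2 hq2)
  congr 2
  refine Finset.filter_congr fun m _ => ?_
  rw [Prod.ext_iff]

/-- The correlation of scale `y`.

Proof. Put `Q = PP (sprimes (yy 0) (y^2))`; `Q ≤ 4^(y^2) ≤ X^(1/4)` (`primorial_le_four_pow`, or the like, and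
`y² ≤ log X / 16`). By `TT_eq` (file D) and `|α| ≤ 1`, `|TT| ≤ Σ_m |GG X j d_m w (FB y) (pr m)|`, the sum over the `m < X` with
`α (m+j) ≠ 0`, `α m ≠ 0`, where `d_m = pr (m+j) - pr m ∈ [1, D]` (`j ≥ 1`; `Gap`) and `w k = β k β (k+j)`. `w` satisfies the
hypotheses of `B6` (`Gap` for `β`). The function `n ↦ GG X j d w (FB y) n` has period `Q`. Sort the `m` by `d = d_m` and by
the residue `b` of `pr m` modulo `Q`: since `n = pr m`, `n + d` are primes and `n > √X`, `P2` (with `z = y²`) gives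
`|TT| ≤ Σ_{d ≤ D} C (pr X / Q) (log y² / log X)² hh d Σ_{b ∈ range Q} |GG X j d w (FB y) b|
 ≤ C' pr X (log y / log X)² Σ_{d ≤ D} hh d (mn Q (GG²))^(1/2)` (Cauchy-Schwarz). Use `B6`, `Σ_{d ≤ D} hh d ≤ C D` (`P5`),
`pr X ≤ C X log X` (`P1`): `|TT| ≤ C X (D / log X) (log y)² · (log y)² X (D / log X)^(1/2) y^(-1/4)`. -/
theorem B7 : ∃ C : ℝ, 1 ≤ C ∧ ∃ X0 : ℕ, ∀ X : ℕ, X0 ≤ X → ∀ y : ℕ, yy 0 ≤ y →
    (y : ℝ) ^ 2 ≤ Real.log X / 16 → ∀ D : ℕ, Real.log X ≤ D → D ≤ X → ∀ L j : ℕ, 1 ≤ j → j < L →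
    ∀ α β : ℕ → ℝ, (∀ m, |α m| ≤ 1) → (∀ k, |β k| ≤ 1) →
    (∀ m, α m ≠ 0 → m < X ∧ Real.sqrt X < pr m) → (∀ k, β k ≠ 0 → k < X) →
    Gap L D α → Gap L D β →
    |TT X (ff α β (FB y)) j| ≤ C * (X : ℝ) ^ 2 * (Real.log y) ^ 4 *
      (D / Real.log X) ^ (3 / 2 : ℝ) / (y : ℝ) ^ (1 / 4 : ℝ) := by
  obtain ⟨C1, hC1, hP1⟩ := P1
  obtain ⟨C2, hC2, X2, hP2⟩ := P2
  obtain ⟨C5, hC5, hP5, -⟩ := P5
  obtain ⟨C6, hC6, X6, hB6⟩ := B6
  refine ⟨4 * C1 * C2 * C5 * C6, ?_, max X2 X6, ?_⟩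
  · have e1 : 1 ≤ C1 * C2 := one_le_mul_of_one_le_of_one_le hC1 hC2
    have e2 : 1 ≤ C1 * C2 * C5 := one_le_mul_of_one_le_of_one_le e1 hC5
    have e3 : 1 ≤ C1 * C2 * C5 * C6 := one_le_mul_of_one_le_of_one_le e2 hC6
    linarith
  intro X hX y hy hyX D hD hDX L j hj hjL α β hα hβ hα0 hβ0 hGα hGβ
  have hX2 : X2 ≤ X := (le_max_left _ _).trans hX
  have hX6 : X6 ≤ X := (le_max_right _ _).trans hX
  have hyy0 : 6 ≤ yy 0 := by norm_num [yy, uu]
  have hy6 : 6 ≤ y := hyy0.trans hy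
  have hyR : (6 : ℝ) ≤ y := by exact_mod_cast hy6
  have hlogX : (576 : ℝ) ≤ Real.log X := by nlinarith
  have hXpos : 0 < X := by
    rcases Nat.eq_zero_or_pos X with h0 | h0
    · rw [h0] at hlogX
      norm_num at hlogX
    · exact h0
  have hX2' : 2 ≤ X := by
    by_contra hlt
    have h1 : X = 1 := by omega
    rw [h1] at hlogX
    norm_num at hlogX
  have hXR : (0 : ℝ) < X := by exact_mod_cast hXpos
  have hDpos : 0 < D := by
    rcases Nat.eq_zero_or_pos D with h0 | h0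
    · rw [h0] at hD
      norm_num at hD
      linarith
    · exact h0
  have hlogy : 0 ≤ Real.log y := Real.log_nonneg (by linarith)
  -- abbreviations
  obtain ⟨Q, hQ⟩ : ∃ Q : ℕ, Q = PP (sprimes (yy 0) (y ^ 2)) := ⟨_, rfl⟩
  have hQpos : 0 < Q := by rw [hQ]; exact B7_Qpos _ _
  have hQR : (0 : ℝ) < Q := by exact_mod_cast hQpos
  have hper : Per Q (FB y) := by rw [hQ]; exact B7_FB y hy (by omega)
  obtain ⟨w, hw⟩ : ∃ w : ℕ → ℝ, w = fun k => β k * β (k + j) := ⟨_, rfl⟩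
  have hw1 : ∀ k, |w k| ≤ 1 := by
    intro k
    rw [hw]
    show |β k * β (k + j)| ≤ 1
    rw [abs_mul]
    exact mul_le_one₀ (hβ k) (abs_nonneg _) (hβ _)
  have hw2 : ∀ k, w k ≠ 0 → k + j < X ∧ pr (k + j) ≤ pr k + D := by
    intro k hk
    rw [hw] at hk
    have h1 : β (k + j) ≠ 0 := fun h0 => hk (by show β k * β (k + j) = 0; rw [h0, mul_zero])
    refine ⟨hβ0 _ h1, ?_⟩
    have h2 := hGβ k j hjL h1
    have h3 : (pr (k + j) : ℝ) ≤ ((pr k + D : ℕ) : ℝ) := by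
      push_cast
      linarith
    exact_mod_cast h3
  obtain ⟨M, hMdef⟩ : ∃ M : Finset ℕ, M = (range X).filter fun m => α (m + j) ≠ 0 ∧ α m ≠ 0 := ⟨_, rfl⟩
  have hM : ∀ m ∈ M, 1 ≤ pr (m + j) - pr m ∧ pr (m + j) - pr m ≤ D := by
    intro m hm
    rw [hMdef] at hm
    obtain ⟨h1, h2, h3⟩ := Finset.mem_filter.1 hm
    have h4 : pr m < pr (m + j) := pr_strictMono (by omega)
    have h5 := hGα m j hjL h2
    have h6 : (pr (m + j) : ℝ) ≤ ((pr m + D : ℕ) : ℝ) := by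
      push_cast
      linarith
    have h7 : pr (m + j) ≤ pr m + D := by exact_mod_cast h6
    omega
  -- first step
  have hT1 : |TT X (ff α β (FB y)) j| ≤
      ∑ m ∈ M, |GG X j (pr (m + j) - pr m) w (FB y) ((pr m % Q : ℕ) : ℤ)| := by
    rw [TT_eq, ← hw, hMdef, Finset.sum_filter]
    refine (Finset.abs_sum_le_sum_abs _ _).trans (Finset.sum_le_sum fun m _ => ?_)
    by_cases hc : α (m + j) ≠ 0 ∧ α m ≠ 0
    · rw [if_pos hc, abs_mul, abs_mul]
      have e1 : GG X j (pr (m + j) - pr m) w (FB y) (pr m) =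
          GG X j (pr (m + j) - pr m) w (FB y) ((pr m % Q : ℕ) : ℤ) := by
        apply B7_GG X j _ w (FB y) Q hper
        have h1 := Int.emod_add_mul_ediv (pr m : ℤ) (Q : ℤ)
        refine ⟨(pr m : ℤ) / (Q : ℤ), ?_⟩
        rw [Int.natCast_mod]
        linarith
      rw [e1]
      have e2 : |α (m + j)| * |α m| ≤ 1 := mul_le_one₀ (hα _) (abs_nonneg _) (hα _)
      exact mul_le_of_le_one_left (abs_nonneg _) e2
    · rw [if_neg hc]
      have e1 : α (m + j) * α m = 0 := by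
        by_contra h0
        exact hc ⟨left_ne_zero_of_mul h0, right_ne_zero_of_mul h0⟩
      rw [e1, zero_mul, abs_zero]
  -- the number of the m
  have hcount : ∀ d ∈ Icc 1 D, ∀ b ∈ range Q,
      ((M.filter fun m => pr (m + j) - pr m = d ∧ pr m % Q = b).card : ℝ) ≤
        C2 * (pr X / Q) * (Real.log ((y ^ 2 : ℕ) : ℝ) / Real.log X) ^ 2 * hh d := by
    intro d hd b hb
    obtain ⟨hd1, hd2⟩ := Finset.mem_Icc.1 hd
    refine le_trans ?_ (hP2 X hX2 (y ^ 2) (by nlinarith) (by push_cast; linarith) Q hQpos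
      (by rw [hQ]; exact B7_Qrpow X y hXpos hyX _)
      (by intro p hp hpQ; rw [hQ] at hpQ; exact B7_Qdvd _ _ p hp hpQ) d hd1 (hd2.trans hDX) (b : ℤ))
    have hle : (M.filter fun m => pr (m + j) - pr m = d ∧ pr m % Q = b).card ≤
        ((range (pr X)).filter (fun n => n.Prime ∧ (n + d).Prime ∧ Real.sqrt X < n ∧
          (Q : ℤ) ∣ (n : ℤ) - (b : ℤ))).card := by
      apply Finset.card_le_card_of_injOn pr
      · intro m hm
        obtain ⟨hm1, hm2, hm3⟩ := Finset.mem_filter.1 hm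
        have hm1' := hm1
        rw [hMdef] at hm1'
        obtain ⟨h1, h2, h3⟩ := Finset.mem_filter.1 hm1'
        have h4 : pr m < pr (m + j) := pr_strictMono (by omega)
        refine Finset.mem_filter.2 ⟨Finset.mem_range.2 (pr_strictMono (Finset.mem_range.1 h1)), pr_prime m, ?_,
          (hα0 m h3).2, ?_⟩
        · have e1 : pr m + d = pr (m + j) := by omega
          rw [e1]
          exact pr_prime _
        · have h5 := Int.emod_add_mul_ediv (pr m : ℤ) (Q : ℤ)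
          refine ⟨(pr m : ℤ) / (Q : ℤ), ?_⟩
          rw [← hm3, Int.natCast_mod]
          linarith
      · intro m _ m' _ hmm
        exact pr_strictMono.injective hmm
    exact_mod_cast hle
  have hT2 := B7_sort X j D Q hQpos M hM (fun d b => |GG X j d w (FB y) ((b : ℕ) : ℤ)|)
    (fun d _ => C2 * (pr X / Q) * (Real.log ((y ^ 2 : ℕ) : ℝ) / Real.log X) ^ 2 * hh d)
    (fun _ _ => abs_nonneg _) hcount
  -- the mean values
  obtain ⟨t, ht⟩ : ∃ t : ℝ, t = D / Real.log X := ⟨_, rfl⟩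
  have hlogpos : 0 < Real.log X := by linarith
  have htpos : 0 < t := by
    rw [ht]
    have : (0 : ℝ) < D := by exact_mod_cast hDpos
    positivity
  obtain ⟨s, hs⟩ : ∃ s : ℝ, s = t ^ (1 / 2 : ℝ) := ⟨_, rfl⟩
  have hspos : 0 < s := by rw [hs]; exact Real.rpow_pos_of_pos htpos _
  have hs2 : s ^ 2 = t := by
    rw [hs, ← Real.rpow_natCast, ← Real.rpow_mul htpos.le]
    norm_num
  have hts : t ^ (3 / 2 : ℝ) = t * s := by
    rw [hs]
    have e1 : (3 / 2 : ℝ) = 1 + 1 / 2 := by norm_num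
    rw [e1, Real.rpow_add htpos, Real.rpow_one]
  have hypos : (0 : ℝ) < y := by linarith
  obtain ⟨v, hv⟩ : ∃ v : ℝ, v = (y : ℝ) ^ (1 / 4 : ℝ) := ⟨_, rfl⟩
  have hvpos : 0 < v := by rw [hv]; exact Real.rpow_pos_of_pos hypos _
  have hv2 : v ^ 2 = Real.sqrt y := by
    rw [hv, ← Real.rpow_natCast, ← Real.rpow_mul hypos.le, Real.sqrt_eq_rpow]
    norm_num
  obtain ⟨E, hE⟩ : ∃ E : ℝ, E = C6 * (Real.log y) ^ 2 * X * s / v := ⟨_, rfl⟩
  have hEnn : 0 ≤ E := by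
    rw [hE]
    positivity
  have hmean : ∀ d : ℕ, (∑ b ∈ range Q, |GG X j d w (FB y) ((b : ℕ) : ℤ)|) / Q ≤ E := by
    intro d
    have h1 := hB6 X hX6 y hy hyX D hD hDX j d hj w hw1 hw2
    rw [← hQ] at h1
    have h2 := sq_sum_le_card_mul_sum_sq (s := range Q) (f := fun b : ℕ => |GG X j d w (FB y) (b : ℤ)|)
    rw [Finset.card_range] at h2
    have h3 : ((∑ b ∈ range Q, |GG X j d w (FB y) ((b : ℕ) : ℤ)|) / Q) ^ 2 ≤
        mn Q (fun b => (GG X j d w (FB y) b) ^ 2) := by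
      unfold mn
      rw [div_pow, div_le_div_iff₀ (by positivity) hQR]
      have h4 : ∑ b ∈ range Q, |GG X j d w (FB y) ((b : ℕ) : ℤ)| ^ 2 =
          ∑ b ∈ range Q, (GG X j d w (FB y) ((b : ℕ) : ℤ)) ^ 2 :=
        Finset.sum_congr rfl fun b _ => sq_abs _
      rw [h4] at h2
      calc (∑ b ∈ range Q, |GG X j d w (FB y) ((b : ℕ) : ℤ)|) ^ 2 * (Q : ℝ)
          ≤ ((Q : ℝ) * ∑ b ∈ range Q, (GG X j d w (FB y) ((b : ℕ) : ℤ)) ^ 2) * (Q : ℝ) :=
            mul_le_mul_of_nonneg_right h2 hQR.le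
        _ = (∑ b ∈ range Q, (GG X j d w (FB y) ((b : ℕ) : ℤ)) ^ 2) * (Q : ℝ) ^ 2 := by ring
    have h5 : C6 * (Real.log y) ^ 4 * (X : ℝ) ^ 2 * (D / Real.log X) / Real.sqrt y ≤ E ^ 2 := by
      rw [hE, ← ht, ← hv2, div_pow, ← hs2]
      refine div_le_div_of_nonneg_right ?_ (by positivity)
      have h6 : C6 ≤ C6 ^ 2 := by nlinarith
      calc C6 * (Real.log y) ^ 4 * (X : ℝ) ^ 2 * s ^ 2
          ≤ C6 ^ 2 * (Real.log y) ^ 4 * (X : ℝ) ^ 2 * s ^ 2 := by gcongr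
        _ = (C6 * (Real.log y) ^ 2 * X * s) ^ 2 := by ring
    have h7 : ((∑ b ∈ range Q, |GG X j d w (FB y) ((b : ℕ) : ℤ)|) / Q) ^ 2 ≤ E ^ 2 :=
      h3.trans (h1.trans h5)
    have h8 : 0 ≤ (∑ b ∈ range Q, |GG X j d w (FB y) ((b : ℕ) : ℤ)|) / Q :=
      div_nonneg (Finset.sum_nonneg fun _ _ => abs_nonneg _) hQR.le
    exact (pow_le_pow_iff_left₀ h8 hEnn two_ne_zero).1 h7
  have hhh : ∀ d, 0 ≤ hh d := fun d => Finset.prod_nonneg fun p _ => by positivity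
  have hlog2 : Real.log ((y ^ 2 : ℕ) : ℝ) = 2 * Real.log y := by
    push_cast
    rw [Real.log_pow]
    norm_num
  have hprX : (0 : ℝ) ≤ pr X := by positivity
  have hT3 : ∑ d ∈ Icc 1 D, ∑ b ∈ range Q,
      (C2 * (pr X / Q) * (Real.log ((y ^ 2 : ℕ) : ℝ) / Real.log X) ^ 2 * hh d) *
        |GG X j d w (FB y) ((b : ℕ) : ℤ)| ≤
      C2 * pr X * (2 * Real.log y / Real.log X) ^ 2 * E * ∑ d ∈ Icc 1 D, hh d := by
    rw [Finset.mul_sum]
    refine Finset.sum_le_sum fun d _ => ?_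
    rw [← Finset.mul_sum, hlog2]
    have e1 : C2 * (pr X / Q) * (2 * Real.log y / Real.log X) ^ 2 * hh d *
        ∑ b ∈ range Q, |GG X j d w (FB y) ((b : ℕ) : ℤ)| =
        C2 * pr X * (2 * Real.log y / Real.log X) ^ 2 * hh d *
          ((∑ b ∈ range Q, |GG X j d w (FB y) ((b : ℕ) : ℤ)|) / Q) := by
      field_simp
    rw [e1]
    have e2 : C2 * pr X * (2 * Real.log y / Real.log X) ^ 2 * E * hh d =
        C2 * pr X * (2 * Real.log y / Real.log X) ^ 2 * hh d * E := by ring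
    rw [e2]
    refine mul_le_mul_of_nonneg_left (hmean d) ?_
    have := hhh d
    positivity
  have hT4 := hP5 D
  have hT5 := (hP1 X hX2').2
  have hfin : C2 * pr X * (2 * Real.log y / Real.log X) ^ 2 * E * ∑ d ∈ Icc 1 D, hh d ≤
      C2 * (C1 * X * Real.log X) * (2 * Real.log y / Real.log X) ^ 2 * E * (C5 * D) := by
    have hC10 : 0 ≤ C1 := by linarith
    have hC20 : 0 ≤ C2 := by linarith
    refine mul_le_mul ?_ hT4 (Finset.sum_nonneg fun d _ => hhh d) (by positivity)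
    gcongr
  refine (hT1.trans hT2).trans (hT3.trans (hfin.trans (le_of_eq ?_)))
  rw [← ht, hts, ← hv, hE]
  have hDt : (D : ℝ) = t * Real.log X := by
    rw [ht]
    field_simp
  rw [hDt]
  field_simp
  ring

end Pool.Agent.Lib.H16X
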