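import Pool.Agent.Lib.H16X.D
import Pool.Agent.Lib.H16X.M2

/-!
# H16X: diagonal term at scale y
-/

set_option linter.unusedVariables false

namespace Pool.Agent.Lib.H16X

open Finset Pool.Agent.Lib.Sieve

private theorem B8_nu (T : Finset ℕ) (a : ℤ) (hT : ∀ p ∈ T, p.Prime) : |nu T a| ≤ (VV T)⁻¹ := by
  unfold nu VV
  rw [Finset.abs_prod, ← Finset.prod_inv_distrib]
  refine Finset.prod_le_prod (fun p _ => abs_nonneg _) (fun p hp => ?_)
  have h2 : (2 : ℝ) ≤ p := by exact_mod_cast (hT p hp).two_le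
  have h1 : 0 ≤ (1 - 1 / (p : ℝ))⁻¹ := by
    refine inv_nonneg.2 (sub_nonneg.2 ?_)
    rw [div_le_one (by linarith)]
    linarith
  split_ifs
  · rw [abs_zero]
    exact h1
  · rw [abs_of_nonneg h1]

/-- The diagonal term at scale `y`.

Proof. `|nu T a| ≤ (VV T)⁻¹`, so by `M2` `|FB y a| ≤ (C log y) (C log y² + 1) ≤ C' (log y)²`; `TT X f 0 = Σ_{m,k < X} (f m k)²`
with `|f m k| ≤ |FB y (..)|`. -/
theorem B8 : ∃ C : ℝ, 1 ≤ C ∧ ∀ X y : ℕ, yy 0 ≤ y → ∀ α β : ℕ → ℝ, (∀ m, |α m| ≤ 1) →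
    (∀ k, |β k| ≤ 1) → |TT X (ff α β (FB y)) 0| ≤ C * (X : ℝ) ^ 2 * (Real.log y) ^ 4 := by
  obtain ⟨C, hC, -, hM⟩ := M2
  refine ⟨9 * C ^ 4, ?_, ?_⟩
  · have h1 : (1 : ℝ) ≤ C ^ 4 := one_le_pow₀ hC
    linarith
  intro X y hy α β hα hβ
  have hyy : yy 0 = 2 ^ 32 := by
    unfold yy uu
    norm_num
  have hy32 : 2 ^ 32 ≤ y := by rw [← hyy]; exact hy
  have hy2 : 2 ≤ y := le_trans (by norm_num) hy32
  have hyR : (2 : ℝ) ^ 32 ≤ (y : ℝ) := by exact_mod_cast hy32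
  have hL : 1 ≤ Real.log y := by
    have h1 : Real.log ((2 : ℝ) ^ 32) ≤ Real.log y := Real.log_le_log (by positivity) hyR
    rw [Real.log_pow] at h1
    have h2 := Real.log_two_gt_d9
    push_cast at h1
    linarith
  have hysq : y ≤ y ^ 2 := Nat.le_self_pow two_ne_zero y
  have h1 := hM y (sprimes (yy 0) y) hy2 (fun p hp => by
    rw [mem_sprimes] at hp
    exact ⟨hp.1, hp.2.2⟩)
  have h2 := hM (y ^ 2) (sprimes y (y ^ 2)) (hy2.trans hysq) (fun p hp => by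
    rw [mem_sprimes] at hp
    exact ⟨hp.1, hp.2.2⟩)
  have hlog2 : Real.log ((y ^ 2 : ℕ) : ℝ) = 2 * Real.log y := by
    rw [Nat.cast_pow, Real.log_pow]
    norm_num
  rw [hlog2] at h2
  have hCL : 1 ≤ C * Real.log y := one_le_mul_of_one_le_of_one_le hC hL
  have hFB : ∀ a : ℤ, |FB y a| ≤ 3 * C ^ 2 * Real.log y ^ 2 := by
    intro a
    unfold FB
    rw [abs_mul]
    have e1 : |nu (sprimes (yy 0) y) a| ≤ C * Real.log y :=
      (B8_nu _ a (fun p hp => (mem_sprimes.1 hp).1)).trans h1.2.2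
    have e2 : |nu (sprimes y (y ^ 2)) a| ≤ C * (2 * Real.log y) :=
      (B8_nu _ a (fun p hp => (mem_sprimes.1 hp).1)).trans h2.2.2
    have e3 : |nu (sprimes y (y ^ 2)) a - 1| ≤ 3 * (C * Real.log y) := by
      refine (abs_sub _ _).trans ?_
      rw [abs_one]
      linarith
    calc |nu (sprimes (yy 0) y) a| * |nu (sprimes y (y ^ 2)) a - 1|
        ≤ (C * Real.log y) * (3 * (C * Real.log y)) :=
          mul_le_mul e1 e3 (abs_nonneg _) (by linarith)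
      _ = 3 * C ^ 2 * Real.log y ^ 2 := by ring
  have hff : ∀ m k : ℕ, |ff α β (FB y) m k| ≤ 3 * C ^ 2 * Real.log y ^ 2 := by
    intro m k
    unfold ff
    rw [abs_mul, abs_mul]
    calc |α m| * |β k| * |FB y (2 * (pr m : ℤ) - (pr k : ℤ))| ≤ 1 * 1 * (3 * C ^ 2 * Real.log y ^ 2) :=
          mul_le_mul (mul_le_mul (hα m) (hβ k) (abs_nonneg _) zero_le_one) (hFB _) (abs_nonneg _) (by norm_num)
      _ = 3 * C ^ 2 * Real.log y ^ 2 := by ring
  unfold TT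
  calc |∑ m ∈ range X, ∑ k ∈ range X, ff α β (FB y) (m + 0) k * ff α β (FB y) m (k + 0)|
      ≤ ∑ m ∈ range X, ∑ k ∈ range X, (3 * C ^ 2 * Real.log y ^ 2) * (3 * C ^ 2 * Real.log y ^ 2) := by
        refine (Finset.abs_sum_le_sum_abs _ _).trans (Finset.sum_le_sum fun m _ => ?_)
        refine (Finset.abs_sum_le_sum_abs _ _).trans (Finset.sum_le_sum fun k _ => ?_)
        rw [abs_mul]
        exact mul_le_mul (hff _ _) (hff _ _) (abs_nonneg _) (by positivity)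
    _ = 9 * C ^ 4 * (X : ℝ) ^ 2 * Real.log y ^ 4 := by
        rw [Finset.sum_const, Finset.sum_const, Finset.card_range, nsmul_eq_mul, nsmul_eq_mul]
        ring

end Pool.Agent.Lib.H16X
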