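import Pool.Agent.Lib.H16X.D
import Pool.Agent.Lib.H16X.V1
import Pool.Agent.Lib.H16X.B7
import Pool.Agent.Lib.H16X.B8

/-!
# H16X: mean square at scale i
-/

set_option linter.unusedVariables false

namespace Pool.Agent.Lib.H16X

open Finset Pool.Agent.Lib.Sieve

/-- The mean square over the antidiagonals at scale `i`.

Proof. Put `u = uu i ≥ 2`, `y = yy i = u^32`, `y^2 = yy (i+1)`, `L = u^2`, `D = ⌈C1 u^3 log X⌉` (so `log X ≤ D ≤ 2 C1 u³ log X`,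
and `D ≤ X`, since `u^64 ≤ log X / 16`). `Gap L D` follows from the hypotheses. `V1` with `f = ff α β (FB y)`
(`Sq X f` holds): `Σ_s (AD f s)² ≤ ((X + L)/L) (|TT 0| + 2 L max_{1 ≤ j < L} |TT j|)`, `(X+L)/L ≤ 2X/L`. By `B8`, `B7`
this is `≤ (2X/L) C X² (log y)^4 + 4 X C X² (log y)^4 (2 C1 u³)^(3/2) / u^8 ≤ C' X³ (log u)^4 (u^(-2) + u^(9/2 - 8))`, and
`(log u)^4 ≤ C u`. -/
theorem B9 (C1 : ℝ) (hC1 : 1 ≤ C1) : ∃ C : ℝ, 1 ≤ C ∧ ∃ X0 : ℕ, ∀ X : ℕ, X0 ≤ X → ∀ i : ℕ,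
    (yy (i + 1) : ℝ) ≤ Real.log X / 16 → ∀ α β : ℕ → ℝ, (∀ m, |α m| ≤ 1) → (∀ k, |β k| ≤ 1) →
    (∀ m, α m ≠ 0 → m < X ∧ Real.sqrt X < pr m) → (∀ k, β k ≠ 0 → k < X) →
    Gap (uu i ^ 2) (C1 * (uu i : ℝ) ^ 3 * Real.log X) α →
    Gap (uu i ^ 2) (C1 * (uu i : ℝ) ^ 3 * Real.log X) β →
    ∑ s ∈ range (2 * X), (AD (ff α β (FB (yy i))) s) ^ 2 ≤ C * (X : ℝ) ^ 3 / uu i := by
  obtain ⟨C7, hC7, X7, h7⟩ := B7
  obtain ⟨C8, hC8, h8⟩ := B8
  obtain ⟨B, hB⟩ : ∃ B : ℝ, B = 32 ^ 4 * 256 := ⟨_, rfl⟩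
  have hB1 : 1 ≤ B := by
    rw [hB]
    norm_num
  have hC1sq : 1 ≤ (2 * C1) ^ 2 := by
    have : (1 : ℝ) ≤ 2 * C1 := by linarith
    exact one_le_pow₀ this
  refine ⟨2 * B * (C8 + 2 * C7 * (2 * C1) ^ 2), ?_, max X7 (max 3 ⌈(32 * C1) ^ 2⌉₊), ?_⟩
  · have e1 : 1 ≤ C8 + 2 * C7 * (2 * C1) ^ 2 := by
      have : 0 ≤ 2 * C7 * (2 * C1) ^ 2 := by positivity
      linarith
    have e2 : (1 : ℝ) * 1 ≤ 2 * B * (C8 + 2 * C7 * (2 * C1) ^ 2) :=
      mul_le_mul (by linarith) e1 zero_le_one (by linarith)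
    linarith
  intro X hX i hi α β hα hβ hα0 hβ0 hGα hGβ
  have hX7 : X7 ≤ X := (le_max_left _ _).trans hX
  have hX3 : 3 ≤ X := (le_max_left _ _).trans ((le_max_right _ _).trans hX)
  have hX32 : (32 * C1) ^ 2 ≤ (X : ℝ) :=
    Nat.ceil_le.1 ((le_max_right _ _).trans ((le_max_right _ _).trans hX))
  have hX3' : (3 : ℝ) ≤ X := by exact_mod_cast hX3
  have hX0 : (0 : ℝ) < X := by linarith
  obtain ⟨l, hl⟩ : ∃ l : ℝ, l = Real.log X := ⟨_, rfl⟩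
  have hl1 : 1 ≤ l := by
    rw [hl, Real.le_log_iff_exp_le hX0]
    have := Real.exp_one_lt_d9
    linarith
  -- `2 C1 l² ≤ X`
  have hlX : 2 * C1 * l ^ 2 ≤ X := by
    have e1 : l ≤ 4 * (X : ℝ) ^ (1 / 4 : ℝ) := by
      have := Real.log_le_rpow_div hX0.le (by norm_num : (0 : ℝ) < 1 / 4)
      rw [hl]
      linarith
    have e2 : ((X : ℝ) ^ (1 / 4 : ℝ)) ^ 2 = Real.sqrt X := by
      rw [Real.sqrt_eq_rpow, ← Real.rpow_natCast, ← Real.rpow_mul hX0.le]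
      norm_num
    have e3 : l ^ 2 ≤ 16 * Real.sqrt X := by
      calc l ^ 2 ≤ (4 * (X : ℝ) ^ (1 / 4 : ℝ)) ^ 2 := pow_le_pow_left₀ (by linarith) e1 2
        _ = _ := by
          rw [mul_pow, e2]
          norm_num
    have e4 : 32 * C1 ≤ Real.sqrt X := Real.le_sqrt_of_sq_le hX32
    have e5 : Real.sqrt X * Real.sqrt X = X := Real.mul_self_sqrt hX0.le
    calc 2 * C1 * l ^ 2 ≤ 2 * C1 * (16 * Real.sqrt X) :=
          mul_le_mul_of_nonneg_left e3 (by linarith)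
      _ = 32 * C1 * Real.sqrt X := by ring
      _ ≤ Real.sqrt X * Real.sqrt X := mul_le_mul_of_nonneg_right e4 (Real.sqrt_nonneg _)
      _ = X := e5
  have hlX' : l ≤ X := by
    have e1 : l ≤ l ^ 2 := le_self_pow₀ hl1 (by norm_num)
    have e2 : l ^ 2 ≤ 2 * C1 * l ^ 2 := le_mul_of_one_le_left (by positivity) (by linarith)
    linarith
  rw [← hl] at hGα hGβ hi
  have hu2 := uu_ge i
  obtain ⟨v, hv⟩ : ∃ v : ℝ, v = (uu i : ℝ) := ⟨_, rfl⟩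
  rw [← hv] at hGα hGβ ⊢
  have hv2 : 2 ≤ v := by
    rw [hv]
    exact_mod_cast hu2
  have hv0 : 0 < v := by linarith
  have hv1 : 1 ≤ v := by linarith
  have hyv : (yy i : ℝ) = v ^ 32 := by
    unfold yy
    rw [Nat.cast_pow, hv]
  have hyv' : (yy (i + 1) : ℝ) = (yy i : ℝ) ^ 2 := by
    rw [yy_succ, Nat.cast_pow]
  have hy0 : yy 0 ≤ yy i := by
    unfold yy
    refine Nat.pow_le_pow_left ?_ 32
    have : uu 0 = 2 := by
      unfold uu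
      norm_num
    rw [this]
    exact hu2
  have hy2 : (yy i : ℝ) ^ 2 ≤ l / 16 := by
    rw [← hyv']
    exact hi
  have hv64 : v ^ 64 ≤ l := by
    have : v ^ 64 = (yy i : ℝ) ^ 2 := by
      rw [hyv, ← pow_mul]
    rw [this]
    linarith
  have hv3l : v ^ 3 ≤ l := (pow_le_pow_right₀ hv1 (by norm_num)).trans hv64
  have hv2l : v ^ 2 ≤ l := (pow_le_pow_right₀ hv1 (by norm_num)).trans hv64
  obtain ⟨x, hx⟩ : ∃ x : ℝ, x = C1 * v ^ 3 * l := ⟨_, rfl⟩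
  rw [← hx] at hGα hGβ
  have hv31 : 1 ≤ v ^ 3 := one_le_pow₀ hv1
  have hC1v : 1 ≤ C1 * v ^ 3 := one_le_mul_of_one_le_of_one_le hC1 hv31
  have hlx : l ≤ x := by
    rw [hx]
    exact le_mul_of_one_le_left (by linarith) hC1v
  have hxD : x ≤ (⌈x⌉₊ : ℝ) := Nat.le_ceil x
  have hD2 : (⌈x⌉₊ : ℝ) ≤ 2 * x := by
    have := Nat.ceil_lt_add_one (by linarith : 0 ≤ x)
    linarith
  have hDX : ⌈x⌉₊ ≤ X := by
    have e1 : (⌈x⌉₊ : ℝ) ≤ X := by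
      refine hD2.trans (le_trans ?_ hlX)
      rw [hx]
      have e2 : C1 * v ^ 3 * l ≤ C1 * l * l :=
        mul_le_mul_of_nonneg_right (mul_le_mul_of_nonneg_left hv3l (by linarith)) (by linarith)
      calc 2 * (C1 * v ^ 3 * l) ≤ 2 * (C1 * l * l) := by linarith
        _ = 2 * C1 * l ^ 2 := by ring
    exact_mod_cast e1
  have hgα : Gap (uu i ^ 2) (⌈x⌉₊ : ℝ) α := fun m j hj h => (hGα m j hj h).trans hxD
  have hgβ : Gap (uu i ^ 2) (⌈x⌉₊ : ℝ) β := fun m j hj h => (hGβ m j hj h).trans hxD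
  have hlD : Real.log X ≤ (⌈x⌉₊ : ℝ) := by
    rw [← hl]
    exact hlx.trans hxD
  have hSq : Sq X (ff α β (FB (yy i))) := by
    intro m k hmk
    unfold ff
    rcases hmk with h | h
    · have : α m = 0 := by
        by_contra hne
        exact absurd (hα0 m hne).1 (not_lt.2 h)
      rw [this, zero_mul, zero_mul]
    · have : β k = 0 := by
        by_contra hne
        exact absurd (hβ0 k hne) (not_lt.2 h)
      rw [this, mul_zero, zero_mul]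
  have hLv : ((uu i ^ 2 : ℕ) : ℝ) = v ^ 2 := by
    rw [Nat.cast_pow, hv]
  -- the logarithm of `y`
  have hlogy : (Real.log (yy i)) ^ 4 ≤ B * v := by
    have e1 : Real.log (yy i) = 32 * Real.log v := by
      rw [hyv, Real.log_pow]
      norm_num
    have e2 : Real.log v ≤ 4 * v ^ (1 / 4 : ℝ) := by
      have := Real.log_le_rpow_div hv0.le (by norm_num : (0 : ℝ) < 1 / 4)
      linarith
    have e3 : 0 ≤ Real.log v := Real.log_nonneg hv1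
    have e4 : (v ^ (1 / 4 : ℝ)) ^ 4 = v := by
      rw [← Real.rpow_natCast, ← Real.rpow_mul hv0.le]
      norm_num
    rw [e1, mul_pow]
    calc 32 ^ 4 * Real.log v ^ 4 ≤ 32 ^ 4 * (4 * v ^ (1 / 4 : ℝ)) ^ 4 :=
          mul_le_mul_of_nonneg_left (pow_le_pow_left₀ e3 e2 4) (by norm_num)
      _ = B * v := by
        rw [mul_pow, e4, hB]
        ring
  have hlogy0 : 0 ≤ (Real.log (yy i)) ^ 4 := by positivity
  have hy14 : (yy i : ℝ) ^ (1 / 4 : ℝ) = v ^ 8 := by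
    rw [hyv, ← Real.rpow_natCast v 32, ← Real.rpow_mul hv0.le, ← Real.rpow_natCast v 8]
    norm_num
  have hDl : ((⌈x⌉₊ : ℝ) / Real.log X) ^ (3 / 2 : ℝ) ≤ (2 * C1) ^ 2 * v ^ 5 := by
    rw [← hl]
    have e1 : (⌈x⌉₊ : ℝ) / l ≤ 2 * C1 * v ^ 3 := by
      rw [div_le_iff₀ (by linarith)]
      refine hD2.trans (le_of_eq ?_)
      rw [hx]
      ring
    have e2 : ((⌈x⌉₊ : ℝ) / l) ^ (3 / 2 : ℝ) ≤ (2 * C1 * v ^ 3) ^ (3 / 2 : ℝ) :=
      Real.rpow_le_rpow (by positivity) e1 (by norm_num)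
    refine e2.trans ?_
    rw [Real.mul_rpow (by linarith) (by positivity)]
    have e3 : (2 * C1) ^ (3 / 2 : ℝ) ≤ (2 * C1) ^ 2 := by
      rw [← Real.rpow_natCast (2 * C1) 2]
      exact Real.rpow_le_rpow_of_exponent_le (by linarith) (by norm_num)
    have e4 : (v ^ 3) ^ (3 / 2 : ℝ) ≤ v ^ 5 := by
      rw [← Real.rpow_natCast v 3, ← Real.rpow_mul hv0.le, ← Real.rpow_natCast v 5]
      exact Real.rpow_le_rpow_of_exponent_le hv1 (by norm_num)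
    exact mul_le_mul e3 e4 (by positivity) (by positivity)
  have h0 := h8 X (yy i) hy0 α β hα hβ
  have hj : ∀ j ∈ Ico 1 (uu i ^ 2), |TT X (ff α β (FB (yy i))) j| ≤
      C7 * (X : ℝ) ^ 2 * (B * v) * ((2 * C1) ^ 2 * v ^ 5) / v ^ 8 := by
    intro j hj
    rw [Finset.mem_Ico] at hj
    have e1 := h7 X hX7 (yy i) hy0 (by rw [← hl]; exact hy2) ⌈x⌉₊ hlD hDX (uu i ^ 2) j hj.1 hj.2
      α β hα hβ hα0 hβ0 hgα hgβ
    rw [hy14] at e1
    refine e1.trans ?_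
    refine div_le_div_of_nonneg_right ?_ (by positivity)
    refine mul_le_mul ?_ hDl (by positivity) (by positivity)
    exact mul_le_mul_of_nonneg_left hlogy (by positivity)
  have hsum : ∑ j ∈ Ico 1 (uu i ^ 2), |TT X (ff α β (FB (yy i))) j| ≤
      v ^ 2 * (C7 * (X : ℝ) ^ 2 * (B * v) * ((2 * C1) ^ 2 * v ^ 5) / v ^ 8) := by
    have e1 := Finset.sum_le_card_nsmul _ _ _ hj
    rw [nsmul_eq_mul, Nat.card_Ico] at e1
    refine e1.trans (mul_le_mul_of_nonneg_right ?_ (by positivity))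
    rw [← hLv]
    exact_mod_cast Nat.sub_le _ _
  have hV := V1 X (uu i ^ 2) (Nat.one_le_pow _ _ (by omega)) _ hSq
  rw [hLv] at hV
  refine hV.trans ?_
  have e1 : ((X : ℝ) + v ^ 2) / v ^ 2 ≤ 2 * X / v ^ 2 :=
    div_le_div_of_nonneg_right (by linarith) (by positivity)
  have e2 : |TT X (ff α β (FB (yy i))) 0| + 2 * ∑ j ∈ Ico 1 (uu i ^ 2),
      |TT X (ff α β (FB (yy i))) j| ≤ C8 * (X : ℝ) ^ 2 * (B * v) +
        2 * (v ^ 2 * (C7 * (X : ℝ) ^ 2 * (B * v) * ((2 * C1) ^ 2 * v ^ 5) / v ^ 8)) := by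
    refine add_le_add (h0.trans ?_) (mul_le_mul_of_nonneg_left hsum (by norm_num))
    exact mul_le_mul_of_nonneg_left hlogy (by positivity)
  have e3 : 0 ≤ |TT X (ff α β (FB (yy i))) 0| + 2 * ∑ j ∈ Ico 1 (uu i ^ 2),
      |TT X (ff α β (FB (yy i))) j| := by positivity
  refine (mul_le_mul e1 e2 e3 (by positivity)).trans ?_
  have e4 : 2 * (X : ℝ) / v ^ 2 * (C8 * (X : ℝ) ^ 2 * (B * v) +
        2 * (v ^ 2 * (C7 * (X : ℝ) ^ 2 * (B * v) * ((2 * C1) ^ 2 * v ^ 5) / v ^ 8))) =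
      2 * B * (C8 + 2 * C7 * (2 * C1) ^ 2 * (1 / v)) * (X : ℝ) ^ 3 / v := by
    field_simp
  rw [e4]
  refine div_le_div_of_nonneg_right ?_ hv0.le
  refine mul_le_mul_of_nonneg_right ?_ (by positivity)
  refine mul_le_mul_of_nonneg_left ?_ (by positivity)
  have e5 : 1 / v ≤ 1 := by
    rw [div_le_one hv0]
    exact hv1
  have e6 : 2 * C7 * (2 * C1) ^ 2 * (1 / v) ≤ 2 * C7 * (2 * C1) ^ 2 * 1 :=
    mul_le_mul_of_nonneg_left e5 (by positivity)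
  linarith

end Pool.Agent.Lib.H16X
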