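import Mathlib
import Pool.Agent.Lib.Sieve.Averages

/-!
# H16X: index sums of three-term progressions of primes (MP_f0e4fe_nt): definitions
-/

namespace Pool.Agent.Lib.H16X

open Finset Pool.Agent.Lib.Sieve

/-- the primes, `pr 0 = 2`, `pr 1 = 3`, ... -/
noncomputable def pr (i : ℕ) : ℕ := Nat.nth Nat.Prime i

/-- `∏_{p ∈ S} (1 - 1/p)` -/
noncomputable def VV (S : Finset ℕ) : ℝ := ∏ p ∈ S, (1 - 1 / (p : ℝ))

/-- normalised indicator of the integers without prime factor in `S` -/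
noncomputable def nu (S : Finset ℕ) (a : ℤ) : ℝ :=
  ∏ p ∈ S, if (p : ℤ) ∣ a then 0 else (1 - 1 / (p : ℝ))⁻¹

/-- `∏_{p ∣ d} (1 + 2/p)` -/
noncomputable def hh (d : ℕ) : ℝ := ∏ p ∈ d.primeFactors, (1 + 2 / (p : ℝ))

/-- the mean of `F` over the residues modulo `Q` -/
noncomputable def mn (Q : ℕ) (F : ℤ → ℝ) : ℝ := (∑ b ∈ range Q, F b) / Q

/-- `F` has period `Q` -/
def Per (Q : ℕ) (F : ℤ → ℝ) : Prop := ∀ a b : ℤ, (Q : ℤ) ∣ a - b → F a = F b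

/-- the product of the elements of `S` -/
def PP (S : Finset ℕ) : ℕ := ∏ p ∈ S, p

/-- sum over an antidiagonal -/
noncomputable def AD (f : ℕ → ℕ → ℝ) (s : ℕ) : ℝ := ∑ q ∈ antidiagonal s, f q.1 q.2

/-- correlation of `f` with its shift along the antidiagonal direction -/
noncomputable def TT (X : ℕ) (f : ℕ → ℕ → ℝ) (j : ℕ) : ℝ :=
  ∑ m ∈ range X, ∑ k ∈ range X, f (m + j) k * f m (k + j)

/-- `f` vanishes outside the square `[0, X)²` -/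
def Sq (X : ℕ) (f : ℕ → ℕ → ℝ) : Prop := ∀ m k, (X ≤ m ∨ X ≤ k) → f m k = 0

/-- the function `f(m, k) = α(m) β(k) Φ(2 p_m - p_k)` -/
noncomputable def ff (α β : ℕ → ℝ) (Φ : ℤ → ℝ) (m k : ℕ) : ℝ :=
  α m * β k * Φ (2 * (pr m : ℤ) - (pr k : ℤ))

/-- the inner sum, a function of the prime `n = p_m` and of the gap `d = p_(m+j) - p_m` -/
noncomputable def GG (X j d : ℕ) (w : ℕ → ℝ) (Φ : ℤ → ℝ) (n : ℤ) : ℝ :=
  ∑ k ∈ range X, w k * (Φ (2 * n - ((pr k : ℤ) - 2 * (d : ℤ))) * Φ (2 * n - (pr (k + j) : ℤ)))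

/-- the four shifts -/
noncomputable def sh (j d k k' : ℕ) : Fin 4 → ℤ :=
  ![(pr k : ℤ) - 2 * (d : ℤ), (pr (k + j) : ℤ), (pr k' : ℤ) - 2 * (d : ℤ), (pr (k' + j) : ℤ)]

/-- two of the four shifts coincide modulo `p` -/
def Coin (p : ℕ) (s : Fin 4 → ℤ) : Prop := ∃ i j : Fin 4, i ≠ j ∧ (p : ℤ) ∣ s i - s j

open Classical in
/-- the sum of `1/p` over the primes of `S` with a coincidence -/
noncomputable def cs (S : Finset ℕ) (s : Fin 4 → ℤ) : ℝ := ∑ p ∈ S with Coin p s, 1 / (p : ℝ)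

/-- the scales: `uu i = 2^(2^i)`, `yy i = (uu i)^32`, `yy (i+1) = (yy i)^2` -/
def uu (i : ℕ) : ℕ := 2 ^ 2 ^ i

def yy (i : ℕ) : ℕ := uu i ^ 32

/-- the function of scale `i`, `F_i = ν_{(y_0, y_i]} (ν_{(y_i, y_(i+1)]} - 1)`; here for general `y` -/
noncomputable def FB (y : ℕ) (a : ℤ) : ℝ :=
  nu (sprimes (yy 0) y) a * (nu (sprimes y (y ^ 2)) a - 1)

/-- gap condition: if `α (m + j) ≠ 0` and `j < L` then `p_(m+j) - p_m ≤ D` -/
def Gap (L : ℕ) (D : ℝ) (α : ℕ → ℝ) : Prop :=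
  ∀ m j : ℕ, j < L → α (m + j) ≠ 0 → ((pr (m + j) : ℝ) - (pr m : ℝ)) ≤ D

/-- integer logarithm -/
def lg (X : ℕ) : ℕ := Nat.log 2 X

/-- sieve weights of level `z ^ K` for the primes in `(6, z]` (dimension at most 2) -/
structure IsLam (K z : ℕ) (lam : Finset ℕ → ℝ) : Prop where
  abs_le : ∀ E, |lam E| ≤ 1
  empty : lam ∅ = 1
  supp : ∀ E, lam E ≠ 0 → E ⊆ sprimes 6 z ∧ PP E ≤ z ^ K
  maj : ∀ f : ℕ → ℝ, (∀ p, 0 ≤ f p ∧ f p ≤ 1) →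
    ∏ p ∈ sprimes 6 z, (1 - f p) ≤ ∑ E ∈ (sprimes 6 z).powerset, lam E * ∏ p ∈ E, f p
  main : ∀ g : ℕ → ℝ, (∀ p ∈ sprimes 6 z, 0 ≤ g p ∧ g p ≤ 2 / (p : ℝ)) →
    ∑ E ∈ (sprimes 6 z).powerset, lam E * ∏ p ∈ E, g p ≤ 2 * ∏ p ∈ sprimes 6 z, (1 - g p)

/-- `1` if `p ∣ a`, else `0` -/
noncomputable def dv (p : ℕ) (a : ℤ) : ℝ := if (p : ℤ) ∣ a then 1 else 0

/-- the mean value of the sieve weight restricted to the primes in `(Z, z]` -/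
noncomputable def MA (lam : Finset ℕ → ℝ) (Z z : ℕ) : ℝ :=
  ∑ E ∈ (sprimes Z z).powerset, lam E * ∏ p ∈ E, 1 / (p : ℝ)

/-- the normalised sieve weight with the primes in `(Z, z]` -/
noncomputable def nA (lam : Finset ℕ → ℝ) (Z z : ℕ) (a : ℤ) : ℝ :=
  (∑ E ∈ (sprimes Z z).powerset, lam E * ∏ p ∈ E, dv p a) / MA lam Z z

/-- the function of the last scale -/
noncomputable def FA (lam : Finset ℕ → ℝ) (Z z : ℕ) (B : Finset ℕ) (a : ℤ) : ℝ :=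
  nu B a * (nA lam Z z a - 1)

/-- `m` is good: the gaps before `p_m` are not too long, at all scales -/
def Good (C1 : ℝ) (X a m : ℕ) : Prop :=
  (∀ i : ℕ, (yy (i + 1) : ℝ) ≤ Real.log X / 16 → ∀ j < uu i ^ 2, j ≤ m →
    (pr m : ℝ) - (pr (m - j) : ℝ) ≤ C1 * (uu i : ℝ) ^ 3 * Real.log X) ∧
  ∀ j < lg X ^ a, j ≤ m → (pr m : ℝ) - (pr (m - j) : ℝ) ≤ (lg X : ℝ) ^ (a + 2)

theorem uu_succ (i : ℕ) : uu (i + 1) = uu i ^ 2 := by
  unfold uu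
  rw [← pow_mul, pow_succ]

theorem yy_succ (i : ℕ) : yy (i + 1) = yy i ^ 2 := by
  unfold yy
  rw [uu_succ, ← pow_mul, ← pow_mul]

theorem uu_ge (i : ℕ) : 2 ≤ uu i := by
  unfold uu
  calc 2 = 2 ^ 1 := by norm_num
    _ ≤ 2 ^ 2 ^ i := Nat.pow_le_pow_right (by norm_num) (Nat.one_le_two_pow)

theorem pr_prime (i : ℕ) : (pr i).Prime := Nat.prime_nth_prime i

theorem pr_strictMono : StrictMono pr := Nat.nth_strictMono Nat.infinite_setOfPred_prime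

theorem GG_sq (X j d : ℕ) (w : ℕ → ℝ) (Φ : ℤ → ℝ) (n : ℤ) :
    (GG X j d w Φ n) ^ 2 = ∑ k ∈ range X, ∑ k' ∈ range X, w k * w k' *
      ∏ i : Fin 4, Φ (2 * n - sh j d k k' i) := by
  unfold GG
  rw [sq, Finset.sum_mul_sum]
  refine Finset.sum_congr rfl fun k _ => Finset.sum_congr rfl fun k' _ => ?_
  simp only [sh, Fin.prod_univ_four, Matrix.cons_val_zero, Matrix.cons_val_one, Matrix.cons_val]
  ring

theorem TT_eq (X j : ℕ) (α β : ℕ → ℝ) (Φ : ℤ → ℝ) :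
    TT X (ff α β Φ) j = ∑ m ∈ range X, α (m + j) * α m *
      GG X j (pr (m + j) - pr m) (fun k => β k * β (k + j)) Φ (pr m) := by
  unfold TT GG ff
  refine Finset.sum_congr rfl fun m _ => ?_
  rw [Finset.mul_sum]
  refine Finset.sum_congr rfl fun k _ => ?_
  have h : pr m ≤ pr (m + j) := pr_strictMono.monotone (Nat.le_add_right m j)
  have e : 2 * ((pr m : ℕ) : ℤ) - ((pr k : ℤ) - 2 * ((pr (m + j) - pr m : ℕ) : ℤ))
      = 2 * (pr (m + j) : ℤ) - (pr k : ℤ) := by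
    push_cast [Nat.cast_sub h]
    ring
  rw [e]
  ring

end Pool.Agent.Lib.H16X
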