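import Pool.Agent.Lib.H16X.D
import Pool.Agent.Lib.H18GB.RCN

/-!
# H16X: relative cut norm estimate
-/

set_option linter.unusedVariables false

namespace Pool.Agent.Lib.H16X

open Finset Pool.Agent.Lib.Sieve

/-- Relative cut norm estimate for pairs of primes `x + y`, `x - y` (project GB), with `F` dominated by the primes `W x + b`.

Proof. Copy of the proof of `Pool.Agent.Lib.H18GB.rcn1` (file `Lib/H18GB/RCN.lean`, 60 lines), with `W * x + b` instead of
`2 * W * x + b`: in the call of `rcnc` use `Or.inr ⟨1, 1, b, b, ..⟩`; `bad N b W (rt s N)`. -/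
theorem F1 (ε : ℝ) (hε : 0 < ε) : ∃ w0 : ℕ, ∀ w W : ℕ, w0 ≤ w → H18GB.IsW w W → ∃ N0 : ℕ,
    ∀ N : ℕ, N0 ≤ N → ∀ (r1 r2 σ b : ℤ), |r1| < 2 * W → IsCoprime r1 (W : ℤ) → |r2| < 2 * W →
    IsCoprime r2 (W : ℤ) → (σ = 1 ∨ σ = -1) → |b| ≤ 4 * W → ∀ (F G : ℤ → ℝ),
    (∀ x, |F x| ≤ H18GB.lamv W (W * x + b)) → (∀ y, |G y| ≤ 1) →
    |∑ x ∈ Finset.Ico (0 : ℤ) N, ∑ y ∈ Finset.Ico (0 : ℤ) N, F x * G y * H18GB.ker W r1 r2 σ x y| ≤
      ε * N ^ 2 := by
  obtain ⟨C, hC, hmaj⟩ := H18GB.majo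
  obtain ⟨s, hs, w0, h⟩ := H18GB.rcnc C hC (ε / 2) (by positivity)
  refine ⟨w0, fun w W hw hW => ?_⟩
  obtain ⟨N1, hN1⟩ := h w W hw hW
  obtain ⟨N2, hN2⟩ := hmaj s (by omega) w W hW
  obtain ⟨N3, hN3⟩ := H18GB.removed_small W hW.1 (ε / 2) (by positivity)
  refine ⟨max (max N1 N2) (max N3 2), fun N hN r1 r2 σ b h1 h2 h3 h4 h5 hb F G hF hG => ?_⟩
  have hNa : N1 ≤ N := le_trans (le_trans (le_max_left _ _) (le_max_left _ _)) hN
  have hNb : N2 ≤ N := le_trans (le_trans (le_max_right _ _) (le_max_left _ _)) hN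
  have hNc : N3 ≤ N := le_trans (le_trans (le_max_left _ _) (le_max_right _ _)) hN
  have hNd : 2 ≤ N := le_trans (le_trans (le_max_right _ _) (le_max_right _ _)) hN
  have hWz : (1 : ℤ) ≤ W := by exact_mod_cast hW.1
  have hNz : (2 : ℤ) ≤ N := by exact_mod_cast hNd
  have hsz : (1 : ℝ) ≤ (s : ℝ) := by exact_mod_cast (by omega : 1 ≤ s)
  have hP : ∀ p ∈ sprimes w (H18GB.rt s N), p.Prime := (H18GB.pset_sprimes w (H18GB.rt s N)).prime
  have hv : ∀ x ∈ Finset.Ico (0 : ℤ) N, |W * x + b| ≤ 5 * W * N := by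
    intro x hx
    rw [Finset.mem_Ico] at hx
    rw [abs_le] at hb ⊢
    constructor <;> nlinarith
  set B := H18GB.bad N b W (H18GB.rt s N) with hBdef
  have hrem := H18GB.removal hW.1 (by omega : 0 < N) h1 h3 h5 F G hG B (fun x hx _ => by
    have a1 := hF x
    have a2 := H18GB.lamv_le hW.1 (by omega : 0 < N) (hv x hx)
    nlinarith [sq_nonneg (H18GB.LL W N - 1 / 2)])
  have hmain := hN1 N hNa r1 r2 σ h1 h2 h3 h4 h5
    (fun x => if x ∈ Finset.Ico (0 : ℤ) N ∧ x ∉ B then F x else 0) G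
    (fun x => H18GB.rho (sprimes w (H18GB.rt s N)) (1 * W * x + b) *
        H18GB.rho (sprimes w (H18GB.rt s N)) (1 * W * x + b) /
        H18GB.SGp (sprimes w (H18GB.rt s N)) (1 * W * b - 1 * W * b))
    (Or.inr ⟨1, 1, b, b, by norm_num, by norm_num, by norm_num, by norm_num, rfl⟩)
    (fun x => by
      rw [sub_self, H18GB.rho_sq hP, one_mul]
      have hr := H18GB.rho_nonneg hP (W * x + b)
      split_ifs with hx
      · have hx2 : (H18GB.rt s N : ℤ) < |W * x + b| := by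
          by_contra hcon
          apply hx.2
          rw [hBdef, H18GB.bad, Finset.mem_filter]
          refine ⟨hx.1, ?_⟩
          rw [not_lt] at hcon
          rwa [add_comm b]
        have a1 := hN2 N hNb _ (hv x hx.1) hx2
        refine (hF x).trans (a1.trans ?_)
        apply mul_le_mul_of_nonneg_right _ hr
        have hss : (s : ℝ) ≤ (s : ℝ) ^ 2 := by nlinarith
        exact mul_le_mul_of_nonneg_left hss (by linarith)
      · rw [abs_zero]; positivity)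
    hG
  have hcard : (B.card : ℝ) ≤ 4 * Real.sqrt N + 2 := by
    have c1 := H18GB.card_bad (N := N) (b := b) (c := W) (by positivity) (H18GB.rt s N)
    have c2 : (B.card : ℝ) ≤ 2 * H18GB.rt s N + 1 := by exact_mod_cast c1
    have c3 := H18GB.rt_sq_le hs N
    have c4 := Real.sqrt_nonneg (N : ℝ)
    linarith
  have hfin := hN3 N hNc
  have hlast : (B.card : ℝ) * (N * (H18GB.LL W N ^ 2 + 1) ^ 2) ≤
      (4 * Real.sqrt N + 2) * (N * (H18GB.LL W N ^ 2 + 1) ^ 2) :=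
    mul_le_mul_of_nonneg_right hcard (by positivity)
  linarith

end Pool.Agent.Lib.H16X
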