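import Pool.Agent.Lib.H16X.D
import Pool.Agent.Lib.H16X.F1
import Pool.Agent.Lib.H18GB.Pntl

/-!
# H16X: many progressions with a small first term
-/

set_option linter.unusedVariables false

namespace Pool.Agent.Lib.H16X

open Finset Pool.Agent.Lib.Sieve

open Pool.Agent.Lib in
private theorem F2_sumF {W : ℕ} (hW : 0 < W) {δ : ℝ} (hδ : 0 < δ) : ∃ M0 : ℕ, ∀ N : ℕ, M0 ≤ N →
    ∀ a : ℤ, 0 ≤ a → a ≤ N → (N : ℝ) - a - 2 * δ * N ≤ ∑ n ∈ Finset.Ico a (N : ℤ), H18GB.lam W 1 n := by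
  obtain ⟨M0, hM0⟩ := H18GB.pntlam W hW δ hδ
  refine ⟨M0, fun N hN a ha haN => ?_⟩
  have hW2 : |(1 : ℤ)| < 2 * (W : ℤ) := by
    rw [abs_one]
    have : (1 : ℤ) ≤ W := by exact_mod_cast hW
    linarith
  have h1 := hM0 N hN 1 hW2 isCoprime_one_left N (by positivity) le_rfl
  have h2 := hM0 N hN 1 hW2 isCoprime_one_left a ha haN
  have h3 : ∑ n ∈ Finset.Ico (0 : ℤ) N, H18GB.uu W 1 n =
      ∑ n ∈ Finset.Ico (0 : ℤ) a, H18GB.uu W 1 n + ∑ n ∈ Finset.Ico a (N : ℤ), H18GB.uu W 1 n := by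
    rw [← Finset.sum_union]
    · congr 1
      ext n
      simp only [Finset.mem_union, Finset.mem_Ico]
      omega
    · rw [Finset.disjoint_left]
      intro n hn hn'
      rw [Finset.mem_Ico] at hn hn'
      omega
  have h4 : ∑ n ∈ Finset.Ico a (N : ℤ), H18GB.uu W 1 n =
      ∑ n ∈ Finset.Ico a (N : ℤ), H18GB.lam W 1 n - ((N : ℝ) - a) := by
    simp only [H18GB.uu]
    rw [Finset.sum_sub_distrib, Finset.sum_const, Int.card_Ico, nsmul_eq_mul, mul_one]
    have h5 : (((N : ℤ) - a).toNat : ℝ) = (N : ℝ) - a := by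
      have h6 : (((N : ℤ) - a).toNat : ℤ) = (N : ℤ) - a := Int.toNat_of_nonneg (by linarith)
      have h7 : ((((N : ℤ) - a).toNat : ℤ) : ℝ) = (((N : ℤ) - a : ℤ) : ℝ) := by rw [h6]
      push_cast at h7
      exact_mod_cast h7
    rw [h5]
  have h6 := (abs_le.mp h1).1
  have h7 := (abs_le.mp h2).2
  rw [h3, h4] at h6
  linarith

open Pool.Agent.Lib in
private theorem F2_lamv_le {W : ℕ} (hW : 0 < W) {v : ℤ} {M : ℝ} (hM : 1 ≤ M) (hv : |(v : ℝ)| ≤ M) :
    H18GB.lamv W v ≤ Real.log M := by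
  unfold H18GB.lamv
  split_ifs with h
  · have h1 : (Nat.totient W / W : ℝ) ≤ 1 := by
      rw [div_le_one (by exact_mod_cast hW)]
      exact_mod_cast Nat.totient_le W
    have h2 : Real.log v.natAbs ≤ Real.log M := by
      refine Real.log_le_log (by exact_mod_cast h.pos) ?_
      have h3 : (v.natAbs : ℝ) = |(v : ℝ)| := by
        rw [← Int.cast_abs, Int.abs_eq_natAbs]
        simp
      rw [h3]
      exact hv
    have h3 : 0 ≤ Real.log v.natAbs := Real.log_natCast_nonneg _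
    nlinarith
  · exact Real.log_nonneg hM

/-- Many progressions `h, n, 2n - h` of primes with `n` near `x` and `h` small.

Proof. `ε = θ²/100`; `w`, `W = ∏_{p ≤ w} p` from `F1` (fixed, `IsW w W`). For large `x` put `N = ⌊(x-1)/W⌋`, `r1 = r2 = b = 1`,
`σ = 1`, `F x' = lamv W (W x' + 1)` for `x' ∈ [(1 - θ/4) N, N)`, `0` otherwise, `G y' = 1` for
`y' ∈ [(1 - θ/2) N, (1 - θ/4) N)`, `0` otherwise. On the support `x' > y'`, so
`ker = lamv W (1 + W (x'+y')) lamv W (1 + W (x'-y')) - 1`, and `F1` gives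
`Σ F(x') G(y') lamv(..) lamv(..) ≥ (Σ F) (Σ G) - ε N² ≥ c θ² N²`, where `Σ F ≥ (θ/4) N (1 - o(1))` by the prime number theorem
modulo the fixed `W` (file `Lib/H18GB/Pntl.lean`, or `Lib/PNT`), `Σ G ≥ (θ/4) N - 1`. Every non-zero term gives primes
`n = 1 + W x'`, `h = 1 + W (x' - y')`, `2n - h = 1 + W (x' + y')` with `(1 - θ) x ≤ n < x`, `h ≤ 1 + (θ/2) W N ≤ θ x`, and each
`lamv ≤ log (3x)`. The map `(x', y') ↦ (n, h)` is injective. -/
theorem F2 (θ : ℝ) (hθ : 0 < θ) (hθ1 : θ ≤ 1 / 4) : ∃ c : ℝ, 0 < c ∧ ∃ x0 : ℕ, ∀ x : ℕ, x0 ≤ x →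
    c * (x : ℝ) ^ 2 / (Real.log x) ^ 3 ≤
      (((range x ×ˢ range x).filter (fun q : ℕ × ℕ => q.1.Prime ∧ q.2.Prime ∧
        (1 - θ) * x ≤ (q.1 : ℝ) ∧ (q.2 : ℝ) ≤ θ * x ∧ (2 * q.1 - q.2).Prime)).card : ℝ) := by
  classical
  obtain ⟨w, hw⟩ := F1 (θ ^ 2 / 128) (by positivity)
  set W : ℕ := primorial w with hWdef
  have hW : 0 < W := primorial_pos w
  have hIsW : H18GB.IsW w W := ⟨hW, fun p hp => hp.dvd_primorial_iff⟩
  obtain ⟨N0, hN0⟩ := hw w W le_rfl hIsW
  obtain ⟨M0, hM0⟩ := F2_sumF hW (δ := θ / 32) (by positivity)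
  have hWr : (1 : ℝ) ≤ W := by exact_mod_cast hW
  refine ⟨θ ^ 2 / (4096 * W ^ 2), by positivity, ?_⟩
  -- the size of `x`
  obtain ⟨x0, hx0⟩ := exists_nat_gt ((N0 + M0 + 2 + 16 / θ) * W * 2 + 4 * W / θ + 4)
  refine ⟨x0, fun x hx => ?_⟩
  have hxr : (N0 + M0 + 2 + 16 / θ) * W * 2 + 4 * W / θ + 4 < (x : ℝ) :=
    lt_of_lt_of_le hx0 (by exact_mod_cast hx)
  have hθ16 : 0 < 16 / θ := by positivity
  have hWθ : 0 < 4 * (W : ℝ) / θ := by positivity
  have hx4 : (4 : ℝ) < x := by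
    have : 0 ≤ (N0 + M0 + 2 + 16 / θ) * W * 2 := by positivity
    linarith
  have hx4n : 4 < x := by exact_mod_cast hx4
  set N : ℕ := (x - 1) / W with hN
  have hNW : W * N ≤ x - 1 := Nat.mul_div_le _ _
  have hNW2 : x - 1 < W * (N + 1) := by
    rw [hN, Nat.mul_comm]
    exact Nat.lt_mul_of_div_lt (Nat.lt_succ_self _) hW
  have hNWr : (W : ℝ) * N ≤ x - 1 := by
    have h1 : ((W * N : ℕ) : ℝ) ≤ ((x - 1 : ℕ) : ℝ) := by exact_mod_cast hNW
    rw [Nat.cast_sub (by omega)] at h1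
    push_cast at h1
    exact h1
  have hNW2r : (x : ℝ) ≤ W * N + W := by
    have h1 : ((x : ℕ) : ℝ) ≤ ((W * (N + 1) : ℕ) : ℝ) := by
      exact_mod_cast (by omega : x ≤ W * (N + 1))
    push_cast at h1
    linarith
  have hNbig : N0 + M0 + 1 + 16 / θ ≤ (N : ℝ) := by
    by_contra hlt
    have hlt := not_le.mp hlt
    have h1 : (W : ℝ) * N ≤ W * (N0 + M0 + 1 + 16 / θ) :=
      mul_le_mul_of_nonneg_left hlt.le (by positivity)
    have h2 : (0 : ℝ) ≤ (N0 + M0 + 2 + 16 / θ) * W := by positivity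
    nlinarith
  have hNN0 : N0 ≤ N := by
    have : (N0 : ℝ) ≤ N := by
      have : (0 : ℝ) ≤ M0 := by positivity
      linarith
    exact_mod_cast this
  have hNM0 : M0 ≤ N := by
    have : (M0 : ℝ) ≤ N := by
      have : (0 : ℝ) ≤ N0 := by positivity
      linarith
    exact_mod_cast this
  have hN16 : 16 / θ ≤ (N : ℝ) := by
    have h1 : (0 : ℝ) ≤ M0 := by positivity
    have h2 : (0 : ℝ) ≤ N0 := by positivity
    linarith
  have hN1 : 0 ≤ (N : ℝ) := by positivity
  have hNθ : 16 ≤ θ * N := by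
    have := mul_le_mul_of_nonneg_left hN16 hθ.le
    rwa [mul_div_cancel₀ _ hθ.ne'] at this
  -- half size
  have hNx : (x : ℝ) ≤ 2 * W * N := by
    have h1 : (1 : ℝ) ≤ N := by
      have h1 : (0 : ℝ) ≤ M0 := by positivity
      have h2 : (0 : ℝ) ≤ N0 := by positivity
      linarith
    nlinarith
  -- the weights
  set F : ℤ → ℝ := fun a => if (1 - θ / 4) * N ≤ (a : ℝ) ∧ a < N then H18GB.lamv W (W * a + 1) else 0
    with hF
  set G : ℤ → ℝ := fun a => if (1 - θ / 2) * N ≤ (a : ℝ) ∧ (a : ℝ) < (1 - θ / 4) * N then 1 else 0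
    with hG
  have hF0 : ∀ a, 0 ≤ F a := by
    intro a
    simp only [hF]
    split_ifs
    · exact H18GB.lamv_nonneg _ _
    · exact le_rfl
  have hG0 : ∀ a, 0 ≤ G a := by
    intro a
    simp only [hG]
    split_ifs <;> norm_num
  have hG1 : ∀ a, G a ≤ 1 := by
    intro a
    simp only [hG]
    split_ifs <;> norm_num
  have hW2 : |(1 : ℤ)| < 2 * (W : ℤ) := by
    rw [abs_one]
    have : (1 : ℤ) ≤ W := by exact_mod_cast hW
    linarith
  have hW4 : |(1 : ℤ)| ≤ 4 * (W : ℤ) := by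
    rw [abs_one]
    have : (1 : ℤ) ≤ W := by exact_mod_cast hW
    linarith
  have hmain := hN0 N hNN0 1 1 1 1 hW2 isCoprime_one_left hW2 isCoprime_one_left (Or.inl rfl) hW4 F G
    (fun a => by
      rw [abs_of_nonneg (hF0 a)]
      simp only [hF]
      split_ifs
      · exact le_rfl
      · exact H18GB.lamv_nonneg _ _)
    (fun a => by
      rw [abs_of_nonneg (hG0 a)]
      exact hG1 a)
  set I : Finset ℤ := Finset.Ico (0 : ℤ) N with hI
  set t : ℤ → ℤ → ℝ := fun a b => F a * G b * (H18GB.lam W 1 (a + b) * H18GB.lam W 1 (a - b)) with ht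
  have hker : ∀ a b : ℤ, F a * G b * H18GB.ker W 1 1 1 a b = t a b - F a * G b := by
    intro a b
    simp only [ht]
    by_cases hFa : F a = 0
    · rw [hFa]; ring
    by_cases hGb : G b = 0
    · rw [hGb]; ring
    have h1 : (1 - θ / 4) * N ≤ (a : ℝ) := by
      by_contra h
      exact hFa (by simp only [hF]; rw [if_neg (fun h' => h h'.1)])
    have h2 : (b : ℝ) < (1 - θ / 4) * N := by
      by_contra h
      exact hGb (by simp only [hG]; rw [if_neg (fun h' => h h'.2)])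
    have h3 : b < a := by exact_mod_cast h2.trans_le h1
    unfold H18GB.ker
    rw [if_pos (by rw [one_mul]; linarith), one_mul]
    ring
  -- the sums of the weights
  set a0 : ℤ := ⌈(1 - θ / 4) * (N : ℝ)⌉ with ha0
  have ha0r : (1 - θ / 4) * (N : ℝ) ≤ a0 := Int.le_ceil _
  have ha0r2 : (a0 : ℝ) < (1 - θ / 4) * N + 1 := Int.ceil_lt_add_one _
  have ha00 : 0 ≤ a0 := by
    have : (0 : ℝ) ≤ (a0 : ℝ) := le_trans (mul_nonneg (by linarith) hN1) ha0r
    exact_mod_cast this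
  have ha0N : a0 ≤ N := by
    have : (a0 : ℝ) < (N : ℝ) + 1 := by nlinarith
    have : a0 < (N : ℤ) + 1 := by exact_mod_cast this
    omega
  have hsumF : θ * N / 8 ≤ ∑ a ∈ I, F a := by
    have h1 := hM0 N hNM0 a0 ha00 ha0N
    have h2 : ∑ a ∈ Finset.Ico a0 (N : ℤ), H18GB.lam W 1 a ≤ ∑ a ∈ I, F a := by
      have h3 : ∑ a ∈ Finset.Ico a0 (N : ℤ), H18GB.lam W 1 a = ∑ a ∈ Finset.Ico a0 (N : ℤ), F a := by
        refine Finset.sum_congr rfl fun a ha => ?_
        rw [Finset.mem_Ico] at ha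
        have h4 : (1 - θ / 4) * N ≤ (a : ℝ) := ha0r.trans (by exact_mod_cast ha.1)
        simp only [hF]
        rw [if_pos ⟨h4, ha.2⟩]
        unfold H18GB.lam
        rw [add_comm]
      rw [h3]
      refine Finset.sum_le_sum_of_subset_of_nonneg ?_ fun a _ _ => hF0 a
      intro a ha
      rw [hI]
      rw [Finset.mem_Ico] at ha ⊢
      exact ⟨ha00.trans ha.1, ha.2⟩
    have h5 : θ * N / 8 ≤ (N : ℝ) - a0 - 2 * (θ / 32) * N := by nlinarith
    linarith
  have hsumG : θ * N / 8 ≤ ∑ b ∈ I, G b := by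
    set b0 : ℤ := ⌈(1 - θ / 2) * (N : ℝ)⌉ with hb0
    have hb0r : (1 - θ / 2) * (N : ℝ) ≤ b0 := Int.le_ceil _
    have hb0r2 : (b0 : ℝ) < (1 - θ / 2) * N + 1 := Int.ceil_lt_add_one _
    have hb00 : 0 ≤ b0 := by
      have : (0 : ℝ) ≤ (b0 : ℝ) := le_trans (mul_nonneg (by linarith) hN1) hb0r
      exact_mod_cast this
    have h1 : ∑ b ∈ Finset.Ico b0 a0, (1 : ℝ) ≤ ∑ b ∈ I, G b := by
      have h2 : ∑ b ∈ Finset.Ico b0 a0, (1 : ℝ) = ∑ b ∈ Finset.Ico b0 a0, G b := by
        refine Finset.sum_congr rfl fun b hb => ?_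
        rw [Finset.mem_Ico] at hb
        have h4 : (1 - θ / 2) * N ≤ (b : ℝ) := hb0r.trans (by exact_mod_cast hb.1)
        have h5 : (b : ℝ) < (1 - θ / 4) * N := Int.lt_ceil.mp hb.2
        simp only [hG]
        rw [if_pos ⟨h4, h5⟩]
      rw [h2]
      refine Finset.sum_le_sum_of_subset_of_nonneg ?_ fun a _ _ => hG0 a
      intro b hb
      rw [hI]
      rw [Finset.mem_Ico] at hb ⊢
      exact ⟨hb00.trans hb.1, lt_of_lt_of_le hb.2 ha0N⟩
    have h3 : ∑ b ∈ Finset.Ico b0 a0, (1 : ℝ) = ((a0 - b0).toNat : ℝ) := by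
      rw [Finset.sum_const, Int.card_Ico, nsmul_eq_mul, mul_one]
    have h4 : ((a0 - b0 : ℤ) : ℝ) ≤ ((a0 - b0).toNat : ℝ) := by
      exact_mod_cast Int.self_le_toNat (a0 - b0)
    push_cast at h4
    have h5 : θ * N / 8 ≤ (a0 : ℝ) - b0 := by nlinarith
    linarith
  have hprod : θ ^ 2 / 64 * N ^ 2 ≤ (∑ a ∈ I, F a) * ∑ b ∈ I, G b := by
    have h1 : (θ * N / 8) * (θ * N / 8) ≤ (∑ a ∈ I, F a) * ∑ b ∈ I, G b :=
      mul_le_mul hsumF hsumG (by positivity) ((by positivity : (0 : ℝ) ≤ θ * N / 8).trans hsumF)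
    calc θ ^ 2 / 64 * (N : ℝ) ^ 2 = (θ * N / 8) * (θ * N / 8) := by ring
      _ ≤ _ := h1
  have hT : θ ^ 2 / 128 * N ^ 2 ≤ ∑ a ∈ I, ∑ b ∈ I, t a b := by
    have h1 : ∑ a ∈ I, ∑ b ∈ I, F a * G b * H18GB.ker W 1 1 1 a b =
        ∑ a ∈ I, ∑ b ∈ I, t a b - (∑ a ∈ I, F a) * ∑ b ∈ I, G b := by
      rw [Finset.sum_mul_sum, ← Finset.sum_sub_distrib]
      refine Finset.sum_congr rfl fun a _ => ?_
      rw [← Finset.sum_sub_distrib]
      exact Finset.sum_congr rfl fun b _ => hker a b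
    rw [h1] at hmain
    have h2 := (abs_le.mp hmain).1
    have h3 : θ ^ 2 / 64 * (N : ℝ) ^ 2 = θ ^ 2 / 128 * N ^ 2 + θ ^ 2 / 128 * N ^ 2 := by ring
    linarith
  -- the pairs
  set S := (I ×ˢ I).filter (fun q : ℤ × ℤ => t q.1 q.2 ≠ 0) with hS
  set Lg : ℝ := Real.log x with hLg
  have hLpos : 0 < Lg := Real.log_pos (by linarith)
  have hWx : ∀ a ∈ I, (W : ℝ) * a ≤ x - 1 := by
    intro a ha
    rw [hI, Finset.mem_Ico] at ha
    have h1 : (a : ℝ) ≤ N := by exact_mod_cast ha.2.le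
    have h2 : (W : ℝ) * a ≤ W * N := mul_le_mul_of_nonneg_left h1 (by positivity)
    linarith
  have hWx0 : ∀ a ∈ I, 0 ≤ (W : ℝ) * a := by
    intro a ha
    rw [hI, Finset.mem_Ico] at ha
    have h1 : (0 : ℝ) ≤ a := by exact_mod_cast ha.1
    positivity
  have hlog2 : Real.log (2 * x) ≤ 2 * Lg := by
    have h1 : 2 * Lg = Real.log ((x : ℝ) ^ 2) := by
      rw [Real.log_pow]
      push_cast
      ring
    rw [h1]
    refine Real.log_le_log (by linarith) ?_
    nlinarith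
  have htle : ∀ a ∈ I, ∀ b ∈ I, t a b ≤ (2 * Lg) ^ 3 := by
    intro a ha b hb
    have ha1 := hWx a ha
    have ha2 := hWx0 a ha
    have hb1 := hWx b hb
    have hb2 := hWx0 b hb
    have e1 : F a ≤ 2 * Lg := by
      simp only [hF]
      split_ifs
      · refine (F2_lamv_le hW (M := 2 * x) (by linarith) ?_).trans hlog2
        push_cast
        rw [abs_of_nonneg (by linarith)]
        linarith
      · positivity
    have e2 : H18GB.lam W 1 (a + b) ≤ 2 * Lg := by
      refine (F2_lamv_le hW (M := 2 * x) (by linarith) ?_).trans hlog2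
      push_cast
      rw [abs_le]
      constructor <;> nlinarith
    have e3 : H18GB.lam W 1 (a - b) ≤ 2 * Lg := by
      refine (F2_lamv_le hW (M := 2 * x) (by linarith) ?_).trans hlog2
      push_cast
      rw [abs_le]
      constructor <;> nlinarith
    have n2 : 0 ≤ H18GB.lam W 1 (a + b) := H18GB.lam_nonneg _ _ _
    have n3 : 0 ≤ H18GB.lam W 1 (a - b) := H18GB.lam_nonneg _ _ _
    have h1 : F a * G b ≤ 2 * Lg := by
      calc F a * G b ≤ F a * 1 := mul_le_mul_of_nonneg_left (hG1 b) (hF0 a)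
        _ ≤ 2 * Lg := by rw [mul_one]; exact e1
    have h2 : H18GB.lam W 1 (a + b) * H18GB.lam W 1 (a - b) ≤ (2 * Lg) * (2 * Lg) :=
      mul_le_mul e2 e3 n3 (by positivity)
    calc t a b = F a * G b * (H18GB.lam W 1 (a + b) * H18GB.lam W 1 (a - b)) := rfl
      _ ≤ (2 * Lg) * ((2 * Lg) * (2 * Lg)) :=
        mul_le_mul h1 h2 (mul_nonneg n2 n3) (by positivity)
      _ = (2 * Lg) ^ 3 := by ring
  have hcardS : θ ^ 2 / 128 * N ^ 2 ≤ S.card * (2 * Lg) ^ 3 := by
    refine hT.trans ?_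
    rw [← Finset.sum_product', ← Finset.sum_filter_ne_zero, ← nsmul_eq_mul]
    refine Finset.sum_le_card_nsmul _ _ _ fun q hq => ?_
    have hq' := (Finset.mem_filter.mp hq).1
    rw [Finset.mem_product] at hq'
    exact htle q.1 hq'.1 q.2 hq'.2
  set R := (range x ×ˢ range x).filter (fun q : ℕ × ℕ => q.1.Prime ∧ q.2.Prime ∧
        (1 - θ) * x ≤ (q.1 : ℝ) ∧ (q.2 : ℝ) ≤ θ * x ∧ (2 * q.1 - q.2).Prime) with hR
  have hSR : S.card ≤ R.card := by
    refine Finset.card_le_card_of_injOn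
      (fun q : ℤ × ℤ => (((W : ℤ) * q.1 + 1).toNat, ((W : ℤ) * (q.1 - q.2) + 1).toNat)) ?_ ?_
    · rintro ⟨a, b⟩ hq
      have hq2 : (a, b) ∈ S := hq
      rw [hS, Finset.mem_filter, Finset.mem_product] at hq2
      obtain ⟨⟨ha, hb⟩, htab⟩ := hq2
      simp only at ha hb htab
      have hFa : F a ≠ 0 := fun h => htab (by simp only [ht]; rw [h]; ring)
      have hGb : G b ≠ 0 := fun h => htab (by simp only [ht]; rw [h]; ring)
      have hl1 : H18GB.lam W 1 (a + b) ≠ 0 := fun h => htab (by simp only [ht]; rw [h]; ring)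
      have hl2 : H18GB.lam W 1 (a - b) ≠ 0 := fun h => htab (by simp only [ht]; rw [h]; ring)
      have h1 : (1 - θ / 4) * N ≤ (a : ℝ) := by
        by_contra h
        exact hFa (by simp only [hF]; rw [if_neg (fun h' => h h'.1)])
      have h2 : (b : ℝ) < (1 - θ / 4) * N := by
        by_contra h
        exact hGb (by simp only [hG]; rw [if_neg (fun h' => h h'.2)])
      have h2' : (1 - θ / 2) * N ≤ (b : ℝ) := by
        by_contra h
        exact hGb (by simp only [hG]; rw [if_neg (fun h' => h h'.1)])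
      have h3 : b < a := by exact_mod_cast h2.trans_le h1
      have hpr : ∀ v : ℤ, H18GB.lamv W v ≠ 0 → 0 ≤ v → v.toNat.Prime := by
        intro v hv hv0
        have h5 : v.natAbs.Prime := by
          by_contra h
          exact hv (by unfold H18GB.lamv; rw [if_neg h])
        have h6 : v.toNat = v.natAbs := by omega
        rw [h6]
        exact h5
      rw [hI, Finset.mem_Ico] at ha hb
      have hWz : (0 : ℤ) < W := by exact_mod_cast hW
      have p1 : 0 ≤ (W : ℤ) * a := mul_nonneg hWz.le ha.1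
      have p2 : 0 < (W : ℤ) * (a - b) := mul_pos hWz (by linarith)
      have p2' : 0 ≤ (W : ℤ) * b := mul_nonneg hWz.le hb.1
      have p3 : (W : ℤ) * a ≤ W * N - W := by
        have : (W : ℤ) * a ≤ W * (N - 1) := mul_le_mul_of_nonneg_left (by omega) hWz.le
        linarith
      have p4 : (W : ℤ) * (a - b) = W * a - W * b := by ring
      have hNWz : (W : ℤ) * N ≤ x - 1 := by
        have : ((W * N : ℕ) : ℤ) ≤ ((x - 1 : ℕ) : ℤ) := by exact_mod_cast hNW
        rw [Nat.cast_sub (by omega)] at this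
        push_cast at this
        exact this
      have q1 : (((W : ℤ) * a + 1).toNat : ℤ) = W * a + 1 := Int.toNat_of_nonneg (by linarith)
      have q2 : (((W : ℤ) * (a - b) + 1).toNat : ℤ) = W * (a - b) + 1 :=
        Int.toNat_of_nonneg (by linarith)
      have q1r : (((W : ℤ) * a + 1).toNat : ℝ) = W * a + 1 := by
        have : ((((W : ℤ) * a + 1).toNat : ℤ) : ℝ) = (((W : ℤ) * a + 1 : ℤ) : ℝ) := by rw [q1]
        push_cast at this
        exact_mod_cast this
      have q2r : (((W : ℤ) * (a - b) + 1).toNat : ℝ) = W * (a - b) + 1 := by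
        have : ((((W : ℤ) * (a - b) + 1).toNat : ℤ) : ℝ) = (((W : ℤ) * (a - b) + 1 : ℤ) : ℝ) := by
          rw [q2]
        push_cast at this
        exact_mod_cast this
      have hgoal : ((((W : ℤ) * a + 1).toNat, ((W : ℤ) * (a - b) + 1).toNat) : ℕ × ℕ) ∈ R := by
        rw [hR, Finset.mem_filter, Finset.mem_product, Finset.mem_range, Finset.mem_range]
        refine ⟨⟨?_, ?_⟩, ?_, ?_, ?_, ?_, ?_⟩
        · show ((W : ℤ) * a + 1).toNat < x
          omega
        · show ((W : ℤ) * (a - b) + 1).toNat < x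
          omega
        · refine hpr _ ?_ (by linarith)
          simp only [hF] at hFa
          rw [if_pos ⟨h1, ha.2⟩] at hFa
          exact hFa
        · refine hpr _ ?_ (by linarith)
          unfold H18GB.lam at hl2
          rw [add_comm] at hl2
          exact hl2
        · show (1 - θ) * x ≤ (((W : ℤ) * a + 1).toNat : ℝ)
          rw [q1r]
          have r1 : (W : ℝ) * ((1 - θ / 4) * N) ≤ W * a := mul_le_mul_of_nonneg_left h1 (by positivity)
          have r2 : (W : ℝ) * ((1 - θ / 4) * N) = (1 - θ / 4) * (W * N) := by ring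
          have r3 : (1 - θ / 4) * ((x : ℝ) - W) ≤ (1 - θ / 4) * (W * N) :=
            mul_le_mul_of_nonneg_left (by linarith) (by linarith)
          have r4 : 4 * (W : ℝ) ≤ θ * x := by
            have r5 : 4 * (W : ℝ) / θ ≤ x := by
              have : 0 ≤ (N0 + M0 + 2 + 16 / θ) * W * 2 := by positivity
              linarith
            rw [div_le_iff₀ hθ] at r5
            linarith
          nlinarith
        · show (((W : ℤ) * (a - b) + 1).toNat : ℝ) ≤ θ * x
          rw [q2r]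
          have r0 : (a : ℝ) ≤ N := by exact_mod_cast ha.2.le
          have r1 : (a : ℝ) - b ≤ θ / 2 * N := by linarith
          have r2 : (W : ℝ) * (a - b) ≤ W * (θ / 2 * N) := mul_le_mul_of_nonneg_left r1 (by positivity)
          have r3 : (W : ℝ) * (θ / 2 * N) = θ / 2 * (W * N) := by ring
          have r4 : θ / 2 * (W * N) ≤ θ / 2 * x := mul_le_mul_of_nonneg_left (by linarith) (by linarith)
          have r5 : 4 * (W : ℝ) ≤ θ * x := by
            have r5 : 4 * (W : ℝ) / θ ≤ x := by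
              have : 0 ≤ (N0 + M0 + 2 + 16 / θ) * W * 2 := by positivity
              linarith
            rw [div_le_iff₀ hθ] at r5
            linarith
          linarith
        · show (2 * ((W : ℤ) * a + 1).toNat - ((W : ℤ) * (a - b) + 1).toNat).Prime
          have r1 : 2 * ((W : ℤ) * a + 1).toNat - ((W : ℤ) * (a - b) + 1).toNat =
              (1 + (W : ℤ) * (a + b)).toNat := by
            have r2 : (W : ℤ) * (a + b) = W * a + W * b := by ring
            rw [p4, r2]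
            omega
          rw [r1]
          refine hpr _ hl1 ?_
          have r2 : (W : ℤ) * (a + b) = W * a + W * b := by ring
          rw [r2]
          linarith
      exact hgoal
    · rintro ⟨a, b⟩ hq ⟨a', b'⟩ hq' heq
      have hq2 : (a, b) ∈ S := hq
      have hq2' : (a', b') ∈ S := hq'
      have hpos : ∀ a b : ℤ, (a, b) ∈ S → 0 ≤ a ∧ b < a := by
        intro a b hab
        rw [hS, Finset.mem_filter, Finset.mem_product] at hab
        obtain ⟨⟨ha, hb⟩, htab⟩ := hab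
        simp only at ha hb htab
        have hFa : F a ≠ 0 := fun h => htab (by simp only [ht]; rw [h]; ring)
        have hGb : G b ≠ 0 := fun h => htab (by simp only [ht]; rw [h]; ring)
        have h1 : (1 - θ / 4) * N ≤ (a : ℝ) := by
          by_contra h
          exact hFa (by simp only [hF]; rw [if_neg (fun h' => h h'.1)])
        have h2 : (b : ℝ) < (1 - θ / 4) * N := by
          by_contra h
          exact hGb (by simp only [hG]; rw [if_neg (fun h' => h h'.2)])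
        have h3 : b < a := by exact_mod_cast h2.trans_le h1
        rw [hI, Finset.mem_Ico] at ha
        exact ⟨ha.1, h3⟩
      obtain ⟨s1, s2⟩ := hpos a b hq2
      obtain ⟨s1', s2'⟩ := hpos a' b' hq2'
      have hWz : (0 : ℤ) < W := by exact_mod_cast hW
      have e1 := congrArg Prod.fst heq
      have e2 := congrArg Prod.snd heq
      simp only at e1 e2
      have p1 : 0 ≤ (W : ℤ) * a := mul_nonneg hWz.le s1
      have p1' : 0 ≤ (W : ℤ) * a' := mul_nonneg hWz.le s1'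
      have p2 : 0 < (W : ℤ) * (a - b) := mul_pos hWz (by linarith)
      have p2' : 0 < (W : ℤ) * (a' - b') := mul_pos hWz (by linarith)
      have f1 : (W : ℤ) * a = W * a' := by omega
      have f2 : (W : ℤ) * (a - b) = W * (a' - b') := by omega
      have g1 : a = a' := mul_left_cancel₀ hWz.ne' f1
      have g2 : a - b = a' - b' := mul_left_cancel₀ hWz.ne' f2
      have g3 : b = b' := by linarith
      rw [g1, g3]
  have hRr : (S.card : ℝ) ≤ R.card := by exact_mod_cast hSR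
  have hfin : θ ^ 2 / 128 * N ^ 2 ≤ R.card * (8 * Lg ^ 3) := by
    refine hcardS.trans ?_
    have : (2 * Lg) ^ 3 = 8 * Lg ^ 3 := by ring
    rw [this]
    exact mul_le_mul_of_nonneg_right hRr (by positivity)
  rw [div_le_iff₀ (by positivity)]
  have hxN : (x : ℝ) ^ 2 ≤ 4 * W ^ 2 * N ^ 2 := by
    have : (x : ℝ) ^ 2 ≤ (2 * W * N) ^ 2 := pow_le_pow_left₀ (by positivity) hNx 2
    calc (x : ℝ) ^ 2 ≤ (2 * W * N) ^ 2 := this
      _ = 4 * W ^ 2 * N ^ 2 := by ring
  have hc : θ ^ 2 / (4096 * (W : ℝ) ^ 2) * x ^ 2 ≤ θ ^ 2 / 1024 * N ^ 2 := by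
    calc θ ^ 2 / (4096 * (W : ℝ) ^ 2) * x ^ 2 ≤ θ ^ 2 / (4096 * (W : ℝ) ^ 2) * (4 * W ^ 2 * N ^ 2) :=
          mul_le_mul_of_nonneg_left hxN (by positivity)
      _ = θ ^ 2 / 1024 * N ^ 2 := by
          field_simp
          ring
  have hd : θ ^ 2 / 1024 * (N : ℝ) ^ 2 ≤ R.card * Lg ^ 3 := by
    have h1 : θ ^ 2 / 1024 * (N : ℝ) ^ 2 = (θ ^ 2 / 128 * N ^ 2) / 8 := by ring
    have h2 : (R.card : ℝ) * Lg ^ 3 = (R.card * (8 * Lg ^ 3)) / 8 := by ring
    rw [h1, h2]
    exact div_le_div_of_nonneg_right hfin (by norm_num)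
  exact hc.trans hd

end Pool.Agent.Lib.H16X
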