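import Pool.Agent.Lib.H16X.D
import Pool.Agent.Lib.H16X.F2
import Pool.Agent.Lib.H16X.P1

/-!
# H16X: many progressions, indices
-/

set_option linter.unusedVariables false

namespace Pool.Agent.Lib.H16X

open Finset Pool.Agent.Lib.Sieve

open Filter Topology in
private theorem f3_lim {t : ℝ} (ht : 0 < t) :
    Tendsto (fun X : ℕ => (PNT.piP (fun _ => True) (t * (pr X : ℝ)) : ℝ) / X) atTop (𝓝 t) := by
  have hpr : Tendsto (fun X : ℕ => ((pr X : ℕ) : ℝ)) atTop atTop :=
    tendsto_natCast_atTop_atTop.comp pr_strictMono.tendsto_atTop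
  have h1 := (PNT.tendsto_piP_scaled ht PNT.thetaP_true_tendsto).comp hpr
  have h2 := (PNT.tendsto_piP_scaled one_pos PNT.thetaP_true_tendsto).comp hpr
  have h3 : ∀ X : ℕ, PNT.piP (fun _ => True) (1 * (pr X : ℝ)) = X + 1 := by
    intro X
    rw [PNT.piP_true, one_mul, Nat.floor_natCast, Nat.primeCounting, Nat.primeCounting', Nat.count_succ,
      if_pos (pr_prime X)]
    have h := Nat.primeCounting'_nth_eq X
    unfold Nat.primeCounting' at h
    unfold pr
    rw [h]
  have h4 := h1.div h2 (by norm_num)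
  have h5 : Tendsto (fun X : ℕ => 1 + 1 / (X : ℝ)) atTop (𝓝 (1 + 0)) :=
    tendsto_const_nhds.add tendsto_one_div_atTop_nhds_zero_nat
  have h6 := h4.mul h5
  have e : 1 * t / (1 * 1) * (1 + 0) = t := by ring
  rw [e] at h6
  refine h6.congr' ?_
  filter_upwards [eventually_gt_atTop 0] with X hX
  have hX' : (0 : ℝ) < X := by exact_mod_cast hX
  have hp1 : (1 : ℝ) < pr X := by exact_mod_cast (pr_prime X).one_lt
  have hlog : Real.log (pr X : ℝ) ≠ 0 := (Real.log_pos hp1).ne'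
  have hp0 : (pr X : ℝ) ≠ 0 := by linarith
  simp only [Function.comp, Pi.div_apply]
  rw [h3 X]
  push_cast
  have hX1 : (X : ℝ) + 1 ≠ 0 := by linarith
  field_simp

private theorem f3_index {n : ℕ} (hn : n.Prime) : pr (Nat.primeCounting' n) = n := by
  unfold pr Nat.primeCounting'
  exact Nat.nth_count hn

private theorem f3_lt {n X : ℕ} (hn : n.Prime) (h : n < pr X) : Nat.primeCounting' n < X := by
  refine pr_strictMono.lt_iff_lt.1 ?_
  rw [f3_index hn]
  exact h

private theorem f3_low {n : ℕ} {y : ℝ} (hn : n.Prime) (h : y ≤ n) :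
    (PNT.piP (fun _ => True) y : ℝ) ≤ (Nat.primeCounting' n : ℝ) + 1 := by
  have h1 : PNT.piP (fun _ => True) y ≤ PNT.piP (fun _ => True) (n : ℝ) := PNT.piP_mono h
  have h2 : PNT.piP (fun _ => True) (n : ℝ) = Nat.primeCounting' n + 1 := by
    rw [PNT.piP_true, Nat.floor_natCast, Nat.primeCounting, Nat.primeCounting', Nat.count_succ, if_pos hn]
  rw [h2] at h1
  exact_mod_cast h1

private theorem f3_up {n : ℕ} {y : ℝ} (h : (n : ℝ) ≤ y) :
    (Nat.primeCounting' n : ℝ) ≤ (PNT.piP (fun _ => True) y : ℝ) := by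
  have h1 : PNT.piP (fun _ => True) (n : ℝ) ≤ PNT.piP (fun _ => True) y := PNT.piP_mono h
  have h2 : Nat.primeCounting' n ≤ PNT.piP (fun _ => True) (n : ℝ) := by
    rw [PNT.piP_true, Nat.floor_natCast, Nat.primeCounting]
    exact Nat.monotone_primeCounting' (Nat.le_succ n)
  exact_mod_cast h2.trans h1

/-- The same in terms of indices.

Proof. `F2` with `x = pr X`, `θ` small in terms of `η`. `(n, h) = (pr m, pr k)` with `m, k < X`. `h ≤ θ pr X` implies
`k ≤ η X`: `k ≤ π(θ pr X) ≤ C θ pr X / log (θ pr X) ≤ C' θ X ≤ η X` (Chebyshev, `P1`) for large `X`. `n ≥ (1 - θ) pr X` implies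
`m ≥ (1 - η) X`: by the prime number theorem (`Lib/PNT`) or by the Brun-Titchmarsh inequality the interval
`[(1 - θ) pr X, pr X)` contains at most `η X` primes (with the sieve: at most `C θ pr X / log X`; e.g.
`Sieve.fundamental_sum` with `k = 1`). And `(pr X)² / (log pr X)³ ≥ c X² / log X` (`P1`). -/
theorem F3 (η : ℝ) (hη : 0 < η) (hη1 : η ≤ 1 / 4) : ∃ c : ℝ, 0 < c ∧ ∃ X0 : ℕ, ∀ X : ℕ, X0 ≤ X →
    c * (X : ℝ) ^ 2 / Real.log X ≤
      (((range X ×ˢ range X).filter (fun q : ℕ × ℕ => (1 - η) * X ≤ (q.1 : ℝ) ∧ (q.2 : ℝ) ≤ η * X ∧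
        (2 * pr q.1 - pr q.2).Prime)).card : ℝ) := by
  obtain ⟨C, hC1, hC⟩ := P1
  obtain ⟨c, hc, x0, hx0⟩ := F2 (η / 2) (by linarith) (by linarith)
  have hA := (f3_lim (t := 1 - η / 2) (by linarith)).eventually
    (lt_mem_nhds (show 1 - 3 * η / 4 < 1 - η / 2 by linarith))
  have hB := (f3_lim (t := η / 2) (by linarith)).eventually (gt_mem_nhds (show η / 2 < η by linarith))
  obtain ⟨X1, hX1⟩ := Filter.eventually_atTop.1 (hA.and hB)
  refine ⟨c / (27 * C ^ 2), by positivity, max (max X1 x0) (max ⌈4 / η⌉₊ (max ⌈C⌉₊ 8)), fun X hX => ?_⟩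
  have h1 : X1 ≤ X := le_trans (le_trans (le_max_left _ _) (le_max_left _ _)) hX
  have h2 : x0 ≤ X := le_trans (le_trans (le_max_right _ _) (le_max_left _ _)) hX
  have h3 : ⌈4 / η⌉₊ ≤ X := le_trans (le_trans (le_max_left _ _) (le_max_right _ _)) hX
  have h4 : ⌈C⌉₊ ≤ X := le_trans (le_trans (le_trans (le_max_left _ _) (le_max_right _ _))
    (le_max_right _ _)) hX
  have h5 : 8 ≤ X := le_trans (le_trans (le_trans (le_max_right _ _) (le_max_right _ _))
    (le_max_right _ _)) hX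
  have h3' : 4 / η ≤ X := Nat.ceil_le.1 h3
  have h4' : C ≤ X := Nat.ceil_le.1 h4
  have h5' : (8 : ℝ) ≤ X := by exact_mod_cast h5
  have hX0 : (0 : ℝ) < X := by linarith
  obtain ⟨hA', hB'⟩ := hX1 X h1
  rw [lt_div_iff₀ hX0] at hA'
  rw [div_lt_iff₀ hX0] at hB'
  rw [div_le_iff₀ hη] at h3'
  obtain ⟨hP1, hP2⟩ := hC X (by omega)
  have hprX : X ≤ pr X := pr_strictMono.le_apply
  have hF2 := hx0 (pr X) (h2.trans hprX)
  have hlogX : 1 ≤ Real.log X := by
    rw [Real.le_log_iff_exp_le hX0]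
    have := Real.exp_one_lt_d9
    linarith
  have hprX' : (X : ℝ) ≤ pr X := by exact_mod_cast hprX
  have hpr0 : (0 : ℝ) < pr X := by linarith
  have hlogpr : 0 < Real.log (pr X) := Real.log_pos (by linarith)
  have hlogpr3 : Real.log (pr X) ≤ 3 * Real.log X := by
    have h6 : (pr X : ℝ) ≤ (X : ℝ) ^ 3 := by
      have h7 : Real.log X ≤ X := by
        have := Real.log_le_sub_one_of_pos hX0
        linarith
      calc (pr X : ℝ) ≤ C * X * Real.log X := hP2
        _ ≤ X * X * X := mul_le_mul (mul_le_mul_of_nonneg_right h4' hX0.le) h7 (by linarith) (by positivity)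
        _ = (X : ℝ) ^ 3 := by ring
    have h7 := Real.log_le_log hpr0 h6
    rw [Real.log_pow] at h7
    push_cast at h7
    exact h7
  have hmain : c / (27 * C ^ 2) * (X : ℝ) ^ 2 / Real.log X ≤ c * (pr X : ℝ) ^ 2 / (Real.log (pr X)) ^ 3 := by
    have hlog3 : (Real.log (pr X)) ^ 3 ≤ (3 * Real.log X) ^ 3 := pow_le_pow_left₀ hlogpr.le hlogpr3 3
    have hsq : ((X : ℝ) * Real.log X) ^ 2 ≤ (C * pr X) ^ 2 := pow_le_pow_left₀ (by positivity) hP1 2
    rw [div_le_div_iff₀ (by linarith) (by positivity)]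
    calc c / (27 * C ^ 2) * (X : ℝ) ^ 2 * (Real.log (pr X)) ^ 3
        ≤ c / (27 * C ^ 2) * (X : ℝ) ^ 2 * (3 * Real.log X) ^ 3 :=
          mul_le_mul_of_nonneg_left hlog3 (by positivity)
      _ = c / C ^ 2 * Real.log X * ((X : ℝ) * Real.log X) ^ 2 := by
          field_simp
          ring
      _ ≤ c / C ^ 2 * Real.log X * (C * pr X) ^ 2 := mul_le_mul_of_nonneg_left hsq (by positivity)
      _ = c * (pr X : ℝ) ^ 2 * Real.log X := by
          field_simp
  refine hmain.trans (hF2.trans ?_)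
  rw [Nat.cast_le]
  refine Finset.card_le_card_of_injOn (fun q : ℕ × ℕ => (Nat.primeCounting' q.1, Nat.primeCounting' q.2))
    ?_ ?_
  · intro q hq
    have hq' := Finset.mem_filter.1 (Finset.mem_coe.1 hq)
    obtain ⟨hq1, hp1, hp2, hn, hh, hpr⟩ := hq'
    obtain ⟨hr1, hr2⟩ := Finset.mem_product.1 hq1
    refine Finset.mem_coe.2 (Finset.mem_filter.2 ⟨Finset.mem_product.2 ⟨?_, ?_⟩, ?_, ?_, ?_⟩)
    · exact Finset.mem_range.2 (f3_lt hp1 (Finset.mem_range.1 hr1))
    · exact Finset.mem_range.2 (f3_lt hp2 (Finset.mem_range.1 hr2))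
    · have h6 := f3_low hp1 hn
      simp only
      nlinarith
    · have h6 := f3_up hh
      simp only
      linarith
    · simp only
      rw [f3_index hp1, f3_index hp2]
      exact hpr
  · intro q hq q' hq' he
    have hq1 := Finset.mem_filter.1 (Finset.mem_coe.1 hq)
    have hq2 := Finset.mem_filter.1 (Finset.mem_coe.1 hq')
    simp only [Prod.mk.injEq] at he
    have e1 : q.1 = q'.1 := by
      rw [← f3_index hq1.2.1, ← f3_index hq2.2.1, he.1]
    have e2 : q.2 = q'.2 := by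
      rw [← f3_index hq1.2.2.1, ← f3_index hq2.2.2.1, he.2]
    exact Prod.ext e1 e2

end Pool.Agent.Lib.H16X
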