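import Pool.Agent.Lib.H16X.D
import Pool.Agent.Lib.H16X.P1
import Pool.Agent.Lib.H16X.M2

/-!
# H16X: upper bounds for every index
-/

set_option linter.unusedVariables false

namespace Pool.Agent.Lib.H16X

open Finset Pool.Agent.Lib.Sieve

private theorem f4_prod : ∃ C : ℝ, 1 ≤ C ∧ ∀ (z : ℕ) (Ω : (p : ℕ) → Finset (ZMod p)) (q0 : ℕ),
    6 ≤ z → (∀ p, p.Prime → 6 < p → p ≤ z →
      (Ω p).card ≤ 2 ∧ 1 ≤ (Ω p).card ∧ (p ≠ q0 → 2 ≤ (Ω p).card)) →
    ∏ p ∈ sprimes 6 z, (1 - dens Ω p) ≤ C / Real.log z ^ 2 := by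
  obtain ⟨C, hC, hM, -⟩ := M2
  have hl6 : 1 ≤ Real.log 6 := by
    rw [Real.le_log_iff_exp_le (by norm_num)]
    have := Real.exp_one_lt_d9
    linarith
  have hCl : 1 ≤ C * Real.log 6 := by nlinarith
  refine ⟨2 * (C * Real.log 6) ^ 2, by nlinarith, ?_⟩
  intro z Ω q0 hz hΩ
  have hz6 : (6 : ℝ) ≤ z := by exact_mod_cast hz
  have hlz : 0 < Real.log z := Real.log_pos (by linarith)
  have h1 := hM 6 z (by norm_num) hz
  have hVV0 : 0 ≤ VV (sprimes 6 z) := by
    unfold VV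
    refine Finset.prod_nonneg fun p hp => ?_
    have hp1 := (mem_sprimes.1 hp).1
    have h3 : (1 : ℝ) ≤ p := by exact_mod_cast hp1.one_lt.le
    have h4 : 1 / (p : ℝ) ≤ 1 := by
      rw [div_le_one (by linarith)]
      exact h3
    linarith
  have hstep : ∏ p ∈ sprimes 6 z, (1 - dens Ω p) ≤
      ∏ p ∈ sprimes 6 z, ((1 - 1 / (p : ℝ)) ^ 2 * (if p = q0 then 2 else 1)) := by
    refine Finset.prod_le_prod (fun p hp => ?_) fun p hp => ?_
    · obtain ⟨hp1, hp2, hp3⟩ := mem_sprimes.1 hp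
      have := dens_le_half (k := 2) (hΩ p hp1 hp2 hp3).1 hp2
      linarith
    · obtain ⟨hp1, hp2, hp3⟩ := mem_sprimes.1 hp
      obtain ⟨hc1, hc2, hc3⟩ := hΩ p hp1 hp2 hp3
      have hp6 : (6 : ℝ) < p := by exact_mod_cast hp2
      have hp0 : (0 : ℝ) < p := by linarith
      have hx : 1 / (p : ℝ) ≤ 1 / 6 := one_div_le_one_div_of_le (by norm_num) hp6.le
      have hx0 : 0 < 1 / (p : ℝ) := by positivity
      unfold Sieve.dens
      split_ifs with h
      · have h5 : 1 / (p : ℝ) ≤ ((Ω p).card : ℝ) / p := by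
          apply div_le_div_of_nonneg_right _ hp0.le
          exact_mod_cast hc2
        nlinarith
      · have h5 : 2 / (p : ℝ) ≤ ((Ω p).card : ℝ) / p := by
          apply div_le_div_of_nonneg_right _ hp0.le
          exact_mod_cast hc3 h
        have h6 : 2 / (p : ℝ) = 2 * (1 / p) := by ring
        rw [h6] at h5
        nlinarith
  refine hstep.trans ?_
  rw [Finset.prod_mul_distrib, Finset.prod_pow, Finset.prod_ite_eq']
  have h2 : (if q0 ∈ sprimes 6 z then (2 : ℝ) else 1) ≤ 2 := by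
    split_ifs <;> norm_num
  have h3 : (∏ p ∈ sprimes 6 z, (1 - 1 / (p : ℝ))) ^ 2 ≤ (C * Real.log 6 / Real.log z) ^ 2 :=
    pow_le_pow_left₀ hVV0 h1 2
  calc (∏ p ∈ sprimes 6 z, (1 - 1 / (p : ℝ))) ^ 2 * (if q0 ∈ sprimes 6 z then (2 : ℝ) else 1) ≤
        (C * Real.log 6 / Real.log z) ^ 2 * 2 :=
        mul_le_mul h3 h2 (by split_ifs <;> norm_num) (sq_nonneg _)
    _ = 2 * (C * Real.log 6) ^ 2 / Real.log z ^ 2 := by ring

private theorem f4_sieve : ∃ C : ℝ, 1 ≤ C ∧ ∀ (z M : ℕ) (Ω : (p : ℕ) → Finset (ZMod p)) (q0 : ℕ),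
    6 ≤ z → z ^ 422 ≤ M → (∀ p, p.Prime → 6 < p → p ≤ z →
      (Ω p).card ≤ 2 ∧ 1 ≤ (Ω p).card ∧ (p ≠ q0 → 2 ≤ (Ω p).card)) →
    ∀ S : Finset ℕ, (∀ u ∈ S, u < M ∧ ∀ p, p.Prime → 6 < p → p ≤ z →
      (((u : ℕ) : ℤ) : ZMod p) ∉ Ω p) → (S.card : ℝ) ≤ C * M / Real.log z ^ 2 := by
  obtain ⟨C, hC, hprod⟩ := f4_prod
  refine ⟨3 * C, by linarith, ?_⟩
  intro z M Ω q0 hz hM hΩ S hS
  have h1 := (fundamental_sum (k := 2) (z := z) (Ω := Ω) (by omega)
    (fun p hp h6 hpz => (hΩ p hp h6 hpz).1) 0 M (by simpa using hM)).2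
  have h2 := hprod z Ω q0 hz hΩ
  have h3 : (S.card : ℝ) ≤
      ∑ u ∈ Finset.Ico (0 : ℤ) (0 + M), ∏ p ∈ sprimes (2 * 2 + 2) z, (1 - chi Ω p u) := by
    have h4 : (S.card : ℝ) = ∑ u ∈ S.image (fun u : ℕ => (u : ℤ)),
        ∏ p ∈ sprimes (2 * 2 + 2) z, (1 - chi Ω p u) := by
      rw [Finset.sum_image (fun a _ b _ hab => by exact_mod_cast hab)]
      rw [Finset.card_eq_sum_ones]
      push_cast
      refine Finset.sum_congr rfl fun u hu => ?_
      symm
      refine Finset.prod_eq_one fun p hp => ?_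
      obtain ⟨hp1, hp2, hp3⟩ := mem_sprimes.1 hp
      unfold chi
      rw [if_neg ((hS u hu).2 p hp1 hp2 hp3), sub_zero]
    rw [h4]
    refine Finset.sum_le_sum_of_subset_of_nonneg ?_ fun u _ _ => ?_
    · intro v hv
      rw [Finset.mem_image] at hv
      obtain ⟨u, hu, rfl⟩ := hv
      rw [Finset.mem_Ico]
      have := (hS u hu).1
      constructor
      · exact Int.natCast_nonneg u
      · rw [zero_add]
        exact_mod_cast this
    · exact Finset.prod_nonneg fun p _ => by linarith [chi_le_one Ω p u]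
  refine h3.trans (h1.trans ?_)
  have hM0 : (0 : ℝ) ≤ 3 * M := by positivity
  calc 3 * (M : ℝ) * ∏ p ∈ sprimes (2 * 2 + 2) z, (1 - dens Ω p) ≤
        3 * M * (C / Real.log z ^ 2) := mul_le_mul_of_nonneg_left h2 hM0
    _ = 3 * C * M / Real.log z ^ 2 := by ring

private theorem f4_num : ∃ X0 : ℕ, 2 ≤ X0 ∧ ∀ X : ℕ, X0 ≤ X → ∃ z : ℕ, 6 ≤ z ∧ z ^ 422 ≤ X ∧
    0 < Real.log X ∧ Real.log X ≤ 2000 * Real.log z ∧ ((2 * z + 2 : ℕ) : ℝ) ≤ 8 * X / Real.log X := by
  refine ⟨⌈Real.exp 2000⌉₊ + 2, by omega, fun X hX => ?_⟩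
  have hX1 : Real.exp 2000 ≤ X := by
    have h1 := Nat.le_ceil (Real.exp 2000)
    have h2 : ((⌈Real.exp 2000⌉₊ : ℕ) : ℝ) ≤ X := by
      exact_mod_cast (by omega : ⌈Real.exp 2000⌉₊ ≤ X)
    linarith
  have hX0 : (0 : ℝ) < X := lt_of_lt_of_le (Real.exp_pos _) hX1
  have hl : 2000 ≤ Real.log X := (Real.le_log_iff_exp_le hX0).2 hX1
  have hXge1 : (1 : ℝ) ≤ X := by
    have := Real.one_le_exp (show (0 : ℝ) ≤ 2000 by norm_num)
    linarith
  set y : ℝ := (X : ℝ) ^ (1 / 1000 : ℝ) with hy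
  have hy0 : 0 ≤ y := Real.rpow_nonneg hX0.le _
  have hyl : Real.log y = Real.log X / 1000 := by
    rw [hy, Real.log_rpow hX0]
    ring
  have hy1 : 1 ≤ y := Real.one_le_rpow hXge1 (by norm_num)
  have hy7 : 7 ≤ y := by
    have h1 : Real.exp 2 ≤ y := by
      rw [← Real.le_log_iff_exp_le (by linarith), hyl]
      linarith
    have h2 : Real.exp 2 = Real.exp 1 * Real.exp 1 := by
      rw [← Real.exp_add]
      norm_num
    have h3 := Real.exp_one_gt_d9
    nlinarith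
  have hz1 := Nat.floor_le hy0
  have hz2 := Nat.lt_floor_add_one y
  have hz6 : 6 ≤ ⌊y⌋₊ := Nat.le_floor (by push_cast; linarith)
  have hz6' : (6 : ℝ) ≤ (⌊y⌋₊ : ℝ) := by exact_mod_cast hz6
  refine ⟨⌊y⌋₊, hz6, ?_, by linarith, ?_, ?_⟩
  · have h1 : ((⌊y⌋₊ : ℕ) : ℝ) ^ 422 ≤ X := by
      calc ((⌊y⌋₊ : ℕ) : ℝ) ^ 422 ≤ y ^ 422 := pow_le_pow_left₀ (by positivity) hz1 _
        _ ≤ y ^ 1000 := pow_le_pow_right₀ hy1 (by norm_num)
        _ = X := by
          rw [hy, ← Real.rpow_natCast, ← Real.rpow_mul hX0.le]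
          norm_num
    exact_mod_cast h1
  · have h1 : y ≤ 2 * ⌊y⌋₊ := by linarith
    have h2 : Real.log y ≤ Real.log (2 * ⌊y⌋₊) := Real.log_le_log (by linarith) h1
    rw [Real.log_mul (by norm_num) (by positivity), hyl] at h2
    have h3 := Real.log_two_lt_d9
    linarith
  · rw [le_div_iff₀ (by linarith)]
    have h1 : y ≤ (X : ℝ) ^ (1 / 2 : ℝ) :=
      Real.rpow_le_rpow_of_exponent_le hXge1 (by norm_num)
    have h2 := Real.log_le_rpow_div hX0.le (show (0 : ℝ) < 1 / 2 by norm_num)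
    have h3 : (X : ℝ) ^ (1 / 2 : ℝ) * (X : ℝ) ^ (1 / 2 : ℝ) = X := by
      rw [← Real.rpow_add hX0]
      norm_num
    have h4 : 0 ≤ (X : ℝ) ^ (1 / 2 : ℝ) := Real.rpow_nonneg hX0.le _
    have h5 : ((2 * ⌊y⌋₊ + 2 : ℕ) : ℝ) ≤ 4 * (X : ℝ) ^ (1 / 2 : ℝ) := by
      push_cast
      linarith
    calc ((2 * ⌊y⌋₊ + 2 : ℕ) : ℝ) * Real.log X ≤
          4 * (X : ℝ) ^ (1 / 2 : ℝ) * ((X : ℝ) ^ (1 / 2 : ℝ) / (1 / 2)) :=
          mul_le_mul h5 h2 (by linarith) (by positivity)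
      _ = 8 * ((X : ℝ) ^ (1 / 2 : ℝ) * (X : ℝ) ^ (1 / 2 : ℝ)) := by ring
      _ = 8 * X := by rw [h3]

private theorem f4_fin : ∃ C : ℝ, 1 ≤ C ∧ ∃ X0 : ℕ, ∀ X : ℕ, X0 ≤ X → ∃ z : ℕ, 6 ≤ z ∧
    ∀ (Ω : (p : ℕ) → Finset (ZMod p)) (q0 : ℕ), (∀ p, p.Prime → 6 < p → p ≤ z →
      (Ω p).card ≤ 2 ∧ 1 ≤ (Ω p).card ∧ (p ≠ q0 → 2 ≤ (Ω p).card)) →
    ∀ T T1 S : Finset ℕ, T ⊆ T1 ∪ S → T1.card ≤ 2 * z + 2 →
      (∀ u ∈ S, u < pr X ∧ ∀ p, p.Prime → 6 < p → p ≤ z → (((u : ℕ) : ℤ) : ZMod p) ∉ Ω p) →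
      (T.card : ℝ) ≤ C * X / Real.log X := by
  obtain ⟨C₁, hC₁, hP⟩ := P1
  obtain ⟨C₂, hC₂, hS⟩ := f4_sieve
  obtain ⟨X0, hX02, hnum⟩ := f4_num
  refine ⟨8 + 2000 ^ 2 * C₂ * C₁, by nlinarith, X0, fun X hX => ?_⟩
  obtain ⟨z, hz6, hzX, hlX, hlz, h8⟩ := hnum X hX
  refine ⟨z, hz6, fun Ω q0 hΩ T T1 S hT hT1 hSS => ?_⟩
  have hXpr : X ≤ pr X := pr_strictMono.le_apply
  have h1 := hS z (pr X) Ω q0 hz6 (hzX.trans hXpr) hΩ S hSS
  have h2 := (hP X (by omega)).2
  have hlz0 : 0 < Real.log z := by linarith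
  have h3 : (S.card : ℝ) ≤ 2000 ^ 2 * C₂ * C₁ * X / Real.log X := by
    refine h1.trans ?_
    have h4 : (Real.log X) ^ 2 ≤ 2000 ^ 2 * Real.log z ^ 2 := by
      rw [← mul_pow]
      exact pow_le_pow_left₀ hlX.le hlz 2
    rw [div_le_div_iff₀ (by positivity) hlX]
    have h5 : C₂ * (pr X : ℝ) * Real.log X ≤ C₂ * (C₁ * X * Real.log X) * Real.log X := by
      apply mul_le_mul_of_nonneg_right _ hlX.le
      exact mul_le_mul_of_nonneg_left h2 (by linarith)
    refine h5.trans ?_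
    have h6 : C₂ * (C₁ * X * Real.log X) * Real.log X = C₂ * C₁ * X * Real.log X ^ 2 := by ring
    have h7 : 2000 ^ 2 * C₂ * C₁ * X * Real.log z ^ 2 =
        C₂ * C₁ * X * (2000 ^ 2 * Real.log z ^ 2) := by ring
    rw [h6, h7]
    exact mul_le_mul_of_nonneg_left h4 (by positivity)
  have h4 : (T.card : ℝ) ≤ T1.card + S.card := by
    exact_mod_cast (Finset.card_le_card hT).trans (Finset.card_union_le _ _)
  have h5 : (T1.card : ℝ) ≤ 8 * X / Real.log X := by
    refine le_trans ?_ h8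
    exact_mod_cast hT1
  have h6 : (8 + 2000 ^ 2 * C₂ * C₁) * X / Real.log X =
      8 * X / Real.log X + 2000 ^ 2 * C₂ * C₁ * X / Real.log X := by ring
  rw [h6]
  linarith

private theorem f4_prime_ne {g p z : ℕ} (hg : g.Prime) (hgz : z < g) (hp : p.Prime) (hpz : p ≤ z) :
    ((g : ℕ) : ZMod p) ≠ 0 := by
  intro h
  rw [ZMod.natCast_eq_zero_iff] at h
  have h1 := (Nat.prime_dvd_prime_iff_eq hp hg).1 h
  omega

/-- Upper bounds for every `m` and for every `k`.

Proof. First: `h = pr k` and `2 pr m - h` are primes; put `R = ⌊X^(1/1000)⌋`. At most `2R` of the `h` have `h ≤ R` or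
`2 pr m - h ≤ R`. For the other ones no prime `q ≤ R` divides `h (2 pr m - h)`; the classes `0`, `2 pr m` modulo `q` are distinct
for all odd `q ≠ pr m`. `Sieve.fundamental_sum` with `k = 2` on `[0, pr X)`:
`≤ 3 pr X ∏_{6 < q ≤ R} (1 - |Ω q|/q) ≤ C pr X / (log X)²` (`(1 - 2/q) ≤ (1 - 1/q)²`, `Sieve.prod_one_sub_inv_le`; the possible
prime `q = pr m` costs a factor `≤ 2`), and `pr X ≤ C X log X`. Second: for `k ≥ 1` the number `pr k` is an odd prime; the
classes `n ≡ 0` and `2n ≡ pr k` modulo `q` are distinct for `q ≠ pr k` odd; the same bound. For `k = 0` (`pr 0 = 2`) the number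
`2 pr m - 2` is an even number, a prime only for `pr m = 2`. -/
theorem F4 : ∃ C : ℝ, 1 ≤ C ∧ ∃ X0 : ℕ, ∀ X : ℕ, X0 ≤ X →
    (∀ m < X, (((range X).filter (fun k => (2 * pr m - pr k).Prime)).card : ℝ) ≤ C * X / Real.log X) ∧
    (∀ k < X, (((range X).filter (fun m => (2 * pr m - pr k).Prime)).card : ℝ) ≤ C * X / Real.log X) := by
  obtain ⟨C, hC, X0, hfin⟩ := f4_fin
  refine ⟨C, hC, X0, fun X hX => ?_⟩
  obtain ⟨z, hz6, hmain⟩ := hfin X hX
  have hinj : Function.Injective pr := pr_strictMono.injective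
  constructor
  · intro m hm
    set Q : ℕ := pr m with hQ
    have hQp : Q.Prime := pr_prime m
    rw [← Finset.card_image_of_injective _ hinj]
    refine hmain (fun p => {0, ((2 * Q : ℕ) : ZMod p)}) Q ?_ _
      (range (z + 1) ∪ (range (z + 1)).image (fun g => 2 * Q - g))
      ((((range X).filter (fun k => (2 * Q - pr k).Prime)).image pr).filter
        (fun h => z < h ∧ z < 2 * Q - h)) ?_ ?_ ?_
    · intro p hp hp6 hpz
      refine ⟨Finset.card_le_two, Finset.card_pos.2 ⟨0, by simp⟩, fun hpQ => ?_⟩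
      rw [Finset.card_pair]
      intro h
      have h1 : ((2 * Q : ℕ) : ZMod p) = 0 := h.symm
      rw [ZMod.natCast_eq_zero_iff] at h1
      rcases (Nat.Prime.dvd_mul hp).1 h1 with h2 | h2
      · have := Nat.le_of_dvd (by norm_num) h2
        omega
      · exact hpQ ((Nat.prime_dvd_prime_iff_eq hp hQp).1 h2)
    · intro h hh
      rw [Finset.mem_union, Finset.mem_union, Finset.mem_filter]
      by_cases h1 : h ≤ z
      · exact Or.inl (Or.inl (Finset.mem_range.2 (by omega)))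
      · by_cases h2 : 2 * Q - h ≤ z
        · left
          right
          rw [Finset.mem_image]
          refine ⟨2 * Q - h, Finset.mem_range.2 (by omega), ?_⟩
          obtain ⟨k, hk, rfl⟩ := Finset.mem_image.1 hh
          have h3 := (Finset.mem_filter.1 hk).2.pos
          omega
        · exact Or.inr ⟨hh, by omega, by omega⟩
    · refine (Finset.card_union_le _ _).trans ?_
      have h1 : ((range (z + 1)).image (fun g => 2 * Q - g)).card ≤ z + 1 :=
        Finset.card_image_le.trans (by rw [Finset.card_range])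
      rw [Finset.card_range]
      omega
    · intro h hh
      obtain ⟨hh1, hh2, hh3⟩ := Finset.mem_filter.1 hh
      obtain ⟨k, hk, rfl⟩ := Finset.mem_image.1 hh1
      obtain ⟨hk1, hk2⟩ := Finset.mem_filter.1 hk
      refine ⟨pr_strictMono (Finset.mem_range.1 hk1), ?_⟩
      intro p hp hp6 hpz hmem
      rw [Int.cast_natCast, Finset.mem_insert, Finset.mem_singleton] at hmem
      rcases hmem with h1 | h1
      · exact f4_prime_ne (pr_prime k) hh2 hp hpz h1
      · apply f4_prime_ne hk2 hh3 hp hpz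
        rw [Nat.cast_sub (by omega), h1, sub_self]
  · intro k hk
    set Q : ℕ := pr k with hQ
    have hQp : Q.Prime := pr_prime k
    rw [← Finset.card_image_of_injective _ hinj]
    refine hmain (fun p => {0, (Q : ZMod p) * (2 : ZMod p)⁻¹}) Q ?_ _
      (range (z + 1) ∪ (range (z + 1)).image (fun g => (g + Q) / 2))
      ((((range X).filter (fun m => (2 * pr m - Q).Prime)).image pr).filter
        (fun n => z < n ∧ z < 2 * n - Q)) ?_ ?_ ?_
    · intro p hp hp6 hpz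
      have hfact : Fact p.Prime := ⟨hp⟩
      refine ⟨Finset.card_le_two, Finset.card_pos.2 ⟨0, by simp⟩, fun hpQ => ?_⟩
      rw [Finset.card_pair]
      intro h
      have h2 : (2 : ZMod p) ≠ 0 := by
        intro h3
        have h4 : ((2 : ℕ) : ZMod p) = 0 := by exact_mod_cast h3
        rw [ZMod.natCast_eq_zero_iff] at h4
        have := Nat.le_of_dvd (by norm_num) h4
        omega
      have h1 : ((Q : ℕ) : ZMod p) = 0 := by
        rcases mul_eq_zero.1 h.symm with h3 | h3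
        · exact h3
        · exact absurd h3 (inv_ne_zero h2)
      rw [ZMod.natCast_eq_zero_iff] at h1
      exact hpQ ((Nat.prime_dvd_prime_iff_eq hp hQp).1 h1)
    · intro n hn
      rw [Finset.mem_union, Finset.mem_union, Finset.mem_filter]
      by_cases h1 : n ≤ z
      · exact Or.inl (Or.inl (Finset.mem_range.2 (by omega)))
      · by_cases h2 : 2 * n - Q ≤ z
        · left
          right
          rw [Finset.mem_image]
          refine ⟨2 * n - Q, Finset.mem_range.2 (by omega), ?_⟩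
          obtain ⟨m, hm, rfl⟩ := Finset.mem_image.1 hn
          have h3 := (Finset.mem_filter.1 hm).2.pos
          omega
        · exact Or.inr ⟨hn, by omega, by omega⟩
    · refine (Finset.card_union_le _ _).trans ?_
      have h1 : ((range (z + 1)).image (fun g => (g + Q) / 2)).card ≤ z + 1 :=
        Finset.card_image_le.trans (by rw [Finset.card_range])
      rw [Finset.card_range]
      omega
    · intro n hn
      obtain ⟨hn1, hn2, hn3⟩ := Finset.mem_filter.1 hn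
      obtain ⟨m, hm, rfl⟩ := Finset.mem_image.1 hn1
      obtain ⟨hm1, hm2⟩ := Finset.mem_filter.1 hm
      refine ⟨pr_strictMono (Finset.mem_range.1 hm1), ?_⟩
      intro p hp hp6 hpz hmem
      have hfact : Fact p.Prime := ⟨hp⟩
      rw [Int.cast_natCast, Finset.mem_insert, Finset.mem_singleton] at hmem
      rcases hmem with h1 | h1
      · exact f4_prime_ne (pr_prime m) hn2 hp hpz h1
      · apply f4_prime_ne hm2 hn3 hp hpz
        have h2 : (2 : ZMod p) ≠ 0 := by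
          intro h3
          have h4 : ((2 : ℕ) : ZMod p) = 0 := by exact_mod_cast h3
          rw [ZMod.natCast_eq_zero_iff] at h4
          have := Nat.le_of_dvd (by norm_num) h4
          omega
        rw [Nat.cast_sub (by omega), Nat.cast_mul, h1]
        push_cast
        rw [mul_comm, mul_assoc, inv_mul_cancel₀ h2, mul_one, sub_self]

end Pool.Agent.Lib.H16X
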