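import Pool.Agent.Lib.H16X.D
import Pool.Agent.Lib.H16X.P1

/-!
# H16X: almost all indices are good
-/

set_option linter.unusedVariables false

namespace Pool.Agent.Lib.H16X

open Finset Pool.Agent.Lib.Sieve

open Classical in
/-- the bad indices -/
private noncomputable def G1B (L : ℕ) (D : ℝ) (X : ℕ) : Finset ℕ :=
  (range X).filter fun m => ∃ j < L, j ≤ m ∧ D < (pr m : ℝ) - (pr (m - j) : ℝ)

private theorem G1_tel (L X : ℕ) : ∑ m ∈ Ico L X, ((pr m : ℝ) - pr (m - L)) ≤ L * pr X := by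
  by_cases h : L ≤ X
  · obtain ⟨n, rfl⟩ := Nat.exists_eq_add_of_le h
    rw [sum_Ico_eq_sum_range, Nat.add_sub_cancel_left]
    have e : ∀ i, L + i - L = i := fun i => Nat.add_sub_cancel_left L i
    simp only [e, sum_sub_distrib]
    have h1 := sum_range_add (fun m => (pr m : ℝ)) L n
    have h2 := sum_range_add (fun m => (pr m : ℝ)) n L
    rw [add_comm n L] at h2
    have h3 : ∑ x ∈ range L, (pr (n + x) : ℝ) ≤ ∑ _x ∈ range L, (pr (L + n) : ℝ) := by
      refine sum_le_sum fun x hx => ?_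
      rw [mem_range] at hx
      exact_mod_cast pr_strictMono.monotone (by omega)
    rw [sum_const, card_range, nsmul_eq_mul] at h3
    have h4 : (0 : ℝ) ≤ ∑ x ∈ range L, (pr x : ℝ) := sum_nonneg fun x _ => Nat.cast_nonneg _
    linarith
  · rw [Ico_eq_empty (by omega), sum_empty]
    positivity

private theorem G1_cnt (L X : ℕ) (D : ℝ) (hD : 0 < D) (hL : (pr L : ℝ) ≤ D) :
    ((G1B L D X).card : ℝ) ≤ L * pr X / D := by
  have hmono := pr_strictMono.monotone
  have hsub : G1B L D X ⊆ Ico L X := by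
    intro m hm
    rw [G1B, mem_filter, mem_range] at hm
    obtain ⟨hX, j, hj, hjm, hd⟩ := hm
    rw [mem_Ico]
    refine ⟨?_, hX⟩
    by_contra hcon
    push Not at hcon
    have h1 : (pr m : ℝ) ≤ pr L := by exact_mod_cast hmono hcon.le
    have h2 : (0 : ℝ) ≤ pr (m - j) := Nat.cast_nonneg _
    linarith
  have h1 : ∑ _m ∈ G1B L D X, D ≤ ∑ m ∈ G1B L D X, ((pr m : ℝ) - pr (m - L)) := by
    refine sum_le_sum fun m hm => ?_
    rw [G1B, mem_filter, mem_range] at hm
    obtain ⟨hX, j, hj, hjm, hd⟩ := hm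
    have h2 : (pr (m - L) : ℝ) ≤ pr (m - j) := by exact_mod_cast hmono (by omega)
    linarith
  have h2 : ∑ m ∈ G1B L D X, ((pr m : ℝ) - pr (m - L)) ≤ ∑ m ∈ Ico L X, ((pr m : ℝ) - pr (m - L)) := by
    refine sum_le_sum_of_subset_of_nonneg hsub fun m _ _ => ?_
    have h2 : (pr (m - L) : ℝ) ≤ pr m := by exact_mod_cast hmono (by omega)
    linarith
  have h3 := G1_tel L X
  rw [sum_const, nsmul_eq_mul] at h1
  rw [le_div_iff₀ hD]
  linarith

private theorem G1_uu (i : ℕ) : (2 : ℝ) * 2 ^ i ≤ uu i := by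
  unfold uu
  have h1 : i + 1 ≤ 2 ^ i := Nat.lt_two_pow_self
  have h2 : 2 ^ (i + 1) ≤ 2 ^ 2 ^ i := Nat.pow_le_pow_right (by norm_num) h1
  calc (2 : ℝ) * 2 ^ i = ((2 ^ (i + 1) : ℕ) : ℝ) := by push_cast; ring
    _ ≤ ((2 ^ 2 ^ i : ℕ) : ℝ) := by exact_mod_cast h2

private theorem G1_sum (N : ℕ) : ∑ i ∈ range N, 1 / (uu i : ℝ) ≤ 1 := by
  have h1 : ∑ i ∈ range N, 1 / (uu i : ℝ) ≤ ∑ i ∈ range N, (1 / 2 : ℝ) * (1 / 2) ^ i := by
    refine sum_le_sum fun i _ => ?_
    have h2 := G1_uu i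
    calc 1 / (uu i : ℝ) ≤ 1 / (2 * 2 ^ i) := by gcongr
      _ = (1 / 2 : ℝ) * (1 / 2) ^ i := by
        rw [one_div_pow]
        field_simp
  refine h1.trans ?_
  rw [← mul_sum, geom_sum_eq (by norm_num)]
  have : (0 : ℝ) ≤ (1 / 2) ^ N := by positivity
  have h3 : ((1 / 2 : ℝ) ^ N - 1) / (1 / 2 - 1) = 2 * (1 - (1 / 2) ^ N) := by ring
  rw [h3]
  linarith

private theorem G1_log (x : ℝ) (hx : 0 < x) : Real.log x ≤ x := by
  have := Real.log_le_sub_one_of_pos hx
  linarith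

/-- Almost all `m` are good.

Proof. Fix `L ≥ 1`. If `L ≤ m < X` and the good inequality fails for some `j < L` with bound `D`, then
`pr m - pr (m - L) > D`; since `Σ_{L ≤ m < X} (pr m - pr (m - L)) ≤ L pr X` (telescoping), at most `L pr X / D` such `m`.
If `m < L`, `pr m - pr (m-j) ≤ pr m ≤ pr L`. Scale `i`: `L = u²`, `D = C1 u³ log X`, `u = uu i`: `pr L ≤ C L log (L+1) ≤ D`
when `C1` is large (`P1`; `u ≤ log X`), and the number of bad `m ≥ L` is `≤ u² pr X / (C1 u³ log X) ≤ C X / (C1 u)`. Sum over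
all `i`: `Σ_i 1/uu i ≤ 1`. Last condition: `L = (lg X)^a`, `D = (lg X)^(a+2)`: `pr L ≤ C L log (L+1) ≤ D` for large `X`
and at most `L pr X / D ≤ C X log X / (lg X)² ≤ ε X / 2` bad `m ≥ L`. Take `C1` large in terms of `ε`, then `X` large. -/
theorem G1 (a : ℕ) (ε : ℝ) (hε : 0 < ε) : ∃ C1 : ℝ, 1 ≤ C1 ∧ ∃ X0 : ℕ, ∀ X : ℕ, X0 ≤ X →
    ∀ A : Finset ℕ, (∀ m ∈ A, m < X ∧ ¬ Good C1 X a m) → (A.card : ℝ) ≤ ε * X := by
  classical
  obtain ⟨C, hC, hP⟩ := P1
  set C1 : ℝ := max (2 * C) (2 * C / ε) with hC1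
  have hC1a : 2 * C ≤ C1 := le_max_left _ _
  have hC1b : 2 * C / ε ≤ C1 := le_max_right _ _
  have hC10 : 0 < C1 := by linarith
  set Y : ℕ := ⌈C * a⌉₊ + ⌈4 * C / ε⌉₊ + 4 with hY
  refine ⟨C1, by linarith, 2 ^ Y, fun X hX A hA => ?_⟩
  have hX0 : X ≠ 0 := by
    have : 0 < 2 ^ Y := by positivity
    omega
  have hXR : (0 : ℝ) < X := by positivity
  have hlY : Y ≤ lg X := by
    unfold lg
    exact Nat.le_log_of_pow_le (by norm_num) hX
  have hl1 : C * a ≤ lg X := by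
    calc C * a ≤ (⌈C * a⌉₊ : ℝ) := Nat.le_ceil _
      _ ≤ (lg X : ℝ) := by exact_mod_cast (by omega : ⌈C * a⌉₊ ≤ lg X)
  have hl2 : 4 * C / ε ≤ lg X := by
    calc 4 * C / ε ≤ (⌈4 * C / ε⌉₊ : ℝ) := Nat.le_ceil _
      _ ≤ (lg X : ℝ) := by exact_mod_cast (by omega : ⌈4 * C / ε⌉₊ ≤ lg X)
  have hl3 : 4 ≤ lg X := by omega
  have hl3R : (4 : ℝ) ≤ lg X := by exact_mod_cast hl3
  have hX16 : 16 ≤ X := by
    have h1 : 2 ^ 4 ≤ 2 ^ Y := Nat.pow_le_pow_right (by norm_num) (by omega)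
    omega
  have hlog1 : 1 ≤ Real.log X := by
    rw [Real.le_log_iff_exp_le hXR]
    have h1 := Real.exp_one_lt_d9
    have h2 : (16 : ℝ) ≤ X := by exact_mod_cast hX16
    linarith
  have hlog2 : Real.log X ≤ 2 * lg X := by
    have h1 : X < 2 ^ (lg X + 1) := by
      unfold lg
      exact Nat.lt_pow_succ_log_self (by norm_num) X
    have h2 : (X : ℝ) ≤ 2 ^ (lg X + 1) := by exact_mod_cast h1.le
    have h3 : Real.log X ≤ (lg X + 1 : ℕ) * Real.log 2 := by
      rw [← Real.log_pow]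
      exact Real.log_le_log hXR h2
    have h4 : Real.log 2 ≤ 1 := by
      have := Real.log_two_lt_d9
      linarith
    push_cast at h3
    nlinarith
  have hprX : (pr X : ℝ) ≤ C * X * Real.log X := (hP X (by omega)).2
  -- the scales
  have hscale : ∀ i, ((G1B (uu i ^ 2) (C1 * (uu i : ℝ) ^ 3 * Real.log X) X).card : ℝ) ≤ C * X / C1 * (1 / (uu i : ℝ)) := by
    intro i
    have hu := uu_ge i
    have huR : (2 : ℝ) ≤ uu i := by exact_mod_cast hu
    have h1 := G1_cnt (uu i ^ 2) X (C1 * (uu i : ℝ) ^ 3 * Real.log X) (by positivity) (by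
      have h2 := (hP (uu i ^ 2) (by nlinarith)).2
      push_cast at h2
      rw [Real.log_pow] at h2
      push_cast at h2
      have h3 := G1_log (uu i) (by linarith)
      calc (pr (uu i ^ 2) : ℝ) ≤ C * (uu i : ℝ) ^ 2 * (2 * Real.log (uu i)) := h2
        _ ≤ C * (uu i : ℝ) ^ 2 * (2 * uu i) := by gcongr
        _ = 2 * C * (uu i : ℝ) ^ 3 * 1 := by ring
        _ ≤ C1 * (uu i : ℝ) ^ 3 * Real.log X := by gcongr)
    refine h1.trans ?_
    push_cast
    calc (uu i : ℝ) ^ 2 * pr X / (C1 * (uu i : ℝ) ^ 3 * Real.log X)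
        ≤ (uu i : ℝ) ^ 2 * (C * X * Real.log X) / (C1 * (uu i : ℝ) ^ 3 * Real.log X) := by gcongr
      _ = C * X / C1 * (1 / (uu i : ℝ)) := by field_simp
  -- the last condition
  have hlast : ((G1B (lg X ^ a) ((lg X : ℝ) ^ (a + 2)) X).card : ℝ) ≤ 2 * C * X / lg X := by
    have h1 := G1_cnt (lg X ^ a) X ((lg X : ℝ) ^ (a + 2)) (by positivity) (by
      by_cases h2 : 2 ≤ lg X ^ a
      · have h3 := (hP (lg X ^ a) h2).2
        push_cast at h3
        rw [Real.log_pow] at h3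
        have h4 := G1_log (lg X) (by linarith)
        calc (pr (lg X ^ a) : ℝ) ≤ C * (lg X : ℝ) ^ a * (a * Real.log (lg X)) := h3
          _ ≤ C * (lg X : ℝ) ^ a * (a * lg X) := by gcongr
          _ = (C * a) * (lg X : ℝ) ^ (a + 1) := by ring
          _ ≤ lg X * (lg X : ℝ) ^ (a + 1) := by gcongr
          _ = (lg X : ℝ) ^ (a + 2) := by ring
      · have h3 : lg X ^ a = 1 := by
          have : 1 ≤ lg X ^ a := Nat.one_le_pow _ _ (by omega)
          omega
        rw [h3]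
        have h4 : pr 1 = 3 := by
          unfold pr
          exact Nat.nth_prime_one_eq_three
        rw [h4]
        have h5 : (4 : ℝ) ^ (a + 2) ≤ (lg X : ℝ) ^ (a + 2) := by gcongr
        have h6 : (4 : ℝ) ^ 2 ≤ 4 ^ (a + 2) := pow_le_pow_right₀ (by norm_num) (by omega)
        push_cast
        linarith)
    refine h1.trans ?_
    push_cast
    calc (lg X : ℝ) ^ a * pr X / (lg X : ℝ) ^ (a + 2)
        ≤ (lg X : ℝ) ^ a * (C * X * (2 * lg X)) / (lg X : ℝ) ^ (a + 2) := by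
          have : (pr X : ℝ) ≤ C * X * (2 * lg X) := hprX.trans (by gcongr)
          gcongr
      _ = 2 * C * X / lg X := by
          rw [pow_add]
          field_simp
  -- the union
  have hsub : A ⊆ ((range X).biUnion fun i => G1B (uu i ^ 2) (C1 * (uu i : ℝ) ^ 3 * Real.log X) X) ∪
      G1B (lg X ^ a) ((lg X : ℝ) ^ (a + 2)) X := by
    intro m hm
    obtain ⟨hmX, hg⟩ := hA m hm
    rw [mem_union, mem_biUnion]
    unfold Good at hg
    rw [not_and_or] at hg
    rcases hg with hg | hg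
    · left
      push Not at hg
      obtain ⟨i, hi, j, hj, hjm, hd⟩ := hg
      refine ⟨i, ?_, ?_⟩
      · rw [mem_range]
        have h1 : i < uu i := by
          have h2 := G1_uu i
          have h3 : (i : ℝ) < 2 ^ i := by exact_mod_cast (Nat.lt_two_pow_self : i < 2 ^ i)
          have h4 : (i : ℝ) < uu i := by
            have : (0 : ℝ) < 2 ^ i := by positivity
            linarith
          exact_mod_cast h4
        have h2 : uu i ≤ yy (i + 1) := by
          unfold yy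
          have h3 := uu_ge i
          calc uu i ≤ uu i ^ 64 := Nat.le_self_pow (by norm_num) _
            _ = uu (i + 1) ^ 32 := by rw [uu_succ, ← pow_mul]
        have h3 : (yy (i + 1) : ℝ) ≤ X := by
          have h4 := G1_log X hXR
          have h5 : Real.log X / 16 ≤ Real.log X := by linarith
          linarith
        have h4 : yy (i + 1) ≤ X := by exact_mod_cast h3
        omega
      · rw [G1B, mem_filter, mem_range]
        exact ⟨hmX, j, hj, hjm, hd⟩
    · right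
      push Not at hg
      obtain ⟨j, hj, hjm, hd⟩ := hg
      rw [G1B, mem_filter, mem_range]
      exact ⟨hmX, j, hj, hjm, hd⟩
  have hcard := (card_le_card hsub).trans (card_union_le _ _)
  have hcard2 : ((((range X).biUnion fun i => G1B (uu i ^ 2) (C1 * (uu i : ℝ) ^ 3 * Real.log X) X)).card : ℝ) ≤
      C * X / C1 := by
    have h1 : ((((range X).biUnion fun i => G1B (uu i ^ 2) (C1 * (uu i : ℝ) ^ 3 * Real.log X) X)).card : ℝ) ≤
        ∑ i ∈ range X, ((G1B (uu i ^ 2) (C1 * (uu i : ℝ) ^ 3 * Real.log X) X).card : ℝ) := by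
      exact_mod_cast card_biUnion_le
    refine (h1.trans (sum_le_sum fun i _ => hscale i)).trans ?_
    rw [← mul_sum]
    have h2 := G1_sum X
    have h3 : 0 ≤ C * X / C1 := by positivity
    calc C * X / C1 * ∑ i ∈ range X, 1 / (uu i : ℝ) ≤ C * X / C1 * 1 := mul_le_mul_of_nonneg_left h2 h3
      _ = C * X / C1 := mul_one _
  have hcard3 : (A.card : ℝ) ≤
      ((((range X).biUnion fun i => G1B (uu i ^ 2) (C1 * (uu i : ℝ) ^ 3 * Real.log X) X)).card : ℝ) +
      ((G1B (lg X ^ a) ((lg X : ℝ) ^ (a + 2)) X).card : ℝ) := by exact_mod_cast hcard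
  have h1 : C * X / C1 ≤ ε / 2 * X := by
    rw [div_le_iff₀ hC10]
    rw [div_le_iff₀ hε] at hC1b
    nlinarith
  have h2 : 2 * C * X / lg X ≤ ε / 2 * X := by
    rw [div_le_iff₀ (by linarith)]
    rw [div_le_iff₀ hε] at hl2
    nlinarith
  linarith

end Pool.Agent.Lib.H16X
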