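import Pool.Agent.Lib.H16X.D
import Pool.Agent.Lib.H16X.F3
import Pool.Agent.Lib.H16X.F4
import Pool.Agent.Lib.H16X.G1

/-!
# H16X: many progressions with good indices
-/

set_option linter.unusedVariables false

namespace Pool.Agent.Lib.H16X

open Finset Pool.Agent.Lib.Sieve

open Classical in
private theorem f5_fst (X : ℕ) (A : Finset ℕ) (hA : ∀ m ∈ A, m < X) (M : ℝ)
    (hM : ∀ m < X, (((range X).filter (fun k => (2 * pr m - pr k).Prime)).card : ℝ) ≤ M) :
    (((range X ×ˢ range X).filter (fun q : ℕ × ℕ => q.1 ∈ A ∧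
      (2 * pr q.1 - pr q.2).Prime)).card : ℝ) ≤ A.card * M := by
  have hsub : (range X ×ˢ range X).filter (fun q : ℕ × ℕ => q.1 ∈ A ∧
      (2 * pr q.1 - pr q.2).Prime) ⊆ A.biUnion (fun m =>
        ((range X).filter (fun k => (2 * pr m - pr k).Prime)).image (fun k => (m, k))) := by
    intro q hq
    rw [mem_filter, mem_product] at hq
    rw [mem_biUnion]
    refine ⟨q.1, hq.2.1, mem_image.2 ⟨q.2, mem_filter.2 ⟨hq.1.2, hq.2.2⟩, rfl⟩⟩
  calc (((range X ×ˢ range X).filter (fun q : ℕ × ℕ => q.1 ∈ A ∧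
      (2 * pr q.1 - pr q.2).Prime)).card : ℝ)
      ≤ ((∑ m ∈ A, ((range X).filter (fun k => (2 * pr m - pr k).Prime)).card : ℕ) : ℝ) := by
        have h1 := card_le_card hsub
        have h2 := h1.trans (card_biUnion_le)
        have h3 := h2.trans (sum_le_sum fun m _ => card_image_le (s := (range X).filter
          (fun k => (2 * pr m - pr k).Prime)) (f := fun k => (m, k)))
        exact_mod_cast h3
    _ = ∑ m ∈ A, (((range X).filter (fun k => (2 * pr m - pr k).Prime)).card : ℝ) := by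
        push_cast
        rfl
    _ ≤ ∑ m ∈ A, M := sum_le_sum fun m hm => hM m (hA m hm)
    _ = A.card * M := by rw [sum_const, nsmul_eq_mul]

open Classical in
private theorem f5_snd (X : ℕ) (A : Finset ℕ) (hA : ∀ m ∈ A, m < X) (M : ℝ)
    (hM : ∀ k < X, (((range X).filter (fun m => (2 * pr m - pr k).Prime)).card : ℝ) ≤ M) :
    (((range X ×ˢ range X).filter (fun q : ℕ × ℕ => q.2 ∈ A ∧
      (2 * pr q.1 - pr q.2).Prime)).card : ℝ) ≤ A.card * M := by
  have hsub : (range X ×ˢ range X).filter (fun q : ℕ × ℕ => q.2 ∈ A ∧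
      (2 * pr q.1 - pr q.2).Prime) ⊆ A.biUnion (fun k =>
        ((range X).filter (fun m => (2 * pr m - pr k).Prime)).image (fun m => (m, k))) := by
    intro q hq
    rw [mem_filter, mem_product] at hq
    rw [mem_biUnion]
    refine ⟨q.2, hq.2.1, mem_image.2 ⟨q.1, mem_filter.2 ⟨hq.1.1, hq.2.2⟩, rfl⟩⟩
  calc (((range X ×ˢ range X).filter (fun q : ℕ × ℕ => q.2 ∈ A ∧
      (2 * pr q.1 - pr q.2).Prime)).card : ℝ)
      ≤ ((∑ k ∈ A, ((range X).filter (fun m => (2 * pr m - pr k).Prime)).card : ℕ) : ℝ) := by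
        have h1 := card_le_card hsub
        have h2 := h1.trans (card_biUnion_le)
        have h3 := h2.trans (sum_le_sum fun k _ => card_image_le (s := (range X).filter
          (fun m => (2 * pr m - pr k).Prime)) (f := fun m => (m, k)))
        exact_mod_cast h3
    _ = ∑ k ∈ A, (((range X).filter (fun m => (2 * pr m - pr k).Prime)).card : ℝ) := by
        push_cast
        rfl
    _ ≤ ∑ m ∈ A, M := sum_le_sum fun m hm => hM m (hA m hm)
    _ = A.card * M := by rw [sum_const, nsmul_eq_mul]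

private theorem f5_ge (m : ℕ) : m ≤ pr m := pr_strictMono.id_le m

open Classical in
/-- Many progressions with good indices.

Proof. `c` from `F3`, `C` from `F4`. `G1` with `ε = c / (4 C)` gives `C1`; by `F4` the pairs of `F3` with a bad `m` are at most
`ε X · C X / log X = c X² / (4 log X)`, the same for a bad `k`. Those with `pr m ≤ √X` are at most `√X · C X / log X`. If
`η ≤ 1/4` and `(1-η) X ≤ m`, `k ≤ η X` then `k < m`, so `pr k < pr m`. -/
theorem F5 (η : ℝ) (hη : 0 < η) (hη1 : η ≤ 1 / 4) (a : ℕ) : ∃ c : ℝ, 0 < c ∧ ∃ C1 : ℝ, 1 ≤ C1 ∧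
    ∃ X0 : ℕ, ∀ X : ℕ, X0 ≤ X → c * (X : ℝ) ^ 2 / Real.log X ≤
      (((range X ×ˢ range X).filter (fun q : ℕ × ℕ => ((1 - η) * X ≤ (q.1 : ℝ) ∧ Real.sqrt X < pr q.1 ∧
        Good C1 X a q.1) ∧ ((q.2 : ℝ) ≤ η * X ∧ Good C1 X a q.2) ∧
        (pr q.2 < pr q.1 ∧ (2 * pr q.1 - pr q.2).Prime))).card : ℝ) := by
  obtain ⟨c, hc, X1, h3⟩ := F3 η hη hη1
  obtain ⟨C, hC, X2, h4⟩ := F4
  have hε : 0 < c / (4 * C) := by positivity
  obtain ⟨C1, hC1, X3, h5⟩ := G1 a (c / (4 * C)) hε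
  refine ⟨c / 4, by positivity, C1, hC1, max (max X1 X2) (max X3 (max 3 (⌈(16 * C / c) ^ 2⌉₊ + 1))), ?_⟩
  intro X hX
  have hX1 : X1 ≤ X := by
    exact (le_max_left _ _).trans ((le_max_left _ _).trans hX)
  have hX2 : X2 ≤ X := (le_max_right _ _).trans ((le_max_left _ _).trans hX)
  have hX3 : X3 ≤ X := (le_max_left _ _).trans ((le_max_right _ _).trans hX)
  have hX4 : 3 ≤ X := (le_max_left _ _).trans ((le_max_right _ _).trans ((le_max_right _ _).trans hX))
  have hX5 : ⌈(16 * C / c) ^ 2⌉₊ + 1 ≤ X :=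
    (le_max_right _ _).trans ((le_max_right _ _).trans ((le_max_right _ _).trans hX))
  have hXR : (3 : ℝ) ≤ X := by exact_mod_cast hX4
  have hX0 : (0 : ℝ) < X := by linarith
  have hlog : 0 < Real.log X := Real.log_pos (by linarith)
  have hsq : 16 * C / c ≤ Real.sqrt X := by
    apply Real.le_sqrt_of_sq_le
    have e1 : (16 * C / c) ^ 2 ≤ (⌈(16 * C / c) ^ 2⌉₊ : ℝ) := Nat.le_ceil _
    have e2 : ((⌈(16 * C / c) ^ 2⌉₊ : ℕ) : ℝ) ≤ X := by
      have : ⌈(16 * C / c) ^ 2⌉₊ ≤ X := by omega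
      exact_mod_cast this
    linarith
  have hsq1 : (1 : ℝ) ≤ Real.sqrt X := Real.le_sqrt_of_sq_le (by linarith)
  have hsqm : Real.sqrt X * Real.sqrt X = X := Real.mul_self_sqrt hX0.le
  obtain ⟨h4a, h4b⟩ := h4 X hX2
  have h3' := h3 X hX1
  set M : ℝ := C * X / Real.log X with hM
  have hM0 : 0 ≤ M := by positivity
  -- the exceptional sets
  set A1 : Finset ℕ := (range X).filter (fun m => ¬ Good C1 X a m) with hA1
  set A2 : Finset ℕ := (range X).filter (fun m => (pr m : ℝ) ≤ Real.sqrt X) with hA2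
  have hA1c : (A1.card : ℝ) ≤ c / (4 * C) * X := by
    apply h5 X hX3 A1
    intro m hm
    rw [hA1, mem_filter, mem_range] at hm
    exact hm
  have hA1x : ∀ m ∈ A1, m < X := by
    intro m hm
    rw [hA1, mem_filter, mem_range] at hm
    exact hm.1
  have hA2x : ∀ m ∈ A2, m < X := by
    intro m hm
    rw [hA2, mem_filter, mem_range] at hm
    exact hm.1
  have hA2c : (A2.card : ℝ) ≤ 2 * Real.sqrt X := by
    have hsub : A2 ⊆ range (⌊Real.sqrt X⌋₊ + 1) := by
      intro m hm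
      rw [hA2, mem_filter] at hm
      rw [mem_range]
      have e1 : (m : ℝ) ≤ Real.sqrt X := by
        have : (m : ℝ) ≤ pr m := by exact_mod_cast f5_ge m
        exact this.trans hm.2
      have e2 : m ≤ ⌊Real.sqrt X⌋₊ := Nat.le_floor e1
      omega
    have h1 := card_le_card hsub
    rw [card_range] at h1
    have h2 : (A2.card : ℝ) ≤ (⌊Real.sqrt X⌋₊ : ℝ) + 1 := by exact_mod_cast h1
    have h3 : (⌊Real.sqrt X⌋₊ : ℝ) ≤ Real.sqrt X := Nat.floor_le (Real.sqrt_nonneg _)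
    linarith
  have b1 := f5_fst X A1 hA1x M h4a
  have b2 := f5_snd X A1 hA1x M h4b
  have b3 := f5_fst X A2 hA2x M h4a
  -- the covering
  have hsub : (range X ×ˢ range X).filter (fun q : ℕ × ℕ => (1 - η) * X ≤ (q.1 : ℝ) ∧
      (q.2 : ℝ) ≤ η * X ∧ (2 * pr q.1 - pr q.2).Prime) ⊆
      (range X ×ˢ range X).filter (fun q : ℕ × ℕ => ((1 - η) * X ≤ (q.1 : ℝ) ∧ Real.sqrt X < pr q.1 ∧
        Good C1 X a q.1) ∧ ((q.2 : ℝ) ≤ η * X ∧ Good C1 X a q.2) ∧
        (pr q.2 < pr q.1 ∧ (2 * pr q.1 - pr q.2).Prime)) ∪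
      ((range X ×ˢ range X).filter (fun q : ℕ × ℕ => q.1 ∈ A1 ∧ (2 * pr q.1 - pr q.2).Prime) ∪
      ((range X ×ˢ range X).filter (fun q : ℕ × ℕ => q.2 ∈ A1 ∧ (2 * pr q.1 - pr q.2).Prime) ∪
      (range X ×ˢ range X).filter (fun q : ℕ × ℕ => q.1 ∈ A2 ∧ (2 * pr q.1 - pr q.2).Prime))) := by
    intro q hq
    rw [mem_filter] at hq
    obtain ⟨hqX, hq1, hq2, hq3⟩ := hq
    have hqX' := mem_product.1 hqX
    by_cases g1 : Good C1 X a q.1
    · by_cases g2 : Good C1 X a q.2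
      · by_cases g3 : (pr q.1 : ℝ) ≤ Real.sqrt X
        · have hm : q.1 ∈ A2 := by
            rw [hA2, mem_filter]
            exact ⟨hqX'.1, g3⟩
          exact mem_union_right _ (mem_union_right _ (mem_union_right _
            (mem_filter.2 ⟨hqX, hm, hq3⟩)))
        · push Not at g3
          refine mem_union_left _ (mem_filter.2 ⟨hqX, ⟨hq1, g3, g1⟩, ⟨hq2, g2⟩, ?_, hq3⟩)
          apply pr_strictMono
          have : (q.2 : ℝ) < q.1 := by nlinarith
          exact_mod_cast this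
      · have hm : q.2 ∈ A1 := by
          rw [hA1, mem_filter]
          exact ⟨hqX'.2, g2⟩
        exact mem_union_right _ (mem_union_right _ (mem_union_left _
          (mem_filter.2 ⟨hqX, hm, hq3⟩)))
    · have hm : q.1 ∈ A1 := by
        rw [hA1, mem_filter]
        exact ⟨hqX'.1, g1⟩
      exact mem_union_right _ (mem_union_left _ (mem_filter.2 ⟨hqX, hm, hq3⟩))
  have hcard := (card_le_card hsub).trans ((card_union_le _ _).trans
    (Nat.add_le_add_left ((card_union_le _ _).trans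
      (Nat.add_le_add_left (card_union_le _ _) _)) _))
  have hcardR : (((range X ×ˢ range X).filter (fun q : ℕ × ℕ => (1 - η) * X ≤ (q.1 : ℝ) ∧
      (q.2 : ℝ) ≤ η * X ∧ (2 * pr q.1 - pr q.2).Prime)).card : ℝ) ≤
      (((range X ×ˢ range X).filter (fun q : ℕ × ℕ => ((1 - η) * X ≤ (q.1 : ℝ) ∧ Real.sqrt X < pr q.1 ∧
        Good C1 X a q.1) ∧ ((q.2 : ℝ) ≤ η * X ∧ Good C1 X a q.2) ∧
        (pr q.2 < pr q.1 ∧ (2 * pr q.1 - pr q.2).Prime))).card : ℝ) +
      ((((range X ×ˢ range X).filter (fun q : ℕ × ℕ => q.1 ∈ A1 ∧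
        (2 * pr q.1 - pr q.2).Prime)).card : ℝ) +
      ((((range X ×ˢ range X).filter (fun q : ℕ × ℕ => q.2 ∈ A1 ∧
        (2 * pr q.1 - pr q.2).Prime)).card : ℝ) +
      (((range X ×ˢ range X).filter (fun q : ℕ × ℕ => q.1 ∈ A2 ∧
        (2 * pr q.1 - pr q.2).Prime)).card : ℝ))) := by
    exact_mod_cast hcard
  -- numbers
  have hA1M : (A1.card : ℝ) * M ≤ c / 4 * (X : ℝ) ^ 2 / Real.log X := by
    calc (A1.card : ℝ) * M ≤ c / (4 * C) * X * M := mul_le_mul_of_nonneg_right hA1c hM0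
      _ = c / 4 * (X : ℝ) ^ 2 / Real.log X := by
        rw [hM]
        have hC0 : C ≠ 0 := by linarith
        field_simp
  have hA2M : (A2.card : ℝ) * M ≤ c / 8 * (X : ℝ) ^ 2 / Real.log X := by
    calc (A2.card : ℝ) * M ≤ 2 * Real.sqrt X * M := mul_le_mul_of_nonneg_right hA2c hM0
      _ = (2 * C) * Real.sqrt X * X / Real.log X := by
        rw [hM]
        ring
      _ ≤ (c / 8 * X) * X / Real.log X := by
        apply div_le_div_of_nonneg_right _ hlog.le
        apply mul_le_mul_of_nonneg_right _ hX0.le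
        have e1 : 16 * C ≤ c * Real.sqrt X := by
          rw [div_le_iff₀ hc] at hsq
          linarith
        have e2 : 2 * C * Real.sqrt X ≤ c / 8 * (Real.sqrt X * Real.sqrt X) := by
          nlinarith
        rw [hsqm] at e2
        exact e2
      _ = c / 8 * (X : ℝ) ^ 2 / Real.log X := by ring
  have hfin : c / 4 * (X : ℝ) ^ 2 / Real.log X + (c / 4 * (X : ℝ) ^ 2 / Real.log X +
      (c / 4 * (X : ℝ) ^ 2 / Real.log X + c / 8 * (X : ℝ) ^ 2 / Real.log X)) ≤
      c * (X : ℝ) ^ 2 / Real.log X := by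
    have e0 : 0 ≤ (X : ℝ) ^ 2 / Real.log X := by positivity
    have e1 : ∀ t : ℝ, t * (X : ℝ) ^ 2 / Real.log X = t * ((X : ℝ) ^ 2 / Real.log X) := by
      intro t
      ring
    rw [e1, e1, e1]
    nlinarith
  linarith

end Pool.Agent.Lib.H16X
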