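import Pool.Agent.Lib.H16X.D
import Pool.Agent.Lib.H16X.M2
import Pool.Agent.Lib.H16X.A2

/-!
# H16X: the weights dominate the primes
-/

set_option linter.unusedVariables false

namespace Pool.Agent.Lib.H16X

open Finset Pool.Agent.Lib.Sieve

theorem m3_ndvd (p q : ℕ) (hp : p.Prime) (hq : q.Prime) (h : p < q) : ¬((p : ℤ) ∣ ((q : ℕ) : ℤ)) := by
  intro h1
  have h2 : p ∣ q := by exact_mod_cast h1
  have h3 := (Nat.prime_dvd_prime_iff_eq hp hq).1 h2
  omega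

theorem m3_nu (S : Finset ℕ) (q : ℕ) (h : ∀ p ∈ S, ¬((p : ℤ) ∣ ((q : ℕ) : ℤ))) : nu S q = (VV S)⁻¹ := by
  unfold nu VV
  rw [← Finset.prod_inv_distrib]
  refine Finset.prod_congr rfl fun p hp => ?_
  rw [if_neg (h p hp)]

/-- Growth: `z` is larger than all powers of the logarithm. -/
theorem m3_growth (K a : ℕ) (ha : 1 ≤ a) : ∃ X0 : ℕ, ∀ X : ℕ, X0 ≤ X → 256 ≤ Real.log X ∧ 64 ≤ X ∧
    ∀ z : ℕ, X < (z + 1) ^ (16 * (K + 1)) → lg X ^ a ≤ z ∧ Real.log X ≤ z ∧ 2 ≤ z ∧ (lg X : ℝ) ≤ 2 * Real.log X := by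
  set n := a * (16 * (K + 1)) with hn
  have h1 := (Real.isLittleO_pow_log_id_atTop (n := n)).bound (by positivity : (0 : ℝ) < ((6 : ℝ) ^ n)⁻¹)
  obtain ⟨x0, hx0⟩ := Filter.eventually_atTop.1 h1
  refine ⟨max 64 (max ⌈x0⌉₊ ⌈Real.exp 256⌉₊), ?_⟩
  intro X hX
  have a1 : 64 ≤ X := (le_max_left _ _).trans hX
  have a2 : ⌈x0⌉₊ ≤ X := ((le_max_left _ _).trans (le_max_right _ _)).trans hX
  have a3 : ⌈Real.exp 256⌉₊ ≤ X := ((le_max_right _ _).trans (le_max_right _ _)).trans hX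
  have hXr : (64 : ℝ) ≤ X := by exact_mod_cast a1
  have b2 : x0 ≤ X := (Nat.le_ceil x0).trans (by exact_mod_cast a2)
  have b3 : Real.exp 256 ≤ X := (Nat.le_ceil _).trans (by exact_mod_cast a3)
  have hL : 256 ≤ Real.log X := by
    rw [Real.le_log_iff_exp_le (by linarith)]
    exact b3
  have h2 := hx0 X b2
  rw [Real.norm_of_nonneg (by positivity), id, Real.norm_of_nonneg (by positivity)] at h2
  have h3 : (6 * Real.log X) ^ n ≤ X := by
    rw [mul_pow]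
    have h4 : (0 : ℝ) < 6 ^ n := by positivity
    calc (6 : ℝ) ^ n * Real.log X ^ n ≤ 6 ^ n * ((6 ^ n)⁻¹ * X) := by gcongr
      _ = X := by rw [← mul_assoc, mul_inv_cancel₀ h4.ne', one_mul]
  have hlg : (lg X : ℝ) ≤ 2 * Real.log X := by
    have h5 : (2 : ℝ) ^ lg X ≤ X := by
      have := Nat.pow_log_le_self 2 (by omega : X ≠ 0)
      unfold lg
      exact_mod_cast this
    have h6 := Real.log_le_log (by positivity) h5
    rw [Real.log_pow] at h6
    have h7 := Real.log_two_gt_d9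
    have h8 : (0 : ℝ) ≤ lg X := by positivity
    nlinarith
  have h11 : 3 * (2 * Real.log X) ^ a ≤ (6 * Real.log X) ^ a := by
    have e : (6 : ℝ) * Real.log X = 3 * (2 * Real.log X) := by ring
    have e2 : (6 * Real.log X) ^ a = 3 ^ a * (2 * Real.log X) ^ a := by rw [e, mul_pow 3 (2 * Real.log X) a]
    rw [e2]
    have h12 : (3 : ℝ) ≤ 3 ^ a := le_self_pow₀ (by norm_num) (by omega)
    have h12' : (0 : ℝ) ≤ (2 * Real.log X) ^ a := by positivity
    exact mul_le_mul_of_nonneg_right h12 h12'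
  have hL2 : 1 ≤ 2 * Real.log X := by linarith
  have h13 : 2 * Real.log X ≤ (2 * Real.log X) ^ a := le_self_pow₀ hL2 (by omega)
  have h14 : (lg X : ℝ) ^ a ≤ (2 * Real.log X) ^ a := by gcongr
  have h17 : ∀ z : ℝ, (6 * Real.log X) ^ a < z + 1 → (lg X : ℝ) ^ a ≤ z ∧ Real.log X ≤ z ∧ 2 ≤ z := by
    intro z hz
    clear h3 hx0
    refine ⟨by linarith, by linarith, by linarith⟩
  refine ⟨hL, a1, ?_⟩
  intro z hz
  have h9 : (6 * Real.log X) ^ a < (z : ℝ) + 1 := by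
    have h10 : ((6 * Real.log X) ^ a) ^ (16 * (K + 1)) < ((z : ℝ) + 1) ^ (16 * (K + 1)) := by
      rw [← pow_mul]
      refine lt_of_le_of_lt h3 ?_
      exact_mod_cast hz
    exact lt_of_pow_lt_pow_left₀ _ (by positivity) h10
  obtain ⟨h15, h16, h18⟩ := h17 z h9
  refine ⟨by exact_mod_cast h15, h16, by exact_mod_cast h18, hlg⟩

theorem m3_real (C D K a L l : ℝ) (hC : 1 ≤ C) (hD : 1 ≤ D) (hK : 0 ≤ K) (ha : 1 ≤ a) (hL : 0 < L) (hl : 0 < l) :
    L = 512 * C ^ 2 * D * (K + 1) * a * (l / (4 * (C * D)) * (L / (32 * (K + 1)) / (2 * (C * (2 * a * l))))) := by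
  have h1 : K + 1 ≠ 0 := by linarith
  have h2 : C ≠ 0 := by linarith
  have h3 : D ≠ 0 := by linarith
  have h4 : a ≠ 0 := by linarith
  have h5 : l ≠ 0 := hl.ne'
  field_simp
  norm_num

/-- The factor `nu`. -/
theorem m3_A (C : ℝ) (hC1 : 1 ≤ C) (hC2 : ∀ w z : ℕ, 2 ≤ w → w ≤ z → VV (sprimes w z) ≤ C * Real.log w / Real.log z)
    (hC3 : ∀ (z : ℕ) (T : Finset ℕ), 2 ≤ z → (∀ p ∈ T, p.Prime ∧ p ≤ z) →
      0 < VV T ∧ 1 ≤ (VV T)⁻¹ ∧ (VV T)⁻¹ ≤ C * Real.log z) (y0 y y' z q : ℕ) (L : ℝ) (hL : 256 ≤ L) (h0 : 2 ≤ y0)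
    (hy0 : 1 ≤ Real.log (y0 : ℝ)) (h1 : y0 ≤ y) (h2 : y' = y ^ 2) (h3 : L / 16 < y') (h4 : y ≤ z) (hq : q.Prime)
    (hzq : z < q) : Real.log L / (4 * (C * Real.log (y0 : ℝ))) ≤ nu (sprimes y0 y) q := by
  have hL0 : 0 < L := by linarith
  have hlL : 0 < Real.log L := Real.log_pos (by linarith)
  have hnu : nu (sprimes y0 y) q = (VV (sprimes y0 y))⁻¹ := by
    apply m3_nu
    intro p hp
    rw [mem_sprimes] at hp
    exact m3_ndvd p q hp.1 hq (by omega)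
  have hVB := hC2 _ _ h0 h1
  have hVB0 : 0 < VV (sprimes y0 y) := (hC3 y _ (h0.trans h1) (fun p hp => by
    rw [mem_sprimes] at hp
    exact ⟨hp.1, hp.2.2⟩)).1
  have hlyi : Real.log L / 4 ≤ Real.log (y : ℝ) := by
    have k1 : Real.log (y' : ℝ) = 2 * Real.log (y : ℝ) := by
      rw [h2]
      push_cast
      rw [Real.log_pow]
      norm_num
    have k2 : Real.log (L / 16) ≤ Real.log (y' : ℝ) := Real.log_le_log (by positivity) h3.le
    have k3 : Real.log L / 2 ≤ Real.log (L / 16) := by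
      have k4 : Real.sqrt L ≤ L / 16 := by
        rw [Real.sqrt_le_left (by positivity)]
        nlinarith
      have k5 : Real.log (Real.sqrt L) ≤ Real.log (L / 16) := Real.log_le_log (Real.sqrt_pos.2 hL0) k4
      rwa [Real.log_sqrt hL0.le] at k5
    linarith
  have hlyi0 : 0 < Real.log (y : ℝ) := by linarith
  have hCy : 0 < C * Real.log (y0 : ℝ) := by positivity
  rw [hnu]
  calc Real.log L / (4 * (C * Real.log (y0 : ℝ))) = (Real.log L / 4) / (C * Real.log (y0 : ℝ)) := by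
        field_simp
    _ ≤ Real.log (y : ℝ) / (C * Real.log (y0 : ℝ)) := by gcongr
    _ = (C * Real.log (y0 : ℝ) / Real.log (y : ℝ))⁻¹ := by rw [inv_div]
    _ ≤ (VV (sprimes y0 y))⁻¹ := inv_anti₀ hVB0 hVB

/-- The factor `nA`. -/
theorem m3_B (C : ℝ) (hC1 : 1 ≤ C) (hC2 : ∀ w z : ℕ, 2 ≤ w → w ≤ z → VV (sprimes w z) ≤ C * Real.log w / Real.log z)
    (K a X z q : ℕ) (ha : 1 ≤ a) (lam : Finset ℕ → ℝ) (hlam : IsLam K z lam) (hX64 : 64 ≤ X) (hL : 256 ≤ Real.log X)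
    (hZz : lg X ^ a ≤ z) (hz2 : 2 ≤ z) (hlg : (lg X : ℝ) ≤ 2 * Real.log X) (hz : X < (z + 1) ^ (16 * (K + 1)))
    (hq : q.Prime) (hzq : z < q) :
    Real.log X / (32 * ((K : ℝ) + 1)) / (2 * (C * (2 * a * Real.log (Real.log X)))) ≤ nA lam (lg X ^ a) z q := by
  set L := Real.log X with hLd
  have hL0 : 0 < L := lt_of_lt_of_le (by norm_num) hL
  have hlL : 0 < Real.log L := Real.log_pos (lt_of_lt_of_le (by norm_num) hL)
  have hlg6 : 6 ≤ lg X := by
    unfold lg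
    calc 6 = Nat.log 2 64 := by
          rw [show (64 : ℕ) = 2 ^ 6 by norm_num, Nat.log_pow (by norm_num)]
      _ ≤ Nat.log 2 X := Nat.log_mono_right hX64
  have hZ6 : 6 ≤ lg X ^ a := hlg6.trans (Nat.le_self_pow (by omega) _)
  obtain ⟨-, m2, m3, -, -, m6⟩ := A2 K z (lg X ^ a) lam hlam hZ6
  have hnA : nA lam (lg X ^ a) z q = (MA lam (lg X ^ a) z)⁻¹ := by
    apply m6
    intro p hp
    rw [mem_sprimes] at hp
    exact m3_ndvd p q hp.1 hq (lt_of_le_of_lt hp.2.2 hzq)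
  have hVZ : VV (sprimes (lg X ^ a) z) ≤ C * Real.log ((lg X ^ a : ℕ) : ℝ) / Real.log z :=
    hC2 _ _ ((by norm_num : 2 ≤ 6).trans hZ6) hZz
  have hz0 : (2 : ℝ) ≤ z := by exact_mod_cast hz2
  have hlz : L / (32 * ((K : ℝ) + 1)) ≤ Real.log z := by
    have h1 : (X : ℝ) ≤ ((z : ℝ) + 1) ^ (16 * (K + 1)) := by exact_mod_cast hz.le
    have hXpos : (0 : ℝ) < X := by
      have : 0 < X := lt_of_lt_of_le (by norm_num) hX64
      exact_mod_cast this
    have h2 := Real.log_le_log hXpos h1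
    rw [Real.log_pow] at h2
    clear hz h1
    have h3 : Real.log ((z : ℝ) + 1) ≤ 2 * Real.log z := by
      have h4 : (z : ℝ) + 1 ≤ (z : ℝ) ^ 2 := by nlinarith
      have h5 := Real.log_le_log (by positivity) h4
      rw [Real.log_pow] at h5
      exact_mod_cast h5
    rw [div_le_iff₀ (by positivity)]
    push_cast at h2
    have h6 : (0 : ℝ) ≤ 16 * ((K : ℝ) + 1) := by positivity
    have h7 := mul_le_mul_of_nonneg_left h3 h6
    calc L ≤ 16 * ((K : ℝ) + 1) * Real.log ((z : ℝ) + 1) := h2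
      _ ≤ 16 * ((K : ℝ) + 1) * (2 * Real.log z) := h7
      _ = _ := by ring
  clear hz
  have hlz0 : 0 < Real.log z := Real.log_pos (by linarith)
  have ha0 : (0 : ℝ) < a := by exact_mod_cast ha
  have hlZ : Real.log ((lg X ^ a : ℕ) : ℝ) ≤ 2 * a * Real.log L := by
    push_cast
    rw [Real.log_pow]
    have h0 : (0 : ℝ) < lg X := by
      have : 0 < lg X := by omega
      exact_mod_cast this
    have h1 : Real.log (lg X : ℝ) ≤ 2 * Real.log L := by
      have h2 : (lg X : ℝ) ≤ L ^ 2 := by nlinarith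
      have h3 := Real.log_le_log h0 h2
      rw [Real.log_pow] at h3
      exact_mod_cast h3
    have h4 := mul_le_mul_of_nonneg_left h1 ha0.le
    linarith
  rw [hnA]
  have h1 : MA lam (lg X ^ a) z ≤ 2 * (C * (2 * a * Real.log L) / (L / (32 * ((K : ℝ) + 1)))) := by
    have h2 : C * Real.log ((lg X ^ a : ℕ) : ℝ) / Real.log z ≤
        C * (2 * a * Real.log L) / (L / (32 * ((K : ℝ) + 1))) := by
      gcongr
    linarith
  have h3 : L / (32 * ((K : ℝ) + 1)) / (2 * (C * (2 * a * Real.log L))) =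
      (2 * (C * (2 * a * Real.log L) / (L / (32 * ((K : ℝ) + 1)))))⁻¹ := by
    rw [← mul_div_assoc, inv_div]
  rw [h3]
  exact inv_anti₀ m3 h1

/-- The product of the sieve weights dominates the primes.

Proof. A prime `q > z` (with `z ≥ lg X ^ a`, `z ≥ yy i` for large `X`) is divisible by no prime of `B = sprimes (yy 0) (yy i)` nor of
`sprimes Z z`, `Z = lg X ^ a`. So `nu B q = (VV B)⁻¹ ≥ VV (primesUpTo (yy 0)) (VV (primesUpTo (yy i)))⁻¹ ≥ c log (yy i)`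
(`Sieve.prod_one_sub_inv_le`; `c` absolute as `yy 0` is a constant), and `log (yy i) = (1/2) log (yy (i+1))
≥ (1/2) log (log X / 16) ≥ (1/4) log log X`. By `A2` `nA .. q = (MA ..)⁻¹ ≥ (2 VV (sprimes Z z))⁻¹ ≥ c log z / log Z` (`M2`), and
`log Z ≤ 2 a log log X + C`, `log z ≥ log X / (32 (K+1))` as `X < (z+1)^(16 (K+1))`. The product is `≥ c(K, a) log X`. -/
theorem M3 (K a : ℕ) (ha : 1 ≤ a) : ∃ C : ℝ, 1 ≤ C ∧ ∃ X0 : ℕ, ∀ X : ℕ, X0 ≤ X → ∀ z : ℕ,
    z ^ (16 * (K + 1)) ≤ X → X < (z + 1) ^ (16 * (K + 1)) → ∀ lam : Finset ℕ → ℝ, IsLam K z lam →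
    ∀ i : ℕ, (yy i : ℝ) ≤ Real.log X / 16 → Real.log X / 16 < yy (i + 1) → ∀ q : ℕ, q.Prime → z < q →
    Real.log X ≤ C * (nu (sprimes (yy 0) (yy i)) q * nA lam (lg X ^ a) z q) := by
  obtain ⟨C, hC1, hC2, hC3⟩ := M2
  obtain ⟨X0, hX0⟩ := m3_growth K a ha
  have hyy0 : yy 0 = 2 ^ 32 := by
    unfold yy uu
    norm_num
  have hy0 : (2 : ℕ) ≤ yy 0 := by rw [hyy0]; norm_num
  have hly : 1 ≤ Real.log (yy 0 : ℝ) := by
    have h1 : ((yy 0 : ℕ) : ℝ) = (2 : ℝ) ^ 32 := by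
      rw [hyy0]
      norm_num
    rw [h1, Real.log_pow]
    have := Real.log_two_gt_d9
    push_cast
    linarith
  have hyle : ∀ i, yy 0 ≤ yy i := by
    intro i
    unfold yy uu
    apply Nat.pow_le_pow_left
    apply Nat.pow_le_pow_right (by norm_num)
    exact Nat.pow_le_pow_right (by norm_num) (Nat.zero_le i)
  have hA := m3_A C hC1 hC2 hC3 (yy 0)
  generalize yy 0 = y0 at *
  have hK0 : (0 : ℝ) ≤ K := by positivity
  have ha1 : (1 : ℝ) ≤ a := by exact_mod_cast ha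
  refine ⟨512 * C ^ 2 * Real.log (y0 : ℝ) * (K + 1) * a, ?_, X0, ?_⟩
  · have h1 : (1 : ℝ) ≤ C ^ 2 := one_le_pow₀ hC1
    have h2 : (1 : ℝ) ≤ (K : ℝ) + 1 := by linarith
    have h4 : (1 : ℝ) ≤ 512 * C ^ 2 := by linarith
    exact one_le_mul_of_one_le_of_one_le (one_le_mul_of_one_le_of_one_le (one_le_mul_of_one_le_of_one_le h4 hly) h2) ha1
  intro X hX z hz1 hz2 lam hlam i hi1 hi2 q hq hzq
  obtain ⟨hL, hX64, hz⟩ := hX0 X hX
  obtain ⟨hZz, hLz, hz2', hlg⟩ := hz z hz2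
  have hB' := m3_B C hC1 hC2 K a X z q ha lam hlam hX64 hL hZz hz2' hlg hz2 hq hzq
  clear hz1 hz2 hz
  have hL0 : 0 < Real.log X := by linarith
  have hlL : 0 < Real.log (Real.log X) := Real.log_pos (by linarith)
  have hyi : yy i ≤ z := by
    have h1 : (yy i : ℝ) ≤ z := by linarith
    exact_mod_cast h1
  have hA' := hA (yy i) (yy (i + 1)) z q (Real.log X) hL hy0 hly (hyle i) (yy_succ i) hi2 hyi hq hzq
  have hly0 : 0 < Real.log (y0 : ℝ) := by linarith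
  have hC0 : 0 < C := by linarith
  have ha0 : (0 : ℝ) < a := by linarith
  have hA0 : 0 < Real.log (Real.log X) / (4 * (C * Real.log (y0 : ℝ))) := by positivity
  have hB0 : 0 < Real.log X / (32 * ((K : ℝ) + 1)) / (2 * (C * (2 * a * Real.log (Real.log X)))) := by positivity
  have hAB := mul_le_mul hA' hB' hB0.le (hA0.le.trans hA')
  have hCC : 0 < 512 * C ^ 2 * Real.log (y0 : ℝ) * (K + 1) * a := by positivity
  have e := m3_real C (Real.log (y0 : ℝ)) K a (Real.log X) (Real.log (Real.log X)) hC1 hly hK0 ha1 hL0 hlL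
  calc Real.log X = _ := e
    _ ≤ _ := mul_le_mul_of_nonneg_left hAB hCC.le

end Pool.Agent.Lib.H16X
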