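import Pool.Agent.Lib.H16X.D

/-!
# H16X: telescoping over the scales
-/

set_option linter.unusedVariables false

namespace Pool.Agent.Lib.H16X

open Finset Pool.Agent.Lib.Sieve

/-- Telescoping over the scales.

Proof. Induction on `i`: `sprimes (yy 0) (yy (i+1))` is the disjoint union of `sprimes (yy 0) (yy i)` and
`sprimes (yy i) (yy (i+1))`, so `nu (..) = nu (sprimes (yy 0) (yy i)) a * nu (sprimes (yy i) (yy (i+1))) a`, and
`yy (i+1) = (yy i)^2`. For `i = 0` both sides are `1`. -/
theorem T1 (i : ℕ) (a : ℤ) :
    nu (sprimes (yy 0) (yy i)) a = 1 + ∑ l ∈ range i, FB (yy l) a := by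
  have hmono : ∀ j, yy j ≤ yy (j + 1) := by
    intro j
    rw [yy_succ]
    have h : 1 ≤ yy j := by
      unfold yy
      exact Nat.one_le_pow _ _ (by have := uu_ge j; omega)
    nlinarith
  have hle : ∀ j, yy 0 ≤ yy j := by
    intro j
    induction j with
    | zero => exact le_rfl
    | succ j ih => exact ih.trans (hmono j)
  induction i with
  | zero =>
    have h : sprimes (yy 0) (yy 0) = ∅ := by
      ext p
      simp only [mem_sprimes]
      constructor
      · intro hp
        omega
      · intro hp
        exact absurd hp (Finset.notMem_empty p)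
    rw [h]
    simp [nu]
  | succ i ih =>
    rw [sum_range_succ, ← add_assoc, ← ih]
    have h1 : sprimes (yy 0) (yy (i + 1)) = sprimes (yy 0) (yy i) ∪ sprimes (yy i) (yy (i + 1)) := by
      ext p
      have h2 := hle i
      have h3 := hmono i
      simp only [mem_union, mem_sprimes]
      constructor
      · rintro ⟨hp, h4, h5⟩
        by_cases h6 : p ≤ yy i
        · exact Or.inl ⟨hp, h4, h6⟩
        · exact Or.inr ⟨hp, by omega, h5⟩
      · rintro (⟨hp, h4, h5⟩ | ⟨hp, h4, h5⟩)
        · exact ⟨hp, h4, by omega⟩
        · exact ⟨hp, by omega, h5⟩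
    have h2 : Disjoint (sprimes (yy 0) (yy i)) (sprimes (yy i) (yy (i + 1))) := by
      rw [Finset.disjoint_left]
      intro p hp hp'
      rw [mem_sprimes] at hp hp'
      omega
    have h3 : nu (sprimes (yy 0) (yy (i + 1))) a =
        nu (sprimes (yy 0) (yy i)) a * nu (sprimes (yy i) (yy (i + 1))) a := by
      rw [h1]
      unfold nu
      exact Finset.prod_union h2
    rw [h3, FB, yy_succ]
    ring

end Pool.Agent.Lib.H16X
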