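import Pool.Agent.Lib.H16X.D
import Pool.Agent.Lib.H16X.A1
import Pool.Agent.Lib.H16X.A8
import Pool.Agent.Lib.H16X.B9
import Pool.Agent.Lib.H16X.M3
import Pool.Agent.Lib.H16X.T1

/-!
# H16X: second moment
-/

set_option linter.unusedVariables false

namespace Pool.Agent.Lib.H16X

open Finset Pool.Agent.Lib.Sieve

private theorem S1_z (X E : ℕ) (hE : 1 ≤ E) (hX : 2 ^ E ≤ X) :
    ∃ z : ℕ, 2 ≤ z ∧ z ^ E ≤ X ∧ X < (z + 1) ^ E := by
  classical
  obtain ⟨z, hz⟩ : ∃ z, z = Nat.findGreatest (fun z => z ^ E ≤ X) X := ⟨_, rfl⟩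
  have h2X : 2 ≤ X := (Nat.le_self_pow (by omega) 2).trans hX
  have h2 : 2 ≤ z := by
    rw [hz]
    exact Nat.le_findGreatest h2X hX
  have h3 : z ^ E ≤ X := by
    rw [hz]
    exact Nat.findGreatest_spec (P := fun z => z ^ E ≤ X) h2X hX
  refine ⟨z, h2, h3, ?_⟩
  by_contra hcon
  rw [not_lt] at hcon
  by_cases h4 : z + 1 ≤ X
  · have h5 := Nat.findGreatest_is_greatest (P := fun z => z ^ E ≤ X) (n := X) (k := z + 1)
      (by rw [← hz]; omega) h4
    exact h5 hcon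
  · have h5 : z + 1 ≤ (z + 1) ^ E := Nat.le_self_pow (by omega) _
    omega

private theorem S1_yle (n : ℕ) : n ≤ yy n := by
  unfold yy uu
  calc n ≤ 2 ^ n := Nat.lt_two_pow_self.le
    _ ≤ 2 ^ 2 ^ n := Nat.pow_le_pow_right (by norm_num) Nat.lt_two_pow_self.le
    _ ≤ (2 ^ 2 ^ n) ^ 32 := Nat.le_self_pow (by norm_num) _

private theorem S1_ymono {l i : ℕ} (h : l ≤ i) : yy l ≤ yy i := by
  unfold yy uu
  exact Nat.pow_le_pow_left (Nat.pow_le_pow_right (by norm_num)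
    (Nat.pow_le_pow_right (by norm_num) h)) _

private theorem S1_i (L : ℝ) (h0 : (yy 0 : ℝ) ≤ L) : ∃ i : ℕ, (yy i : ℝ) ≤ L ∧ L < yy (i + 1) := by
  classical
  have hex : ∃ i : ℕ, L < yy (i + 1) := by
    obtain ⟨n, hn⟩ := exists_nat_gt L
    refine ⟨n, hn.trans_le ?_⟩
    exact_mod_cast (Nat.le_succ n).trans (S1_yle (n + 1))
  have h1 := Nat.find_spec hex
  refine ⟨Nat.find hex, ?_, h1⟩
  rcases Nat.eq_zero_or_pos (Nat.find hex) with h | h
  · rw [h]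
    exact h0
  · by_contra hcon
    have h2 := Nat.find_min hex (m := Nat.find hex - 1) (by omega)
    apply h2
    rw [show Nat.find hex - 1 + 1 = Nat.find hex by omega]
    exact not_le.1 hcon

private theorem S1_nu (S : Finset ℕ) (hS : ∀ p ∈ S, p.Prime) (a : ℤ) : 0 ≤ nu S a := by
  unfold nu
  refine Finset.prod_nonneg fun p hp => ?_
  split_ifs
  · exact le_rfl
  · have h1 : (2 : ℝ) ≤ p := by exact_mod_cast (hS p hp).two_le
    have h2 : 1 / (p : ℝ) ≤ 1 / 2 := one_div_le_one_div_of_le (by norm_num) h1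
    exact inv_nonneg.2 (by linarith)

private theorem S1_ad (X : ℕ) (α β : ℕ → ℝ) (hα : ∀ m, 0 ≤ α m ∧ α m ≤ 1)
    (hβ : ∀ k, 0 ≤ β k ∧ β k ≤ 1) (hX : ∀ m, α m ≠ 0 → m < X) (s : ℕ) :
    AD (fun m k => α m * β k) s ≤ X := by
  unfold AD
  rw [Finset.Nat.sum_antidiagonal_eq_sum_range_succ_mk]
  calc ∑ k ∈ range s.succ, α k * β (s - k)
      ≤ ∑ k ∈ range s.succ, (if k ∈ range X then (1 : ℝ) else 0) := by
        refine Finset.sum_le_sum fun k _ => ?_
        split_ifs with h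
        · exact mul_le_one₀ (hα k).2 (hβ _).1 (hβ _).2
        · have h1 : α k = 0 := by
            by_contra hcon
            exact h (Finset.mem_range.2 (hX k hcon))
          rw [h1, zero_mul]
    _ = (((range s.succ).filter (fun k => k ∈ range X)).card : ℝ) := by
        rw [Finset.sum_boole]
    _ ≤ ((range X).card : ℝ) := by
        have h1 : ((range s.succ).filter (fun k => k ∈ range X)).card ≤ (range X).card :=
          Finset.card_le_card fun k hk => (Finset.mem_filter.1 hk).2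
        exact_mod_cast h1
    _ = X := by rw [Finset.card_range]

private theorem S1_uu (l : ℕ) : (2 : ℝ) ^ l * (2 : ℝ) ^ l ≤ (uu l : ℝ) := by
  have h : 2 ^ l * 2 ^ l ≤ uu l := by
    unfold uu
    rw [← pow_add]
    refine Nat.pow_le_pow_right (by norm_num) ?_
    have h1 : ∀ n : ℕ, n + n ≤ 2 ^ n := by
      intro n
      rcases n with _ | n
      · norm_num
      · rw [pow_succ]
        have h2 : n + 1 ≤ 2 ^ n := Nat.lt_two_pow_self
        omega
    exact h1 l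
  exact_mod_cast h

private theorem S1_geom (i : ℕ) : ∑ l ∈ range i, (1 / 2 : ℝ) ^ l ≤ 2 := by
  have h := sum_geometric_two_le i
  exact h

private theorem S1_cs (i : ℕ) (b : ℕ → ℝ) :
    (∑ l ∈ range i, b l) ^ 2 ≤ 2 * ∑ l ∈ range i, 2 ^ l * b l ^ 2 := by
  have h := Finset.sum_mul_sq_le_sq_mul_sq (range i) (fun l => Real.sqrt ((1 / 2 : ℝ) ^ l))
    (fun l => Real.sqrt ((2 : ℝ) ^ l) * b l)
  have h1 : ∀ l ∈ range i, Real.sqrt ((1 / 2 : ℝ) ^ l) * (Real.sqrt ((2 : ℝ) ^ l) * b l) = b l := by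
    intro l _
    rw [← mul_assoc, ← Real.sqrt_mul (by positivity), ← mul_pow]
    norm_num
  have h2 : ∀ l ∈ range i, Real.sqrt ((1 / 2 : ℝ) ^ l) ^ 2 = (1 / 2 : ℝ) ^ l := by
    intro l _
    rw [Real.sq_sqrt (by positivity)]
  have h3 : ∀ l ∈ range i, (Real.sqrt ((2 : ℝ) ^ l) * b l) ^ 2 = 2 ^ l * b l ^ 2 := by
    intro l _
    rw [mul_pow, Real.sq_sqrt (by positivity)]
  rw [Finset.sum_congr rfl h1, Finset.sum_congr rfl h2, Finset.sum_congr rfl h3] at h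
  refine h.trans (mul_le_mul_of_nonneg_right (S1_geom i) ?_)
  exact Finset.sum_nonneg fun l _ => by positivity

private theorem S1_comb (T A B F c X B2 : ℝ) (h0 : 0 ≤ T) (hT : T ≤ c * (A + B + F)) (hA0 : 0 ≤ A)
    (hA : A ≤ X) (hB : B ^ 2 ≤ 2 * B2) : T ^ 2 ≤ 3 * c ^ 2 * (X ^ 2 + 2 * B2 + F ^ 2) := by
  have h4 : T ^ 2 ≤ (c * (A + B + F)) ^ 2 := pow_le_pow_left₀ h0 hT 2
  have h6 : A ^ 2 ≤ X ^ 2 := pow_le_pow_left₀ hA0 hA 2
  have h7 : (A + B + F) ^ 2 ≤ 3 * (A ^ 2 + B ^ 2 + F ^ 2) := by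
    nlinarith [sq_nonneg (A - B), sq_nonneg (A - F), sq_nonneg (B - F)]
  have h8 : (A + B + F) ^ 2 ≤ 3 * (X ^ 2 + 2 * B2 + F ^ 2) := by linarith
  have h9 : c ^ 2 * (A + B + F) ^ 2 ≤ c ^ 2 * (3 * (X ^ 2 + 2 * B2 + F ^ 2)) :=
    mul_le_mul_of_nonneg_left h8 (sq_nonneg c)
  rw [mul_pow] at h4
  linarith

/-- The second moment.

Proof. `K` from `A1`, `a1, a2` from `A8`; the theorem holds with `a = a1`. Given large `X` take `z` with `z^(16(K+1)) ≤ X < (z+1)^(16(K+1))`,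
`lam` from `A1`, and `i` maximal with `yy i ≤ log X / 16` (so `log X / 16 < yy (i+1)`); put `B = sprimes (yy 0) (yy i)`,
`Z = lg X ^ a2`. Pointwise (all quantities are `≥ 0`; if `pr k < pr m` and `q = 2 pr m - pr k` is prime and `α m ≠ 0` then
`q > pr m > √X ≥ z`): `α β 1[..] ≤ (C / log X) α β nu B (2 pr m - pr k) nA (2 pr m - pr k)` by `M3`, and by `T1`
`nu B · nA = nu B + FA = 1 + Σ_{l < i} FB (yy l) + FA`. So
`AD(..) s ≤ (C / log X) (AD (α β) s + Σ_l AD (ff α β (FB (yy l))) s + AD (ff α β FA) s)`. The first term is `≤ X` for every `s`. By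
Cauchy-Schwarz `(Σ_l b_l)² ≤ (Σ_l (uu l)^(-1/2)) (Σ_l (uu l)^(1/2) b_l²)`; `B9` (its gap hypotheses for scale `l < i` follow from
`Good`, since `yy (l+1) ≤ yy i`) gives `Σ_s Σ_l (uu l)^(1/2) b_l(s)² ≤ Σ_l C X³ (uu l)^(-1/2) ≤ C' X³`
(`Σ_l (uu l)^(-1/2) ≤ 4`). `A8` gives the last one. `(a + b + c)² ≤ 3 (a² + b² + c²)`. -/
theorem S1 : ∃ a : ℕ, ∀ C1 : ℝ, 1 ≤ C1 → ∃ C : ℝ, 1 ≤ C ∧ ∃ X0 : ℕ, ∀ X : ℕ, X0 ≤ X →
    ∀ α β : ℕ → ℝ, (∀ m, 0 ≤ α m ∧ α m ≤ 1) → (∀ k, 0 ≤ β k ∧ β k ≤ 1) →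
    (∀ m, α m ≠ 0 → m < X ∧ Real.sqrt X < pr m ∧ Good C1 X a m) →
    (∀ k, β k ≠ 0 → k < X ∧ Good C1 X a k) →
    ∑ s ∈ range (2 * X), (AD (fun m k => α m * β k *
      (if pr k < pr m ∧ (2 * pr m - pr k).Prime then 1 else 0)) s) ^ 2 ≤
      C * (X : ℝ) ^ 3 / (Real.log X) ^ 2 := by
  obtain ⟨K, hK⟩ := A1
  obtain ⟨a1, a2, ha2, C8, hC8, X8, h8⟩ := A8 K
  obtain ⟨C3, hC3, X3, h3⟩ := M3 K a2 ha2
  refine ⟨a1, fun C1 hC1 => ?_⟩
  obtain ⟨C9, hC9, X9, h9⟩ := B9 C1 hC1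
  obtain ⟨E, hE⟩ : ∃ E : ℕ, E = 16 * (K + 1) := ⟨_, rfl⟩
  obtain ⟨X1, hX1⟩ : ∃ X1 : ℕ, Real.exp (16 * (yy 0 : ℝ)) ≤ X1 := exists_nat_ge _
  have hCC : (1 : ℝ) ≤ 3 * C3 ^ 2 * (2 + 4 * C9 + C8) := by
    have h1 : (1 : ℝ) ≤ C3 ^ 2 := one_le_pow₀ hC3
    nlinarith
  refine ⟨3 * C3 ^ 2 * (2 + 4 * C9 + C8), hCC,
    max (max X8 X3) (max (max X9 X1) (max (2 ^ E) 64)), fun X hX α β hα hβ hαX hβX => ?_⟩
  have hX8 : X8 ≤ X := (le_max_left _ _).trans ((le_max_left _ _).trans hX)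
  have hX3 : X3 ≤ X := (le_max_right _ _).trans ((le_max_left _ _).trans hX)
  have hX9 : X9 ≤ X := (le_max_left _ _).trans ((le_max_left _ _).trans ((le_max_right _ _).trans hX))
  have hX1' : X1 ≤ X := (le_max_right _ _).trans ((le_max_left _ _).trans ((le_max_right _ _).trans hX))
  have hXE : 2 ^ E ≤ X := (le_max_left _ _).trans ((le_max_right _ _).trans ((le_max_right _ _).trans hX))
  have hX64 : 64 ≤ X := (le_max_right _ _).trans ((le_max_right _ _).trans ((le_max_right _ _).trans hX))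
  have hXr : (0 : ℝ) < X := by exact_mod_cast (by omega : 0 < X)
  have hlog : 16 * (yy 0 : ℝ) ≤ Real.log X := by
    rw [Real.le_log_iff_exp_le hXr]
    exact hX1.trans (by exact_mod_cast hX1')
  have hy0 : (1 : ℝ) ≤ yy 0 := by
    have h1 : 1 ≤ yy 0 := Nat.one_le_pow _ _ (Nat.pow_pos (by norm_num))
    exact_mod_cast h1
  have hlpos : 0 < Real.log X := by linarith
  obtain ⟨z, hz2, hz3, hz4⟩ := S1_z X E (by omega) hXE
  rw [hE] at hz3 hz4
  obtain ⟨lam, hlam⟩ := hK z hz2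
  obtain ⟨i, hi1, hi2⟩ := S1_i (Real.log X / 16) (by linarith)
  obtain ⟨Z, hZ⟩ : ∃ Z, Z = lg X ^ a2 := ⟨_, rfl⟩
  obtain ⟨B, hB⟩ : ∃ B, B = sprimes (yy 0) (yy i) := ⟨_, rfl⟩
  have hlg : 6 ≤ lg X := by
    unfold lg
    have h1 : Nat.log 2 64 ≤ Nat.log 2 X := Nat.log_mono_right hX64
    have h2 : Nat.log 2 64 = 6 := by
      rw [show 64 = 2 ^ 6 by norm_num]
      exact Nat.log_pow (by norm_num) 6
    omega
  have hZ6 : 6 ≤ Z := by
    rw [hZ]
    exact hlg.trans (Nat.le_self_pow (by omega) _)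
  obtain ⟨-, -, -, -, hnA, -⟩ := A2 K z Z lam hlam hZ6
  have hnuB : ∀ a : ℤ, 0 ≤ nu B a := S1_nu B fun p hp => by
    rw [hB] at hp
    exact (mem_sprimes.1 hp).1
  have hzsq : (z : ℝ) ≤ Real.sqrt X := by
    apply Real.le_sqrt_of_sq_le
    have h1 : z ^ 2 ≤ X := (Nat.pow_le_pow_right (by omega) (by omega)).trans hz3
    exact_mod_cast h1
  have hA1 : ∀ m, |α m| ≤ 1 := fun m => by rw [abs_of_nonneg (hα m).1]; exact (hα m).2
  have hB1 : ∀ k, |β k| ≤ 1 := fun k => by rw [abs_of_nonneg (hβ k).1]; exact (hβ k).2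
  have hgap1 : ∀ γ : ℕ → ℝ, (∀ m, γ m ≠ 0 → m < X ∧ Good C1 X a1 m) → ∀ l : ℕ,
      (yy (l + 1) : ℝ) ≤ Real.log X / 16 → Gap (uu l ^ 2) (C1 * (uu l : ℝ) ^ 3 * Real.log X) γ := by
    intro γ hγ l hl m j hj hm
    have h1 := (hγ _ hm).2.1 l hl j hj (Nat.le_add_left j m)
    rw [Nat.add_sub_cancel] at h1
    exact h1
  have hgap2 : Gap (lg X ^ a1) ((lg X : ℝ) ^ (a1 + 2)) α := by
    intro m j hj hm
    have h1 := (hαX _ hm).2.2.2 j hj (Nat.le_add_left j m)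
    rw [Nat.add_sub_cancel] at h1
    exact h1
  have hFA := h8 X hX8 z hz3 lam hlam i hi1 α β hA1 hB1 (fun m hm => (hαX m hm).1)
    (fun k hk => (hβX k hk).1) hgap2
  rw [← hZ, ← hB] at hFA
  have hFB : ∀ l ∈ range i, ∑ s ∈ range (2 * X), (AD (ff α β (FB (yy l))) s) ^ 2 ≤
      C9 * (X : ℝ) ^ 3 / uu l := by
    intro l hl
    have hl' : (yy (l + 1) : ℝ) ≤ Real.log X / 16 := by
      refine le_trans ?_ hi1
      exact_mod_cast S1_ymono (Finset.mem_range.1 hl)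
    exact h9 X hX9 l hl' α β hA1 hB1 (fun m hm => ⟨(hαX m hm).1, (hαX m hm).2.1⟩)
      (fun k hk => (hβX k hk).1)
      (hgap1 α (fun m hm => ⟨(hαX m hm).1, (hαX m hm).2.2⟩) l hl') (hgap1 β hβX l hl')
  have hpt : ∀ m k : ℕ, α m * β k * (if pr k < pr m ∧ (2 * pr m - pr k).Prime then (1 : ℝ) else 0) ≤
      C3 / Real.log X * (α m * β k + ∑ l ∈ range i, ff α β (FB (yy l)) m k +
        ff α β (FA lam Z z B) m k) := by
    intro m k
    obtain ⟨x, hx⟩ : ∃ x : ℤ, x = 2 * (pr m : ℤ) - (pr k : ℤ) := ⟨_, rfl⟩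
    have e1 : α m * β k + ∑ l ∈ range i, ff α β (FB (yy l)) m k + ff α β (FA lam Z z B) m k =
        α m * β k * (nu B x * nA lam Z z x) := by
      have e2 : nu B x = 1 + ∑ l ∈ range i, FB (yy l) x := by
        rw [hB]
        exact T1 i x
      have e3 : ∑ l ∈ range i, ff α β (FB (yy l)) m k = α m * β k * ∑ l ∈ range i, FB (yy l) x := by
        rw [Finset.mul_sum]
        refine Finset.sum_congr rfl fun l _ => ?_
        unfold ff
        rw [← hx]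
      have e4 : ff α β (FA lam Z z B) m k = α m * β k * (nu B x * (nA lam Z z x - 1)) := by
        unfold ff FA
        rw [← hx]
      rw [e3, e4]
      have e5 : ∑ l ∈ range i, FB (yy l) x = nu B x - 1 := by rw [e2]; ring
      rw [e5]
      ring
    rw [e1]
    have hαβ : 0 ≤ α m * β k := mul_nonneg (hα m).1 (hβ k).1
    have hnn : 0 ≤ nu B x * nA lam Z z x := mul_nonneg (hnuB x) (hnA x)
    have hC3L : 0 ≤ C3 / Real.log X := by positivity
    by_cases hα0 : α m = 0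
    · rw [hα0]
      simp
    split_ifs with hc
    · rw [mul_one]
      obtain ⟨hc1, hc2⟩ := hc
      have hq : z < 2 * pr m - pr k := by
        have h1 : (z : ℝ) < pr m := hzsq.trans_lt (hαX m hα0).2.1
        have h2 : z < pr m := by exact_mod_cast h1
        omega
      have h4 := h3 X hX3 z hz3 hz4 lam hlam i hi1 hi2 (2 * pr m - pr k) hc2 hq
      have hxq : ((2 * pr m - pr k : ℕ) : ℤ) = x := by
        rw [hx]
        push_cast [Nat.cast_sub (show pr k ≤ 2 * pr m by omega)]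
        ring
      rw [← hZ, ← hB, hxq] at h4
      have h5 : 1 ≤ C3 / Real.log X * (nu B x * nA lam Z z x) := by
        rw [div_mul_eq_mul_div, le_div_iff₀ hlpos, one_mul]
        exact h4
      calc α m * β k = α m * β k * 1 := (mul_one _).symm
        _ ≤ α m * β k * (C3 / Real.log X * (nu B x * nA lam Z z x)) :=
            mul_le_mul_of_nonneg_left h5 hαβ
        _ = _ := by ring
    · rw [mul_zero]
      positivity
  have hAD : ∀ s, 0 ≤ AD (fun m k => α m * β k *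
      (if pr k < pr m ∧ (2 * pr m - pr k).Prime then (1 : ℝ) else 0)) s := by
    intro s
    unfold AD
    refine Finset.sum_nonneg fun q _ => ?_
    refine mul_nonneg (mul_nonneg (hα _).1 (hβ _).1) ?_
    split_ifs
    · exact zero_le_one
    · exact le_rfl
  have hle : ∀ s, AD (fun m k => α m * β k *
      (if pr k < pr m ∧ (2 * pr m - pr k).Prime then (1 : ℝ) else 0)) s ≤
      C3 / Real.log X * (AD (fun m k => α m * β k) s + ∑ l ∈ range i, AD (ff α β (FB (yy l))) s +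
        AD (ff α β (FA lam Z z B)) s) := by
    intro s
    have e : C3 / Real.log X * (AD (fun m k => α m * β k) s +
        ∑ l ∈ range i, AD (ff α β (FB (yy l))) s + AD (ff α β (FA lam Z z B)) s) =
        ∑ q ∈ antidiagonal s, C3 / Real.log X * (α q.1 * β q.2 +
          ∑ l ∈ range i, ff α β (FB (yy l)) q.1 q.2 + ff α β (FA lam Z z B) q.1 q.2) := by
      unfold AD
      rw [Finset.sum_comm, ← Finset.sum_add_distrib, ← Finset.sum_add_distrib, Finset.mul_sum]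
    rw [e]
    unfold AD
    exact Finset.sum_le_sum fun q _ => hpt q.1 q.2
  have hadpos : ∀ s, 0 ≤ AD (fun m k => α m * β k) s := by
    intro s
    unfold AD
    exact Finset.sum_nonneg fun q _ => mul_nonneg (hα _).1 (hβ _).1
  have hsq : ∀ s, (AD (fun m k => α m * β k *
      (if pr k < pr m ∧ (2 * pr m - pr k).Prime then (1 : ℝ) else 0)) s) ^ 2 ≤
      3 * (C3 / Real.log X) ^ 2 * ((X : ℝ) ^ 2 +
        2 * ∑ l ∈ range i, 2 ^ l * (AD (ff α β (FB (yy l))) s) ^ 2 +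
        (AD (ff α β (FA lam Z z B)) s) ^ 2) := by
    intro s
    exact S1_comb _ _ _ _ _ _ _ (hAD s) (hle s) (hadpos s)
      (S1_ad X α β hα hβ (fun m hm => (hαX m hm).1) s)
      (S1_cs i fun l => AD (ff α β (FB (yy l))) s)
  have hsumB : ∑ s ∈ range (2 * X), ∑ l ∈ range i, 2 ^ l * (AD (ff α β (FB (yy l))) s) ^ 2 ≤
      2 * (C9 * (X : ℝ) ^ 3) := by
    rw [Finset.sum_comm]
    calc ∑ l ∈ range i, ∑ s ∈ range (2 * X), 2 ^ l * (AD (ff α β (FB (yy l))) s) ^ 2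
        ≤ ∑ l ∈ range i, (1 / 2 : ℝ) ^ l * (C9 * (X : ℝ) ^ 3) := by
          refine Finset.sum_le_sum fun l hl => ?_
          rw [← Finset.mul_sum]
          refine (mul_le_mul_of_nonneg_left (hFB l hl) (by positivity)).trans ?_
          have h4 := S1_uu l
          have h5 : (0 : ℝ) < uu l := by
            have h6 : (0 : ℝ) < 2 ^ l * 2 ^ l := by positivity
            linarith
          rw [← mul_div_assoc, div_le_iff₀ h5]
          have h6 : (1 / 2 : ℝ) ^ l * (2 ^ l * 2 ^ l) = 2 ^ l := by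
            rw [← mul_assoc, ← mul_pow]
            norm_num
          have h7 : (2 : ℝ) ^ l ≤ (1 / 2 : ℝ) ^ l * uu l := by
            rw [← h6]
            exact mul_le_mul_of_nonneg_left h4 (by positivity)
          calc 2 ^ l * (C9 * (X : ℝ) ^ 3) ≤ ((1 / 2 : ℝ) ^ l * uu l) * (C9 * (X : ℝ) ^ 3) :=
                mul_le_mul_of_nonneg_right h7 (by positivity)
            _ = _ := by ring
      _ = (∑ l ∈ range i, (1 / 2 : ℝ) ^ l) * (C9 * (X : ℝ) ^ 3) := by rw [Finset.sum_mul]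
      _ ≤ 2 * (C9 * (X : ℝ) ^ 3) := mul_le_mul_of_nonneg_right (S1_geom i) (by positivity)
  calc ∑ s ∈ range (2 * X), (AD (fun m k => α m * β k *
      (if pr k < pr m ∧ (2 * pr m - pr k).Prime then (1 : ℝ) else 0)) s) ^ 2
      ≤ ∑ s ∈ range (2 * X), 3 * (C3 / Real.log X) ^ 2 * ((X : ℝ) ^ 2 +
        2 * ∑ l ∈ range i, 2 ^ l * (AD (ff α β (FB (yy l))) s) ^ 2 +
        (AD (ff α β (FA lam Z z B)) s) ^ 2) := Finset.sum_le_sum fun s _ => hsq s
    _ = 3 * (C3 / Real.log X) ^ 2 * (2 * (X : ℝ) ^ 3 +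
        2 * ∑ s ∈ range (2 * X), ∑ l ∈ range i, 2 ^ l * (AD (ff α β (FB (yy l))) s) ^ 2 +
        ∑ s ∈ range (2 * X), (AD (ff α β (FA lam Z z B)) s) ^ 2) := by
        rw [← Finset.mul_sum, Finset.sum_add_distrib, Finset.sum_add_distrib, ← Finset.mul_sum,
          Finset.sum_const, Finset.card_range, nsmul_eq_mul]
        push_cast
        ring
    _ ≤ 3 * (C3 / Real.log X) ^ 2 * (2 * (X : ℝ) ^ 3 + 2 * (2 * (C9 * (X : ℝ) ^ 3)) +
        C8 * (X : ℝ) ^ 3) := by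
        refine mul_le_mul_of_nonneg_left ?_ (by positivity)
        linarith
    _ = 3 * C3 ^ 2 * (2 + 4 * C9 + C8) * (X : ℝ) ^ 3 / (Real.log X) ^ 2 := by
        rw [div_pow]
        ring

end Pool.Agent.Lib.H16X
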