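import Pool.Agent.Lib.H16X.D

/-!
# H16X: Paley-Zygmund
-/

set_option linter.unusedVariables false

namespace Pool.Agent.Lib.H16X

open Finset Pool.Agent.Lib.Sieve

/-- Paley-Zygmund.

Proof. The `s` with `r s < τ` contribute at most `n τ ≤ A/2` to the sum; so the others contribute at least `A/2`, and by
Cauchy-Schwarz `(A/2)² ≤ #{s : τ ≤ r s} · Σ (r s)² ≤ # · V`. -/
theorem Z1 (n : ℕ) (r : ℕ → ℝ) (hr : ∀ s, 0 ≤ r s) (A V τ : ℝ) (hA : 0 < A) (hV : 0 < V)
    (h1 : A ≤ ∑ s ∈ range n, r s) (h2 : ∑ s ∈ range n, (r s) ^ 2 ≤ V) (hτ : n * τ ≤ A / 2) :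
    A ^ 2 / (4 * V) ≤ (((range n).filter (fun s => τ ≤ r s)).card : ℝ) := by
  classical
  set T := (range n).filter (fun s => τ ≤ r s) with hT
  have hsplit : ∑ s ∈ range n, r s = ∑ s ∈ T, r s + ∑ s ∈ (range n).filter (fun s => ¬ τ ≤ r s), r s :=
    (Finset.sum_filter_add_sum_filter_not (range n) (fun s => τ ≤ r s) r).symm
  have hsmall : ∑ s ∈ (range n).filter (fun s => ¬ τ ≤ r s), r s ≤ A / 2 := by
    rcases le_or_gt τ 0 with h0 | h0
    · have h3 : (range n).filter (fun s => ¬ τ ≤ r s) = ∅ := by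
        apply Finset.filter_false_of_mem
        intro s _ h4
        exact h4 (h0.trans (hr s))
      rw [h3, Finset.sum_empty]
      linarith
    · calc ∑ s ∈ (range n).filter (fun s => ¬ τ ≤ r s), r s
          ≤ ∑ s ∈ (range n).filter (fun s => ¬ τ ≤ r s), τ := by
            apply Finset.sum_le_sum
            intro s hs
            exact (not_le.1 (Finset.mem_filter.1 hs).2).le
        _ = ((range n).filter (fun s => ¬ τ ≤ r s)).card * τ := by
            rw [Finset.sum_const, nsmul_eq_mul]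
        _ ≤ n * τ := by
            apply mul_le_mul_of_nonneg_right _ h0.le
            have h4 := Finset.card_filter_le (range n) (fun s => ¬ τ ≤ r s)
            rw [Finset.card_range] at h4
            exact_mod_cast h4
        _ ≤ A / 2 := hτ
  have hbig : A / 2 ≤ ∑ s ∈ T, r s := by linarith
  have hCS := Finset.sum_mul_sq_le_sq_mul_sq T (fun _ => (1 : ℝ)) r
  simp only [one_mul, one_pow, Finset.sum_const, nsmul_eq_mul, mul_one] at hCS
  have hV2 : ∑ s ∈ T, (r s) ^ 2 ≤ V :=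
    (Finset.sum_le_sum_of_subset_of_nonneg (Finset.filter_subset _ _)
      (fun s _ _ => sq_nonneg (r s))).trans h2
  have h5 : (A / 2) ^ 2 ≤ (∑ s ∈ T, r s) ^ 2 := pow_le_pow_left₀ (by linarith) hbig 2
  have h6 : (T.card : ℝ) * ∑ s ∈ T, (r s) ^ 2 ≤ (T.card : ℝ) * V :=
    mul_le_mul_of_nonneg_left hV2 (Nat.cast_nonneg _)
  rw [div_le_iff₀ (by linarith)]
  nlinarith

end Pool.Agent.Lib.H16X
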