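import Pool.Agent.Lib.H16X.D
import Pool.Agent.Lib.H16X.S1
import Pool.Agent.Lib.H16X.F5
import Pool.Agent.Lib.H16X.Z1

/-!
# H16X: main theorem, indices from 0
-/

set_option linter.unusedVariables false

namespace Pool.Agent.Lib.H16X

open Finset Pool.Agent.Lib.Sieve

open Classical in
/-- Main theorem, indices from `0`.

Proof. `a` from `S1`, `c, C1` from `F5`, then `C` from `S1` for this `C1`. For large `X` let `α m = 1` if `(1-η) X ≤ m < X`, `√X < pr m`,
`Good C1 X a m`, else `0`; `β k = 1` if `k ≤ η X`, `k < X`, `Good C1 X a k`, else `0`. `r s = AD (α β 1[pr k < pr m, 2 pr m - pr k prime]) s`: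
`Σ_{s < 2X} r s` is the number in `F5`, `≥ c X² / log X`, and `Σ (r s)² ≤ C X³ / (log X)²` by `S1`. `Z1` with `n = 2X`,
`τ = c X / (4 log X)`: at least `(c²/(4C)) X` of the `s` have `r s ≥ τ`. If `r s > 0` then `(1-η) X ≤ s ≤ (1+η) X`, and `r s` is at
most the number of the `k` counted on the right (`m = s - k`). -/
theorem Z2 (η : ℝ) (hη : 0 < η) (hη1 : η ≤ 1 / 4) : ∃ c : ℝ, 0 < c ∧ ∃ X0 : ℕ, ∀ X : ℕ, X0 ≤ X →
    c * (X : ℝ) ≤ (((range (2 * X)).filter (fun s : ℕ => (1 - η) * X ≤ (s : ℝ) ∧ (s : ℝ) ≤ (1 + η) * X ∧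
      c * X / Real.log X ≤ (((range (s + 1)).filter (fun k : ℕ => k < s - k ∧
        (2 * pr (s - k) - pr k).Prime)).card : ℝ))).card : ℝ) := by
  obtain ⟨a, hS⟩ := S1
  obtain ⟨c, hc, C1, hC1, XF, hF⟩ := F5 η hη hη1 a
  obtain ⟨C, hC, XS, hSX⟩ := hS C1 hC1
  refine ⟨min (c / 4) (c ^ 2 / (4 * C)), lt_min (by positivity) (by positivity),
    max (max XF XS) 3, fun X hX => ?_⟩
  have hXF : XF ≤ X := le_trans (le_trans (le_max_left _ _) (le_max_left _ _)) hX
  have hXS : XS ≤ X := le_trans (le_trans (le_max_right _ _) (le_max_left _ _)) hX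
  have hX3 : (3 : ℝ) ≤ X := by exact_mod_cast le_trans (le_max_right _ _) hX
  have hX0 : (0 : ℝ) < X := by linarith
  have hlog : 0 < Real.log X := Real.log_pos (by linarith)
  set α : ℕ → ℝ := fun m => if ((1 - η) * X ≤ (m : ℝ) ∧ Real.sqrt X < pr m ∧ Good C1 X a m) ∧ m < X
    then 1 else 0 with hα
  set β : ℕ → ℝ := fun k => if ((k : ℝ) ≤ η * X ∧ Good C1 X a k) ∧ k < X then 1 else 0 with hβ
  have hα01 : ∀ m, 0 ≤ α m ∧ α m ≤ 1 := fun m => by
    simp only [hα]
    split_ifs <;> norm_num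
  have hβ01 : ∀ k, 0 ≤ β k ∧ β k ≤ 1 := fun k => by
    simp only [hβ]
    split_ifs <;> norm_num
  have hαne : ∀ m, α m ≠ 0 → ((1 - η) * X ≤ (m : ℝ) ∧ Real.sqrt X < pr m ∧ Good C1 X a m) ∧ m < X := by
    intro m hm
    by_contra hcon
    exact hm (by simp only [hα]; rw [if_neg hcon])
  have hβne : ∀ k, β k ≠ 0 → ((k : ℝ) ≤ η * X ∧ Good C1 X a k) ∧ k < X := by
    intro k hk
    by_contra hcon
    exact hk (by simp only [hβ]; rw [if_neg hcon])
  have hsec := hSX X hXS α β hα01 hβ01 (fun m hm => ⟨(hαne m hm).2, (hαne m hm).1.2.1, (hαne m hm).1.2.2⟩)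
    (fun k hk => ⟨(hβne k hk).2, (hβne k hk).1.2⟩)
  set g : ℕ → ℕ → ℝ := fun m k => α m * β k *
    (if pr k < pr m ∧ (2 * pr m - pr k).Prime then 1 else 0) with hg
  have hg0 : ∀ m k, 0 ≤ g m k := fun m k => by
    simp only [hg]
    refine mul_nonneg (mul_nonneg (hα01 m).1 (hβ01 k).1) ?_
    split_ifs <;> norm_num
  have hg1 : ∀ m k, g m k ≤ 1 := fun m k => by
    simp only [hg]
    have h1 : α m * β k ≤ 1 := mul_le_one₀ (hα01 m).2 (hβ01 k).1 (hβ01 k).2
    split_ifs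
    · rw [mul_one]; exact h1
    · rw [mul_zero]; exact zero_le_one
  have hgne : ∀ m k, g m k ≠ 0 → (α m ≠ 0 ∧ β k ≠ 0) ∧ (pr k < pr m ∧ (2 * pr m - pr k).Prime) := by
    intro m k h
    refine ⟨⟨fun h0 => h ?_, fun h0 => h ?_⟩, ?_⟩
    · simp only [hg]; rw [h0, zero_mul, zero_mul]
    · simp only [hg]; rw [h0, mul_zero, zero_mul]
    · by_contra hcon
      exact h (by simp only [hg]; rw [if_neg hcon, mul_zero])
  set r : ℕ → ℝ := fun s => AD g s with hr
  have hr0 : ∀ s, 0 ≤ r s := fun s => Finset.sum_nonneg fun q _ => hg0 q.1 q.2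
  have hfirst : c * (X : ℝ) ^ 2 / Real.log X ≤ ∑ s ∈ range (2 * X), r s := by
    refine le_trans (hF X hXF) ?_
    rw [Finset.card_filter]
    push_cast
    have hstep1 : ∀ q ∈ range X ×ˢ range X,
        (if (((1 - η) * X ≤ (q.1 : ℝ) ∧ Real.sqrt X < pr q.1 ∧
        Good C1 X a q.1) ∧ ((q.2 : ℝ) ≤ η * X ∧ Good C1 X a q.2) ∧
        (pr q.2 < pr q.1 ∧ (2 * pr q.1 - pr q.2).Prime)) then (1 : ℝ) else 0) ≤ g q.1 q.2 := by
      intro q hq
      rw [Finset.mem_product, Finset.mem_range, Finset.mem_range] at hq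
      split_ifs with h
      · have ha : α q.1 = 1 := by simp only [hα]; rw [if_pos ⟨h.1, hq.1⟩]
        have hb : β q.2 = 1 := by simp only [hβ]; rw [if_pos ⟨h.2.1, hq.2⟩]
        simp only [hg]
        rw [ha, hb, if_pos h.2.2]
        norm_num
      · exact hg0 _ _
    refine le_trans (Finset.sum_le_sum hstep1) ?_
    have hmaps : ∀ q ∈ range X ×ˢ range X, q.1 + q.2 ∈ range (2 * X) := by
      intro q hq
      rw [Finset.mem_product, Finset.mem_range, Finset.mem_range] at hq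
      rw [Finset.mem_range]
      omega
    rw [← Finset.sum_fiberwise_of_maps_to hmaps]
    refine Finset.sum_le_sum fun s _ => ?_
    refine Finset.sum_le_sum_of_subset_of_nonneg ?_ fun q _ _ => hg0 _ _
    intro q hq
    rw [Finset.HasAntidiagonal.mem_antidiagonal]
    exact (Finset.mem_filter.mp hq).2
  have hPZ := Z1 (2 * X) r hr0 (c * (X : ℝ) ^ 2 / Real.log X) (C * (X : ℝ) ^ 3 / (Real.log X) ^ 2)
    (c * X / (4 * Real.log X)) (by positivity) (by positivity) hfirst hsec (by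
      push_cast
      refine le_of_eq ?_
      field_simp
      norm_num)
  have hval : (c * (X : ℝ) ^ 2 / Real.log X) ^ 2 / (4 * (C * (X : ℝ) ^ 3 / (Real.log X) ^ 2)) =
      c ^ 2 / (4 * C) * X := by
    field_simp
  rw [hval] at hPZ
  have hmin : min (c / 4) (c ^ 2 / (4 * C)) * (X : ℝ) ≤ c ^ 2 / (4 * C) * X :=
    mul_le_mul_of_nonneg_right (min_le_right _ _) hX0.le
  refine le_trans hmin (le_trans hPZ ?_)
  have hsub : (range (2 * X)).filter (fun s => c * X / (4 * Real.log X) ≤ r s) ⊆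
      (range (2 * X)).filter (fun s : ℕ => (1 - η) * X ≤ (s : ℝ) ∧ (s : ℝ) ≤ (1 + η) * X ∧
      min (c / 4) (c ^ 2 / (4 * C)) * X / Real.log X ≤
      (((range (s + 1)).filter (fun k : ℕ => k < s - k ∧
        (2 * pr (s - k) - pr k).Prime)).card : ℝ)) := by
    intro s hs
    rw [Finset.mem_filter] at hs ⊢
    obtain ⟨hs1, hs2⟩ := hs
    have hτ : 0 < c * X / (4 * Real.log X) := by positivity
    have hrpos : r s ≠ 0 := (lt_of_lt_of_le hτ hs2).ne'
    obtain ⟨q, hq, hqne⟩ := Finset.exists_ne_zero_of_sum_ne_zero hrpos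
    rw [Finset.HasAntidiagonal.mem_antidiagonal] at hq
    obtain ⟨⟨hqa, hqb⟩, hqc⟩ := hgne q.1 q.2 hqne
    have ha := hαne _ hqa
    have hb := hβne _ hqb
    have hsq : (s : ℝ) = (q.1 : ℝ) + (q.2 : ℝ) := by exact_mod_cast hq.symm
    have hq1X : (q.1 : ℝ) < X := by exact_mod_cast ha.2
    refine ⟨hs1, ?_, ?_, ?_⟩
    · rw [hsq]
      have : (0 : ℝ) ≤ q.2 := Nat.cast_nonneg _
      linarith [ha.1.1]
    · rw [hsq]
      linarith [hb.1.1]
    · have h1 : min (c / 4) (c ^ 2 / (4 * C)) * (X : ℝ) / Real.log X ≤ c * X / (4 * Real.log X) := by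
        have h2 : c * X / (4 * Real.log X) = c / 4 * X / Real.log X := by field_simp
        rw [h2]
        exact div_le_div_of_nonneg_right
          (mul_le_mul_of_nonneg_right (min_le_left _ _) hX0.le) hlog.le
      refine le_trans h1 (le_trans hs2 ?_)
      have h3 : r s = ∑ k ∈ range (s + 1), g (s - k) k := by
        show ∑ q ∈ antidiagonal s, g q.1 q.2 = _
        rw [← Finset.Nat.sum_antidiagonal_swap]
        exact Finset.Nat.sum_antidiagonal_eq_sum_range_succ (fun x y => g y x) s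
      rw [h3, Finset.card_filter]
      push_cast
      refine Finset.sum_le_sum fun k _ => ?_
      split_ifs with h
      · exact hg1 _ _
      · refine le_of_eq ?_
        by_contra hne
        obtain ⟨_, h5, h6⟩ := hgne _ _ hne
        exact h ⟨pr_strictMono.lt_iff_lt.mp h5, h6⟩
  exact_mod_cast Finset.card_le_card hsub

end Pool.Agent.Lib.H16X
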