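import Pool.Agent.Lib.H16X.D
import Pool.Agent.Lib.H16X.Z2

/-!
# H16X: main theorem
-/

set_option linter.unusedVariables false

namespace Pool.Agent.Lib.H16X

open Finset Pool.Agent.Lib.Sieve

private lemma z3_inj (s' : ℕ) [DecidablePred (fun k : ℕ => 0 < k ∧ ∃ m n : ℕ, k < m ∧ m < n ∧
      k + m = s' + 2 ∧ Nat.nth Nat.Prime (k - 1) + Nat.nth Nat.Prime (n - 1) =
        2 * Nat.nth Nat.Prime (m - 1))] :
    ((range (s' + 1)).filter (fun k : ℕ => k < s' - k ∧ (2 * pr (s' - k) - pr k).Prime)).card ≤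
    ((range (s' + 2)).filter (fun k : ℕ => 0 < k ∧ ∃ m n : ℕ, k < m ∧ m < n ∧ k + m = s' + 2 ∧
        Nat.nth Nat.Prime (k - 1) + Nat.nth Nat.Prime (n - 1) =
          2 * Nat.nth Nat.Prime (m - 1))).card := by
  refine card_le_card_of_injOn (fun k => k + 1) ?_ (fun a _ b _ h => by simpa using h)
  intro k hk
  rw [mem_coe, mem_filter, mem_range] at hk
  obtain ⟨h1, h2, h3⟩ := hk
  have hlt : pr k < pr (s' - k) := pr_strictMono h2
  have hq : Nat.nth Nat.Prime (Nat.count Nat.Prime (2 * pr (s' - k) - pr k)) =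
      2 * pr (s' - k) - pr k := Nat.nth_count h3
  rw [mem_coe, mem_filter, mem_range]
  show k + 1 < s' + 2 ∧ 0 < k + 1 ∧ ∃ m n : ℕ, k + 1 < m ∧ m < n ∧ k + 1 + m = s' + 2 ∧
        Nat.nth Nat.Prime (k + 1 - 1) + Nat.nth Nat.Prime (n - 1) =
          2 * Nat.nth Nat.Prime (m - 1)
  refine ⟨by omega, by omega, s' - k + 1, Nat.count Nat.Prime (2 * pr (s' - k) - pr k) + 1,
    by omega, ?_, by omega, ?_⟩
  · have h4 : pr (s' - k) < pr (Nat.count Nat.Prime (2 * pr (s' - k) - pr k)) := by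
      have : pr (Nat.count Nat.Prime (2 * pr (s' - k) - pr k)) = 2 * pr (s' - k) - pr k := hq
      rw [this]
      omega
    have := pr_strictMono.lt_iff_lt.mp h4
    omega
  · simp only [Nat.add_sub_cancel]
    rw [hq]
    change pr k + (2 * pr (s' - k) - pr k) = 2 * pr (s' - k)
    omega

open Classical in
/-- Main theorem in the form of the problem: `p j = Nat.nth Nat.Prime (j - 1)` for `j ≥ 1`.

Proof. We may assume `δ ≤ 1`. `Z2` with `η = δ/10`, `X = ⌈(1 + δ/3) N⌉`: for the `s'` counted there, `s = s' + 2` satisfies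
`N < (1-η) X < s ≤ (1+η) X + 2 ≤ (1+δ) N` for large `N`, and every `k'` counted there gives `k = k' + 1`, `m = s' - k' + 1`,
`k + m = s`, `0 < k < m`, and the prime `2 p m - p k > p m` is `p n` for some `n > m` (`Nat.nth_count`). `X ≥ N`,
`X / log X ≥ N / log N` for large `N`; take a smaller `c`. -/
theorem Z3 (δ : ℝ) (hδ : 0 < δ) : ∃ c : ℝ, 0 < c ∧ ∃ N0 : ℕ, ∀ N : ℕ, N0 ≤ N →
    c * (N : ℝ) ≤ (((Ioc N ⌊(1 + δ) * N⌋₊).filter (fun s : ℕ => c * N / Real.log N ≤
      (((range s).filter (fun k : ℕ => 0 < k ∧ ∃ m n : ℕ, k < m ∧ m < n ∧ k + m = s ∧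
        Nat.nth Nat.Prime (k - 1) + Nat.nth Nat.Prime (n - 1) =
          2 * Nat.nth Nat.Prime (m - 1))).card : ℝ))).card : ℝ) := by
  set δ' : ℝ := min δ 1 with hδ'
  have hd0 : 0 < δ' := lt_min hδ one_pos
  have hd1 : δ' ≤ 1 := min_le_right _ _
  have hdδ : δ' ≤ δ := min_le_left _ _
  obtain ⟨c, hc, X0, h⟩ := Z2 (δ' / 10) (by linarith) (by linarith)
  refine ⟨c, hc, X0 + 3 + ⌈8 / δ'⌉₊, fun N hN => ?_⟩
  have hN3 : (3 : ℝ) ≤ N := by exact_mod_cast (by omega : 3 ≤ N)
  have hN8 : 8 / δ' ≤ N := (Nat.le_ceil _).trans (by exact_mod_cast (by omega : ⌈8 / δ'⌉₊ ≤ N))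
  have hN8' : 8 ≤ δ' * N := by
    rw [div_le_iff₀ hd0] at hN8
    linarith
  set X : ℕ := ⌈(1 + δ' / 3) * N⌉₊ with hX
  have hX1 : (1 + δ' / 3) * N ≤ X := Nat.le_ceil _
  have hX2 : (X : ℝ) < (1 + δ' / 3) * N + 1 := Nat.ceil_lt_add_one (by positivity)
  have hXN : (N : ℝ) ≤ X := by nlinarith
  have hXN' : N ≤ X := by exact_mod_cast hXN
  have h1 := h X (by omega)
  have hexp : Real.exp 1 ≤ 3 := by
    have := Real.exp_one_lt_d9
    linarith
  have hmono : c * (N : ℝ) / Real.log N ≤ c * X / Real.log X := by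
    have hl1 : 0 < Real.log N := Real.log_pos (by linarith)
    have hl2 : 0 < Real.log X := Real.log_pos (by linarith)
    have ha := Real.log_div_self_antitoneOn (a := (N : ℝ)) (b := (X : ℝ))
      (show Real.exp 1 ≤ (N : ℝ) by linarith) (show Real.exp 1 ≤ (X : ℝ) by linarith) hXN
    simp only at ha
    rw [div_le_div_iff₀ (by linarith) (by linarith)] at ha
    rw [div_le_div_iff₀ hl1 hl2]
    nlinarith
  calc c * (N : ℝ) ≤ c * X := mul_le_mul_of_nonneg_left hXN hc.le
    _ ≤ _ := h1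
    _ ≤ _ := by
      refine Nat.cast_le.mpr (card_le_card_of_injOn (fun s => s + 2) ?_
        (fun a _ b _ h => by simpa using h))
      intro s' hs
      rw [mem_coe, mem_filter, mem_range] at hs
      obtain ⟨hs1, hs2, hs3, hs4⟩ := hs
      rw [mem_coe, mem_filter, mem_Ioc]
      change (N < s' + 2 ∧ s' + 2 ≤ ⌊(1 + δ) * N⌋₊) ∧ _
      have e1 : (N : ℝ) ≤ s' := by
        refine le_trans ?_ hs2
        have : (1 - δ' / 10) * ((1 + δ' / 3) * N) ≤ (1 - δ' / 10) * X :=
          mul_le_mul_of_nonneg_left hX1 (by linarith)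
        refine le_trans ?_ this
        have e2 : (1 - δ' / 10) * ((1 + δ' / 3) * N) - N = δ' * N * (7 / 30 - δ' / 30) := by ring
        have e3 : 0 ≤ δ' * N * (7 / 30 - δ' / 30) := by
          apply mul_nonneg (by linarith)
          linarith
        linarith
      have e1' : N ≤ s' := by exact_mod_cast e1
      refine ⟨⟨by omega, ?_⟩, ?_⟩
      · apply Nat.le_floor
        push_cast
        have e4 : (s' : ℝ) + 2 ≤ (1 + δ' / 10) * ((1 + δ' / 3) * N + 1) + 2 := by
          have : (1 + δ' / 10) * (X : ℝ) ≤ (1 + δ' / 10) * ((1 + δ' / 3) * N + 1) :=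
            mul_le_mul_of_nonneg_left hX2.le (by linarith)
          linarith
        have e5 : (1 + δ' / 10) * ((1 + δ' / 3) * N + 1) + 2 ≤ (1 + δ') * N := by
          have e6 : (1 + δ' / 10) * ((1 + δ' / 3) * N + 1) + 2 =
              N + δ' * N * (13 / 30 + δ' / 30) + 3 + δ' / 10 := by ring
          have e7 : δ' * N * (13 / 30 + δ' / 30) ≤ δ' * N * (7 / 15) :=
            mul_le_mul_of_nonneg_left (by linarith) (by linarith)
          rw [e6]
          nlinarith
        have e8 : (1 + δ') * (N : ℝ) ≤ (1 + δ) * N :=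
          mul_le_mul_of_nonneg_right (by linarith) (by linarith)
        linarith
      · refine hmono.trans (hs4.trans ?_)
        exact Nat.cast_le.mpr (z3_inj s')

end Pool.Agent.Lib.H16X
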